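import Pool.Agent.HamRed.Base

open MvPolynomial

namespace HamRed

/-- `x` is regular modulo the ideal `J`. -/
def A1_Reg {R : Type*} [CommRing R] (J : Ideal R) (x : R) : Prop := ∀ y, x * y ∈ J → y ∈ J

/-- The ideals `I + (a 0, …, a (n-1))`. -/
def A1_J {R : Type*} [CommRing R] (I : Ideal R) (a : ℕ → R) : ℕ → Ideal R
  | 0 => I
  | n + 1 => A1_J I a n ⊔ Ideal.span {a n}

theorem A1_J_zero {R : Type*} [CommRing R] (I : Ideal R) (a : ℕ → R) : A1_J I a 0 = I := rfl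

theorem A1_J_succ {R : Type*} [CommRing R] (I : Ideal R) (a : ℕ → R) (n : ℕ) :
    A1_J I a (n + 1) = A1_J I a n ⊔ Ideal.span {a n} := rfl

theorem A1_J_sup {R : Type*} [CommRing R] (I K : Ideal R) (a : ℕ → R) (n : ℕ) :
    A1_J (I ⊔ K) a n = A1_J I a n ⊔ K := by
  induction n with
  | zero => rfl
  | succ n ih => rw [A1_J_succ, A1_J_succ, ih, sup_right_comm]

theorem A1_mem_sup {R : Type*} [CommRing R] {J : Ideal R} {a x : R} :
    x ∈ J ⊔ Ideal.span {a} ↔ ∃ j ∈ J, ∃ w, x = j + a * w := by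
  rw [Submodule.mem_sup]
  constructor
  · rintro ⟨j, hj, y, hy, rfl⟩
    rw [Ideal.mem_span_singleton'] at hy
    obtain ⟨w, rfl⟩ := hy
    exact ⟨j, hj, w, by rw [mul_comm]⟩
  · rintro ⟨j, hj, w, rfl⟩
    exact ⟨j, hj, a * w, Ideal.mul_mem_right _ _ (Ideal.mem_span_singleton_self a), rfl⟩

/-- exchange in rank one -/
theorem A1_one {R : Type*} [CommRing R] {Q J : Ideal R} {a b : R} (_ha : a ∈ Q) (hb : b ∈ Q)
    (hra : A1_Reg J a) (hrb : A1_Reg J b)
    (h : ∃ u, u ∉ J ⊔ Ideal.span {a} ∧ ∀ x ∈ Q, x * u ∈ J ⊔ Ideal.span {a}) :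
    ∃ v, v ∉ J ⊔ Ideal.span {b} ∧ ∀ x ∈ Q, x * v ∈ J ⊔ Ideal.span {b} := by
  obtain ⟨u, hu, hQ⟩ := h
  obtain ⟨j, hj, v, hv⟩ := A1_mem_sup.1 (hQ b hb)
  refine ⟨v, ?_, ?_⟩
  · intro hv'
    obtain ⟨j', hj', w, rfl⟩ := A1_mem_sup.1 hv'
    apply hu
    refine A1_mem_sup.2 ⟨u - a * w, hrb _ ?_, w, by ring⟩
    have : b * (u - a * w) = j + a * j' := by linear_combination hv
    rw [this]
    exact J.add_mem hj (J.mul_mem_left _ hj')
  · intro x hx
    obtain ⟨j1, hj1, w, hw⟩ := A1_mem_sup.1 (hQ x hx)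
    refine A1_mem_sup.2 ⟨x * v - b * w, hra _ ?_, w, by ring⟩
    have : a * (x * v - b * w) = b * j1 - x * j := by linear_combination b * hw - x * hv
    rw [this]
    exact J.sub_mem (J.mul_mem_left _ hj1) (J.mul_mem_left _ hj)

/-- swapping a regular element into the base ideal -/
theorem A1_swap {R : Type*} [CommRing R] {J : Ideal R} {a c : R} (ha : A1_Reg J a)
    (hc : A1_Reg (J ⊔ Ideal.span {a}) c) : A1_Reg (J ⊔ Ideal.span {c}) a := by
  intro u hu
  obtain ⟨j, hj, v, hv⟩ := A1_mem_sup.1 hu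
  have h1 : v ∈ J ⊔ Ideal.span {a} := by
    apply hc
    refine A1_mem_sup.2 ⟨-j, J.neg_mem hj, u, ?_⟩
    linear_combination -hv
  obtain ⟨j', hj', w, rfl⟩ := A1_mem_sup.1 h1
  refine A1_mem_sup.2 ⟨u - c * w, ha _ ?_, w, by ring⟩
  have : a * (u - c * w) = j + c * j' := by linear_combination hv
  rw [this]
  exact J.add_mem hj (J.mul_mem_left _ hj')

/-- regular modulo `J` iff outside all associated primes -/
theorem A1_reg_iff {R : Type*} [CommRing R] [IsNoetherianRing R] (J : Ideal R) (x : R) :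
    A1_Reg J x ↔ ∀ P ∈ associatedPrimes R (R ⧸ J), x ∉ P := by
  have h := biUnion_associatedPrimes_eq_zero_divisors R (R ⧸ J)
  have h1 : (∀ P ∈ associatedPrimes R (R ⧸ J), x ∉ P) ↔
      ¬ x ∈ ⋃ p ∈ associatedPrimes R (R ⧸ J), (p : Set R) := by
    simp
  rw [h1, h]
  constructor
  · rintro hx ⟨y, hy, hxy⟩
    obtain ⟨y, rfl⟩ := Ideal.Quotient.mk_surjective y
    apply hy
    rw [Ideal.Quotient.eq_zero_iff_mem]
    apply hx
    rw [← Ideal.Quotient.eq_zero_iff_mem, map_mul]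
    exact hxy
  · intro hx y hy
    by_contra hyJ
    apply hx
    refine ⟨Ideal.Quotient.mk J y, ?_, ?_⟩
    · rwa [Ne, Ideal.Quotient.eq_zero_iff_mem]
    · show Ideal.Quotient.mk J x * Ideal.Quotient.mk J y = 0
      rw [← map_mul, Ideal.Quotient.eq_zero_iff_mem]
      exact hy

/-- prime avoidance: a common regular element -/
theorem A1_avoid {R : Type*} [CommRing R] [IsNoetherianRing R] (Q : Ideal R)
    (S : Set (Ideal R)) (hS : S.Finite) (h : ∀ J ∈ S, ∃ a ∈ Q, A1_Reg J a) :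
    ∃ c ∈ Q, ∀ J ∈ S, A1_Reg J c := by
  have hfin : (⋃ J ∈ S, associatedPrimes R (R ⧸ J)).Finite :=
    hS.biUnion (fun J _ => associatedPrimes.finite R (R ⧸ J))
  by_contra hcon
  push Not at hcon
  have hsub : (Q : Set R) ⊆ ⋃ P ∈ (⋃ J ∈ S, associatedPrimes R (R ⧸ J)), ((id P : Ideal R) : Set R) := by
    intro c hc
    obtain ⟨J, hJ, hcJ⟩ := hcon c hc
    rw [A1_reg_iff] at hcJ
    push Not at hcJ
    obtain ⟨P, hP, hcP⟩ := hcJ
    simp only [Set.mem_iUnion]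
    exact ⟨P, ⟨J, hJ, hP⟩, hcP⟩
  rw [Ideal.subset_union_prime_finite hfin 0 0] at hsub
  · obtain ⟨P, hP, hQP⟩ := hsub
    simp only [Set.mem_iUnion] at hP
    obtain ⟨J, hJ, hP⟩ := hP
    obtain ⟨a, ha, haJ⟩ := h J hJ
    exact (A1_reg_iff J a).1 haJ P hP (hQP ha)
  · intro P hP _ _
    simp only [Set.mem_iUnion] at hP
    obtain ⟨J, hJ, hP⟩ := hP
    exact (AssociatedPrimes.mem_iff.1 hP).isPrime

/-- general exchange -/
theorem A1_gen {R : Type*} [CommRing R] [IsNoetherianRing R] (Q : Ideal R) (r : ℕ) :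
    ∀ (I : Ideal R) (a b : ℕ → R), (∀ i < r, a i ∈ Q) → (∀ i < r, b i ∈ Q) →
    (∀ i < r, A1_Reg (A1_J I a i) (a i)) → (∀ i < r, A1_Reg (A1_J I b i) (b i)) →
    (∃ u, u ∉ A1_J I a r ∧ ∀ x ∈ Q, x * u ∈ A1_J I a r) →
    ∃ v, v ∉ A1_J I b r ∧ ∀ x ∈ Q, x * v ∈ A1_J I b r := by
  induction r with
  | zero =>
    intro I a b _ _ _ _ h
    exact h
  | succ r ih =>
    intro I a b ha hb hra hrb h
    obtain ⟨c, hcQ, hc⟩ := A1_avoid Q ((A1_J I a '' Set.Iic r) ∪ (A1_J I b '' Set.Iic r))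
      (((Set.finite_Iic r).image _).union ((Set.finite_Iic r).image _)) (by
        rintro J (⟨i, hi, rfl⟩ | ⟨i, hi, rfl⟩)
        · exact ⟨a i, ha i (Nat.lt_succ_of_le hi), hra i (Nat.lt_succ_of_le hi)⟩
        · exact ⟨b i, hb i (Nat.lt_succ_of_le hi), hrb i (Nat.lt_succ_of_le hi)⟩)
    have hca : ∀ i ≤ r, A1_Reg (A1_J I a i) c := fun i hi =>
      hc _ (Or.inl ⟨i, hi, rfl⟩)
    have hcb : ∀ i ≤ r, A1_Reg (A1_J I b i) c := fun i hi =>
      hc _ (Or.inr ⟨i, hi, rfl⟩)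
    have h1 := A1_one (ha r (Nat.lt_succ_self r)) hcQ (hra r (Nat.lt_succ_self r))
      (hca r le_rfl) h
    rw [← A1_J_sup] at h1
    have h2 := ih (I ⊔ Ideal.span {c}) a b (fun i hi => ha i (Nat.lt_succ_of_lt hi))
      (fun i hi => hb i (Nat.lt_succ_of_lt hi))
      (fun i hi => by
        rw [A1_J_sup]
        exact A1_swap (hra i (Nat.lt_succ_of_lt hi)) (hca (i + 1) hi))
      (fun i hi => by
        rw [A1_J_sup]
        exact A1_swap (hrb i (Nat.lt_succ_of_lt hi)) (hcb (i + 1) hi)) h1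
    rw [A1_J_sup] at h2
    exact A1_one hcQ (hb r (Nat.lt_succ_self r)) (hcb r le_rfl) (hrb r (Nat.lt_succ_self r)) h2

theorem A1_J_ofList {R : Type*} [CommRing R] (as : List R) (i : ℕ) (hi : i ≤ as.length) :
    A1_J ⊥ (fun i => as.getD i 0) i = Ideal.ofList (as.take i) := by
  induction i with
  | zero => rw [A1_J_zero, List.take_zero, Ideal.ofList_nil]
  | succ i ih =>
    have hi' : i < as.length := hi
    rw [A1_J_succ, ih hi'.le, List.take_succ_eq_append_getElem hi', Ideal.ofList_append,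
      Ideal.ofList_singleton, List.getD_eq_getElem _ _ hi']

theorem A1_reg_ofList {R : Type*} [CommRing R] (as : List R) :
    RingTheory.Sequence.IsWeaklyRegular R as ↔
      ∀ i < as.length, A1_Reg (A1_J ⊥ (fun i => as.getD i 0) i) (as.getD i 0) := by
  rw [RingTheory.Sequence.isWeaklyRegular_iff]
  refine forall_congr' (fun i => forall_congr' (fun hi => ?_))
  rw [A1_J_ofList as i hi.le, List.getD_eq_getElem _ _ hi]
  have h : (Ideal.ofList (as.take i) • ⊤ : Submodule R R) = Ideal.ofList (as.take i) := by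
    rw [smul_eq_mul, Ideal.mul_top]
  rw [h, isSMulRegular_iff_right_eq_zero_of_smul]
  constructor
  · intro H y hy
    have := H (Ideal.Quotient.mk _ y) (by
      show Ideal.Quotient.mk _ as[i] * Ideal.Quotient.mk _ y = 0
      rw [← map_mul, Ideal.Quotient.eq_zero_iff_mem]
      exact hy)
    rwa [Ideal.Quotient.eq_zero_iff_mem] at this
  · intro H y hy
    obtain ⟨y, rfl⟩ := Ideal.Quotient.mk_surjective y
    have hy' : Ideal.Quotient.mk (Ideal.ofList (as.take i)) (as[i] * y) = 0 := by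
      rw [map_mul]
      exact hy
    rw [Ideal.Quotient.eq_zero_iff_mem] at hy' ⊢
    exact H y hy'

/-- A1 (exchange). -/
theorem A1_exchange {R : Type*} [CommRing R] [IsNoetherianRing R] (Q : Ideal R) (as bs : List R)
    (ha : ∀ x ∈ as, x ∈ Q) (hb : ∀ x ∈ bs, x ∈ Q)
    (hra : RingTheory.Sequence.IsWeaklyRegular R as)
    (hrb : RingTheory.Sequence.IsWeaklyRegular R bs) (hlen : as.length = bs.length)
    (h : ∃ u, u ∉ Ideal.ofList as ∧ ∀ x ∈ Q, x * u ∈ Ideal.ofList as) :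
    ∃ v, v ∉ Ideal.ofList bs ∧ ∀ x ∈ Q, x * v ∈ Ideal.ofList bs := by
  have h1 : A1_J ⊥ (fun i => as.getD i 0) as.length = Ideal.ofList as := by
    rw [A1_J_ofList as _ le_rfl, List.take_length]
  have h2 : A1_J ⊥ (fun i => bs.getD i 0) as.length = Ideal.ofList bs := by
    rw [hlen, A1_J_ofList bs _ le_rfl, List.take_length]
  rw [← h1] at h
  rw [← h2]
  refine A1_gen Q as.length ⊥ _ _ ?_ ?_ ((A1_reg_ofList as).1 hra) ?_ h
  · intro i hi
    show as.getD i 0 ∈ Q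
    rw [List.getD_eq_getElem _ _ hi]
    exact ha _ (List.getElem_mem hi)
  · intro i hi
    show bs.getD i 0 ∈ Q
    rw [hlen] at hi
    rw [List.getD_eq_getElem _ _ hi]
    exact hb _ (List.getElem_mem hi)
  · rw [hlen]
    exact (A1_reg_ofList bs).1 hrb

end HamRed
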