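import Pool.Agent.HamRed.Base
import Pool.Agent.HamRed.A1

open MvPolynomial

namespace HamRed

theorem A2_J_eq {R : Type*} [CommRing R] (f : ℕ → R) (i : ℕ) :
    A1_J ⊥ f i = Ideal.span (f '' {j | j < i}) := by
  induction i with
  | zero => simp [A1_J_zero]
  | succ i ih =>
    rw [A1_J_succ, ih, ← Ideal.span_union]
    congr 1
    ext x
    simp only [Set.mem_union, Set.mem_image, Set.mem_ofPred_eq, Set.mem_singleton_iff]
    constructor
    · rintro (⟨j, hj, rfl⟩ | rfl)
      · exact ⟨j, by omega, rfl⟩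
      · exact ⟨i, by omega, rfl⟩
    · rintro ⟨j, hj, rfl⟩
      rcases Nat.lt_succ_iff_lt_or_eq.1 hj with h | rfl
      · exact Or.inl ⟨j, h, rfl⟩
      · exact Or.inr rfl

/-- associated primes of a weakly regular sequence of length `i` have height at most `i` -/
theorem A2_height_le {R : Type*} [CommRing R] [IsNoetherianRing R] (h : GradeGE R)
    (f : ℕ → R) (i : ℕ) (hreg : ∀ j < i, A1_Reg (A1_J ⊥ f j) (f j)) (Q : Ideal R)
    (hQ : Q ∈ associatedPrimes R (R ⧸ A1_J ⊥ f i)) : Q.height ≤ (i : ℕ∞) := by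
  rw [AssociatedPrimes.mem_iff, isAssociatedPrime_iff] at hQ
  obtain ⟨hQp, u, hu⟩ := hQ
  obtain ⟨u, rfl⟩ := Ideal.Quotient.mk_surjective u
  have hmem : ∀ x, x ∈ Q ↔ x * u ∈ A1_J ⊥ f i := by
    intro x
    rw [hu, Submodule.mem_colon_singleton, Submodule.mem_bot, ← Ideal.Quotient.eq_zero_iff_mem,
      map_mul]
    exact Iff.rfl
  by_contra hlt
  rw [not_le] at hlt
  obtain ⟨rs, hrs, hw, hlen⟩ := h Q hQp
  have hi : i < rs.length := by exact_mod_cast lt_of_lt_of_le hlt hlen
  rw [A1_reg_ofList] at hw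
  have hb : ∀ j < rs.length, rs.getD j 0 ∈ Q := by
    intro j hj
    rw [List.getD_eq_getElem _ _ hj]
    exact hrs _ (List.getElem_mem hj)
  have hle : ∀ j ≤ i, A1_J ⊥ f j ≤ A1_J ⊥ f i := by
    intro j hj
    rw [A2_J_eq, A2_J_eq]
    exact Ideal.span_mono (Set.image_mono (fun k (hk : k < j) => lt_of_lt_of_le hk hj))
  have ha : ∀ j < i, f j ∈ Q := by
    intro j hj
    rw [hmem]
    refine Ideal.mul_mem_right _ _ ?_
    refine hle (j + 1) hj ?_
    rw [A1_J_succ]
    exact Ideal.mem_sup_right (Ideal.mem_span_singleton_self _)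
  obtain ⟨v, hv, hQv⟩ := A1_gen Q i ⊥ f (fun j => rs.getD j 0) ha
    (fun j hj => hb j (hj.trans hi)) hreg (fun j hj => hw j (hj.trans hi)) (by
      refine ⟨u, ?_, fun x hx => (hmem x).1 hx⟩
      intro hu'
      apply hQp.ne_top
      rw [Ideal.eq_top_iff_one, hmem, one_mul]
      exact hu')
  exact hv (hw i hi v (hQv _ (hb i hi)))

/-- A2 (uses A1). -/
theorem A2_unmixed_of_grade {R : Type*} [CommRing R] [IsNoetherianRing R] (h : GradeGE R) :
    Unmixed R := by
  intro r f hf
  have key : ∀ i ≤ r, ∀ j < i, A1_Reg (A1_J ⊥ f j) (f j) := by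
    intro i
    induction i with
    | zero =>
      intro _ j hj
      exact absurd hj (Nat.not_lt_zero j)
    | succ i ih =>
      intro hi j hj
      have hi' : i ≤ r := (Nat.lt_of_succ_le hi).le
      rcases Nat.lt_succ_iff_lt_or_eq.1 hj with hj | rfl
      · exact ih hi' j hj
      rw [A1_reg_iff]
      intro P hP hfP
      have h1 := A2_height_le h f j (ih hi') P hP
      have h2 : A1_J ⊥ f (j + 1) ≤ P := by
        rw [A1_J_succ]
        refine sup_le ?_ ?_
        · have h3 := (AssociatedPrimes.mem_iff.1 hP).annihilator_le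
          refine le_trans ?_ h3
          intro x hx
          rw [Submodule.mem_annihilator]
          intro y _
          obtain ⟨y, rfl⟩ := Ideal.Quotient.mk_surjective y
          show Ideal.Quotient.mk _ x * Ideal.Quotient.mk _ y = 0
          rw [← map_mul, Ideal.Quotient.eq_zero_iff_mem]
          exact Ideal.mul_mem_right _ _ hx
        · rw [Ideal.span_singleton_le_iff_mem]
          exact hfP
      have h3 := hf (j + 1) hi
      rw [← A2_J_eq] at h3
      have h4 := (h3.trans (Ideal.height_mono h2)).trans h1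
      have h5 : j + 1 ≤ j := by exact_mod_cast h4
      omega
  intro Q hQ
  rw [← A2_J_eq] at hQ
  exact A2_height_le h f r (key r le_rfl) Q hQ

end HamRed
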