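import Pool.Agent.HamRed.Base
import Pool.Agent.HamRed.A2

open MvPolynomial

namespace HamRed

section

variable {R : Type*} [CommRing R]

theorem A3_J_C (a : ℕ → R) (i : ℕ) :
    A1_J (⊥ : Ideal (Polynomial R)) (fun j => Polynomial.C (a j)) i =
      Ideal.map Polynomial.C (A1_J ⊥ a i) := by
  induction i with
  | zero => rw [A1_J_zero, A1_J_zero, Ideal.map_bot]
  | succ i ih =>
    rw [A1_J_succ, A1_J_succ, Ideal.map_sup, Ideal.map_span, Set.image_singleton, ih]

theorem A3_reg_C {J : Ideal R} {x : R} (h : A1_Reg J x) :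
    A1_Reg (J.map Polynomial.C) (Polynomial.C x) := by
  intro y hy
  rw [Ideal.mem_map_C_iff] at hy ⊢
  intro n
  apply h
  have := hy n
  rwa [Polynomial.coeff_C_mul] at this

theorem A3_height_map_C [IsNoetherianRing R] (p : Ideal R) [p.IsPrime] :
    (p.map Polynomial.C).height = p.height := by
  have : (p.map (Polynomial.C : R →+* Polynomial R)).LiesOver p := ⟨by
    refine le_antisymm Ideal.le_comap_map ?_
    intro x hx
    have hx' : Polynomial.C x ∈ p.map (Polynomial.C : R →+* Polynomial R) := hx
    rw [Ideal.mem_map_C_iff] at hx'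
    simpa using hx' 0⟩
  have h2 := Ideal.height_eq_height_add_of_liesOver_of_hasGoingDown p
    (p.map (Polynomial.C : R →+* Polynomial R))
  rw [h2]
  have h3 : (Ideal.map (Ideal.Quotient.mk (Ideal.map (algebraMap R (Polynomial R)) p))
    (Ideal.map Polynomial.C p)) = ⊥ := by
    rw [← Polynomial.algebraMap_eq]
    exact Ideal.map_quotient_self _
  have hp : (Ideal.map (algebraMap R (Polynomial R)) p).IsPrime := by
    rw [Polynomial.algebraMap_eq]
    infer_instance
  rw [h3, Ideal.height_bot, add_zero]

attribute [local instance] Polynomial.algebra Polynomial.isLocalization in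
/-- a prime of `A[X]`, `A` a domain, meeting `A` in `0` has height at most one. -/
theorem A3_height_le_one {A : Type*} [CommRing A] [IsDomain A] (q : Ideal (Polynomial A))
    [q.IsPrime] (h : ∀ a : A, Polynomial.C a ∈ q → a = 0) : q.height ≤ 1 := by
  let K := FractionRing A
  have hdisj : Disjoint (((nonZeroDivisors A).map (Polynomial.C : A →+* Polynomial A) :
      Submonoid (Polynomial A)) : Set (Polynomial A)) (q : Set (Polynomial A)) := by
    rw [Set.disjoint_left]
    rintro _ ⟨a, ha, rfl⟩ haq
    exact nonZeroDivisors.ne_zero ha (h a haq)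
  have h1 := IsLocalization.height_map_of_disjoint (S := Polynomial K)
    ((nonZeroDivisors A).map (Polynomial.C : A →+* Polynomial A)) q hdisj
  rw [← h1]
  have hprime : (q.map (algebraMap (Polynomial A) (Polynomial K))).IsPrime :=
    IsLocalization.isPrime_of_isPrime_disjoint _ _ q inferInstance hdisj
  have h2 := Ideal.height_le_ringKrullDim_of_isPrime
    (I := q.map (algebraMap (Polynomial A) (Polynomial K)))
  have h3 : ringKrullDim (Polynomial K) ≤ 1 := by
    rw [Polynomial.ringKrullDim_of_isNoetherianRing, ringKrullDim_eq_zero_of_field, zero_add]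
  exact_mod_cast h2.trans h3

theorem A3_height_le [IsNoetherianRing R] (Q : Ideal (Polynomial R)) [Q.IsPrime] :
    Q.height ≤ (Q.comap Polynomial.C).height + 1 := by
  set P := Q.comap (Polynomial.C : R →+* Polynomial R) with hP
  have : Q.LiesOver P := ⟨rfl⟩
  have h1 := Ideal.height_le_height_add_of_liesOver P Q
  refine h1.trans (add_le_add le_rfl ?_)
  rw [Polynomial.algebraMap_eq]
  have hle : P.map Polynomial.C ≤ Q := Ideal.map_comap_le
  let e := (P.polynomialQuotientEquivQuotientPolynomial).symm
  rw [← e.height_map]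
  set φ : Polynomial R →+* Polynomial (R ⧸ P) :=
    (e : Polynomial R ⧸ Ideal.map Polynomial.C P →+* Polynomial (R ⧸ P)).comp
      (Ideal.Quotient.mk _) with hφ
  have hφ' : ∀ f, φ f = f.map (Ideal.Quotient.mk P) := fun f =>
    Ideal.polynomialQuotientEquivQuotientPolynomial_symm_mk P f
  have hsurj : Function.Surjective φ := e.surjective.comp Ideal.Quotient.mk_surjective
  have hker : RingHom.ker φ ≤ Q := by
    intro f hf
    apply hle
    rw [RingHom.mem_ker] at hf
    have hf' : e (Ideal.Quotient.mk _ f) = 0 := hf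
    rw [map_eq_zero_iff _ e.injective, Ideal.Quotient.eq_zero_iff_mem] at hf'
    exact hf'
  have hprime : (Q.map φ).IsPrime := Ideal.map_isPrime_of_surjective hsurj hker
  have hmm : Ideal.map e (Ideal.map (Ideal.Quotient.mk (Ideal.map Polynomial.C P)) Q) =
      Q.map φ := Ideal.map_map (Ideal.Quotient.mk (Ideal.map Polynomial.C P))
        (e : Polynomial R ⧸ Ideal.map Polynomial.C P →+* Polynomial (R ⧸ P))
  rw [hmm]
  refine A3_height_le_one _ ?_
  intro a ha
  obtain ⟨a, rfl⟩ := Ideal.Quotient.mk_surjective a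
  rw [Ideal.Quotient.eq_zero_iff_mem]
  have h2 : Polynomial.C a ∈ (Q.map φ).comap φ := by
    rw [Ideal.mem_comap, hφ', Polynomial.map_C]
    exact ha
  rw [Ideal.comap_map_of_surjective φ hsurj] at h2
  have h3 : Q ⊔ Ideal.comap φ ⊥ ≤ Q := sup_le le_rfl hker
  exact h3 h2

/-- an element outside all `P_i[X]` is regular. -/
theorem A3_reg_of_notMem [IsNoetherianRing R] (J : Ideal R) (g : Polynomial R)
    (hg : ∀ P ∈ associatedPrimes R (R ⧸ J), g ∉ P.map Polynomial.C) :
    A1_Reg (J.map Polynomial.C) g := by
  intro p hp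
  by_contra hpJ
  have h1 : g.map (Ideal.Quotient.mk J) ∉ nonZeroDivisors (Polynomial (R ⧸ J)) := by
    intro hcon
    have h2 : g.map (Ideal.Quotient.mk J) * p.map (Ideal.Quotient.mk J) = 0 := by
      rw [← Polynomial.map_mul]
      ext n
      rw [Polynomial.coeff_map, Polynomial.coeff_zero, Ideal.Quotient.eq_zero_iff_mem]
      exact (Ideal.mem_map_C_iff.1 hp) n
    have h3 := (mul_left_mem_nonZeroDivisors_eq_zero_iff hcon).1 h2
    apply hpJ
    rw [Ideal.mem_map_C_iff]
    intro n
    rw [← Ideal.Quotient.eq_zero_iff_mem, ← Polynomial.coeff_map, h3, Polynomial.coeff_zero]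
  rw [Polynomial.notMem_nonZeroDivisors_iff] at h1
  obtain ⟨r, hr, hrg⟩ := h1
  obtain ⟨P, hP, hle⟩ := exists_le_isAssociatedPrime_of_isNoetherianRing R r hr
  apply hg P hP
  rw [Ideal.mem_map_C_iff]
  intro n
  apply hle
  rw [Submodule.mem_colon_singleton, Submodule.mem_bot]
  have h4 := congrArg (fun q => Polynomial.coeff q n) hrg
  simp only [Polynomial.coeff_smul, Polynomial.coeff_map, Polynomial.coeff_zero,
    smul_eq_mul] at h4
  show Ideal.Quotient.mk J (g.coeff n) * r = 0
  rw [mul_comm]
  exact h4

end

/-- A3 (uses A2 for `R`). -/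
theorem A3_grade_polynomial {R : Type*} [CommRing R] [IsNoetherianRing R] (h : GradeGE R)
    (_h' : Unmixed R) : GradeGE (Polynomial R) := by
  intro Q hQ
  set P := Q.comap (Polynomial.C : R →+* Polynomial R) with hP
  have hPp : P.IsPrime := Ideal.comap_isPrime _ _
  obtain ⟨rs, hrs, hw, hlen⟩ := h P hPp
  have hfin : P.height ≠ ⊤ := Ideal.height_ne_top_of_isPrime
  obtain ⟨n, hn⟩ := ENat.ne_top_iff_exists.1 hfin
  have hnlen : n ≤ rs.length := by
    rw [← hn] at hlen
    exact_mod_cast hlen
  rw [A1_reg_ofList] at hw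
  set a : ℕ → R := fun i => rs.getD i 0 with ha
  have haP : ∀ j < n, a j ∈ P := by
    intro j hj
    have hj' : j < rs.length := lt_of_lt_of_le hj hnlen
    rw [ha]
    show rs.getD j 0 ∈ P
    rw [List.getD_eq_getElem _ _ hj']
    exact hrs _ (List.getElem_mem hj')
  have hreg : ∀ j < n, A1_Reg (A1_J ⊥ a j) (a j) := fun j hj => hw j (lt_of_lt_of_le hj hnlen)
  have hregC : ∀ j < n, A1_Reg (A1_J ⊥ (fun j => Polynomial.C (a j)) j) (Polynomial.C (a j)) := by
    intro j hj
    rw [A3_J_C]
    exact A3_reg_C (hreg j hj)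
  -- lists from sequences
  have hlist : ∀ (m : ℕ) (b : ℕ → Polynomial R), (∀ j < m, b j ∈ Q) →
      (∀ j < m, A1_Reg (A1_J ⊥ b j) (b j)) → Q.height ≤ (m : ℕ∞) →
      ∃ rs : List (Polynomial R), (∀ x ∈ rs, x ∈ Q) ∧
        RingTheory.Sequence.IsWeaklyRegular (Polynomial R) rs ∧ Q.height ≤ (rs.length : ℕ∞) := by
    intro m b hb hr hm
    refine ⟨(List.range m).map b, ?_, ?_, ?_⟩
    · intro x hx
      rw [List.mem_map] at hx
      obtain ⟨j, hj, rfl⟩ := hx
      exact hb j (List.mem_range.1 hj)
    · rw [A1_reg_ofList]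
      intro i hi
      rw [List.length_map, List.length_range] at hi
      have hJ : ∀ i ≤ m, A1_J ⊥ (fun i => ((List.range m).map b).getD i 0) i = A1_J ⊥ b i := by
        intro i hi
        induction i with
        | zero => rfl
        | succ i ih =>
          rw [A1_J_succ, A1_J_succ, ih (by omega)]
          congr 3
          rw [List.getD_eq_getElem _ _ (by simpa using hi)]
          simp
      rw [hJ i hi.le]
      have h1 : ((List.range m).map b).getD i 0 = b i := by
        rw [List.getD_eq_getElem _ _ (by simpa using hi)]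
        simp
      rw [h1]
      exact hr i hi
    · rwa [List.length_map, List.length_range]
  by_cases hcase : Q = P.map Polynomial.C
  · refine hlist n (fun j => Polynomial.C (a j)) (fun j hj => haP j hj) hregC ?_
    rw [hcase, A3_height_map_C, hn]
  · -- prime avoidance
    have hne : ∀ P' ∈ associatedPrimes R (R ⧸ A1_J ⊥ a n), ¬ Q ≤ P'.map Polynomial.C := by
      intro P' hP' hle
      have hP'p : P'.IsPrime := (AssociatedPrimes.mem_iff.1 hP').isPrime
      have h1 : P ≤ P' := by
        intro x hx
        have hx' : Polynomial.C x ∈ P'.map (Polynomial.C : R →+* Polynomial R) := hle hx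
        rw [Ideal.mem_map_C_iff] at hx'
        simpa using hx' 0
      have h2 := A2_height_le h a n hreg P' hP'
      rw [hn] at h2
      have h3 := Ideal.eq_of_le_of_height_le P h1 h2
      apply hcase
      refine le_antisymm ?_ Ideal.map_comap_le
      rw [h3]
      exact hle
    obtain ⟨g, hgQ, hg⟩ : ∃ g ∈ Q, ∀ P' ∈ associatedPrimes R (R ⧸ A1_J ⊥ a n),
        g ∉ P'.map Polynomial.C := by
      by_contra hcon
      push Not at hcon
      have hsub : (Q : Set (Polynomial R)) ⊆ ⋃ P' ∈ associatedPrimes R (R ⧸ A1_J ⊥ a n),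
          ((P'.map Polynomial.C : Ideal (Polynomial R)) : Set (Polynomial R)) := by
        intro g hg
        obtain ⟨P', hP', h1⟩ := hcon g hg
        simp only [Set.mem_iUnion]
        exact ⟨P', hP', h1⟩
      rw [Ideal.subset_union_prime_finite (associatedPrimes.finite R _) 0 0] at hsub
      · obtain ⟨P', hP', hle⟩ := hsub
        exact hne P' hP' hle
      · intro P' hP' _ _
        have : P'.IsPrime := (AssociatedPrimes.mem_iff.1 hP').isPrime
        infer_instance
    have hgreg := A3_reg_of_notMem _ g hg
    rw [← A3_J_C] at hgreg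
    have hJ : ∀ i ≤ n, A1_J ⊥ (fun j => if j < n then Polynomial.C (a j) else g) i =
        A1_J ⊥ (fun j => Polynomial.C (a j)) i := by
      intro i hi
      induction i with
      | zero => rfl
      | succ i ih =>
        rw [A1_J_succ, A1_J_succ, ih (by omega), if_pos (by omega)]
    refine hlist (n + 1) (fun j => if j < n then Polynomial.C (a j) else g) ?_ ?_ ?_
    · intro j _
      show (if j < n then Polynomial.C (a j) else g) ∈ Q
      split_ifs with hj
      · exact haP j hj
      · exact hgQ
    · intro j hj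
      rw [hJ j (by omega)]
      by_cases hj' : j < n
      · simp only [if_pos hj']
        exact hregC j hj'
      · have : j = n := by omega
        subst this
        simp only [lt_irrefl, if_false]
        exact hgreg
    · refine (A3_height_le Q).trans ?_
      rw [← hP, ← hn]
      push_cast
      exact le_rfl

end HamRed
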