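import Pool.Agent.HamRed.Base
import Pool.Agent.HamRed.A2
import Pool.Agent.HamRed.A3

open MvPolynomial

namespace HamRed

theorem A4_grade_equiv {R S : Type*} [CommRing R] [CommRing S] (e : R ≃+* S) (h : GradeGE R) :
    GradeGE S := by
  intro Q hQ
  have hmap : ∀ (J : Ideal R) (y : S), y ∈ J.map e ↔ e.symm y ∈ J := by
    intro J y
    have h1 : J.map e = J.comap e.symm := (Ideal.comap_symm e).symm
    rw [h1]
    exact Iff.rfl
  obtain ⟨rs, hrs, hw, hlen⟩ := h (Q.comap e) (Ideal.comap_isPrime _ _)
  rw [A1_reg_ofList] at hw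
  refine ⟨rs.map e, ?_, ?_, ?_⟩
  · intro x hx
    rw [List.mem_map] at hx
    obtain ⟨y, hy, rfl⟩ := hx
    exact hrs y hy
  · rw [A1_reg_ofList]
    intro i hi
    rw [List.length_map] at hi
    have hget : ∀ j < rs.length, (rs.map e).getD j 0 = e (rs.getD j 0) := by
      intro j hj
      rw [List.getD_eq_getElem _ _ (by simpa using hj), List.getD_eq_getElem _ _ hj]
      simp
    have hJ : ∀ j ≤ rs.length, A1_J ⊥ (fun j => (rs.map e).getD j 0) j =
        (A1_J ⊥ (fun j => rs.getD j 0) j).map e := by
      intro j hj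
      induction j with
      | zero => rw [A1_J_zero, A1_J_zero, Ideal.map_bot]
      | succ j ih =>
        rw [A1_J_succ, A1_J_succ, Ideal.map_sup, Ideal.map_span, Set.image_singleton, ih (by omega),
          hget j (by omega)]
    rw [hJ i hi.le, hget i hi]
    intro y hy
    rw [hmap] at hy ⊢
    apply hw i hi
    rwa [map_mul, RingEquiv.symm_apply_apply] at hy
  · rw [List.length_map]
    refine le_trans (le_of_eq ?_) hlen
    exact (e.height_comap Q).symm

theorem A4_grade_field {k : Type*} [Field k] : GradeGE k := by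
  intro Q hQ
  have h : Q = ⊥ := (Ideal.eq_bot_or_top Q).resolve_right hQ.ne_top
  refine ⟨[], by simp, RingTheory.Sequence.IsWeaklyRegular.nil k k, ?_⟩
  rw [h, Ideal.height_bot]
  exact bot_le

theorem A4_grade_mv {k : Type*} [Field k] (σ : Type*) [Finite σ] :
    GradeGE (MvPolynomial σ k) := by
  induction σ using Finite.induction_empty_option with
  | of_equiv e h => exact A4_grade_equiv (MvPolynomial.renameEquiv k e).toRingEquiv h
  | h_empty => exact A4_grade_equiv (MvPolynomial.isEmptyRingEquiv k PEmpty).symm A4_grade_field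
  | h_option h =>
    exact A4_grade_equiv (MvPolynomial.optionEquivLeft k _).symm.toRingEquiv
      (A3_grade_polynomial h (A2_unmixed_of_grade h))

/-- A4 : transport to multivariate polynomial rings over a field (uses A2, A3). -/
theorem A4_unmixed {k : Type*} [Field k] {σ : Type*} [Finite σ] {R : Type*} [CommRing R]
    (e : R ≃+* MvPolynomial σ k) : Unmixed R := by
  have hN : IsNoetherianRing R := isNoetherianRing_of_ringEquiv _ e.symm
  exact A2_unmixed_of_grade (A4_grade_equiv e.symm (A4_grade_mv σ))

end HamRed
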