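import Pool.Agent.HamRed.Base

/-! Elimination for a system of linear equations with a nonvanishing maximal minor
(used for B3 and B6). -/

open MvPolynomial

namespace HamRed

namespace B3

variable {A : Type*} [CommRing A] {n d : ℕ}

/-- The free variables. -/
abbrev Free (f : Fin d → Fin n) : Type := {j : Fin n // j ∉ Set.range f}

noncomputable instance (f : Fin d → Fin n) : Fintype (Free f) := Fintype.ofFinite _

/-- The right hand side of the `i`-th equation. -/
noncomputable def res (M : Matrix (Fin d) (Fin n) A) (c : Fin d → A) (e : Fin d → Fin d)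
    (f : Fin d → Fin n) (i : Fin d) : MvPolynomial (Free f) A :=
  C (c (e i)) - ∑ j : Free f, C (M (e i) j.1) * X j

/-- Splitting a sum over all variables. -/
theorem sum_split {B : Type*} [AddCommMonoid B] (f : Fin d → Fin n) (hf : Function.Injective f)
    (F : Fin n → B) : ∑ j, F j = ∑ l, F (f l) + ∑ j : Free f, F j.1 := by
  classical
  have h2 := Fintype.sum_subtype_add_sum_subtype (fun j : Fin n => j ∈ Set.range f) F
  have h1 : ∑ l, F (f l) = ∑ j : {j // j ∈ Set.range f}, F j.1 :=
    Fintype.sum_equiv (Equiv.ofInjective f hf) _ _ (fun l => rfl)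
  have h3 : ∑ j : Free f, F j.1 = ∑ j : {j // ¬ j ∈ Set.range f}, F j.1 :=
    Fintype.sum_equiv (Equiv.refl _) _ _ (fun l => rfl)
  rw [h1, h3, ← h2]
  exact congrArg₂ (· + ·) (Finset.sum_congr (by ext x; simp) fun _ _ => rfl)
    (Finset.sum_congr (by ext x; simp) fun _ _ => rfl)

theorem f_inj {M : Matrix (Fin d) (Fin n) A} {e : Fin d → Fin d} {f : Fin d → Fin n}
    (h : (M.submatrix e f).det ≠ 0) : Function.Injective f := by
  intro a b hab
  by_contra hne
  apply h
  apply Matrix.det_zero_of_column_eq hne
  intro k
  simp [hab]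

theorem e_bij {M : Matrix (Fin d) (Fin n) A} {e : Fin d → Fin d} {f : Fin d → Fin n}
    (h : (M.submatrix e f).det ≠ 0) : Function.Bijective e := by
  rw [Fintype.bijective_iff_injective_and_card]
  refine ⟨?_, rfl⟩
  intro a b hab
  by_contra hne
  apply h
  apply Matrix.det_zero_of_row_eq hne
  funext k
  simp [hab]

section Hom

variable (k : Type*) [Field k] [Algebra A k]

/-- The solution of the system. -/
noncomputable def sol (M : Matrix (Fin d) (Fin n) A) (c : Fin d → A) (e : Fin d → Fin d)
    (f : Fin d → Fin n) (l : Fin d) : MvPolynomial (Free f) k :=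
  ∑ i, C ((((M.submatrix e f).map (algebraMap A k))⁻¹) l i) *
    map (algebraMap A k) (res M c e f i)

open Classical in
/-- The elimination homomorphism. -/
noncomputable def psi (M : Matrix (Fin d) (Fin n) A) (c : Fin d → A) (e : Fin d → Fin d)
    (f : Fin d → Fin n) : MvPolynomial (Fin n) A →+* MvPolynomial (Free f) k :=
  eval₂Hom ((C : k →+* MvPolynomial (Free f) k).comp (algebraMap A k))
    (fun j => if h : j ∈ Set.range f then sol k M c e f h.choose else X ⟨j, h⟩)

variable {k}
variable {M : Matrix (Fin d) (Fin n) A} {c : Fin d → A} {e : Fin d → Fin d} {f : Fin d → Fin n}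

theorem psi_C (a : A) : psi k M c e f (C a) = C (algebraMap A k a) := by
  simp [psi]

theorem psi_X_f (hf : Function.Injective f) (l : Fin d) :
    psi k M c e f (X (f l)) = sol k M c e f l := by
  have h : f l ∈ Set.range f := ⟨l, rfl⟩
  have h2 : h.choose = l := hf h.choose_spec
  simp only [psi, coe_eval₂Hom, eval₂_X]
  rw [dif_pos h, h2]

theorem psi_X_free (j : Free f) : psi k M c e f (X j.1) = X j := by
  simp only [psi, coe_eval₂Hom, eval₂_X]
  rw [dif_neg j.2]

theorem psi_rename (y : MvPolynomial (Free f) A) :
    psi k M c e f (rename Subtype.val y) = map (algebraMap A k) y := by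
  induction y using MvPolynomial.induction_on with
  | C a => simp [psi_C]
  | add p q hp hq => simp [hp, hq]
  | mul_X p j hp => simp [hp, psi_X_free]

theorem psi_lin (h : algebraMap A k (M.submatrix e f).det ≠ 0) (i : Fin d) :
    psi k M c e f (lin M c i) = 0 := by
  have h' : (M.submatrix e f).det ≠ 0 := by
    intro h0; exact h (by rw [h0, map_zero])
  have hf := f_inj h'
  obtain ⟨i', rfl⟩ := (e_bij h').2 i
  have hN : IsUnit ((M.submatrix e f).map (algebraMap A k)).det := by
    rw [← RingHom.mapMatrix_apply, ← RingHom.map_det]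
    exact isUnit_iff_ne_zero.2 h
  rw [lin, map_sub, map_sum]
  simp only [map_mul, psi_C]
  rw [sum_split f hf]
  simp only [psi_X_f hf, psi_X_free, sol]
  have h1 : ∑ l, (C (algebraMap A k (M (e i') (f l))) : MvPolynomial (Free f) k) *
      ∑ i, C ((((M.submatrix e f).map (algebraMap A k))⁻¹) l i) *
        map (algebraMap A k) (res M c e f i) = map (algebraMap A k) (res M c e f i') := by
    have h2 : ∀ i, ∑ l, (C (algebraMap A k (M (e i') (f l))) : MvPolynomial (Free f) k) *
        C ((((M.submatrix e f).map (algebraMap A k))⁻¹) l i) = if i' = i then 1 else 0 := by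
      intro i
      have h3 := Matrix.mul_nonsing_inv _ hN
      have h4 := congrFun (congrFun h3 i') i
      rw [Matrix.mul_apply, Matrix.one_apply] at h4
      have h5 := congrArg (C : k → MvPolynomial (Free f) k) h4
      rw [map_sum] at h5
      simp only [Matrix.map_apply, Matrix.submatrix_apply, map_mul] at h5
      rw [h5]
      split_ifs <;> simp
    calc _ = ∑ i, (∑ l, (C (algebraMap A k (M (e i') (f l))) : MvPolynomial (Free f) k) *
        C ((((M.submatrix e f).map (algebraMap A k))⁻¹) l i)) *
          map (algebraMap A k) (res M c e f i) := by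
          simp only [Finset.mul_sum, Finset.sum_mul]
          rw [Finset.sum_comm]
          refine Finset.sum_congr rfl (fun i _ => Finset.sum_congr rfl (fun l _ => ?_))
          ring
      _ = _ := by simp only [h2]; simp
  rw [h1, res]
  simp only [map_sub, map_sum, map_mul, map_C, map_X]
  ring

theorem psi_linIdeal (h : algebraMap A k (M.submatrix e f).det ≠ 0)
    {x : MvPolynomial (Fin n) A} (hx : x ∈ linIdeal M c) : psi k M c e f x = 0 := by
  have h1 : linIdeal M c ≤ RingHom.ker (psi k M c e f) := by
    rw [linIdeal, Ideal.span_le]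
    rintro _ ⟨i, rfl⟩
    exact psi_lin h i
  exact h1 hx

end Hom

section Claim

variable {M : Matrix (Fin d) (Fin n) A} {c : Fin d → A} {e : Fin d → Fin d} {f : Fin d → Fin n}

theorem det_mul_X (hf : Function.Injective f) (l : Fin d) :
    C (M.submatrix e f).det * X (f l) - rename Subtype.val
      (∑ i, C ((M.submatrix e f).adjugate l i) * res M c e f i) ∈ linIdeal M c := by
  have h1 : C (M.submatrix e f).det * X (f l) - rename Subtype.val
      (∑ i, C ((M.submatrix e f).adjugate l i) * res M c e f i) =
      ∑ i, C ((M.submatrix e f).adjugate l i) * lin M c (e i) := by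
    have h2 : ∀ i, lin M c (e i) = ∑ l', (C (M (e i) (f l')) : MvPolynomial (Fin n) A) * X (f l') -
        rename Subtype.val (res M c e f i) := by
      intro i
      rw [lin, sum_split f hf, res]
      simp only [map_sub, map_sum, map_mul, rename_C, rename_X]
      ring
    simp only [h2, mul_sub, Finset.sum_sub_distrib]
    congr 1
    · have h3 : ∀ l', ∑ i, (C ((M.submatrix e f).adjugate l i) : MvPolynomial (Fin n) A) *
          C (M (e i) (f l')) = if l = l' then C (M.submatrix e f).det else 0 := by
        intro l'
        have h4 := congrFun (congrFun (Matrix.adjugate_mul (M.submatrix e f)) l) l'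
        rw [Matrix.mul_apply, Matrix.smul_apply, Matrix.one_apply] at h4
        have h5 := congrArg (C : A → MvPolynomial (Fin n) A) h4
        rw [map_sum] at h5
        simp only [Matrix.submatrix_apply, map_mul] at h5
        rw [h5]
        split_ifs <;> simp
      symm
      calc _ = ∑ l', (∑ i, (C ((M.submatrix e f).adjugate l i) : MvPolynomial (Fin n) A) *
          C (M (e i) (f l'))) * X (f l') := by
            simp only [Finset.mul_sum, Finset.sum_mul]
            rw [Finset.sum_comm]
            refine Finset.sum_congr rfl (fun i _ => Finset.sum_congr rfl (fun l _ => ?_))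
            ring
        _ = _ := by simp only [h3]; simp
    · simp only [map_sum, map_mul, rename_C]
  rw [h1]
  exact Ideal.sum_mem _ (fun i _ => Ideal.mul_mem_left _ _ (Ideal.subset_span ⟨_, rfl⟩))

theorem elim (hf : Function.Injective f) (x : MvPolynomial (Fin n) A) :
    ∃ (N : ℕ) (y : MvPolynomial (Free f) A),
      C ((M.submatrix e f).det ^ N) * x - rename Subtype.val y ∈ linIdeal M c := by
  induction x using MvPolynomial.induction_on with
  | C a => exact ⟨0, C a, by simp⟩
  | add p q hp hq =>
    obtain ⟨N, y, hN⟩ := hp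
    obtain ⟨N', y', hN'⟩ := hq
    refine ⟨N + N', C ((M.submatrix e f).det ^ N') * y + C ((M.submatrix e f).det ^ N) * y', ?_⟩
    have h1 := Ideal.add_mem _ (Ideal.mul_mem_left _ (C ((M.submatrix e f).det ^ N')) hN)
      (Ideal.mul_mem_left _ (C ((M.submatrix e f).det ^ N)) hN')
    convert h1 using 1
    simp only [map_add, map_mul, rename_C, pow_add]
    ring
  | mul_X p j hp =>
    obtain ⟨N, y, hN⟩ := hp
    by_cases hj : j ∈ Set.range f
    · obtain ⟨l, rfl⟩ := hj
      refine ⟨N + 1, y * (∑ i, C ((M.submatrix e f).adjugate l i) * res M c e f i), ?_⟩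
      have h2 := det_mul_X (M := M) (c := c) (e := e) hf l
      have h3 := Ideal.add_mem _ (Ideal.mul_mem_left _ (C (M.submatrix e f).det * X (f l)) hN)
        (Ideal.mul_mem_left _ (rename Subtype.val y) h2)
      convert h3 using 1
      rw [map_mul (rename _) y]
      simp only [pow_succ, map_mul C]
      ring
    · refine ⟨N, y * X ⟨j, hj⟩, ?_⟩
      have h3 := Ideal.mul_mem_right (X j) _ hN
      convert h3 using 1
      simp only [map_mul, rename_X]
      ring

theorem main {k : Type*} [Field k] [Algebra A k] (h : algebraMap A k (M.submatrix e f).det ≠ 0)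
    {x : MvPolynomial (Fin n) A} (hx : psi k M c e f x = 0) :
    ∃ N : ℕ, C ((M.submatrix e f).det ^ N) * x ∈
      linIdeal M c ⊔ (RingHom.ker (algebraMap A k)).map (C : A →+* MvPolynomial (Fin n) A) := by
  have h' : (M.submatrix e f).det ≠ 0 := by
    intro h0; exact h (by rw [h0, map_zero])
  have hf := f_inj h'
  obtain ⟨N, y, hN⟩ := elim (M := M) (c := c) (e := e) hf x
  refine ⟨N, ?_⟩
  have h1 := psi_linIdeal h hN
  rw [map_sub, map_mul, hx, mul_zero, zero_sub, psi_rename, neg_eq_zero] at h1
  have h2 : y ∈ RingHom.ker (map (σ := Free f) (algebraMap A k)) := h1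
  rw [MvPolynomial.ker_map] at h2
  have h3 : rename Subtype.val y ∈
      (RingHom.ker (algebraMap A k)).map (C : A →+* MvPolynomial (Fin n) A) := by
    have h4 := Ideal.mem_map_of_mem (rename (R := A) (Subtype.val : Free f → Fin n)).toRingHom h2
    rw [Ideal.map_map] at h4
    have h5 : ((rename (R := A) (Subtype.val : Free f → Fin n)).toRingHom).comp C = C := by
      ext a; simp
    rw [h5] at h4
    exact h4
  have h6 := Ideal.add_mem _ (Ideal.mem_sup_left (T := (RingHom.ker (algebraMap A k)).map
    (C : A →+* MvPolynomial (Fin n) A)) hN) (Ideal.mem_sup_right (S := linIdeal M c) h3)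
  simpa using h6

end Claim

end B3

end HamRed
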