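import Pool.Agent.HamRed.Base
import Pool.Agent.HamRed.B3_elim

open MvPolynomial

namespace HamRed

variable {A : Type*} [CommRing A] {n d : ℕ}

/-- Heights along a strict chain of primes. -/
theorem B1_chain {R : Type*} [CommRing R] (Q : ℕ → Ideal R) (hQ : ∀ i, (Q i).IsPrime) (r : ℕ)
    (h : ∀ i < r, Q i < Q (i + 1)) : (Q 0).height + r ≤ (Q r).height := by
  induction r with
  | zero => simp
  | succ r ih =>
    have h1 := ih (fun i hi => h i (by omega))
    have := hQ r
    have := hQ (r + 1)
    have h2 := Ideal.height_add_one_le_of_lt_of_isPrime (h r (Nat.lt_succ_self r))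
    calc (Q 0).height + ((r + 1 : ℕ) : ℕ∞) = (Q 0).height + r + 1 := by
          push_cast; rw [add_assoc]
      _ ≤ (Q r).height + 1 := by gcongr
      _ ≤ _ := h2

section Sub

variable (k : Type*) [Field k] [Algebra A k]

open Classical in
/-- Substitution of the first `i` dependent variables. -/
noncomputable def B1_tau (M : Matrix (Fin d) (Fin n) A) (c : Fin d → A) (e : Fin d → Fin d)
    (f : Fin d → Fin n) (i : ℕ) : MvPolynomial (Fin n) k →ₐ[k] MvPolynomial (Fin n) k :=
  aeval (fun j => if h : ∃ l : Fin d, (l : ℕ) < i ∧ f l = j then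
    rename Subtype.val (B3.sol k M c e f h.choose) else X j)

variable {k}
variable {M : Matrix (Fin d) (Fin n) A} {c : Fin d → A} {e : Fin d → Fin d} {f : Fin d → Fin n}

theorem B1_tau_lt (hf : Function.Injective f) {i : ℕ} {l : Fin d} (hl : (l : ℕ) < i) :
    B1_tau k M c e f i (X (f l)) = rename Subtype.val (B3.sol k M c e f l) := by
  have h : ∃ l' : Fin d, (l' : ℕ) < i ∧ f l' = f l := ⟨l, hl, rfl⟩
  have h2 : h.choose = l := hf h.choose_spec.2
  rw [B1_tau, aeval_X, dif_pos h, h2]

theorem B1_tau_ge (hf : Function.Injective f) {i : ℕ} {l : Fin d} (hl : i ≤ (l : ℕ)) :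
    B1_tau k M c e f i (X (f l)) = X (f l) := by
  have h : ¬ ∃ l' : Fin d, (l' : ℕ) < i ∧ f l' = f l := by
    rintro ⟨l', h1, h2⟩
    have := hf h2
    subst this
    omega
  rw [B1_tau, aeval_X, dif_neg h]

theorem B1_tau_free {i : ℕ} (j : B3.Free f) :
    B1_tau k M c e f i (X j.1) = X j.1 := by
  have h : ¬ ∃ l' : Fin d, (l' : ℕ) < i ∧ f l' = j.1 := by
    rintro ⟨l', _, h2⟩
    exact j.2 ⟨l', h2⟩
  rw [B1_tau, aeval_X, dif_neg h]

theorem B1_tau_rename {i : ℕ} (y : MvPolynomial (B3.Free f) k) :
    B1_tau k M c e f i (rename Subtype.val y) = rename Subtype.val y := by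
  induction y using MvPolynomial.induction_on with
  | C a => simp [B1_tau]
  | add p q hp hq => simp [hp, hq]
  | mul_X p j hp => rw [map_mul, map_mul, hp, rename_X, B1_tau_free]

/-- The kernels. -/
noncomputable def B1_ker (k : Type*) [Field k] [Algebra A k] (M : Matrix (Fin d) (Fin n) A)
    (c : Fin d → A) (e : Fin d → Fin d) (f : Fin d → Fin n) (i : ℕ) :
    Ideal (MvPolynomial (Fin n) A) :=
  RingHom.ker ((B1_tau k M c e f i).toRingHom.comp (map (algebraMap A k)))

theorem B1_mem_ker {i : ℕ} {x : MvPolynomial (Fin n) A} :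
    x ∈ B1_ker k M c e f i ↔ B1_tau k M c e f i (map (algebraMap A k) x) = 0 := Iff.rfl

theorem B1_comp (hf : Function.Injective f) {i : ℕ} (hi : i < d) :
    ∃ σ : MvPolynomial (Fin n) k →ₐ[k] MvPolynomial (Fin n) k,
      ∀ x, B1_tau k M c e f (i + 1) x = σ (B1_tau k M c e f i x) := by
  classical
  let σ : MvPolynomial (Fin n) k →ₐ[k] MvPolynomial (Fin n) k :=
    aeval (fun j => if j = f ⟨i, hi⟩ then rename Subtype.val (B3.sol k M c e f ⟨i, hi⟩) else X j)
  have hσfree : ∀ y : MvPolynomial (B3.Free f) k,
      σ (rename Subtype.val y) = rename Subtype.val y := by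
    intro y
    induction y using MvPolynomial.induction_on with
    | C a => simp [σ]
    | add p q hp hq => simp [hp, hq]
    | mul_X p j hp =>
      rw [map_mul, map_mul, hp, rename_X]
      congr 1
      show aeval _ (X j.1) = X j.1
      rw [aeval_X, if_neg]
      intro h
      exact j.2 ⟨_, h.symm⟩
  refine ⟨σ, ?_⟩
  have h : B1_tau k M c e f (i + 1) = σ.comp (B1_tau k M c e f i) := by
    apply MvPolynomial.algHom_ext
    intro j
    rw [AlgHom.comp_apply]
    by_cases hj : j ∈ Set.range f
    · obtain ⟨l, rfl⟩ := hj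
      rcases lt_trichotomy (l : ℕ) i with hl | hl | hl
      · rw [B1_tau_lt hf (by omega), B1_tau_lt hf hl, hσfree]
      · rw [B1_tau_lt hf (by omega), B1_tau_ge hf (by omega)]
        show _ = aeval _ (X (f l))
        rw [aeval_X, if_pos (by congr 1; exact Fin.ext hl)]
        congr 2
        exact Fin.ext hl
      · rw [B1_tau_ge hf (by omega), B1_tau_ge hf (by omega)]
        show _ = aeval _ (X (f l))
        rw [aeval_X, if_neg]
        intro h
        have := hf h
        rw [this] at hl
        simp at hl
    · rw [B1_tau_free (i := i + 1) ⟨j, hj⟩, B1_tau_free (i := i) ⟨j, hj⟩]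
      show _ = aeval _ (X j)
      rw [aeval_X, if_neg]
      intro h
      exact hj ⟨_, h.symm⟩
  intro x
  rw [h]
  rfl

theorem B1_ker_lt (h : algebraMap A k (M.submatrix e f).det ≠ 0) {i : ℕ} (hi : i < d) :
    B1_ker k M c e f i < B1_ker k M c e f (i + 1) := by
  have h' : (M.submatrix e f).det ≠ 0 := by
    intro h0; exact h (by rw [h0, map_zero])
  have hf := B3.f_inj h'
  obtain ⟨σ, hσ⟩ := B1_comp (k := k) (M := M) (c := c) (e := e) hf hi
  rw [SetLike.lt_iff_le_and_exists]
  refine ⟨?_, ?_⟩
  · intro x hx
    rw [B1_mem_ker] at hx ⊢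
    rw [hσ, hx, map_zero]
  · -- the element `Δ X_{f i} - Δ s_i`
    let l : Fin d := ⟨i, hi⟩
    let x : MvPolynomial (Fin n) A := C (M.submatrix e f).det * X (f l) - rename Subtype.val
      (∑ i, C ((M.submatrix e f).adjugate l i) * B3.res M c e f i)
    have hx : x ∈ linIdeal M c := B3.det_mul_X hf l
    have hN : IsUnit ((M.submatrix e f).map (algebraMap A k)).det := by
      rw [← RingHom.mapMatrix_apply, ← RingHom.map_det]
      exact isUnit_iff_ne_zero.2 h
    have hsol : map (algebraMap A k) (∑ i, C ((M.submatrix e f).adjugate l i) *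
        B3.res M c e f i) = C (algebraMap A k (M.submatrix e f).det) * B3.sol k M c e f l := by
      have h1 := B3.psi_linIdeal (k := k) (e := e) (f := f) h hx
      rw [map_sub, map_mul, B3.psi_C, B3.psi_X_f hf, B3.psi_rename, sub_eq_zero] at h1
      exact h1.symm
    have hmap : map (algebraMap A k) x = C (algebraMap A k (M.submatrix e f).det) *
        (X (f l) - rename Subtype.val (B3.sol k M c e f l)) := by
      show map (algebraMap A k) (C (M.submatrix e f).det * X (f l) - rename Subtype.val
        (∑ i, C ((M.submatrix e f).adjugate l i) * B3.res M c e f i)) = _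
      rw [map_sub, map_mul, map_C, map_X, map_rename, hsol, map_mul, rename_C]
      ring
    refine ⟨x, ?_, ?_⟩
    · rw [B1_mem_ker, hmap, map_mul, map_sub, B1_tau_lt hf (by simp [l]), B1_tau_rename, sub_self,
        mul_zero]
    · rw [B1_mem_ker, hmap, map_mul, map_sub, B1_tau_ge hf (by simp [l]), B1_tau_rename]
      have hC : B1_tau k M c e f i (C (algebraMap A k (M.submatrix e f).det)) =
          C (algebraMap A k (M.submatrix e f).det) := by
        simp [B1_tau]
      rw [hC]
      intro h0
      rcases mul_eq_zero.1 h0 with h1 | h1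
      · apply h
        apply C_injective (Fin n) k
        rw [h1, map_zero]
      · -- evaluate: set all free variables to zero except ...
        rw [sub_eq_zero] at h1
        classical
        have h2 : ∀ t : k, t = aeval (fun _ => (0 : k)) (B3.sol k M c e f l) := by
          intro t
          have h3 := congrArg (aeval (fun j => if j = f l then t else 0)) h1
          rw [aeval_X, if_pos rfl, aeval_rename] at h3
          rw [h3]
          congr 2
          funext j
          rw [Function.comp_apply, if_neg]
          intro hj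
          exact j.2 ⟨l, hj.symm⟩
        have h4 := h2 0
        have h5 := h2 1
        rw [← h4] at h5
        exact one_ne_zero h5

end Sub

/-- B1 : height of a prime containing `r` independent affine-linear equations. -/
theorem B1_height_add_le [IsNoetherianRing A] (M : Matrix (Fin d) (Fin n) A) (c : Fin d → A)
    (Q : Ideal (MvPolynomial (Fin n) A)) [Q.IsPrime] {r : ℕ} (e : Fin r → Fin d)
    (f : Fin r → Fin n)
    (hdet : (M.submatrix e f).det ∉ Q.comap (C : A →+* MvPolynomial (Fin n) A))
    (hQ : ∀ i, lin M c (e i) ∈ Q) :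
    (Q.comap (C : A →+* MvPolynomial (Fin n) A)).height + r ≤ Q.height := by
  set 𝔭 := Q.comap (C : A →+* MvPolynomial (Fin n) A) with h𝔭
  have : 𝔭.IsPrime := Ideal.comap_isPrime _ _
  let k := FractionRing (A ⧸ 𝔭)
  have hker : RingHom.ker (algebraMap A k) = 𝔭 := by
    ext a
    rw [RingHom.mem_ker, IsScalarTower.algebraMap_apply A (A ⧸ 𝔭) k,
      map_eq_zero_iff _ (IsFractionRing.injective (A ⧸ 𝔭) k)]
    exact Ideal.Quotient.eq_zero_iff_mem
  let M' : Matrix (Fin r) (Fin n) A := M.submatrix e id
  let c' : Fin r → A := c ∘ e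
  have hdet' : algebraMap A k (M'.submatrix id f).det ≠ 0 := by
    intro h
    apply hdet
    have h1 : (M'.submatrix id f).det ∈ RingHom.ker (algebraMap A k) := h
    rw [hker] at h1
    exact h1
  have hdet0 : (M'.submatrix id f).det ≠ 0 := by
    intro h0; exact hdet' (by rw [h0, map_zero])
  have hf := B3.f_inj hdet0
  have hlin : linIdeal M' c' ≤ Q := by
    rw [linIdeal, Ideal.span_le]
    rintro _ ⟨i, rfl⟩
    exact hQ i
  have hmapQ : 𝔭.map (C : A →+* MvPolynomial (Fin n) A) ≤ Q := Ideal.map_comap_le
  have hchain := B1_chain (fun i => B1_ker k M' c' id f i)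
    (fun i => RingHom.ker_isPrime _) r (fun i hi => B1_ker_lt hdet' hi)
  have hfirst : 𝔭.height ≤ (B1_ker k M' c' id f 0).height := by
    have h0 : B1_ker k M' c' id f 0 = 𝔭.map (C : A →+* MvPolynomial (Fin n) A) := by
      have h00 : 𝔭.map (C : A →+* MvPolynomial (Fin n) A) =
          RingHom.ker (map (σ := Fin n) (algebraMap A k)) := by
        rw [MvPolynomial.ker_map, hker]
      rw [h00]
      have h1 : B1_tau k M' c' id f 0 = AlgHom.id k _ := by
        apply MvPolynomial.algHom_ext
        intro j
        rw [B1_tau, aeval_X, dif_neg]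
        · rfl
        · rintro ⟨l, hl, _⟩
          omega
      ext x
      rw [B1_mem_ker, h1]
      rfl
    have hprime : (B1_ker k M' c' id f 0).IsPrime := RingHom.ker_isPrime _
    rw [h0] at hprime ⊢
    have : (𝔭.map (C : A →+* MvPolynomial (Fin n) A)).LiesOver 𝔭 := by
      refine ⟨?_⟩
      apply le_antisymm
      · exact Ideal.le_comap_map
      · intro a ha
        have h2 : C a ∈ 𝔭.map (C : A →+* MvPolynomial (Fin n) A) := ha
        exact hmapQ h2
    rw [Ideal.height_eq_height_add_of_liesOver_of_hasGoingDown 𝔭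
      (𝔭.map (C : A →+* MvPolynomial (Fin n) A))]
    exact le_self_add
  have hlast : B1_ker k M' c' id f r ≤ Q := by
    intro x hx
    have hx' : B3.psi k M' c' id f x = 0 := by
      have h1 : ((B1_tau k M' c' id f r).toRingHom.comp (map (algebraMap A k))) =
          (rename Subtype.val).toRingHom.comp (B3.psi k M' c' id f) := by
        apply MvPolynomial.ringHom_ext
        · intro a
          simp [B1_tau, B3.psi_C]
        · intro j
          by_cases hj : j ∈ Set.range f
          · obtain ⟨l, rfl⟩ := hj
            show B1_tau k M' c' id f r (map (algebraMap A k) (X (f l))) =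
              rename Subtype.val (B3.psi k M' c' id f (X (f l)))
            rw [map_X, B1_tau_lt hf l.2, B3.psi_X_f hf]
          · show B1_tau k M' c' id f r (map (algebraMap A k) (X j)) =
              rename Subtype.val (B3.psi k M' c' id f (X j))
            rw [map_X]
            have h2 := B1_tau_free (k := k) (M := M') (c := c') (e := id) (i := r) ⟨j, hj⟩
            have h3 := B3.psi_X_free (k := k) (M := M') (c := c') (e := id) ⟨j, hj⟩
            simp only at h2 h3
            rw [h2, h3, rename_X]
      have h2 : rename Subtype.val (B3.psi k M' c' id f x) = 0 := by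
        have h3 := congrArg (fun g : MvPolynomial (Fin n) A →+* MvPolynomial (Fin n) k => g x) h1
        have h4 : B1_tau k M' c' id f r (map (algebraMap A k) x) =
          rename Subtype.val (B3.psi k M' c' id f x) := h3
        rw [← h4]
        exact hx
      exact rename_injective _ Subtype.val_injective (by rw [h2, map_zero])
    obtain ⟨N, hN⟩ := B3.main hdet' hx'
    rw [hker] at hN
    have h5 : C ((M'.submatrix id f).det ^ N) * x ∈ Q := (sup_le hlin hmapQ) hN
    rcases (Ideal.IsPrime.mem_or_mem (I := Q) inferInstance h5) with h6 | h6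
    · exfalso
      rw [map_pow] at h6
      exact hdet (Ideal.IsPrime.mem_of_pow_mem (I := Q) inferInstance _ h6)
    · exact h6
  calc 𝔭.height + r ≤ (B1_ker k M' c' id f 0).height + r := by gcongr
    _ ≤ (B1_ker k M' c' id f r).height := hchain
    _ ≤ Q.height := Ideal.height_mono hlast

end HamRed
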