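import Pool.Agent.HamRed.Base

open MvPolynomial

namespace HamRed

variable {A : Type*} [CommRing A] {n d : ℕ}

/-- A matrix over a field with linearly independent rows has a nonzero maximal minor. -/
theorem B2_minor {k : Type*} [Field k] {p q : ℕ} (P : Matrix (Fin p) (Fin q) k)
    (h : LinearIndependent k P.row) : ∃ f : Fin p → Fin q, (P.submatrix id f).det ≠ 0 := by
  have h1 : P.rank = p := by
    have := h.rank_matrix
    simpa using this
  rw [Matrix.rank_eq_finrank_span_cols] at h1
  obtain ⟨b, hb, hspan, hli⟩ := exists_linearIndependent k (Set.range P.col)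
  have hfin : b.Finite := (Set.finite_range _).subset hb
  have hfint : Fintype b := hfin.fintype
  have hcard : Fintype.card b = p := by
    rw [← Set.toFinset_card, ← finrank_span_set_eq_card hli, hspan, h1]
  let eqv : Fin p ≃ b := (Fintype.equivFinOfCardEq hcard).symm
  have hch : ∀ i : Fin p, ∃ j : Fin q, P.col j = (eqv i : Fin p → k) := by
    intro i
    exact hb (eqv i).2
  choose f hf using hch
  refine ⟨f, ?_⟩
  have hli2 : LinearIndependent k (P.submatrix id f).col := by
    have h2 : (P.submatrix id f).col = (fun x : b => (x : Fin p → k)) ∘ eqv := by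
      funext i
      rw [Function.comp_apply, ← hf]
      rfl
    rw [h2]
    exact hli.comp _ eqv.injective
  rw [Matrix.linearIndependent_cols_iff_isUnit] at hli2
  rw [Matrix.isUnit_iff_isUnit_det] at hli2
  exact hli2.ne_zero

/-- B2 : rank of the first `i` rows. -/
theorem B2_firstRows (𝔭 : Ideal A) [𝔭.IsPrime] (M : Matrix (Fin d) (Fin n) A) (r i : ℕ)
    (hi : i ≤ d) (h : RankGE 𝔭 M (d - r)) :
    ∃ (e : Fin (i - r) → Fin d) (f : Fin (i - r) → Fin n),
      (∀ a, (e a : ℕ) < i) ∧ (M.submatrix e f).det ∉ 𝔭 := by
  classical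
  obtain ⟨e, f, hdet⟩ := h
  let k := FractionRing (A ⧸ 𝔭)
  have hker : ∀ a : A, algebraMap A k a = 0 ↔ a ∈ 𝔭 := by
    intro a
    rw [IsScalarTower.algebraMap_apply A (A ⧸ 𝔭) k,
      map_eq_zero_iff _ (IsFractionRing.injective (A ⧸ 𝔭) k)]
    exact Ideal.Quotient.eq_zero_iff_mem
  have he : Function.Injective e := by
    intro a b hab
    by_contra hne
    apply hdet
    rw [Matrix.det_zero_of_row_eq hne]
    · exact Ideal.zero_mem _
    · funext k
      simp [hab]
  let N : Matrix (Fin (d - r)) (Fin (d - r)) k := (M.submatrix e f).map (algebraMap A k)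
  have hN : N.det ≠ 0 := by
    show ((M.submatrix e f).map (algebraMap A k)).det ≠ 0
    rw [← RingHom.mapMatrix_apply, ← RingHom.map_det, Ne, hker]
    exact hdet
  have hrows : LinearIndependent k N.row := by
    rw [Matrix.linearIndependent_rows_iff_isUnit, Matrix.isUnit_iff_isUnit_det]
    exact isUnit_iff_ne_zero.2 hN
  -- choose the rows
  let S : Finset (Fin (d - r)) := Finset.univ.filter (fun a => (e a : ℕ) < i)
  have hS : i - r ≤ S.card := by
    have h1 : (Finset.univ.filter (fun a : Fin (d - r) => ¬ (e a : ℕ) < i)).card ≤ d - i := by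
      have h2 : (Finset.univ.filter (fun a : Fin (d - r) => ¬ (e a : ℕ) < i)).card ≤
          (Finset.univ.filter (fun x : Fin d => ¬ (x : ℕ) < i)).card := by
        apply Finset.card_le_card_of_injOn e
        · intro a ha
          simpa using ha
        · exact he.injOn
      have h3 : (Finset.univ.filter (fun x : Fin d => ¬ (x : ℕ) < i)).card = d - i := by
        have h4 : (Finset.univ.filter (fun x : Fin d => (x : ℕ) < i)).card = i := by
          rw [Fin.card_filter_val_lt]
          omega
        have h5 := Finset.card_filter_add_card_filter_not (s := (Finset.univ : Finset (Fin d)))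
          (fun x : Fin d => (x : ℕ) < i)
        rw [h4, Finset.card_univ, Fintype.card_fin] at h5
        omega
      omega
    have h6 := Finset.card_filter_add_card_filter_not (s := (Finset.univ : Finset (Fin (d - r))))
      (fun a => (e a : ℕ) < i)
    rw [Finset.card_univ, Fintype.card_fin] at h6
    show i - r ≤ (Finset.univ.filter (fun a : Fin (d - r) => (e a : ℕ) < i)).card
    omega
  obtain ⟨T, hTS, hT⟩ := Finset.exists_subset_card_eq hS
  let eqv : Fin (i - r) ≃ T := (Fintype.equivFinOfCardEq (by simpa using hT)).symm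
  let g : Fin (i - r) → Fin (d - r) := fun x => (eqv x).1
  have hg : Function.Injective g := Subtype.val_injective.comp eqv.injective
  have hgS : ∀ x, (e (g x) : ℕ) < i := by
    intro x
    have := hTS (eqv x).2
    simpa [S] using this
  have hli : LinearIndependent k (N.submatrix g id).row := by
    have : (N.submatrix g id).row = N.row ∘ g := rfl
    rw [this]
    exact hrows.comp g hg
  obtain ⟨f', hf'⟩ := B2_minor _ hli
  refine ⟨e ∘ g, f ∘ f', hgS, ?_⟩
  intro h
  apply hf'
  have h1 : (N.submatrix g id).submatrix id f' =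
      (M.submatrix (e ∘ g) (f ∘ f')).map (algebraMap A k) := rfl
  rw [h1, ← RingHom.mapMatrix_apply, ← RingHom.map_det, hker]
  exact h

end HamRed
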