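import Pool.Agent.HamRed.Base
import Pool.Agent.HamRed.B3_elim

open MvPolynomial

namespace HamRed

variable {A : Type*} [CommRing A] {n d : ℕ}

/-- B3 : elimination. -/
theorem B3_isPrime [IsNoetherianRing A] (M : Matrix (Fin d) (Fin n) A) (c : Fin d → A)
    (𝔞 : Ideal A) [𝔞.IsPrime] (hr : RankGE 𝔞 M d)
    (hass : ∀ Q ∈ associatedPrimes (MvPolynomial (Fin n) A)
        (MvPolynomial (Fin n) A ⧸ (linIdeal M c ⊔ 𝔞.map (C : A →+* MvPolynomial (Fin n) A))),
      RankGE (Q.comap (C : A →+* MvPolynomial (Fin n) A)) M d) :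
    (linIdeal M c ⊔ 𝔞.map (C : A →+* MvPolynomial (Fin n) A)).IsPrime ∧
      (linIdeal M c ⊔ 𝔞.map (C : A →+* MvPolynomial (Fin n) A)).comap
        (C : A →+* MvPolynomial (Fin n) A) = 𝔞 := by
  obtain ⟨e, f, hef⟩ := hr
  set J := linIdeal M c ⊔ 𝔞.map (C : A →+* MvPolynomial (Fin n) A) with hJ
  -- the residue field
  let k := FractionRing (A ⧸ 𝔞)
  have hker : RingHom.ker (algebraMap A k) = 𝔞 := by
    ext a
    rw [RingHom.mem_ker, IsScalarTower.algebraMap_apply A (A ⧸ 𝔞) k,
      map_eq_zero_iff _ (IsFractionRing.injective (A ⧸ 𝔞) k)]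
    exact Ideal.Quotient.eq_zero_iff_mem
  have hne : ∀ a : A, a ∉ 𝔞 → algebraMap A k a ≠ 0 := by
    intro a ha h
    apply ha
    rw [← hker]
    exact h
  -- `J` is contained in the kernel of every elimination homomorphism
  have hJker : ∀ (e : Fin d → Fin d) (f : Fin d → Fin n), (M.submatrix e f).det ∉ 𝔞 →
      ∀ x ∈ J, B3.psi k M c e f x = 0 := by
    intro e f hdet x hx
    have h1 : J ≤ RingHom.ker (B3.psi k M c e f) := by
      rw [hJ, sup_le_iff]
      refine ⟨fun y hy => B3.psi_linIdeal (hne _ hdet) hy, ?_⟩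
      rw [Ideal.map_le_iff_le_comap]
      intro a ha
      show B3.psi k M c e f (C a) = 0
      rw [B3.psi_C]
      have : a ∈ RingHom.ker (algebraMap A k) := by rw [hker]; exact ha
      rw [RingHom.mem_ker] at this
      rw [this, map_zero]
    exact h1 hx
  have hmain : ∀ (e : Fin d → Fin d) (f : Fin d → Fin n), (M.submatrix e f).det ∉ 𝔞 →
      ∀ x, B3.psi k M c e f x = 0 → ∃ N : ℕ, C ((M.submatrix e f).det ^ N) * x ∈ J := by
    intro e f hdet x hx
    obtain ⟨N, hN⟩ := B3.main (hne _ hdet) hx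
    rw [hker] at hN
    exact ⟨N, hN⟩
  have hind : ∀ (e' : Fin d → Fin d) (f' : Fin d → Fin n), (M.submatrix e' f').det ∉ 𝔞 →
      ∀ x, B3.psi k M c e f x = 0 → B3.psi k M c e' f' x = 0 := by
    intro e' f' hdet x hx
    obtain ⟨N, hN⟩ := hmain e f hef x hx
    have h1 := hJker e' f' hdet _ hN
    rw [map_mul, B3.psi_C, map_pow] at h1
    rcases mul_eq_zero.1 h1 with h2 | h2
    · exfalso
      have h3 : (algebraMap A k (M.submatrix e f).det) ^ N = 0 := by
        apply C_injective (B3.Free f') k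
        rw [h2, map_zero]
      exact hne _ hef (eq_zero_of_pow_eq_zero h3)
    · exact h2
  -- the kernel equals `J`
  have hJT : J = RingHom.ker (B3.psi k M c e f) := by
    apply le_antisymm (fun x hx => hJker e f hef x hx)
    intro x hx
    by_contra hxJ
    have hx0 : (Ideal.Quotient.mk J x) ≠ 0 := by
      rwa [Ne, Ideal.Quotient.eq_zero_iff_mem]
    obtain ⟨Q, hQ, hle⟩ := exists_le_isAssociatedPrime_of_isNoetherianRing
      (MvPolynomial (Fin n) A) (Ideal.Quotient.mk J x) hx0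
    obtain ⟨e', f', hdet⟩ := hass Q hQ
    have hann : ∀ y, y * x ∈ J → y ∈ Q := by
      intro y hy
      apply hle
      rw [Submodule.mem_colon_singleton]
      rw [Submodule.mem_bot]
      show Ideal.Quotient.mk J (y * x) = 0
      rwa [Ideal.Quotient.eq_zero_iff_mem]
    have hJQ : J ≤ Q := fun y hy => hann y (Ideal.mul_mem_right _ _ hy)
    have hdet' : (M.submatrix e' f').det ∉ 𝔞 := by
      intro h
      apply hdet
      rw [Ideal.mem_comap]
      apply hJQ
      exact Ideal.mem_sup_right (Ideal.mem_map_of_mem _ h)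
    obtain ⟨N, hN⟩ := hmain e' f' hdet' x (hind e' f' hdet' x hx)
    have h1 := hann _ hN
    rw [map_pow] at h1
    exact hdet (hQ.isPrime.mem_of_pow_mem _ h1)
  refine ⟨?_, ?_⟩
  · rw [hJT]
    exact RingHom.ker_isPrime _
  · rw [hJT]
    ext a
    rw [Ideal.mem_comap, RingHom.mem_ker, B3.psi_C]
    have h1 : a ∈ 𝔞 ↔ algebraMap A k a = 0 := by
      have h2 : a ∈ RingHom.ker (algebraMap A k) ↔ a ∈ 𝔞 := by rw [hker]
      rw [← h2, RingHom.mem_ker]
    rw [h1]
    constructor
    · intro h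
      apply C_injective (B3.Free f) k
      rw [h, map_zero]
    · intro h
      rw [h, map_zero]

end HamRed
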