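import Pool.Agent.HamRed.Base
import Pool.Agent.HamRed.A4
import Pool.Agent.HamRed.B1
import Pool.Agent.HamRed.B2
import Pool.Agent.HamRed.B3

open MvPolynomial

namespace HamRed

variable {A : Type*} [CommRing A] {n d : ℕ}

/-- A lower bound for the heights of the primes above an ideal is a lower bound for its height. -/
theorem B4_le_height {R : Type*} [CommRing R] (I : Ideal R) (N : ℕ∞)
    (h : ∀ Q : Ideal R, Q.IsPrime → I ≤ Q → N ≤ Q.height) : N ≤ I.height := by
  rw [Ideal.height_eq_inf_minimalPrimes]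
  exact le_iInf₂ (fun Q hQ => h Q hQ.1.1 hQ.1.2)

/-- The defect at a prime where the rank is not maximal. -/
theorem B4_defect {M : Matrix (Fin d) (Fin n) A} (hH : HeightCond M) (𝔭 : Ideal A) [𝔭.IsPrime]
    (h : ¬ RankGE 𝔭 M d) :
    ∃ r : ℕ, 1 ≤ r ∧ r ≤ d ∧ RankGE 𝔭 M (d - r) ∧ ((r + 2 : ℕ) : ℕ∞) ≤ 𝔭.height := by
  classical
  have h0 : RankGE 𝔭 M 0 := by
    refine ⟨Fin.elim0, Fin.elim0, ?_⟩
    rw [Matrix.det_fin_zero]
    intro h1
    exact Ideal.IsPrime.ne_top (I := 𝔭) inferInstance ((Ideal.eq_top_iff_one _).2 h1)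
  set s := Nat.findGreatest (fun s => RankGE 𝔭 M s) d with hs
  have hs1 : RankGE 𝔭 M s := Nat.findGreatest_spec (P := fun s => RankGE 𝔭 M s) (Nat.zero_le d) h0
  have hsd : s ≤ d := Nat.findGreatest_le d
  have hsd' : s ≠ d := by
    intro h1
    rw [h1] at hs1
    exact h hs1
  have hs2 : ¬ RankGE 𝔭 M (s + 1) := by
    intro h1
    have := Nat.le_findGreatest (P := fun s => RankGE 𝔭 M s) (by omega : s + 1 ≤ d) h1
    omega
  refine ⟨d - s, by omega, by omega, ?_, ?_⟩
  · rwa [show d - (d - s) = s by omega]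
  · apply hH 𝔭 inferInstance (d - s) (by omega) (by omega)
    rwa [show d - (d - s) = s by omega]

section Height

variable [IsNoetherianRing A] {M : Matrix (Fin d) (Fin n) A} (c : Fin d → A)

theorem B4_height_full (Q : Ideal (MvPolynomial (Fin n) A)) [Q.IsPrime] {i : ℕ} (hi : i ≤ d)
    (hQ : ∀ j : Fin d, (j : ℕ) < i → lin M c j ∈ Q)
    (h : RankGE (Q.comap (C : A →+* MvPolynomial (Fin n) A)) M d) :
    (Q.comap (C : A →+* MvPolynomial (Fin n) A)).height + i ≤ Q.height := by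
  have hp : (Q.comap (C : A →+* MvPolynomial (Fin n) A)).IsPrime := Ideal.comap_isPrime _ _
  obtain ⟨e, f, he, hdet⟩ := B2_firstRows (Q.comap (C : A →+* MvPolynomial (Fin n) A)) M 0 i hi h
  have h1 := B1_height_add_le M c Q e f hdet (fun a => hQ _ (he a))
  exact h1

theorem B4_height_defect (hH : HeightCond M) (Q : Ideal (MvPolynomial (Fin n) A)) [Q.IsPrime]
    {i : ℕ} (hi : i ≤ d) (hQ : ∀ j : Fin d, (j : ℕ) < i → lin M c j ∈ Q)
    (h : ¬ RankGE (Q.comap (C : A →+* MvPolynomial (Fin n) A)) M d) :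
    ((i + 2 : ℕ) : ℕ∞) ≤ Q.height := by
  have hp : (Q.comap (C : A →+* MvPolynomial (Fin n) A)).IsPrime := Ideal.comap_isPrime _ _
  obtain ⟨r, hr1, hrd, hr2, hr3⟩ := B4_defect hH _ h
  obtain ⟨e, f, he, hdet⟩ := B2_firstRows (Q.comap (C : A →+* MvPolynomial (Fin n) A)) M r i hi hr2
  have h1 := B1_height_add_le M c Q e f hdet (fun a => hQ _ (he a))
  calc ((i + 2 : ℕ) : ℕ∞) ≤ ((r + 2 : ℕ) : ℕ∞) + ((i - r : ℕ) : ℕ∞) := by
        rw [← Nat.cast_add]
        exact_mod_cast (by omega : i + 2 ≤ r + 2 + (i - r))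
    _ ≤ _ := by gcongr
    _ ≤ _ := h1

theorem B4_height_ge (hH : HeightCond M) (Q : Ideal (MvPolynomial (Fin n) A)) [Q.IsPrime]
    {i : ℕ} (hi : i ≤ d) (hQ : ∀ j : Fin d, (j : ℕ) < i → lin M c j ∈ Q) :
    (i : ℕ∞) ≤ Q.height := by
  by_cases h : RankGE (Q.comap (C : A →+* MvPolynomial (Fin n) A)) M d
  · exact le_trans le_add_self (B4_height_full c Q hi hQ h)
  · refine le_trans ?_ (B4_height_defect c hH Q hi hQ h)
    exact_mod_cast (by omega : i ≤ i + 2)

end Height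

/-- An associated prime of `R ⧸ I` contains `I`. -/
theorem B4_le_assoc {R : Type*} [CommRing R] (I Q : Ideal R) (hQ : Q ∈ associatedPrimes R (R ⧸ I)) :
    I ≤ Q := by
  have h := hQ.annihilator_le
  rwa [Submodule.annihilator_top, Ideal.annihilator_quotient] at h

/-- B4 (uses A4, B1, B2, B3). -/
theorem B4_linIdeal_prime (M : Matrix (Fin d) (Fin n) (MvPolynomial (Fin n) ℂ))
    (c : Fin d → MvPolynomial (Fin n) ℂ) (hH : HeightCond M) :
    (linIdeal M c).IsPrime ∧
    (linIdeal M c).comap (C : MvPolynomial (Fin n) ℂ →+* _) = ⊥ ∧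
    RankGE (⊥ : Ideal (MvPolynomial (Fin n) ℂ)) M d ∧
    ∀ p : MvPolynomial (Fin n) ℂ, Prime p →
      (linIdeal M c ⊔ Ideal.span {(C p : MvPolynomial (Fin n) (MvPolynomial (Fin n) ℂ))}).IsPrime ∧
      (linIdeal M c ⊔ Ideal.span {(C p : MvPolynomial (Fin n) (MvPolynomial (Fin n) ℂ))}).comap
        (C : MvPolynomial (Fin n) ℂ →+* _) = Ideal.span {p} := by
  have hU : Unmixed (MvPolynomial (Fin n) (MvPolynomial (Fin n) ℂ)) :=
    A4_unmixed (k := ℂ) (σ := Fin n ⊕ Fin n)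
      (MvPolynomial.sumAlgEquiv ℂ (Fin n) (Fin n)).symm.toRingEquiv
  -- the sequence
  let F : MvPolynomial (Fin n) ℂ → ℕ → MvPolynomial (Fin n) (MvPolynomial (Fin n) ℂ) :=
    fun p j => if h : j < d then lin M c ⟨j, h⟩ else C p
  have hFlt : ∀ p (j : Fin d), F p j = lin M c j := by
    intro p j
    simp [F]
  have hFmem : ∀ p i (hi : i ≤ d) (Q : Ideal (MvPolynomial (Fin n) (MvPolynomial (Fin n) ℂ))),
      Ideal.span (F p '' {j | j < i}) ≤ Q → ∀ j : Fin d, (j : ℕ) < i → lin M c j ∈ Q := by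
    intro p i hi Q hQ j hj
    rw [← hFlt p j]
    exact hQ (Ideal.subset_span ⟨j, hj, rfl⟩)
  have hspan1 : ∀ p, Ideal.span (F p '' {j | j < d}) = linIdeal M c := by
    intro p
    rw [linIdeal]
    congr 1
    ext x
    constructor
    · rintro ⟨j, hj, rfl⟩
      exact ⟨⟨j, hj⟩, (hFlt p ⟨j, hj⟩).symm⟩
    · rintro ⟨j, rfl⟩
      exact ⟨j, j.2, hFlt p j⟩
  have hspan2 : ∀ p, Ideal.span (F p '' {j | j < d + 1}) = linIdeal M c ⊔ Ideal.span {C p} := by
    intro p
    rw [← hspan1 p, ← Ideal.span_union]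
    congr 1
    ext x
    constructor
    · rintro ⟨j, hj, rfl⟩
      rcases Nat.lt_succ_iff_lt_or_eq.1 hj with h | h
      · exact Or.inl ⟨j, h, rfl⟩
      · right
        subst h
        simp [F]
    · rintro (⟨j, hj, rfl⟩ | hx)
      · exact ⟨j, Nat.lt_succ_of_lt hj, rfl⟩
      · refine ⟨d, Nat.lt_succ_self d, ?_⟩
        rw [Set.mem_singleton_iff] at hx
        rw [hx]
        simp [F]
  have hheights : ∀ p i, i ≤ d → (i : ℕ∞) ≤ (Ideal.span (F p '' {j | j < i})).height := by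
    intro p i hi
    apply B4_le_height
    intro Q hQ hle
    exact B4_height_ge c hH Q hi (hFmem p i hi Q hle)
  -- rank at `⊥`
  have hbot : RankGE (⊥ : Ideal (MvPolynomial (Fin n) ℂ)) M d := by
    by_contra h
    have : (⊥ : Ideal (MvPolynomial (Fin n) ℂ)).IsPrime := Ideal.isPrime_bot
    obtain ⟨r, hr1, hrd, hr2, hr3⟩ := B4_defect hH _ h
    rw [Ideal.height_bot] at hr3
    have : ((r + 2 : ℕ) : ℕ∞) ≤ ((0 : ℕ) : ℕ∞) := hr3
    rw [Nat.cast_le] at this
    omega
  have hass1 : ∀ Q ∈ associatedPrimes (MvPolynomial (Fin n) (MvPolynomial (Fin n) ℂ))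
        (MvPolynomial (Fin n) (MvPolynomial (Fin n) ℂ) ⧸ linIdeal M c),
      RankGE (Q.comap (C : MvPolynomial (Fin n) ℂ →+* _)) M d := by
    intro Q hQ
    have hQp : Q.IsPrime := hQ.isPrime
    have h1 := hU d (F 0) (hheights 0) Q (by rw [hspan1]; exact hQ)
    by_contra h
    have h2 := B4_height_defect c hH Q le_rfl (fun j _ => B4_le_assoc _ _ hQ
      (Ideal.subset_span ⟨j, rfl⟩)) h
    have h3 := h2.trans h1
    rw [Nat.cast_le] at h3
    omega
  have h1 := B3_isPrime M c ⊥ hbot (by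
    rw [Ideal.map_bot, sup_bot_eq]
    exact hass1)
  rw [Ideal.map_bot, sup_bot_eq] at h1
  refine ⟨h1.1, h1.2, hbot, ?_⟩
  intro p hp
  have hpprime : (Ideal.span {p}).IsPrime := (Ideal.span_singleton_prime hp.ne_zero).2 hp
  have hprank : RankGE (Ideal.span {p}) M d := by
    by_contra h
    obtain ⟨r, hr1, hrd, hr2, hr3⟩ := B4_defect hH _ h
    have h2 := hr3.trans (Ideal.height_span_singleton_le_one hp.not_isUnit)
    have h3 : ((r + 2 : ℕ) : ℕ∞) ≤ ((1 : ℕ) : ℕ∞) := h2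
    rw [Nat.cast_le] at h3
    omega
  have hmapp : (Ideal.span {p}).map (C : MvPolynomial (Fin n) ℂ →+*
      MvPolynomial (Fin n) (MvPolynomial (Fin n) ℂ)) = Ideal.span {C p} := by
    rw [Ideal.map_span, Set.image_singleton]
  have hheights2 : ∀ i, i ≤ d + 1 → (i : ℕ∞) ≤ (Ideal.span (F p '' {j | j < i})).height := by
    intro i hi
    rcases Nat.lt_or_ge i (d + 1) with hlt | hge
    · exact hheights p i (by omega)
    · have hid : i = d + 1 := by omega
      subst hid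
      apply B4_le_height
      intro Q hQ hle
      rw [hspan2] at hle
      have hlin : ∀ j : Fin d, (j : ℕ) < d → lin M c j ∈ Q := fun j _ =>
        hle (Ideal.mem_sup_left (Ideal.subset_span ⟨j, rfl⟩))
      have hpQ : p ∈ Q.comap (C : MvPolynomial (Fin n) ℂ →+* _) :=
        hle (Ideal.mem_sup_right (Ideal.subset_span rfl))
      by_cases h : RankGE (Q.comap (C : MvPolynomial (Fin n) ℂ →+* _)) M d
      · have h2 := B4_height_full c Q le_rfl hlin h
        have h3 : (1 : ℕ∞) ≤ (Q.comap (C : MvPolynomial (Fin n) ℂ →+*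
            MvPolynomial (Fin n) (MvPolynomial (Fin n) ℂ))).height := by
          rw [Order.one_le_iff_ne_zero, Ne, Ideal.height_eq_zero_iff_eq_bot]
          intro h4
          rw [h4] at hpQ
          exact hp.ne_zero (by simpa using hpQ)
        calc ((d + 1 : ℕ) : ℕ∞) = 1 + (d : ℕ∞) := by push_cast; rw [add_comm]
          _ ≤ _ := by gcongr
          _ ≤ _ := h2
      · refine le_trans ?_ (B4_height_defect c hH Q le_rfl hlin h)
        exact_mod_cast (by omega : d + 1 ≤ d + 2)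
  have hass2 : ∀ Q ∈ associatedPrimes (MvPolynomial (Fin n) (MvPolynomial (Fin n) ℂ))
        (MvPolynomial (Fin n) (MvPolynomial (Fin n) ℂ) ⧸ (linIdeal M c ⊔ Ideal.span {C p})),
      RankGE (Q.comap (C : MvPolynomial (Fin n) ℂ →+* _)) M d := by
    intro Q hQ
    have hQp : Q.IsPrime := hQ.isPrime
    have h1 := hU (d + 1) (F p) hheights2 Q (by rw [hspan2]; exact hQ)
    by_contra h
    have h2 := B4_height_defect c hH Q le_rfl (fun j _ => B4_le_assoc _ _ hQ
      (Ideal.mem_sup_left (Ideal.subset_span ⟨j, rfl⟩))) h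
    have h3 := h2.trans h1
    rw [Nat.cast_le] at h3
    omega
  have h2 := B3_isPrime M c (Ideal.span {p}) hprank (by
    rw [hmapp]
    exact hass2)
  rw [hmapp] at h2
  exact h2

end HamRed
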