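import Pool.Agent.HamRed.Base

open MvPolynomial

namespace HamRed

/-- An element of `B` which is divisible by no prime of `A` can be cancelled from `a * x`. -/
theorem B5_cancel {A B : Type*} [CommRing A] [IsDomain A] [UniqueFactorizationMonoid A]
    [CommRing B] [IsDomain B] [Algebra A B]
    (hinj : Function.Injective (algebraMap A B))
    (hprime : ∀ p : A, Prime p → Prime (algebraMap A B p)) {q : B}
    (hq : ∀ p : A, Prime p → ¬ algebraMap A B p ∣ q) (a : A) :
    a ≠ 0 → ∀ x : B, q ∣ algebraMap A B a * x → q ∣ x := by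
  induction a using UniqueFactorizationMonoid.induction_on_prime with
  | h₁ => intro h; exact absurd rfl h
  | h₂ u hu =>
    intro _ x hx
    exact ((hu.map (algebraMap A B)).dvd_mul_left).1 hx
  | h₃ a p ha hp ih =>
    intro _ x hx
    rw [map_mul, mul_assoc] at hx
    obtain ⟨b, hb⟩ := hx
    have hpB := hprime p hp
    have h1 : algebraMap A B p ∣ q * b := ⟨_, hb.symm⟩
    rcases hpB.dvd_or_dvd h1 with h2 | h2
    · exact absurd h2 (hq p hp)
    · obtain ⟨b', rfl⟩ := h2
      have h3 : algebraMap A B a * x = q * b' := by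
        apply mul_left_cancel₀ hpB.ne_zero
        rw [hb]; ring
      exact ih ha x ⟨b', h3⟩

/-- B5 : Nagata's lemma. -/
theorem B5_nagata {A B K : Type*} [CommRing A] [IsDomain A] [UniqueFactorizationMonoid A]
    [CommRing B] [IsDomain B] [IsNoetherianRing B] [Algebra A B]
    (hinj : Function.Injective (algebraMap A B))
    (hprime : ∀ p : A, Prime p → Prime (algebraMap A B p))
    [CommRing K] [IsDomain K] [Algebra B K]
    [IsLocalization (Algebra.algebraMapSubmonoid B (nonZeroDivisors A)) K]
    [UniqueFactorizationMonoid K] : UniqueFactorizationMonoid B := by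
  set S := Algebra.algebraMapSubmonoid B (nonZeroDivisors A) with hS
  have hSle : S ≤ nonZeroDivisors B := by
    rintro _ ⟨a, ha, rfl⟩
    apply mem_nonZeroDivisors_of_ne_zero
    intro h
    exact nonZeroDivisors.ne_zero ha ((map_eq_zero_iff _ hinj).1 h)
  have hinjK : Function.Injective (algebraMap B K) := IsLocalization.injective K hSle
  rw [UniqueFactorizationMonoid.iff_exists_prime_mem_of_isPrime]
  intro P hP0 hP
  by_cases hdis : ∃ a : A, a ≠ 0 ∧ algebraMap A B a ∈ P
  · obtain ⟨a, ha0, haP⟩ := hdis
    have hI : (P.comap (algebraMap A B)) ≠ ⊥ := by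
      intro h
      have : a ∈ P.comap (algebraMap A B) := haP
      rw [h] at this
      exact ha0 (by simpa using this)
    have hIp : (P.comap (algebraMap A B)).IsPrime := Ideal.comap_isPrime _ _
    obtain ⟨p, hp, hpp⟩ := hIp.exists_mem_prime_of_ne_bot hI
    exact ⟨algebraMap A B p, hp, hprime p hpp⟩
  · push Not at hdis
    have hdisj : Disjoint (S : Set B) (P : Set B) := by
      rw [Set.disjoint_left]
      rintro _ ⟨a, ha, rfl⟩
      exact hdis a (nonZeroDivisors.ne_zero ha)
    have hPK : (P.map (algebraMap B K)).IsPrime :=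
      IsLocalization.isPrime_of_isPrime_disjoint S K P hP hdisj
    have hPK0 : P.map (algebraMap B K) ≠ ⊥ := by
      obtain ⟨x, hx, hx0⟩ := Submodule.exists_mem_ne_zero_of_ne_bot hP0
      intro h
      have h1 : algebraMap B K x ∈ P.map (algebraMap B K) := Ideal.mem_map_of_mem _ hx
      rw [h] at h1
      exact hx0 (hinjK (by simpa using h1))
    obtain ⟨q₀, hq₀, hq₀p⟩ := hPK.exists_mem_prime_of_ne_bot hPK0
    -- elements of `P` that are prime in `K`
    have hne : ∃ b : B, b ∈ P ∧ Prime (algebraMap B K b) := by
      obtain ⟨⟨b, s⟩, hbs⟩ := IsLocalization.surj S q₀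
      refine ⟨b, ?_, ?_⟩
      · have h1 : algebraMap B K b ∈ P.map (algebraMap B K) := by
          rw [← hbs]; exact Ideal.mul_mem_right _ _ hq₀
        have h2 : b ∈ (P.map (algebraMap B K)).comap (algebraMap B K) := h1
        have h3 := IsLocalization.under_map_of_isPrime_disjoint S K hP hdisj
        have h4 : (P.map (algebraMap B K)).comap (algebraMap B K) = P := h3
        rwa [h4] at h2
      · have hu : IsUnit (algebraMap B K s) := IsLocalization.map_units K s
        have : Associated q₀ (algebraMap B K b) := by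
          rw [← hbs]
          exact (associated_mul_unit_right q₀ _ hu)
        exact this.prime hq₀p
    let T : Set B := {b | b ∈ P ∧ Prime (algebraMap B K b)}
    obtain ⟨b₀, hb₀⟩ := hne
    have hwf : WellFounded (DvdNotUnit (α := B)) := IsWellFounded.wf
    obtain ⟨q, hqT, hqmin⟩ := hwf.has_min T ⟨b₀, hb₀⟩
    obtain ⟨hqP, hqK⟩ := hqT
    have hq0 : q ≠ 0 := by
      rintro rfl
      exact hqK.ne_zero (map_zero _)
    have hqnd : ∀ p : A, Prime p → ¬ algebraMap A B p ∣ q := by
      rintro p hp ⟨c, rfl⟩
      have hpP : algebraMap A B p ∉ P := hdis p hp.ne_zero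
      have hcP : c ∈ P := (hP.mem_or_mem hqP).resolve_left hpP
      have hu : IsUnit (algebraMap B K (algebraMap A B p)) :=
        IsLocalization.map_units K (⟨algebraMap A B p, p,
          mem_nonZeroDivisors_of_ne_zero hp.ne_zero, rfl⟩ : S)
      have hcK : Prime (algebraMap B K c) := by
        have : Associated (algebraMap B K (algebraMap A B p * c)) (algebraMap B K c) := by
          rw [map_mul]
          exact (associated_unit_mul_left _ _ hu)
        exact this.prime hqK
      refine hqmin c ⟨hcP, hcK⟩ ⟨?_, algebraMap A B p, (hprime p hp).not_isUnit, ?_⟩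
      · rintro rfl
        exact hq0 (mul_zero _)
      · exact mul_comm _ _
    have key : ∀ x : B, algebraMap B K q ∣ algebraMap B K x → q ∣ x := by
      rintro x ⟨k, hk⟩
      obtain ⟨⟨b, s⟩, hbs⟩ := IsLocalization.surj S k
      obtain ⟨s, ⟨a, ha, rfl⟩⟩ := s
      have h1 : algebraMap A B a * x = q * b := by
        apply hinjK
        rw [map_mul, map_mul, hk, ← hbs]
        ring
      exact B5_cancel hinj hprime hqnd a (nonZeroDivisors.ne_zero ha) x ⟨b, h1⟩
    refine ⟨q, hqP, hq0, ?_, ?_⟩
    · intro hu
      exact hP.ne_top (Ideal.eq_top_of_isUnit_mem _ hqP hu)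
    · intro x y hxy
      have h1 : algebraMap B K q ∣ algebraMap B K x * algebraMap B K y := by
        rw [← map_mul]
        exact map_dvd _ hxy
      rcases hqK.dvd_or_dvd h1 with h2 | h2
      · exact Or.inl (key x h2)
      · exact Or.inr (key y h2)

end HamRed
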