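import Pool.Agent.HamRed.Base
import Pool.Agent.HamRed.B3_elim
import Pool.Agent.HamRed.B5

open MvPolynomial

namespace HamRed

variable {A : Type*} [CommRing A] {n d : ℕ}

/-- B6 (uses B5). -/
theorem B6_ufd [IsDomain A] [UniqueFactorizationMonoid A] [IsNoetherianRing A]
    (M : Matrix (Fin d) (Fin n) A) (c : Fin d → A) (hJ : (linIdeal M c).IsPrime)
    (h0 : (linIdeal M c).comap (C : A →+* MvPolynomial (Fin n) A) = ⊥)
    (hr : RankGE (⊥ : Ideal A) M d)
    (hp : ∀ p : A, Prime p →
      (linIdeal M c ⊔ Ideal.span {(C p : MvPolynomial (Fin n) A)}).IsPrime ∧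
      (linIdeal M c ⊔ Ideal.span {(C p : MvPolynomial (Fin n) A)}).comap
        (C : A →+* MvPolynomial (Fin n) A) = Ideal.span {p}) :
    UniqueFactorizationMonoid (MvPolynomial (Fin n) A ⧸ linIdeal M c) ∧
    ∀ u : MvPolynomial (Fin n) A ⧸ linIdeal M c, IsUnit u →
      ∃ a : A, IsUnit a ∧ u = Ideal.Quotient.mk _ (C a) := by
  obtain ⟨e, f, hef⟩ := hr
  set J := linIdeal M c with hJdef
  let B := MvPolynomial (Fin n) A ⧸ J
  let k := FractionRing A
  let K := MvPolynomial (B3.Free f) k
  have hinjk : Function.Injective (algebraMap A k) := IsFractionRing.injective A k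
  have hker : RingHom.ker (algebraMap A k) = ⊥ := (RingHom.injective_iff_ker_eq_bot _).1 hinjk
  have hdet : (M.submatrix e f).det ≠ 0 := fun h => hef (by rw [h]; exact Ideal.zero_mem _)
  have hdetk : algebraMap A k (M.submatrix e f).det ≠ 0 := fun h =>
    hdet (hinjk (by rw [h, map_zero]))
  have algB : ∀ a : A, algebraMap A B a = Ideal.Quotient.mk J (C a) := fun a => rfl
  have hinj : Function.Injective (algebraMap A B) := by
    rw [injective_iff_map_eq_zero]
    intro a ha
    rw [algB, Ideal.Quotient.eq_zero_iff_mem] at ha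
    have h1 : a ∈ J.comap (C : A →+* MvPolynomial (Fin n) A) := ha
    rw [h0] at h1
    simpa using h1
  have hspan : ∀ p : A, (J ⊔ Ideal.span {(C p : MvPolynomial (Fin n) A)}).map
      (Ideal.Quotient.mk J) = Ideal.span {algebraMap A B p} := by
    intro p
    rw [Ideal.map_sup, Ideal.map_quotient_self, bot_sup_eq, Ideal.map_span, Set.image_singleton]
    rfl
  have hprime : ∀ p : A, Prime p → Prime (algebraMap A B p) := by
    intro p hpp
    have hp0 : algebraMap A B p ≠ 0 := by
      intro h
      exact hpp.ne_zero (hinj (by rw [h, map_zero]))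
    rw [← Ideal.span_singleton_prime hp0, ← hspan]
    have := (hp p hpp).1
    apply Ideal.map_isPrime_of_surjective Ideal.Quotient.mk_surjective
    rw [Ideal.mk_ker]
    exact le_sup_left
  have hdvd : ∀ p a : A, Prime p → algebraMap A B p ∣ algebraMap A B a → p ∣ a := by
    intro p a hpp h
    rw [← Ideal.mem_span_singleton, ← hspan] at h
    rw [← Ideal.mem_span_singleton, ← (hp p hpp).2, Ideal.mem_comap]
    have h1 : C a ∈ ((J ⊔ Ideal.span {(C p : MvPolynomial (Fin n) A)}).map
      (Ideal.Quotient.mk J)).comap (Ideal.Quotient.mk J) := h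
    rw [Ideal.comap_map_of_surjective _ Ideal.Quotient.mk_surjective, ← RingHom.ker_eq_comap_bot,
      Ideal.mk_ker] at h1
    have h2 : (J ⊔ Ideal.span {(C p : MvPolynomial (Fin n) A)}) ⊔ J =
        J ⊔ Ideal.span {(C p : MvPolynomial (Fin n) A)} :=
      sup_eq_left.2 le_sup_left
    rwa [h2] at h1
  -- the localisation
  let φ : B →+* K := Ideal.Quotient.lift J (B3.psi k M c e f)
    (fun x hx => B3.psi_linIdeal hdetk hx)
  have hφmk : ∀ x, φ (Ideal.Quotient.mk J x) = B3.psi k M c e f x := fun x => rfl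
  letI : Algebra B K := φ.toAlgebra
  have hBK : ∀ b : B, algebraMap B K b = φ b := fun b => rfl
  have hφA : ∀ a : A, φ (algebraMap A B a) = C (algebraMap A k a) := by
    intro a
    rw [algB, hφmk, B3.psi_C]
  have hloc : IsLocalization (Algebra.algebraMapSubmonoid B (nonZeroDivisors A)) K := by
    rw [isLocalization_iff]
    refine ⟨?_, ?_, ?_⟩
    · rintro ⟨_, a, ha, rfl⟩
      show IsUnit (φ (algebraMap A B a))
      rw [hφA]
      apply IsUnit.map
      rw [isUnit_iff_ne_zero]
      intro h
      exact nonZeroDivisors.ne_zero ha (hinjk (by rw [h, map_zero]))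
    · intro z
      letI : Algebra (MvPolynomial (B3.Free f) A) (MvPolynomial (B3.Free f) k) :=
        MvPolynomial.algebraMvPolynomial
      obtain ⟨⟨x, s⟩, hx⟩ := IsLocalization.surj
        ((nonZeroDivisors A).map (C (σ := B3.Free f))) z
      obtain ⟨s, a, ha, rfl⟩ := s
      refine ⟨⟨Ideal.Quotient.mk J (rename Subtype.val x), ⟨algebraMap A B a, a, ha, rfl⟩⟩, ?_⟩
      show z * φ (algebraMap A B a) = φ (Ideal.Quotient.mk J (rename Subtype.val x))
      rw [hφA, hφmk, B3.psi_rename]
      have h1 : z * map (algebraMap A k) (C a) = map (algebraMap A k) x := hx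
      rwa [map_C] at h1
    · intro x y hxy
      obtain ⟨x, rfl⟩ := Ideal.Quotient.mk_surjective x
      obtain ⟨y, rfl⟩ := Ideal.Quotient.mk_surjective y
      have h1 : B3.psi k M c e f (x - y) = 0 := by
        rw [map_sub, sub_eq_zero]
        exact hxy
      obtain ⟨N, hN⟩ := B3.main hdetk h1
      rw [hker, Ideal.map_bot, sup_bot_eq] at hN
      refine ⟨⟨algebraMap A B ((M.submatrix e f).det ^ N), (M.submatrix e f).det ^ N,
        pow_mem (mem_nonZeroDivisors_of_ne_zero hdet) N, rfl⟩, ?_⟩
      show algebraMap A B ((M.submatrix e f).det ^ N) * _ =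
        algebraMap A B ((M.submatrix e f).det ^ N) * _
      rw [← sub_eq_zero, ← mul_sub, ← map_sub, algB, ← map_mul, Ideal.Quotient.eq_zero_iff_mem]
      exact hN
  have hφinj : Function.Injective φ := by
    rw [injective_iff_map_eq_zero]
    intro x hx
    have h1 : algebraMap B K x = algebraMap B K 0 := by rw [hBK, hx, map_zero]
    obtain ⟨⟨_, a, ha, rfl⟩, hc⟩ := IsLocalization.exists_of_eq
      (M := Algebra.algebraMapSubmonoid B (nonZeroDivisors A)) h1
    simp only [mul_zero] at hc
    rcases mul_eq_zero.1 hc with h | h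
    · exfalso
      exact nonZeroDivisors.ne_zero ha (hinj (by rw [h, map_zero]))
    · exact h
  have hufd : UniqueFactorizationMonoid B := B5_nagata (A := A) (B := B) (K := K) hinj hprime
  refine ⟨hufd, ?_⟩
  intro u hu
  have h1 : IsUnit (φ u) := hu.map φ
  rw [MvPolynomial.isUnit_iff_eq_C_of_isReduced] at h1
  obtain ⟨κ, hκ, hκu⟩ := h1
  obtain ⟨a, b, hab, hκab⟩ := IsFractionRing.exists_reduced_fraction (A := A) (K := k) κ
  have hb0 : (b : A) ≠ 0 := nonZeroDivisors.ne_zero b.2
  have hκ2 : algebraMap A k b * κ = algebraMap A k a := by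
    rw [← hκab]
    exact IsLocalization.mk'_spec' k a b
  have hbu : algebraMap A B b * u = algebraMap A B a := by
    apply hφinj
    rw [map_mul, hφA, hφA, hκu, ← map_mul, hκ2]
  have ha0 : a ≠ 0 := by
    rintro rfl
    rw [map_zero] at hκ2
    rcases mul_eq_zero.1 hκ2 with h | h
    · exact hb0 (hinjk (by rw [h, map_zero]))
    · exact hκ.ne_zero h
  have hbunit : IsUnit (b : A) := by
    by_contra hnu
    obtain ⟨p, hpi, hpb⟩ := WfDvdMonoid.exists_irreducible_factor hnu hb0
    have hpp := hpi.prime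
    have h2 : algebraMap A B p ∣ algebraMap A B a := by
      rw [← hbu]
      exact Dvd.dvd.mul_right (map_dvd _ hpb) _
    have h3 := hdvd p a hpp h2
    exact hpp.not_isUnit (hab h3 hpb)
  have haunit : IsUnit a := by
    by_contra hnu
    obtain ⟨p, hpi, hpa⟩ := WfDvdMonoid.exists_irreducible_factor hnu ha0
    have hpp := hpi.prime
    have h2 : algebraMap A B p ∣ algebraMap A B b := by
      have h3 : algebraMap A B p ∣ algebraMap A B b * u := by
        rw [hbu]
        exact map_dvd _ hpa
      exact (hu.dvd_mul_right).1 h3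
    have h3 := hdvd p b hpp h2
    exact hpp.not_isUnit (hab hpa h3)
  obtain ⟨v, hv⟩ := hbunit
  refine ⟨(v⁻¹ : Aˣ) * a, (Units.isUnit _).mul haunit, ?_⟩
  rw [← algB, map_mul, ← hbu, ← hv, ← mul_assoc, ← map_mul, Units.inv_mul, map_one, one_mul]

end HamRed
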