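import Pool.Agent.HamRed.Base
import Pool.Agent.HamRed.B2

open MvPolynomial

namespace HamRed

variable {A : Type*} [CommRing A] {n d : ℕ}

/-- A matrix of rank at least `p` has a nonzero `p × p` minor. -/
theorem B7_minor {k : Type*} [Field k] {p q m : ℕ} (P : Matrix (Fin m) (Fin q) k)
    (h : p ≤ P.rank) : ∃ (e : Fin p → Fin m) (f : Fin p → Fin q), (P.submatrix e f).det ≠ 0 := by
  rw [Matrix.rank_eq_finrank_span_row] at h
  obtain ⟨b, hb, hspan, hli⟩ := exists_linearIndependent k (Set.range P.row)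
  have hfin : b.Finite := (Set.finite_range _).subset hb
  have hfint : Fintype b := hfin.fintype
  have hcard : p ≤ Fintype.card b := by
    rw [← Set.toFinset_card, ← finrank_span_set_eq_card hli, hspan]
    exact h
  let eqv : Fin (Fintype.card b) ≃ b := (Fintype.equivFin b).symm
  have hch : ∀ i : Fin p, ∃ j : Fin m, P.row j = (eqv (Fin.castLE hcard i) : Fin q → k) := by
    intro i
    exact hb (eqv (Fin.castLE hcard i)).2
  choose e he using hch
  have hli2 : LinearIndependent k (P.submatrix e id).row := by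
    have h2 : (P.submatrix e id).row =
        (fun x : b => (x : Fin q → k)) ∘ (fun i => eqv (Fin.castLE hcard i)) := by
      funext i
      rw [Function.comp_apply, ← he]
      rfl
    rw [h2]
    exact hli.comp _ (eqv.injective.comp (Fin.castLE_injective hcard))
  obtain ⟨f, hf⟩ := B2_minor _ hli2
  exact ⟨e, f, hf⟩

theorem B7_eval_genMat (Y : Fin d → Matrix (Fin n) (Fin n) ℂ) (v : Fin n → ℂ) (i : Fin d)
    (j : Fin n) : aeval v (genMat Y i j) = (Y i).mulVec v j := by
  rw [genMat, map_sum, Matrix.mulVec, dotProduct]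
  refine Finset.sum_congr rfl (fun k _ => ?_)
  rw [map_mul, aeval_C, aeval_X]
  rfl

/-- B7 : from codimensions of loci of points to heights of primes. -/
theorem B7_heightCond (Y : Fin d → Matrix (Fin n) (Fin n) ℂ)
    (h : ∀ r : ℕ, 1 ≤ r → r ≤ d → ((r + 2 : ℕ) : ℕ∞) ≤
      codim {v : Fin n → ℂ | Module.finrank ℂ (LinearMap.ker (evY Y v)) = r}) :
    HeightCond (genMat Y) := by
  intro 𝔭 h𝔭 r hr1 hrd hrank
  -- points of `V(𝔭)`
  have hpt : ∀ v ∈ zeroLocus ℂ 𝔭, r ≤ Module.finrank ℂ (LinearMap.ker (evY Y v)) ∧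
      Module.finrank ℂ (LinearMap.ker (evY Y v)) ≤ d := by
    intro v hv
    let P : Matrix (Fin d) (Fin n) ℂ := fun i => (Y i).mulVec v
    have hrn := LinearMap.finrank_range_add_finrank_ker (evY Y v)
    have hrange : LinearMap.range (evY Y v) = Submodule.span ℂ (Set.range P.row) := by
      rw [evY, Fintype.range_linearCombination]
      rfl
    rw [hrange, ← Matrix.rank_eq_finrank_span_row, Module.finrank_fin_fun] at hrn
    refine ⟨?_, by omega⟩
    by_contra hlt
    have hP : d - r + 1 ≤ P.rank := by omega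
    obtain ⟨e, f, hef⟩ := B7_minor P hP
    apply hrank
    refine ⟨e, f, ?_⟩
    intro hmem
    apply hef
    have h1 := hv _ hmem
    have h2 : P.submatrix e f = ((genMat Y).submatrix e f).map (aeval v) := by
      ext i j
      rw [Matrix.submatrix_apply, Matrix.map_apply, Matrix.submatrix_apply, B7_eval_genMat]
    rw [h2]
    have h3 : (((genMat Y).submatrix e f).map (aeval v)).det =
        aeval v ((genMat Y).submatrix e f).det := by
      rw [AlgHom.map_det]
      rfl
    rw [h3, h1]
  have hinf : (Finset.Icc r d).inf (fun s => MvPolynomial.vanishingIdeal ℂ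
      {v : Fin n → ℂ | Module.finrank ℂ (LinearMap.ker (evY Y v)) = s}) ≤ 𝔭 := by
    have h1 : MvPolynomial.vanishingIdeal ℂ (zeroLocus ℂ 𝔭) = 𝔭 :=
      IsPrime.vanishingIdeal_zeroLocus 𝔭
    rw [← h1]
    intro p hp v hv
    have h2 := hpt v hv
    have h3 := (Finset.inf_le (f := fun s => MvPolynomial.vanishingIdeal ℂ
      {v : Fin n → ℂ | Module.finrank ℂ (LinearMap.ker (evY Y v)) = s})
      (Finset.mem_Icc.2 h2)) hp
    exact h3 v rfl
  obtain ⟨s, hs, hle⟩ := h𝔭.inf_le'.1 hinf
  rw [Finset.mem_Icc] at hs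
  calc ((r + 2 : ℕ) : ℕ∞) ≤ ((s + 2 : ℕ) : ℕ∞) := by
        rw [Nat.cast_le]; omega
    _ ≤ _ := h s (by omega) hs.2
    _ ≤ 𝔭.height := Ideal.height_mono hle

end HamRed
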