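import Pool.Agent.HamRed.Base
import Pool.Agent.HamRed.B4
import Pool.Agent.HamRed.B6

open MvPolynomial

namespace HamRed

variable {A : Type*} [CommRing A] {n d : ℕ}

/-- `ℂ[v,λ] ≅ ℂ[v][λ]`. -/
noncomputable def B8_e (n : ℕ) :
    MvPolynomial (Fin n ⊕ Fin n) ℂ ≃ₐ[ℂ] MvPolynomial (Fin n) (MvPolynomial (Fin n) ℂ) :=
  (renameEquiv ℂ (Equiv.sumComm (Fin n) (Fin n))).trans (sumAlgEquiv ℂ (Fin n) (Fin n))

theorem B8_e_inl (i : Fin n) : B8_e n (X (Sum.inl i)) = C (X i) := by
  simp [B8_e]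

theorem B8_e_inr (i : Fin n) : B8_e n (X (Sum.inr i)) = X i := by
  simp [B8_e]

/-- Evaluation of `ℂ[v][λ]` at a point. -/
noncomputable def B8_ev (x : Fin n ⊕ Fin n → ℂ) :
    MvPolynomial (Fin n) (MvPolynomial (Fin n) ℂ) →ₐ[ℂ] ℂ :=
  (aeval x).comp (B8_e n).symm.toAlgHom

theorem B8_ev_apply (x : Fin n ⊕ Fin n → ℂ)
    (p : MvPolynomial (Fin n) (MvPolynomial (Fin n) ℂ)) :
    B8_ev x p = aeval x ((B8_e n).symm p) := rfl

theorem B8_ev_X (x : Fin n ⊕ Fin n → ℂ) (j : Fin n) : B8_ev x (X j) = x (Sum.inr j) := by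
  rw [B8_ev_apply, ← B8_e_inr, AlgEquiv.symm_apply_apply, aeval_X]

theorem B8_ev_C (x : Fin n ⊕ Fin n → ℂ) (a : MvPolynomial (Fin n) ℂ) :
    B8_ev x (C a) = aeval (fun i => x (Sum.inl i)) a := by
  have h : (B8_ev x).comp (IsScalarTower.toAlgHom ℂ (MvPolynomial (Fin n) ℂ)
      (MvPolynomial (Fin n) (MvPolynomial (Fin n) ℂ))) = aeval (fun i => x (Sum.inl i)) := by
    apply MvPolynomial.algHom_ext
    intro i
    rw [AlgHom.comp_apply, aeval_X]
    show B8_ev x (C (X i)) = _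
    rw [B8_ev_apply, ← B8_e_inl, AlgEquiv.symm_apply_apply, aeval_X]
  rw [← h]
  rfl

theorem B8_ev_lin (Y : Fin d → Matrix (Fin n) (Fin n) ℂ) (c : Fin d → ℂ)
    (x : Fin n ⊕ Fin n → ℂ) (i : Fin d) :
    B8_ev x (lin (genMat Y) (fun i => C (c i)) i) =
      dotProduct (fun j => x (Sum.inr j)) ((Y i).mulVec (fun j => x (Sum.inl j))) - c i := by
  rw [lin, map_sub, map_sum, B8_ev_C, aeval_C]
  congr 1
  rw [dotProduct]
  refine Finset.sum_congr rfl (fun j _ => ?_)
  rw [map_mul, B8_ev_X, B8_ev_C, mul_comm]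
  congr 1
  rw [genMat, map_sum, Matrix.mulVec, dotProduct]
  refine Finset.sum_congr rfl (fun k _ => ?_)
  rw [map_mul, aeval_C, aeval_X]
  rfl

/-- B8 (uses B4, B6) : the ring of functions on the fibre. -/
theorem B8_polyFun (Y : Fin d → Matrix (Fin n) (Fin n) ℂ) (c : Fin d → ℂ)
    (hH : HeightCond (genMat Y)) :
    (linFibre Y c).Nonempty ∧ IsDomain (polyFun (linFibre Y c)) ∧
    UniqueFactorizationMonoid (polyFun (linFibre Y c)) ∧
    ∀ u : polyFun (linFibre Y c), IsUnit u → ∃ a : ℂ, u = algebraMap ℂ _ a := by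
  obtain ⟨hJ, hJ0, hrank, hp⟩ := B4_linIdeal_prime (genMat Y) (fun i => C (c i)) hH
  obtain ⟨hufd, hunits⟩ := B6_ufd (genMat Y) (fun i => C (c i)) hJ hJ0 hrank hp
  set J := linIdeal (genMat Y) (fun i => (C (c i) : MvPolynomial (Fin n) ℂ)) with hJdef
  let J' : Ideal (MvPolynomial (Fin n ⊕ Fin n) ℂ) := J.comap (B8_e n).toRingEquiv.toRingHom
  have hJ' : ∀ p, p ∈ J' ↔ B8_e n p ∈ J := fun p => Iff.rfl
  have hJ'p : J'.IsPrime := Ideal.comap_isPrime _ _
  -- the fibre is the zero locus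
  have hX : linFibre Y c = zeroLocus ℂ J' := by
    ext x
    constructor
    · intro hx p hp
      have h1 : J ≤ RingHom.ker (B8_ev x) := by
        rw [hJdef, linIdeal, Ideal.span_le]
        rintro _ ⟨i, rfl⟩
        show B8_ev x _ = 0
        rw [B8_ev_lin, hx i, sub_self]
      have h2 : B8_ev x (B8_e n p) = 0 := h1 ((hJ' p).1 hp)
      rwa [B8_ev_apply, AlgEquiv.symm_apply_apply] at h2
    · intro hx i
      have h1 : (B8_e n).symm (lin (genMat Y) (fun i => C (c i)) i) ∈ J' := by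
        rw [hJ', AlgEquiv.apply_symm_apply]
        exact Ideal.subset_span ⟨i, rfl⟩
      have h2 := hx _ h1
      rw [← B8_ev_apply, B8_ev_lin, sub_eq_zero] at h2
      exact h2
  have hI : MvPolynomial.vanishingIdeal ℂ (linFibre Y c) = J' := by
    rw [hX]
    exact IsPrime.vanishingIdeal_zeroLocus J'
  have hne : (linFibre Y c).Nonempty := by
    rw [Set.nonempty_iff_ne_empty]
    intro h
    rw [h, vanishingIdeal_empty] at hI
    exact hJ'p.ne_top hI.symm
  -- the quotient map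
  let Φ : MvPolynomial (Fin n) (MvPolynomial (Fin n) ℂ) →ₐ[ℂ] polyFun (linFibre Y c) :=
    { toFun := fun p => ⟨fun x => B8_ev x.1 p, ⟨(B8_e n).symm p, fun x => by
        show B8_ev x.1 p = _
        rw [B8_ev_apply, MvPolynomial.aeval_eq_eval]⟩⟩
      map_one' := by
        apply Subtype.ext
        funext x
        exact map_one (B8_ev x.1)
      map_mul' := fun p q => by
        apply Subtype.ext
        funext x
        exact map_mul (B8_ev x.1) p q
      map_zero' := by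
        apply Subtype.ext
        funext x
        exact map_zero (B8_ev x.1)
      map_add' := fun p q => by
        apply Subtype.ext
        funext x
        exact map_add (B8_ev x.1) p q
      commutes' := fun a => by
        apply Subtype.ext
        funext x
        exact (B8_ev x.1).commutes a }
  have hΦ : ∀ p (x : linFibre Y c), (Φ p).1 x = B8_ev x.1 p := fun p x => rfl
  have hsurj : Function.Surjective Φ := by
    rintro ⟨f, P, hP⟩
    refine ⟨B8_e n P, ?_⟩
    apply Subtype.ext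
    funext x
    rw [hΦ, B8_ev_apply, AlgEquiv.symm_apply_apply, MvPolynomial.aeval_eq_eval]
    exact (hP x).symm
  have hker : J = RingHom.ker Φ.toRingHom := by
    ext p
    rw [RingHom.mem_ker]
    have h1 : p ∈ J ↔ (B8_e n).symm p ∈ J' := by
      rw [hJ', AlgEquiv.apply_symm_apply]
    rw [h1, ← hI, mem_vanishingIdeal_iff]
    constructor
    · intro h
      apply Subtype.ext
      funext x
      exact h x.1 x.2
    · intro h x hx
      have h2 := congrArg (fun g : polyFun (linFibre Y c) => g.1 ⟨x, hx⟩) h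
      exact h2
  let E : (MvPolynomial (Fin n) (MvPolynomial (Fin n) ℂ) ⧸ J) ≃+* polyFun (linFibre Y c) :=
    (Ideal.quotEquivOfEq hker).trans (RingHom.quotientKerEquivOfSurjective (f := Φ.toRingHom) hsurj)
  have hE : ∀ p, E (Ideal.Quotient.mk J p) = Φ p := by
    intro p
    rfl
  have hdomB : IsDomain (MvPolynomial (Fin n) (MvPolynomial (Fin n) ℂ) ⧸ J) :=
    Ideal.Quotient.isDomain J
  have hdom : IsDomain (polyFun (linFibre Y c)) := E.symm.toMulEquiv.isDomain _
  refine ⟨hne, hdom, E.toMulEquiv.uniqueFactorizationMonoid hufd, ?_⟩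
  intro u hu
  obtain ⟨a, ha, hua⟩ := hunits (E.symm u) (hu.map E.symm)
  rw [MvPolynomial.isUnit_iff_eq_C_of_isReduced] at ha
  obtain ⟨α, hα, rfl⟩ := ha
  refine ⟨α, ?_⟩
  have h1 : u = E (E.symm u) := (E.apply_symm_apply u).symm
  rw [h1, hua, hE]
  exact Φ.commutes α

end HamRed
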