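import Pool.Agent.HamRed.Defs

/-!
# MP_3b8a02_ag : auxiliary definitions shared by the modules
-/

open MvPolynomial

namespace HamRed

/-! ### Part A -/

/-- Every prime contains a (weakly) regular sequence at least as long as its height. -/
def GradeGE (R : Type*) [CommRing R] : Prop :=
  ∀ Q : Ideal R, Q.IsPrime → ∃ rs : List R, (∀ x ∈ rs, x ∈ Q) ∧
    RingTheory.Sequence.IsWeaklyRegular R rs ∧ Q.height ≤ (rs.length : ℕ∞)

/-- Macaulay's unmixedness property. -/
def Unmixed (R : Type*) [CommRing R] : Prop :=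
  ∀ (r : ℕ) (f : ℕ → R),
    (∀ i ≤ r, (i : ℕ∞) ≤ (Ideal.span (f '' {j | j < i})).height) →
    ∀ Q ∈ associatedPrimes R (R ⧸ Ideal.span (f '' {j | j < r})), Q.height ≤ (r : ℕ∞)

/-! ### Part B -/

section Lin

variable {A : Type*} [CommRing A] {n d : ℕ}

/-- The affine-linear polynomial `∑ⱼ M i j λⱼ - c i`. -/
noncomputable def lin (M : Matrix (Fin d) (Fin n) A) (c : Fin d → A) (i : Fin d) :
    MvPolynomial (Fin n) A :=
  ∑ j, C (M i j) * X j - C (c i)

/-- The ideal generated by the equations. -/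
noncomputable def linIdeal (M : Matrix (Fin d) (Fin n) A) (c : Fin d → A) :
    Ideal (MvPolynomial (Fin n) A) :=
  Ideal.span (Set.range (lin M c))

/-- Some `r × r` minor of `M` is not in `𝔭` (for `𝔭` prime: the rank of `M` over the residue field
is at least `r`). -/
def RankGE (𝔭 : Ideal A) (M : Matrix (Fin d) (Fin n) A) (r : ℕ) : Prop :=
  ∃ (e : Fin r → Fin d) (f : Fin r → Fin n), (M.submatrix e f).det ∉ 𝔭

/-- If the rank of `M` at `𝔭` is at most `d - r`, then the height of `𝔭` is at least `r + 2`. -/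
def HeightCond (M : Matrix (Fin d) (Fin n) A) : Prop :=
  ∀ 𝔭 : Ideal A, 𝔭.IsPrime → ∀ r : ℕ, 1 ≤ r → r ≤ d → ¬ RankGE 𝔭 M (d - r + 1) →
    ((r + 2 : ℕ) : ℕ∞) ≤ 𝔭.height

/-- The matrix of linear forms whose `(i,j)` entry is `(Yᵢ v)ⱼ`. -/
noncomputable def genMat (Y : Fin d → Matrix (Fin n) (Fin n) ℂ) :
    Matrix (Fin d) (Fin n) (MvPolynomial (Fin n) ℂ) :=
  fun i j => ∑ k, C (Y i j k) * X k

/-- `a ↦ (∑ aᵢ Yᵢ) v`. -/
noncomputable def evY (Y : Fin d → Matrix (Fin n) (Fin n) ℂ) (v : Fin n → ℂ) :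
    (Fin d → ℂ) →ₗ[ℂ] (Fin n → ℂ) :=
  Fintype.linearCombination ℂ (fun i => (Y i).mulVec v)

/-- `{(v,λ) : λ(Yᵢ v) = cᵢ for all i}`. -/
def linFibre (Y : Fin d → Matrix (Fin n) (Fin n) ℂ) (c : Fin d → ℂ) :
    Set (Fin n ⊕ Fin n → ℂ) :=
  {x | ∀ i, dotProduct (fun j => x (Sum.inr j)) ((Y i).mulVec (fun j => x (Sum.inl j))) = c i}

end Lin

/-! ### Part E : representations -/

section Rep

variable {G : Type*} [Group G] {B : Type*} [AddCommGroup B] [Module ℂ B]

/-- `U` is `G`-stable. -/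
def Stable (ρ : Representation ℂ G B) (U : Submodule ℂ B) : Prop := ∀ g, ∀ u ∈ U, ρ g u ∈ U

/-- Complete reducibility. -/
def CompRed (ρ : Representation ℂ G B) : Prop :=
  ∀ U : Submodule ℂ B, Stable ρ U → ∃ U' : Submodule ℂ B, Stable ρ U' ∧ IsCompl U U'

/-- Local finiteness. -/
def LocFin (ρ : Representation ℂ G B) : Prop :=
  ∀ b : B, ∃ W : Submodule ℂ B, Module.Finite ℂ W ∧ Stable ρ W ∧ b ∈ W

/-- `b` is a semi-invariant of weight `χ`. -/
def IsSemiInv (ρ : Representation ℂ G B) (χ : G → ℂ) (b : B) : Prop := ∀ g, ρ g b = χ g • b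

end Rep

/-! ### Actions on rings of functions -/

section FunAct

variable {κ : Type} [Fintype κ] [DecidableEq κ] {G : Type*} [Group G]

/-- The subset `X` of `ℂ^κ` is stable under the linear action `α`. -/
def StableSet (α : G →* GL κ ℂ) (X : Set (κ → ℂ)) : Prop :=
  ∀ g, ∀ x ∈ X, (α g).val.mulVec x ∈ X

/-- The action of `g` on the points of `X`. -/
def ptAct (α : G →* GL κ ℂ) {X : Set (κ → ℂ)} (hX : StableSet α X) (g : G) (x : X) : X :=
  ⟨(α g).val.mulVec x, hX g x x.2⟩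

theorem ptAct_one (α : G →* GL κ ℂ) {X : Set (κ → ℂ)} (hX : StableSet α X) (x : X) :
    ptAct α hX 1 x = x := by
  apply Subtype.ext
  simp [ptAct]

theorem ptAct_mul (α : G →* GL κ ℂ) {X : Set (κ → ℂ)} (hX : StableSet α X) (g h : G) (x : X) :
    ptAct α hX (g * h) x = ptAct α hX g (ptAct α hX h x) := by
  apply Subtype.ext
  simp [ptAct, Matrix.mulVec_mulVec]

theorem comp_mem_polyFun (α : G →* GL κ ℂ) {X : Set (κ → ℂ)} (hX : StableSet α X) (g : G)
    {f : X → ℂ} (hf : f ∈ polyFun X) : (fun x => f (ptAct α hX g x)) ∈ polyFun X := by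
  obtain ⟨P, hP⟩ := hf
  refine ⟨MvPolynomial.bind₁ (fun i => ∑ j, C ((α g).val i j) * MvPolynomial.X j) P, ?_⟩
  intro x
  have h : (fun i => MvPolynomial.aeval (x : κ → ℂ)
      (∑ j, C ((α g).val i j) * MvPolynomial.X j : MvPolynomial κ ℂ)) =
      ((ptAct α hX g x : X) : κ → ℂ) := by
    funext i
    simp [ptAct, Matrix.mulVec, dotProduct]
  have h2 : MvPolynomial.aeval (x : κ → ℂ)
      (MvPolynomial.bind₁ (fun i => ∑ j, C ((α g).val i j) * MvPolynomial.X j) P) =
      MvPolynomial.aeval ((ptAct α hX g x : X) : κ → ℂ) P := by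
    rw [MvPolynomial.aeval_bind₁, h]
  show f (ptAct α hX g x) = _
  rw [hP]
  simpa [MvPolynomial.aeval_eq_eval] using h2.symm

/-- The ring automorphism `b ↦ b ∘ g⁻¹` of `ℂ[X]`. -/
noncomputable def actAlg (α : G →* GL κ ℂ) {X : Set (κ → ℂ)} (hX : StableSet α X) (g : G) :
    polyFun X →ₐ[ℂ] polyFun X where
  toFun b := ⟨fun x => b.1 (ptAct α hX g⁻¹ x), comp_mem_polyFun α hX g⁻¹ b.2⟩
  map_one' := rfl
  map_mul' _ _ := rfl
  map_zero' := rfl
  map_add' _ _ := rfl
  commutes' _ := rfl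

theorem actAlg_apply (α : G →* GL κ ℂ) {X : Set (κ → ℂ)} (hX : StableSet α X) (g : G)
    (b : polyFun X) (x : X) : (actAlg α hX g b).1 x = b.1 (ptAct α hX g⁻¹ x) := rfl

/-- The representation of `G` on `ℂ[X]`. -/
noncomputable def funRep (α : G →* GL κ ℂ) {X : Set (κ → ℂ)} (hX : StableSet α X) :
    Representation ℂ G (polyFun X) where
  toFun g := (actAlg α hX g).toLinearMap
  map_one' := by
    apply LinearMap.ext
    intro b
    apply Subtype.ext
    funext x
    show b.1 (ptAct α hX (1 : G)⁻¹ x) = b.1 x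
    rw [inv_one, ptAct_one]
  map_mul' g h := by
    apply LinearMap.ext
    intro b
    apply Subtype.ext
    funext x
    show b.1 (ptAct α hX (g * h)⁻¹ x) = b.1 (ptAct α hX h⁻¹ (ptAct α hX g⁻¹ x))
    rw [mul_inv_rev, ptAct_mul]

theorem funRep_apply (α : G →* GL κ ℂ) {X : Set (κ → ℂ)} (hX : StableSet α X) (g : G)
    (b : polyFun X) (x : X) : (funRep α hX g b).1 x = b.1 (ptAct α hX g⁻¹ x) := rfl

theorem funRep_mul (α : G →* GL κ ℂ) {X : Set (κ → ℂ)} (hX : StableSet α X) (g : G)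
    (b c : polyFun X) : funRep α hX g (b * c) = funRep α hX g b * funRep α hX g c := rfl

/-- The action of `G` on the ring `ℂ[X]`. -/
@[reducible] noncomputable def funAction (α : G →* GL κ ℂ) {X : Set (κ → ℂ)}
    (hX : StableSet α X) : MulSemiringAction G (polyFun X) where
  smul g b := funRep α hX g b
  one_smul b := by
    show funRep α hX 1 b = b
    rw [map_one]; rfl
  mul_smul g h b := by
    show funRep α hX (g * h) b = funRep α hX g (funRep α hX h b)
    rw [map_mul]; rfl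
  smul_zero g := map_zero _
  smul_add g b c := map_add _ b c
  smul_one g := rfl
  smul_mul g b c := rfl

/-- Zariski closed subsets of affine space. -/
def IsClosedSet (X : Set (κ → ℂ)) : Prop :=
  ∃ T : Set (MvPolynomial κ ℂ), X = {x | ∀ P ∈ T, MvPolynomial.eval x P = 0}

end FunAct

/-! ### Differentials of characters -/

section Diff

variable {ι : Type} [Fintype ι] [DecidableEq ι]

/-- `D` is the differential of the character `ξ`: `ξ(exp(ty)) = e^{t D(y)}`. -/
def IsDiff (G : Subgroup (GL ι ℂ)) (ξ : G →* ℂˣ) (D : Module.Dual ℂ (lieAlg G)) : Prop :=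
  ∀ (y : lieAlg G) (t : ℂ) (g : G), (g : GL ι ℂ).val = NormedSpace.exp (t • y.val) →
    ((ξ g : ℂˣ) : ℂ) = Complex.exp (t * D y)

/-- A regular character. -/
def IsRegChar (G : Subgroup (GL ι ℂ)) (ξ : G →* ℂˣ) : Prop :=
  IsRegularFn G (fun g => ((ξ g : ℂˣ) : ℂ))

end Diff

end HamRed
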