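import Pool.Agent.HamRed.Base

open MvPolynomial

namespace HamRed

variable {D B G : Type*} [CommRing D] [IsDomain D] [CommRing B] [IsDomain B] [Algebra D B]
  [Group G] [MulSemiringAction G B]

omit [IsDomain D] [IsDomain B] in
/-- C0 : a ring of invariants with a Reynolds operator is Noetherian. -/
theorem C0_noetherian [IsNoetherianRing B] (hinj : Function.Injective (algebraMap D B))
    (E : B →+ B) (hE1 : ∀ (a : D) (b : B), E (algebraMap D B a * b) = algebraMap D B a * E b)
    (hE2 : ∀ b : B, E b ∈ Set.range (algebraMap D B))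
    (hE3 : ∀ a : D, E (algebraMap D B a) = algebraMap D B a) : IsNoetherianRing D := by
  have key : ∀ (I : Ideal D) (b : B), b ∈ I.map (algebraMap D B) →
      ∀ c : B, ∃ a ∈ I, algebraMap D B a = E (c * b) := by
    intro I b hb
    induction hb using Submodule.span_induction with
    | mem x hx =>
      obtain ⟨a, ha, rfl⟩ := hx
      intro c
      obtain ⟨e, he⟩ := hE2 c
      refine ⟨a * e, I.mul_mem_right _ ha, ?_⟩
      rw [mul_comm c, hE1, map_mul, he]
    | zero => exact fun c => ⟨0, I.zero_mem, by simp⟩
    | add x y _ _ hx hy =>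
      intro c
      obtain ⟨a, ha, hae⟩ := hx c
      obtain ⟨a', ha', hae'⟩ := hy c
      exact ⟨a + a', I.add_mem ha ha', by rw [map_add, hae, hae', mul_add, map_add]⟩
    | smul r x _ hx =>
      intro c
      obtain ⟨a, ha, hae⟩ := hx (c * r)
      exact ⟨a, ha, by rw [hae, smul_eq_mul, mul_assoc]⟩
  have hcm : ∀ I : Ideal D, (I.map (algebraMap D B)).comap (algebraMap D B) = I := by
    intro I
    refine le_antisymm (fun x hx => ?_) Ideal.le_comap_map
    obtain ⟨a, ha, hae⟩ := key I _ hx 1
    rw [one_mul, hE3] at hae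
    exact hinj hae ▸ ha
  have hmono : StrictMono (fun I : Ideal D => I.map (algebraMap D B)) := by
    refine Monotone.strictMono_of_injective (fun I J h => Ideal.map_mono h) fun I J h => ?_
    rw [← hcm I, ← hcm J]
    exact congrArg _ h
  have hw : WellFoundedGT (Ideal B) := inferInstance
  exact isNoetherian_iff'.2 hmono.wellFoundedGT

end HamRed
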