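import Pool.Agent.HamRed.Base

open MvPolynomial

namespace HamRed

variable {D B G : Type*} [CommRing D] [IsDomain D] [CommRing B] [IsDomain B] [Algebra D B]
  [Group G] [MulSemiringAction G B]

/-- C1 : invariants of a normal domain. -/
theorem C1_normal [IsIntegrallyClosed B] (hinj : Function.Injective (algebraMap D B))
    (hD : ∀ b : B, (∀ g : G, g • b = b) ↔ b ∈ Set.range (algebraMap D B)) :
    IsIntegrallyClosed D := by
  rw [isIntegrallyClosed_iff (FractionRing D)]
  intro x hx
  have hinjL : Function.Injective (algebraMap D (FractionRing B)) := by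
    rw [IsScalarTower.algebraMap_eq D B (FractionRing B)]
    exact (IsFractionRing.injective B (FractionRing B)).comp hinj
  let φ : FractionRing D →ₐ[D] FractionRing B :=
    IsFractionRing.liftAlgHom (g := Algebra.ofId D (FractionRing B)) hinjL
  have h1 : IsIntegral B (φ x) := (hx.map φ).tower_top
  obtain ⟨β, hβ⟩ := (isIntegrallyClosed_iff (FractionRing B)).1 ‹_› h1
  obtain ⟨a, b, hb, hab⟩ := IsFractionRing.div_surjective (A := D) x
  have hb0 : b ≠ 0 := nonZeroDivisors.ne_zero hb
  have hb1 : algebraMap D B b ≠ 0 := fun h => hb0 (hinj (by rw [h, map_zero]))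
  have hbK : algebraMap D (FractionRing D) b ≠ 0 := fun h =>
    hb0 (IsFractionRing.injective D (FractionRing D) (by rw [h, map_zero]))
  have h2 : β * algebraMap D B b = algebraMap D B a := by
    apply IsFractionRing.injective B (FractionRing B)
    rw [map_mul, hβ, ← IsScalarTower.algebraMap_apply, ← IsScalarTower.algebraMap_apply,
      ← φ.commutes b, ← φ.commutes a, ← map_mul, ← hab, div_mul_cancel₀ _ hbK]
  obtain ⟨d, hd⟩ := (hD β).1 fun g => by
    apply mul_right_cancel₀ hb1
    have h3 := congrArg (fun y => g • y) h2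
    simp only [smul_mul'] at h3
    rw [(hD (algebraMap D B b)).2 ⟨b, rfl⟩ g, (hD (algebraMap D B a)).2 ⟨a, rfl⟩ g] at h3
    rw [h3, h2]
  refine ⟨d, ?_⟩
  have h4 : d * b = a := hinj (by rw [map_mul, hd, h2])
  rw [← hab, ← h4, map_mul, mul_div_cancel_right₀ _ hbK]

end HamRed
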