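import Pool.Agent.HamRed.Base

open MvPolynomial

namespace HamRed

variable {D B G : Type*} [CommRing D] [IsDomain D] [CommRing B] [IsDomain B] [Algebra D B]
  [Group G] [MulSemiringAction G B]

omit [IsDomain D] in
/-- Distinct prime divisors are not contained in each other. -/
theorem C3_not_le {P Q : Ideal D} (hP : P.IsPrime) (hP1 : P.height = 1)
    (hQ1 : Q.height = 1) (hne : P ≠ Q) : ¬ P ≤ Q := by
  intro hle
  have hlt : P < Q := lt_of_le_of_ne hle hne
  have hfin : P.FiniteHeight := P.finiteHeight_iff.mpr (Or.inr (by rw [hP1]; exact ENat.one_ne_top))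
  have := Ideal.height_strict_mono_of_isPrime hlt
  rw [hP1, hQ1] at this
  exact lt_irrefl _ this

/-- The localisation of a normal Noetherian domain at a prime of height one is a DVR. -/
theorem C3_dvr [IsNoetherianRing D] [IsIntegrallyClosed D] (P : Ideal D) [hP : P.IsPrime]
    (h1 : P.height = 1) :
    IsDiscreteValuationRing (Localization.AtPrime P) := by
  have hle : P.primeCompl ≤ nonZeroDivisors D := P.primeCompl_le_nonZeroDivisors
  have hnoeth : IsNoetherianRing (Localization.AtPrime P) :=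
    IsLocalization.isNoetherianRing P.primeCompl _ inferInstance
  have hdom : IsDomain (Localization.AtPrime P) := IsLocalization.isDomain_localization hle
  have hcl : IsIntegrallyClosed (Localization.AtPrime P) :=
    isIntegrallyClosed_of_isLocalization _ P.primeCompl hle
  have hbot : P ≠ ⊥ := Ideal.ne_bot_of_height_eq_one h1
  have hinj : Function.Injective (algebraMap D (Localization.AtPrime P)) :=
    IsLocalization.injective _ hle
  have hmax : IsLocalRing.maximalIdeal (Localization.AtPrime P) ≠ ⊥ := by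
    intro h0
    apply hbot
    rw [← Localization.AtPrime.under_maximalIdeal (I := P), h0, eq_bot_iff]
    intro x hx
    have : algebraMap D (Localization.AtPrime P) x = 0 := hx
    exact hinj (by rw [this, map_zero])
  have hnf : ¬ IsField (Localization.AtPrime P) := by
    rw [IsLocalRing.isField_iff_maximalIdeal_eq]
    exact hmax
  suffices huniq : ∃! J : Ideal (Localization.AtPrime P), J ≠ ⊥ ∧ J.IsPrime by
    have h30 := (IsDiscreteValuationRing.TFAE (Localization.AtPrime P) hnf).out 3 0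
    exact h30.1 ⟨hcl, huniq⟩
  refine ⟨IsLocalRing.maximalIdeal _, ⟨hmax, inferInstance⟩, ?_⟩
  rintro J ⟨hJ0, hJ⟩
  rw [← Localization.AtPrime.eq_maximalIdeal_iff_under_eq]
  have hJle : J.under D ≤ P := by
    have h2 : J ≤ IsLocalRing.maximalIdeal _ := IsLocalRing.le_maximalIdeal hJ.ne_top
    have h3 := Ideal.comap_mono (f := algebraMap D (Localization.AtPrime P)) h2
    have h4 := Localization.AtPrime.under_maximalIdeal (I := P)
    rw [Ideal.under] at h4
    rw [h4] at h3
    exact h3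
  have hJprime : (J.under D).IsPrime := hJ.comap _
  by_contra hne
  have hlt : J.under D < P := lt_of_le_of_ne hJle hne
  have hfin : P.FiniteHeight := P.finiteHeight_iff.mpr (Or.inr (by rw [h1]; exact ENat.one_ne_top))
  have := Ideal.height_strict_mono_of_isPrime_of_isPrime hlt
  rw [h1, Order.lt_one_iff, Ideal.height_eq_zero_iff_eq_bot] at this
  apply hJ0
  rw [← IsLocalization.map_under P.primeCompl (Localization.AtPrime P) J, this, Ideal.map_bot]

/-- The order function of a prime divisor. -/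
theorem C3_ord [IsNoetherianRing D] [IsIntegrallyClosed D] (P : Ideal D) (hP : P.IsPrime)
    (h1 : P.height = 1) :
    ∃ v : D → ℕ∞, (∀ x, v x = ⊤ ↔ x = 0) ∧ (∀ x y, v (x * y) = v x + v y) ∧
      (∀ k x, InSymb P k x ↔ (k : ℕ∞) ≤ v x) ∧ (∀ x n, v (x ^ n) = n • v x) ∧
      ∃ a ∈ P, v a = 1 := by
  have hle : P.primeCompl ≤ nonZeroDivisors D := P.primeCompl_le_nonZeroDivisors
  have hdom : IsDomain (Localization.AtPrime P) := IsLocalization.isDomain_localization hle
  have hdvr := C3_dvr P h1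
  have hinj : Function.Injective (algebraMap D (Localization.AtPrime P)) :=
    IsLocalization.injective _ hle
  obtain ⟨ϖ, hϖ⟩ := IsDiscreteValuationRing.exists_irreducible (Localization.AtPrime P)
  have hsymb : ∀ (k : ℕ) (x : D), InSymb P k x ↔
      (k : ℕ∞) ≤ IsDiscreteValuationRing.addVal (Localization.AtPrime P) (algebraMap D _ x) := by
    intro k x
    rw [← hϖ.addVal_pow k, IsDiscreteValuationRing.addVal_le_iff_dvd, ← Ideal.mem_span_singleton,
      ← Ideal.span_singleton_pow, ← hϖ.maximalIdeal_eq, ← Localization.AtPrime.map_eq_maximalIdeal,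
      ← Ideal.map_pow, IsLocalization.algebraMap_mem_map_algebraMap_iff P.primeCompl]
    rfl
  refine ⟨fun x => IsDiscreteValuationRing.addVal (Localization.AtPrime P) (algebraMap D _ x),
    ?_, ?_, hsymb, ?_, ?_⟩
  · intro x
    rw [IsDiscreteValuationRing.addVal_eq_top_iff]
    exact map_eq_zero_iff _ hinj
  · intro x y
    simp only [map_mul]
    exact IsDiscreteValuationRing.addVal_mul
  · intro x n
    simp only [map_pow]
    exact IsDiscreteValuationRing.addVal_pow _ _
  · obtain ⟨a, s, has⟩ := IsLocalization.exists_mk'_eq P.primeCompl ϖ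
    have hva : IsDiscreteValuationRing.addVal (Localization.AtPrime P) (algebraMap D _ a) = 1 := by
      have : algebraMap D (Localization.AtPrime P) a = ϖ * algebraMap D _ s := by
        rw [← has, IsLocalization.mk'_spec]
      rw [this, IsDiscreteValuationRing.addVal_mul, IsDiscreteValuationRing.addVal_uniformizer hϖ]
      have hu : IsUnit (algebraMap D (Localization.AtPrime P) (s : D)) :=
        IsLocalization.map_units _ s
      rw [← hu.unit_spec, IsDiscreteValuationRing.addVal_eq_zero_of_unit, add_zero]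
    refine ⟨a, ?_, hva⟩
    obtain ⟨t, ht, hta⟩ := (hsymb 1 a).2 (by rw [hva]; exact le_rfl)
    rw [pow_one] at hta
    exact (hP.mem_or_mem hta).resolve_left ht

omit [IsDomain D] in
theorem C3_hasOrd_iff {P : Ideal D} {v : D → ℕ∞}
    (hv : ∀ (k : ℕ) (x : D), InSymb P k x ↔ (k : ℕ∞) ≤ v x) (x : D) (k : ℕ) :
    HasOrd P x k ↔ v x = k := by
  unfold HasOrd
  rw [hv, hv, not_le]
  constructor
  · rintro ⟨h1, h2⟩
    refine le_antisymm ?_ h1
    rw [Nat.cast_add, Nat.cast_one] at h2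
    exact ENat.lt_add_one_iff (ENat.natCast_ne_top k) |>.1 h2
  · intro h
    rw [h]
    refine ⟨le_rfl, ?_⟩
    exact_mod_cast Nat.lt_succ_self k

theorem C3_hasOrd_mul [IsNoetherianRing D] [IsIntegrallyClosed D] (P : PrimeDivisor D) {x y : D}
    {i j : ℕ} (hx : HasOrd P.1 x i) (hy : HasOrd P.1 y j) : HasOrd P.1 (x * y) (i + j) := by
  obtain ⟨v, -, h2, h3, -⟩ := C3_ord P.1 P.2.1 P.2.2
  rw [C3_hasOrd_iff h3] at hx hy ⊢
  rw [h2, hx, hy, Nat.cast_add]

theorem C3_hasOrd_one [IsNoetherianRing D] [IsIntegrallyClosed D] (P : PrimeDivisor D) :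
    HasOrd P.1 (1 : D) 0 := by
  obtain ⟨v, h1, h2, h3, -⟩ := C3_ord P.1 P.2.1 P.2.2
  rw [C3_hasOrd_iff h3]
  have h4 := h2 1 1
  rw [mul_one] at h4
  have h5 : v 1 ≠ ⊤ := fun h => one_ne_zero ((h1 1).1 h)
  lift v 1 to ℕ using h5 with n
  have h6 : n = n + n := by exact_mod_cast h4
  have h7 : n = 0 := by omega
  exact_mod_cast h7

/-- The Cartier divisors form a subgroup. -/
noncomputable def C3_cartier (D : Type*) [CommRing D] [IsDomain D] [IsNoetherianRing D]
    [IsIntegrallyClosed D] : AddSubgroup (PrimeDivisor D →₀ ℤ) where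
  carrier := {E | IsCartier E}
  zero_mem' := by
    intro 𝔪 _
    refine ⟨1, 1, one_ne_zero, one_ne_zero, fun P _ => ⟨0, 0, C3_hasOrd_one P, C3_hasOrd_one P, ?_⟩⟩
    simp
  add_mem' := by
    intro E F hE hF 𝔪 h𝔪
    obtain ⟨a, b, ha, hb, h⟩ := hE 𝔪 h𝔪
    obtain ⟨a', b', ha', hb', h'⟩ := hF 𝔪 h𝔪
    refine ⟨a * a', b * b', mul_ne_zero ha ha', mul_ne_zero hb hb', fun P hP => ?_⟩
    obtain ⟨i, j, hi, hj, hij⟩ := h P hP
    obtain ⟨i', j', hi', hj', hij'⟩ := h' P hP
    refine ⟨i + i', j + j', C3_hasOrd_mul P hi hi', C3_hasOrd_mul P hj hj', ?_⟩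
    rw [Finsupp.add_apply, ← hij, ← hij']
    push_cast
    ring
  neg_mem' := by
    intro E hE 𝔪 h𝔪
    obtain ⟨a, b, ha, hb, h⟩ := hE 𝔪 h𝔪
    refine ⟨b, a, hb, ha, fun P hP => ?_⟩
    obtain ⟨i, j, hi, hj, hij⟩ := h P hP
    refine ⟨j, i, hj, hi, ?_⟩
    rw [Finsupp.neg_apply, ← hij]
    ring

/-- Local generators of a symbolic power. -/
theorem C3_local [IsNoetherianRing D] [IsIntegrallyClosed D]
    (hinj : Function.Injective (algebraMap D B))
    (hD : ∀ b : B, (∀ g : G, g • b = b) ↔ b ∈ Set.range (algebraMap D B))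
    (P : Ideal D) (hP : P.IsPrime) (hP1 : P.height = 1)
    (h : B) (ξ : G → Bˣ) (h0 : h ≠ 0) (hξ : ∀ g, g • h = (ξ g : B) * h)
    (hsymb : ∀ (N : ℕ) (x : D), InSymb P N x ↔ h ^ N ∣ algebraMap D B x)
    (N : ℕ) (k : ℕ) (q q' : Fin k → B)
    (hq : ∀ i g, ((ξ g : B)) ^ N * (g • q i) = q i)
    (hq' : ∀ i g, g • q' i = ((ξ g : B)) ^ N * q' i)
    (hsum : ∑ i, q i * q' i = 1) (𝔪 : Ideal D) (h𝔪 : 𝔪.IsMaximal) :
    ∃ c : D, c ≠ 0 ∧ ∀ Q : PrimeDivisor D, Q.1 ≤ 𝔪 →
      (Q.1 = P → HasOrd Q.1 c N) ∧ (Q.1 ≠ P → HasOrd Q.1 c 0) := by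
  have hN0 : h ^ N ≠ 0 := pow_ne_zero _ h0
  -- the invariants `h^N q_i`
  have hc : ∀ i, ∃ c : D, algebraMap D B c = h ^ N * q i := fun i =>
    (hD _).1 fun g => by
      rw [smul_mul', smul_pow', hξ, mul_pow]
      calc ((ξ g : B) ^ N * h ^ N) * (g • q i) = h ^ N * ((ξ g : B) ^ N * (g • q i)) := by ring
        _ = h ^ N * q i := by rw [hq]
  choose c hc using hc
  -- the invariants `q_i q'_i`
  have he : ∀ i, ∃ e : D, algebraMap D B e = q i * q' i := fun i =>
    (hD _).1 fun g => by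
      rw [smul_mul', hq']
      calc (g • q i) * ((ξ g : B) ^ N * q' i) = ((ξ g : B) ^ N * (g • q i)) * q' i := by ring
        _ = q i * q' i := by rw [hq]
  choose e he using he
  have hesum : ∑ i, e i = 1 := by
    apply hinj
    rw [map_sum, map_one, ← hsum]
    exact Finset.sum_congr rfl fun i _ => he i
  obtain ⟨i, hi⟩ : ∃ i, e i ∉ 𝔪 := by
    by_contra hcon
    push Not at hcon
    apply h𝔪.ne_top
    rw [Ideal.eq_top_iff_one, ← hesum]
    exact Ideal.sum_mem _ fun i _ => hcon i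
  -- the key relation
  have hkey : ∀ x : D, InSymb P N x → ∃ y : D, e i * x = c i * y := by
    intro x hx
    obtain ⟨b, hb⟩ := (hsymb N x).1 hx
    obtain ⟨y, hy⟩ := (hD (q' i * b)).1 fun g => by
      apply mul_left_cancel₀ hN0
      have hgx : g • algebraMap D B x = algebraMap D B x := (hD _).2 ⟨x, rfl⟩ g
      rw [hb, smul_mul', smul_pow', hξ, mul_pow] at hgx
      rw [smul_mul', hq']
      calc h ^ N * ((ξ g : B) ^ N * q' i * (g • b))
          = q' i * ((ξ g : B) ^ N * h ^ N * (g • b)) := by ring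
        _ = h ^ N * (q' i * b) := by
            rw [hgx]
            ring
    refine ⟨y, hinj ?_⟩
    rw [map_mul, map_mul, he, hb, hc, hy]
    ring
  have hei : e i ≠ 0 := fun h => hi (h ▸ 𝔪.zero_mem)
  have hqi : q i ≠ 0 := by
    intro h
    apply hei
    apply hinj
    rw [he, h, zero_mul, map_zero]
  have hci : c i ≠ 0 := by
    intro h
    have := hc i
    rw [h, map_zero] at this
    exact mul_ne_zero hN0 hqi this.symm
  refine ⟨c i, hci, fun Q hQ𝔪 => ⟨fun hQP => ?_, fun hQP => ?_⟩⟩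
  · -- `Q = P`
    obtain ⟨v, v1, v2, v3, v4, a, haP, hva⟩ := C3_ord P hP hP1
    rw [hQP] at hQ𝔪 ⊢
    rw [C3_hasOrd_iff v3]
    refine le_antisymm ?_ ((v3 N _).1 ((hsymb N _).2 ⟨q i, hc i⟩))
    have hvaN : v (a ^ N) = N := by
      rw [v4, hva, nsmul_one]
    obtain ⟨y, hy⟩ := hkey (a ^ N) ((v3 _ _).2 hvaN.ge)
    have hve : v (e i) = 0 := by
      by_contra hne
      have h1 : (1 : ℕ∞) ≤ v (e i) := Order.one_le_iff_ne_zero.2 hne
      obtain ⟨s, hs, hse⟩ := (v3 1 (e i)).2 (by exact_mod_cast h1)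
      rw [pow_one] at hse
      exact hi (hQ𝔪 ((hP.mem_or_mem hse).resolve_left hs))
    have h2 := congrArg v hy
    rw [v2, v2, hve, hvaN, zero_add] at h2
    rw [h2]
    exact le_self_add
  · -- `Q ≠ P`
    have hQ := Q.2.1
    obtain ⟨x, hxP, hxQ⟩ := Set.not_subset.1 (C3_not_le hP hP1 Q.2.2 fun h => hQP h.symm)
    obtain ⟨y, hy⟩ := hkey (x ^ N) ⟨1, fun h => hP.ne_top ((Ideal.eq_top_iff_one _).2 h), by
      rw [one_mul]
      exact Ideal.pow_mem_pow hxP N⟩
    have hcQ : c i ∉ Q.1 := by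
      intro hcQ
      have h1 : e i * x ^ N ∈ Q.1 := by
        rw [hy]
        exact Ideal.mul_mem_right _ _ hcQ
      rcases hQ.mem_or_mem h1 with h2 | h2
      · exact hi (hQ𝔪 h2)
      · exact hxQ (hQ.mem_of_pow_mem _ h2)
    refine ⟨⟨1, fun h => hQ.ne_top ((Ideal.eq_top_iff_one _).2 h), by simp⟩, ?_⟩
    rintro ⟨s, hs, hsc⟩
    rw [zero_add, pow_one] at hsc
    rcases hQ.mem_or_mem hsc with h2 | h2
    · exact hs h2
    · exact hcQ h2

/-- C3 : local generators of a symbolic power, hence `ℚ`-factoriality. -/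
theorem C3_qfactorial [IsNoetherianRing D] [IsIntegrallyClosed D]
    (hinj : Function.Injective (algebraMap D B))
    (hD : ∀ b : B, (∀ g : G, g • b = b) ↔ b ∈ Set.range (algebraMap D B))
    (H : ∀ P : Ideal D, P.IsPrime → P.height = 1 → ∃ (h : B) (ξ : G → Bˣ), h ≠ 0 ∧
      (∀ g, g • h = (ξ g : B) * h) ∧
      (∀ (N : ℕ) (x : D), InSymb P N x ↔ h ^ N ∣ algebraMap D B x) ∧
      ∃ N : ℕ, 0 < N ∧ ∃ (k : ℕ) (q q' : Fin k → B),
        (∀ i g, ((ξ g : B)) ^ N * (g • q i) = q i) ∧ (∀ i g, g • q' i = ((ξ g : B)) ^ N * q' i) ∧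
        ∑ i, q i * q' i = 1) : IsQFactorial D := by
  classical
  refine ⟨inferInstance, inferInstance, inferInstance, ?_⟩
  -- a multiple of each prime divisor is Cartier
  have hsingle : ∀ P : PrimeDivisor D, ∃ N : ℕ, 0 < N ∧
      Finsupp.single P (N : ℤ) ∈ C3_cartier D := by
    intro P
    obtain ⟨h, ξ, h0, hξ, hsymb, N, hN, k, q, q', hq, hq', hsum⟩ := H P.1 P.2.1 P.2.2
    refine ⟨N, hN, fun 𝔪 h𝔪 => ?_⟩
    obtain ⟨c, hc, hcQ⟩ := C3_local hinj hD P.1 P.2.1 P.2.2 h ξ h0 hξ hsymb N k q q' hq hq' hsum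
      𝔪 h𝔪
    refine ⟨c, 1, hc, one_ne_zero, fun Q hQ => ?_⟩
    by_cases hQP : Q = P
    · refine ⟨N, 0, (hcQ Q hQ).1 (by rw [hQP]), C3_hasOrd_one Q, ?_⟩
      rw [hQP, Finsupp.single_eq_same]
      simp
    · refine ⟨0, 0, (hcQ Q hQ).2 fun h => hQP (Subtype.ext h), C3_hasOrd_one Q, ?_⟩
      rw [Finsupp.single_apply, if_neg fun h => hQP h.symm]
      simp
  intro E
  induction E using Finsupp.induction_linear with
  | zero => exact ⟨1, one_pos, by
      rw [smul_zero]
      exact (C3_cartier D).zero_mem⟩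
  | add E F hE hF =>
    obtain ⟨N, hN, hNE⟩ := hE
    obtain ⟨M, hM, hMF⟩ := hF
    refine ⟨N * M, mul_pos hN hM, ?_⟩
    have h1 : M • (N • E) ∈ C3_cartier D := (C3_cartier D).nsmul_mem hNE M
    have h2 : N • (M • F) ∈ C3_cartier D := (C3_cartier D).nsmul_mem hMF N
    have h3 : (N * M) • (E + F) = M • (N • E) + N • (M • F) := by
      rw [smul_add, smul_smul, smul_smul, mul_comm M N]
    rw [h3]
    exact (C3_cartier D).add_mem h1 h2
  | single P k =>
    obtain ⟨N, hN, hNP⟩ := hsingle P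
    refine ⟨N, hN, ?_⟩
    have h1 : k • Finsupp.single P (N : ℤ) ∈ C3_cartier D := (C3_cartier D).zsmul_mem hNP k
    have h2 : N • Finsupp.single P k = k • Finsupp.single P (N : ℤ) := by
      rw [Finsupp.smul_single, Finsupp.smul_single]
      congr 1
      simp [mul_comm]
    rw [h2]
    exact h1

end HamRed
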