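import Pool.Agent.HamRed.Base
import Pool.Agent.HamRed.C3

open MvPolynomial

namespace HamRed

variable {D B G : Type*} [CommRing D] [IsDomain D] [CommRing B] [IsDomain B] [Algebra D B]
  [Group G] [MulSemiringAction G B]

/-- A local generator of the symbolic powers of a prime divisor. -/
theorem C2_gen [IsNoetherianRing D] [IsIntegrallyClosed D] (P : Ideal D) [hP : P.IsPrime]
    (h1 : P.height = 1) :
    ∃ a : D, a ≠ 0 ∧ ∀ (N : ℕ) (x : D), InSymb P N x ↔ ∃ s, s ∉ P ∧ a ^ N ∣ s * x := by
  have hle : P.primeCompl ≤ nonZeroDivisors D := P.primeCompl_le_nonZeroDivisors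
  have hdom : IsDomain (Localization.AtPrime P) := IsLocalization.isDomain_localization hle
  have hdvr := C3_dvr P h1
  have hinj : Function.Injective (algebraMap D (Localization.AtPrime P)) :=
    IsLocalization.injective _ hle
  obtain ⟨ϖ, hϖ⟩ := IsDiscreteValuationRing.exists_irreducible (Localization.AtPrime P)
  obtain ⟨a, t, has⟩ := IsLocalization.exists_mk'_eq P.primeCompl ϖ
  have hat : algebraMap D (Localization.AtPrime P) a = ϖ * algebraMap D _ t := by
    rw [← has, IsLocalization.mk'_spec]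
  have hut : IsUnit (algebraMap D (Localization.AtPrime P) (t : D)) := IsLocalization.map_units _ t
  have ha : Associated ϖ (algebraMap D (Localization.AtPrime P) a) := by
    rw [hat]
    exact (associated_mul_unit_left _ _ hut).symm
  have hspan : IsLocalRing.maximalIdeal (Localization.AtPrime P) =
      Ideal.span {algebraMap D (Localization.AtPrime P) a} := by
    rw [hϖ.maximalIdeal_eq]
    exact Ideal.span_singleton_eq_span_singleton.2 ha
  refine ⟨a, ?_, ?_⟩
  · rintro rfl
    rw [map_zero] at ha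
    exact hϖ.ne_zero ((associated_zero_iff_eq_zero _).1 ha)
  · intro N x
    have e1 : InSymb P N x ↔ algebraMap D (Localization.AtPrime P) x ∈
        (P ^ N).map (algebraMap D (Localization.AtPrime P)) := by
      rw [IsLocalization.algebraMap_mem_map_algebraMap_iff P.primeCompl]
      rfl
    have e2 : (P ^ N).map (algebraMap D (Localization.AtPrime P)) =
        (Ideal.span {a ^ N}).map (algebraMap D (Localization.AtPrime P)) := by
      rw [Ideal.map_pow, Localization.AtPrime.map_eq_maximalIdeal, hspan, Ideal.span_singleton_pow,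
        Ideal.map_span, Set.image_singleton, map_pow]
    rw [e1, e2, IsLocalization.algebraMap_mem_map_algebraMap_iff P.primeCompl]
    simp only [Ideal.mem_span_singleton]
    rfl

/-- C2 : the semi-invariant attached to a prime divisor. -/
theorem C2_divisor [UniqueFactorizationMonoid B] [IsNoetherianRing D] [IsIntegrallyClosed D]
    (hinj : Function.Injective (algebraMap D B))
    (hD : ∀ b : B, (∀ g : G, g • b = b) ↔ b ∈ Set.range (algebraMap D B))
    (P : Ideal D) [P.IsPrime] (hP : P.height = 1) :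
    ∃ (h : B) (ξ : G → Bˣ), h ≠ 0 ∧ (∀ g, g • h = (ξ g : B) * h) ∧
      ∀ (N : ℕ) (x : D), InSymb P N x ↔ h ^ N ∣ algebraMap D B x := by
  classical
  have hPp : P.IsPrime := inferInstance
  obtain ⟨a, ha0, ha⟩ := C2_gen P hP
  have hAa0 : algebraMap D B a ≠ 0 := fun h => ha0 (hinj (by rw [h, map_zero]))
  -- factorisation
  let F : Multiset B := UniqueFactorizationMonoid.factors (algebraMap D B a)
  have hFprime : ∀ p ∈ F, Prime p := UniqueFactorizationMonoid.prime_of_factor
  have hFprod : Associated F.prod (algebraMap D B a) :=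
    UniqueFactorizationMonoid.factors_prod hAa0
  let bad : B → Prop := fun p => ∃ s : D, s ∉ P ∧ p ∣ algebraMap D B s
  let Fb := F.filter bad
  let Fg := F.filter fun p => ¬ bad p
  have hsplit : Fb.prod * Fg.prod = F.prod := by
    rw [← Multiset.prod_add, Multiset.filter_add_not]
  set h : B := Fg.prod with hh
  -- the bad part divides an element of the complement
  have hbadprod : ∀ M : Multiset B, (∀ p ∈ M, bad p) → bad M.prod := by
    intro M
    induction M using Multiset.induction_on with
    | empty => exact fun _ => ⟨1, fun h => hPp.ne_top ((Ideal.eq_top_iff_one _).2 h), by simp⟩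
    | cons p M ih =>
      intro hM
      obtain ⟨s, hs, hps⟩ := hM p (Multiset.mem_cons_self p M)
      obtain ⟨t, ht, hMt⟩ := ih fun q hq => hM q (Multiset.mem_cons_of_mem hq)
      refine ⟨s * t, fun hst => (hPp.mem_or_mem hst).elim hs ht, ?_⟩
      rw [Multiset.prod_cons, map_mul]
      exact mul_dvd_mul hps hMt
  obtain ⟨s₀, hs₀, hub⟩ := hbadprod Fb fun p hp => (Multiset.mem_filter.1 hp).2
  have ha_dvd : algebraMap D B a ∣ algebraMap D B s₀ * h := by
    refine hFprod.symm.dvd.trans ?_
    rw [← hsplit]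
    exact mul_dvd_mul hub dvd_rfl
  have h_dvd_a : h ∣ algebraMap D B a :=
    (Dvd.intro_left Fb.prod hsplit).trans hFprod.dvd
  have h0 : h ≠ 0 := fun h' => hAa0 (by
    rw [h'] at h_dvd_a
    exact zero_dvd_iff.1 h_dvd_a)
  -- coprimality
  have hcop : ∀ s : D, s ∉ P → IsRelPrime h (algebraMap D B s) := by
    intro s hs
    rw [UniqueFactorizationMonoid.isRelPrime_iff_no_prime_factors h0]
    intro p hph hps hp
    obtain ⟨q, hq, hpq⟩ := hp.exists_mem_multiset_dvd hph
    obtain ⟨hqF, hqb⟩ := Multiset.mem_filter.1 hq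
    have hqp : q ∣ p := ((hp.irreducible.dvd_comm (hFprime q hqF).irreducible).1 hpq)
    exact hqb ⟨s, hs, hqp.trans hps⟩
  have hcopN : ∀ (N : ℕ) (s : D) (b : B), s ∉ P → h ^ N ∣ algebraMap D B s * b → h ^ N ∣ b := by
    intro N s b hs hdvd
    exact (hcop s hs).pow_left.dvd_of_dvd_mul_left hdvd
  -- stability
  have hchar : ∀ b : B, h ∣ b ↔ ∃ s : D, s ∉ P ∧ algebraMap D B a ∣ algebraMap D B s * b := by
    intro b
    constructor
    · intro hb
      exact ⟨s₀, hs₀, ha_dvd.trans (mul_dvd_mul_left _ hb)⟩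
    · rintro ⟨s, hs, hdvd⟩
      have := hcopN 1 s b hs (by
        rw [pow_one]
        exact h_dvd_a.trans hdvd)
      rwa [pow_one] at this
  have hstab : ∀ (g : G) (b : B), h ∣ b → h ∣ g • b := by
    intro g b hb
    obtain ⟨s, hs, c, hc⟩ := (hchar b).1 hb
    refine (hchar _).2 ⟨s, hs, g • c, ?_⟩
    have h3 := congrArg (fun y => g • y) hc
    simp only [smul_mul'] at h3
    rwa [(hD (algebraMap D B s)).2 ⟨s, rfl⟩ g, (hD (algebraMap D B a)).2 ⟨a, rfl⟩ g] at h3
  have hassoc : ∀ g : G, ∃ u : Bˣ, g • h = (u : B) * h := by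
    intro g
    have h1 : h ∣ g • h := hstab g h dvd_rfl
    have h2 : g • h ∣ h := by
      obtain ⟨c, hc⟩ := hstab g⁻¹ h dvd_rfl
      refine ⟨g • c, ?_⟩
      have h3 := congrArg (fun y => g • y) hc
      simp only [smul_mul', smul_inv_smul] at h3
      exact h3
    obtain ⟨u, hu⟩ := associated_of_dvd_dvd h1 h2
    exact ⟨u, by rw [← hu, mul_comm]⟩
  choose ξ hξ using hassoc
  refine ⟨h, ξ, h0, hξ, ?_⟩
  intro N x
  rw [ha]
  constructor
  · rintro ⟨s, hs, hdvd⟩
    apply hcopN N s _ hs
    rw [← map_mul]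
    exact (pow_dvd_pow_of_dvd h_dvd_a N).trans (by
      rw [← map_pow]
      exact map_dvd _ hdvd)
  · intro hdvd
    refine ⟨s₀ ^ N, fun hs => hs₀ (hPp.mem_of_pow_mem _ hs), ?_⟩
    have h1 : algebraMap D B a ^ N ∣ algebraMap D B (s₀ ^ N * x) := by
      rw [map_mul, map_pow]
      refine (pow_dvd_pow_of_dvd ha_dvd N).trans ?_
      rw [mul_pow]
      exact mul_dvd_mul_left _ hdvd
    obtain ⟨b, hb⟩ := h1
    have haN : algebraMap D B a ^ N ≠ 0 := pow_ne_zero _ hAa0
    obtain ⟨d, hd⟩ := (hD b).1 fun g => by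
      apply mul_left_cancel₀ haN
      have h3 := congrArg (fun y => g • y) hb
      simp only [smul_mul', smul_pow'] at h3
      rw [(hD (algebraMap D B (s₀ ^ N * x))).2 ⟨_, rfl⟩ g,
        (hD (algebraMap D B a)).2 ⟨a, rfl⟩ g] at h3
      rw [← h3, hb]
    refine ⟨d, hinj ?_⟩
    rw [hb, map_mul, map_pow, hd]

end HamRed
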