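import Mathlib

/-!
# MP_3b8a02_ag : definitions

A reductive algebraic group `G` with a representation `V` is given in matrices as a Zariski closed
subgroup `G ≤ GL(V ⊕ W)`, `V = ℂⁿ` (first summand, index type `Fin n`), `W = ℂᵐ`, such that `V` is
`G`-stable (the lower left block of every `g ∈ G` is `0`).
-/

open MvPolynomial

namespace HamRed

section AlgGroups

variable {ι : Type} [Fintype ι] [DecidableEq ι]

/-- The value of a polynomial in the matrix entries at the matrix `A`. -/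
noncomputable def matEval (P : MvPolynomial (ι × ι) ℂ) (A : Matrix ι ι ℂ) : ℂ :=
  MvPolynomial.eval (fun p => A p.1 p.2) P

/-- `G ≤ GL_ι(ℂ)` is Zariski closed. -/
def IsZariskiClosed (G : Subgroup (GL ι ℂ)) : Prop :=
  ∃ T : Set (MvPolynomial (ι × ι) ℂ), ∀ g : GL ι ℂ, g ∈ G ↔ ∀ P ∈ T, matEval P g.val = 0

/-- Regular functions on `G`: polynomials in the entries of `g` and of `g⁻¹`. -/
def IsRegularFn (G : Subgroup (GL ι ℂ)) (φ : G → ℂ) : Prop :=
  ∃ P : MvPolynomial ((ι × ι) ⊕ (ι × ι)) ℂ, ∀ g : G,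
    φ g = MvPolynomial.eval
      (Sum.elim (fun p => (g : GL ι ℂ).val p.1 p.2) (fun p => ((g : GL ι ℂ)⁻¹).val p.1 p.2)) P

/-- A homomorphism `G → GL_κ(ℂ)` is a rational representation if its matrix coefficients are
regular functions. -/
def IsRationalRep {κ : Type} [Fintype κ] [DecidableEq κ] (G : Subgroup (GL ι ℂ))
    (ρ : G →* GL κ ℂ) : Prop :=
  ∀ i j : κ, IsRegularFn G (fun g => (ρ g).val i j)

/-- The subspace `U` is stable under the representation `ρ`. -/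
def IsStableUnder {κ : Type} [Fintype κ] [DecidableEq κ] (G : Subgroup (GL ι ℂ))
    (ρ : G →* GL κ ℂ) (U : Submodule ℂ (κ → ℂ)) : Prop :=
  ∀ g, ∀ u ∈ U, (ρ g).val.mulVec u ∈ U

/-- `G` is (linearly) reductive: every finite-dimensional rational representation is completely
reducible. -/
def IsLinearlyReductive (G : Subgroup (GL ι ℂ)) : Prop :=
  ∀ (k : ℕ) (ρ : G →* GL (Fin k) ℂ), IsRationalRep G ρ →
    ∀ U : Submodule ℂ (Fin k → ℂ), IsStableUnder G ρ U →
      ∃ U' : Submodule ℂ (Fin k → ℂ), IsStableUnder G ρ U' ∧ IsCompl U U'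

/-- `y` is tangent to `G` at `1`: the differential at `1` of every polynomial vanishing on `G`
kills `y`. -/
def IsTangent (G : Subgroup (GL ι ℂ)) (y : Matrix ι ι ℂ) : Prop :=
  ∀ P : MvPolynomial (ι × ι) ℂ, (∀ g ∈ G, matEval P g.val = 0) →
    ∑ p : ι × ι, matEval (pderiv p P) 1 * y p.1 p.2 = 0

theorem isTangent_zero (G : Subgroup (GL ι ℂ)) : IsTangent G 0 := by
  intro P _
  simp

theorem isTangent_add (G : Subgroup (GL ι ℂ)) {y z : Matrix ι ι ℂ} (hy : IsTangent G y)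
    (hz : IsTangent G z) : IsTangent G (y + z) := by
  intro P hP
  have h1 := hy P hP
  have h2 := hz P hP
  simp only [Matrix.add_apply, mul_add, Finset.sum_add_distrib, h1, h2, add_zero]

theorem isTangent_smul (G : Subgroup (GL ι ℂ)) (c : ℂ) {y : Matrix ι ι ℂ} (hy : IsTangent G y) :
    IsTangent G (c • y) := by
  intro P hP
  have h1 := hy P hP
  simp only [Matrix.smul_apply, smul_eq_mul]
  rw [show (∑ p : ι × ι, matEval (pderiv p P) 1 * (c * y p.1 p.2)) =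
    c * ∑ p : ι × ι, matEval (pderiv p P) 1 * y p.1 p.2 by
      rw [Finset.mul_sum]; exact Finset.sum_congr rfl fun p _ => by ring, h1, mul_zero]

/-- The Lie algebra of `G`: the Zariski tangent space at `1`. -/
def lieAlg (G : Subgroup (GL ι ℂ)) : Submodule ℂ (Matrix ι ι ℂ) where
  carrier := {y | IsTangent G y}
  zero_mem' := isTangent_zero G
  add_mem' := isTangent_add G
  smul_mem' := isTangent_smul G

/-- `χ ∈ 𝔤*` is `G`-invariant. -/
def IsInvariantForm (G : Subgroup (GL ι ℂ)) (χ : Module.Dual ℂ (lieAlg G)) : Prop :=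
  ∀ g ∈ G, ∀ y z : lieAlg G, z.val = g.val * y.val * (g⁻¹).val → χ z = χ y

/-- `χ ∈ 𝔤*` vanishes on `[𝔤, 𝔤]`. -/
def KillsBrackets (G : Subgroup (GL ι ℂ)) (χ : Module.Dual ℂ (lieAlg G)) : Prop :=
  ∀ y z w : lieAlg G, w.val = y.val * z.val - z.val * y.val → χ w = 0

/-- `χ` is a character of `𝔤`: a linear functional which is `G`-invariant and vanishes on
brackets. -/
def IsCharacter (G : Subgroup (GL ι ℂ)) (χ : Module.Dual ℂ (lieAlg G)) : Prop :=
  IsInvariantForm G χ ∧ KillsBrackets G χ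

theorem isCharacter_zero (G : Subgroup (GL ι ℂ)) : IsCharacter G 0 :=
  ⟨fun _ _ _ _ _ => rfl, fun _ _ _ _ => rfl⟩

theorem isCharacter_add (G : Subgroup (GL ι ℂ)) {χ χ' : Module.Dual ℂ (lieAlg G)}
    (h : IsCharacter G χ) (h' : IsCharacter G χ') : IsCharacter G (χ + χ') := by
  refine ⟨fun g hg y z e => ?_, fun y z w e => ?_⟩
  · simp only [LinearMap.add_apply, h.1 g hg y z e, h'.1 g hg y z e]
  · simp only [LinearMap.add_apply, h.2 y z w e, h'.2 y z w e, add_zero]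

theorem isCharacter_smul (G : Subgroup (GL ι ℂ)) (c : ℂ) {χ : Module.Dual ℂ (lieAlg G)}
    (h : IsCharacter G χ) : IsCharacter G (c • χ) := by
  refine ⟨fun g hg y z e => ?_, fun y z w e => ?_⟩
  · simp only [LinearMap.smul_apply, h.1 g hg y z e]
  · simp only [LinearMap.smul_apply, h.2 y z w e, smul_zero]

/-- The space `𝔛` of characters. -/
def charSpace (G : Subgroup (GL ι ℂ)) : Submodule ℂ (Module.Dual ℂ (lieAlg G)) where
  carrier := {χ | IsCharacter G χ}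
  zero_mem' := isCharacter_zero G
  add_mem' := isCharacter_add G
  smul_mem' := isCharacter_smul G

end AlgGroups

section Reduction

variable {n m : ℕ}

/-- `V = ℂⁿ` is a subrepresentation of `ℂⁿ ⊕ ℂᵐ`. -/
def PreservesFirst (G : Subgroup (GL (Fin n ⊕ Fin m) ℂ)) : Prop :=
  ∀ g ∈ G, g.val.toBlocks₂₁ = 0

/-- The action of a matrix `y ∈ 𝔤` (or `g ∈ G`) on `V = ℂⁿ`: its upper left block. -/
def onV (y : Matrix (Fin n ⊕ Fin m) (Fin n ⊕ Fin m) ℂ) : Matrix (Fin n) (Fin n) ℂ := y.toBlocks₁₁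

theorem onV_zero : onV (0 : Matrix (Fin n ⊕ Fin m) (Fin n ⊕ Fin m) ℂ) = 0 := rfl

theorem onV_add (y z : Matrix (Fin n ⊕ Fin m) (Fin n ⊕ Fin m) ℂ) :
    onV (y + z) = onV y + onV z := rfl

theorem onV_smul (c : ℂ) (y : Matrix (Fin n ⊕ Fin m) (Fin n ⊕ Fin m) ℂ) :
    onV (c • y) = c • onV y := rfl

/-- `y ∈ 𝔤` kills `v ∈ V`. -/
def Kills (G : Subgroup (GL (Fin n ⊕ Fin m) ℂ)) (v : Fin n → ℂ) (y : lieAlg G) : Prop :=
  (onV y.val).mulVec v = 0

theorem kills_zero (G : Subgroup (GL (Fin n ⊕ Fin m) ℂ)) (v : Fin n → ℂ) : Kills G v 0 := by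
  unfold Kills
  rw [Submodule.coe_zero, onV_zero, Matrix.zero_mulVec]

theorem kills_add (G : Subgroup (GL (Fin n ⊕ Fin m) ℂ)) (v : Fin n → ℂ) {y z : lieAlg G}
    (hy : Kills G v y) (hz : Kills G v z) : Kills G v (y + z) := by
  unfold Kills at *
  rw [Submodule.coe_add, onV_add, Matrix.add_mulVec, hy, hz, add_zero]

theorem kills_smul (G : Subgroup (GL (Fin n ⊕ Fin m) ℂ)) (v : Fin n → ℂ) (c : ℂ) {y : lieAlg G}
    (hy : Kills G v y) : Kills G v (c • y) := by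
  unfold Kills at *
  rw [Submodule.coe_smul, onV_smul, Matrix.smul_mulVec, hy, smul_zero]

/-- The stabiliser `𝔤_v = {y ∈ 𝔤 : y v = 0}` of `v ∈ V`; it is the Lie algebra of `G_v`. -/
def lieStab (G : Subgroup (GL (Fin n ⊕ Fin m) ℂ)) (v : Fin n → ℂ) :
    Submodule ℂ (lieAlg G) where
  carrier := {y | Kills G v y}
  zero_mem' := kills_zero G v
  add_mem' := kills_add G v
  smul_mem' := kills_smul G v

/-- Codimension of a subset of `ℂⁿ`: the height of its vanishing ideal (`⊤` for the empty set). -/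
noncomputable def codim (S : Set (Fin n → ℂ)) : ℕ∞ :=
  (MvPolynomial.vanishingIdeal ℂ S).height

/-- The stratum `V_(r) = {v : dim G_v = r}`. -/
def stratum (G : Subgroup (GL (Fin n ⊕ Fin m) ℂ)) (r : ℕ) : Set (Fin n → ℂ) :=
  {v | Module.finrank ℂ (lieStab G v) = r}

/-- Condition (iii) in the definition of a `k`-large representation:
`codim_V V_(r) ≥ r + k` for `1 ≤ r ≤ dim G`. -/
def LargeCondition (k : ℕ) (G : Subgroup (GL (Fin n ⊕ Fin m) ℂ)) : Prop :=
  ∀ r : ℕ, 1 ≤ r → r ≤ Module.finrank ℂ (lieAlg G) → ((r + k : ℕ) : ℕ∞) ≤ codim (stratum G r)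

/-- The value `λ(y v)` of the moment map. A point `x` of `T*V = V × V*` is a family of
coordinates indexed by `Fin n ⊕ Fin n`: `v = x ∘ inl`, `λ = x ∘ inr`. -/
def momentVal (x : Fin n ⊕ Fin n → ℂ) (y : Matrix (Fin n ⊕ Fin m) (Fin n ⊕ Fin m) ℂ) : ℂ :=
  dotProduct (fun j => x (Sum.inr j)) ((onV y).mulVec (fun j => x (Sum.inl j)))

theorem momentVal_add (x : Fin n ⊕ Fin n → ℂ) (y z : Matrix (Fin n ⊕ Fin m) (Fin n ⊕ Fin m) ℂ) :
    momentVal x (y + z) = momentVal x y + momentVal x z := by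
  unfold momentVal
  rw [onV_add, Matrix.add_mulVec, dotProduct_add]

theorem momentVal_smul (x : Fin n ⊕ Fin n → ℂ) (c : ℂ)
    (y : Matrix (Fin n ⊕ Fin m) (Fin n ⊕ Fin m) ℂ) :
    momentVal x (c • y) = c • momentVal x y := by
  unfold momentVal
  rw [onV_smul, Matrix.smul_mulVec, dotProduct_smul]

/-- The moment map `μ : T*V → 𝔤*`, `μ(v,λ)(y) = λ(y v)`. -/
def moment (G : Subgroup (GL (Fin n ⊕ Fin m) ℂ)) (x : Fin n ⊕ Fin n → ℂ) :
    Module.Dual ℂ (lieAlg G) where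
  toFun y := momentVal x y.val
  map_add' y z := momentVal_add x y.val z.val
  map_smul' c y := momentVal_smul x c y.val

/-- The action of `g` on `T*V`: `g(v,λ) = (g v, λ ∘ g⁻¹)`. -/
noncomputable def coAct (g : GL (Fin n ⊕ Fin m) ℂ) (x : Fin n ⊕ Fin n → ℂ) : Fin n ⊕ Fin n → ℂ :=
  Sum.elim ((onV g.val).mulVec (fun j => x (Sum.inl j)))
    (Matrix.vecMul (fun j => x (Sum.inr j)) (onV (g⁻¹).val))

/-- The fibre `μ⁻¹(χ)`. -/
def fibre (G : Subgroup (GL (Fin n ⊕ Fin m) ℂ)) (χ : Module.Dual ℂ (lieAlg G)) :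
    Set (Fin n ⊕ Fin n → ℂ) :=
  {x | moment G x = χ}

/-- `f` is (the restriction to `X` of) a polynomial function. -/
def IsPolyFun {κ : Type} (X : Set (κ → ℂ)) (f : X → ℂ) : Prop :=
  ∃ P : MvPolynomial κ ℂ, ∀ x : X, f x = MvPolynomial.eval (x : κ → ℂ) P

theorem isPolyFun_add {κ : Type} (X : Set (κ → ℂ)) {f g : X → ℂ} (hf : IsPolyFun X f)
    (hg : IsPolyFun X g) : IsPolyFun X (f + g) := by
  obtain ⟨P, hP⟩ := hf
  obtain ⟨Q, hQ⟩ := hg
  exact ⟨P + Q, fun x => by simp [hP x, hQ x]⟩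

theorem isPolyFun_mul {κ : Type} (X : Set (κ → ℂ)) {f g : X → ℂ} (hf : IsPolyFun X f)
    (hg : IsPolyFun X g) : IsPolyFun X (f * g) := by
  obtain ⟨P, hP⟩ := hf
  obtain ⟨Q, hQ⟩ := hg
  exact ⟨P * Q, fun x => by simp [hP x, hQ x]⟩

theorem isPolyFun_algebraMap {κ : Type} (X : Set (κ → ℂ)) (c : ℂ) :
    IsPolyFun X (algebraMap ℂ (X → ℂ) c) :=
  ⟨C c, fun x => by simp⟩

/-- The ring `ℂ[X]` of polynomial functions on a subset `X` of affine space. -/
def polyFun {κ : Type} (X : Set (κ → ℂ)) : Subalgebra ℂ (X → ℂ) where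
  carrier := {f | IsPolyFun X f}
  mul_mem' := isPolyFun_mul X
  add_mem' := isPolyFun_add X
  algebraMap_mem' := isPolyFun_algebraMap X

/-- `f` is a `G`-invariant function on the fibre `μ⁻¹(χ)`. -/
def IsInvariantFun (G : Subgroup (GL (Fin n ⊕ Fin m) ℂ)) (χ : Module.Dual ℂ (lieAlg G))
    (f : fibre G χ → ℂ) : Prop :=
  ∀ g ∈ G, ∀ x y : fibre G χ, y.val = coAct g x.val → f y = f x

/-- `f` is a `G`-invariant polynomial function on the fibre `μ⁻¹(χ)`. -/
def IsInvPoly (G : Subgroup (GL (Fin n ⊕ Fin m) ℂ)) (χ : Module.Dual ℂ (lieAlg G))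
    (f : fibre G χ → ℂ) : Prop :=
  f ∈ polyFun (fibre G χ) ∧ IsInvariantFun G χ f

theorem isInvPoly_add (G : Subgroup (GL (Fin n ⊕ Fin m) ℂ)) (χ : Module.Dual ℂ (lieAlg G))
    {f g : fibre G χ → ℂ} (hf : IsInvPoly G χ f) (hg : IsInvPoly G χ g) :
    IsInvPoly G χ (f + g) :=
  ⟨add_mem hf.1 hg.1, fun a ha x y e => by simp [hf.2 a ha x y e, hg.2 a ha x y e]⟩

theorem isInvPoly_mul (G : Subgroup (GL (Fin n ⊕ Fin m) ℂ)) (χ : Module.Dual ℂ (lieAlg G))
    {f g : fibre G χ → ℂ} (hf : IsInvPoly G χ f) (hg : IsInvPoly G χ g) :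
    IsInvPoly G χ (f * g) :=
  ⟨mul_mem hf.1 hg.1, fun a ha x y e => by simp [hf.2 a ha x y e, hg.2 a ha x y e]⟩

theorem isInvPoly_algebraMap (G : Subgroup (GL (Fin n ⊕ Fin m) ℂ))
    (χ : Module.Dual ℂ (lieAlg G)) (c : ℂ) :
    IsInvPoly G χ (algebraMap ℂ (fibre G χ → ℂ) c) :=
  ⟨Subalgebra.algebraMap_mem _ c, fun a ha x y e => by simp⟩

/-- The ring `ℂ[μ⁻¹(χ)]^G` of `G`-invariant polynomial functions on the fibre. -/
def invRing (G : Subgroup (GL (Fin n ⊕ Fin m) ℂ)) (χ : Module.Dual ℂ (lieAlg G)) :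
    Subalgebra ℂ (fibre G χ → ℂ) where
  carrier := {f | IsInvPoly G χ f}
  mul_mem' := isInvPoly_mul G χ
  add_mem' := isInvPoly_add G χ
  algebraMap_mem' := isInvPoly_algebraMap G χ

end Reduction

section QFactorial

variable {D : Type*} [CommRing D]

/-- `x` lies in the `k`-th symbolic power of the prime `P`. -/
def InSymb (P : Ideal D) (k : ℕ) (x : D) : Prop := ∃ s : D, s ∉ P ∧ s * x ∈ P ^ k

/-- `x` vanishes to order exactly `k` along the prime divisor `P`. -/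
def HasOrd (P : Ideal D) (x : D) (k : ℕ) : Prop := InSymb P k x ∧ ¬ InSymb P (k + 1) x

/-- Prime divisors of `Spec D`. -/
abbrev PrimeDivisor (D : Type*) [CommRing D] : Type _ := {P : Ideal D // P.IsPrime ∧ P.height = 1}

/-- The Weil divisor `E` of `Spec D` is Cartier: near every closed point `𝔪` it is the divisor of a
nonzero rational function `a / b`. -/
def IsCartier (E : PrimeDivisor D →₀ ℤ) : Prop :=
  ∀ 𝔪 : Ideal D, 𝔪.IsMaximal → ∃ a b : D, a ≠ 0 ∧ b ≠ 0 ∧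
    ∀ P : PrimeDivisor D, P.1 ≤ 𝔪 → ∃ i j : ℕ, HasOrd P.1 a i ∧ HasOrd P.1 b j ∧
      (i : ℤ) - j = E P

/-- `Spec D` is a normal (Noetherian, integral) affine scheme on which every Weil divisor has a
nonzero multiple that is Cartier. -/
structure IsQFactorial (D : Type*) [CommRing D] : Prop where
  isDomain : IsDomain D
  noetherian : IsNoetherianRing D
  normal : IsIntegrallyClosed D
  exists_cartier : ∀ E : PrimeDivisor D →₀ ℤ, ∃ N : ℕ, 0 < N ∧ IsCartier (N • E)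

end QFactorial

/-- The property `p` holds for generic characters: there are `y₁, …, y_k ∈ 𝔤` such that the set of
`χ ∈ 𝔛` with `χ(y_i) ≠ 0` for all `i` (the complement of finitely many linear subspaces of `𝔛`) is
nonempty and `p` holds for all `χ` in it. -/
def HoldsGenerically {ι : Type} [Fintype ι] [DecidableEq ι] (G : Subgroup (GL ι ℂ))
    (p : Module.Dual ℂ (lieAlg G) → Prop) : Prop :=
  ∃ s : Finset (lieAlg G), (∃ θ ∈ charSpace G, ∀ y ∈ s, θ y ≠ 0) ∧
    ∀ χ ∈ charSpace G, (∀ y ∈ s, χ y ≠ 0) → p χ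

end HamRed
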