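import Pool.Agent.HamRed.Base

open MvPolynomial

namespace HamRed

variable {ι κ : Type} [Fintype ι] [DecidableEq ι] [Fintype κ] [DecidableEq κ]

/-- The matrix form of a representation in a basis. -/
noncomputable def E0_mat {G : Type*} [Group G] {W : Type} [AddCommGroup W] [Module ℂ W] {k : ℕ}
    (b : Module.Basis (Fin k) ℂ W) (ρ : Representation ℂ G W) : G →* GL (Fin k) ℂ :=
  MonoidHom.toHomUnits (((LinearMap.toMatrixAlgEquiv b : (W →ₗ[ℂ] W) →* _)).comp ρ)

theorem E0_mat_val {G : Type*} [Group G] {W : Type} [AddCommGroup W] [Module ℂ W] {k : ℕ}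
    (b : Module.Basis (Fin k) ℂ W) (ρ : Representation ℂ G W) (g : G) :
    (E0_mat b ρ g).val = LinearMap.toMatrix b b (ρ g) := rfl

theorem E0_mat_mulVec {G : Type*} [Group G] {W : Type} [AddCommGroup W] [Module ℂ W] {k : ℕ}
    (b : Module.Basis (Fin k) ℂ W) (ρ : Representation ℂ G W) (g : G) (w : W) :
    (E0_mat b ρ g).val.mulVec (b.equivFun w) = b.equivFun (ρ g w) := by
  rw [E0_mat_val]
  exact LinearMap.toMatrix_mulVec_repr b b (ρ g) w

/-- E0 : finite-dimensional rational representations are completely reducible (coordinate-free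
form of linear reductivity). -/
theorem E0_compRed (G : Subgroup (GL ι ℂ)) (hred : IsLinearlyReductive G) {W : Type}
    [AddCommGroup W] [Module ℂ W] [Module.Finite ℂ W] (ρ : Representation ℂ G W)
    (hρ : ∀ (w : W) (ℓ : Module.Dual ℂ W), IsRegularFn G (fun g => ℓ (ρ g w))) : CompRed ρ := by
  intro U hU
  let b := Module.finBasis ℂ W
  let e : W ≃ₗ[ℂ] (Fin (Module.finrank ℂ W) → ℂ) := b.equivFun
  obtain ⟨U'', hU'', hc⟩ := hred _ (E0_mat b ρ) (by
    intro i j
    have h := hρ (b j) (b.coord i)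
    have h' : (fun g => (b.coord i) ((ρ g) (b j))) =
        fun g => (E0_mat b ρ g).val i j := by
      funext g
      rw [E0_mat_val, LinearMap.toMatrix_apply]
      rfl
    rw [h'] at h
    exact h) (U.map e.toLinearMap) (by
    rintro g _ ⟨u, hu, rfl⟩
    refine ⟨ρ g u, hU g u hu, ?_⟩
    exact (E0_mat_mulVec b ρ g u).symm)
  refine ⟨U''.comap e.toLinearMap, ?_, ?_⟩
  · intro g u hu
    have h := hU'' g (e u) hu
    have h2 : (E0_mat b ρ g).val.mulVec (e u) = e (ρ g u) := E0_mat_mulVec b ρ g u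
    rw [h2] at h
    exact h
  · have h1 : U = (U.map e.toLinearMap).comap e.toLinearMap :=
      (Submodule.comap_map_eq_of_injective e.injective U).symm
    rw [h1]
    have h2 := (Submodule.orderIsoMapComap e).symm.isCompl_iff.1 hc
    exact h2

end HamRed
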