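import Pool.Agent.HamRed.Base

open MvPolynomial

namespace HamRed

variable {G : Type} [Group G] {B : Type} [AddCommGroup B] [Module ℂ B]

namespace E1

/-- the invariant vectors -/
def inv (ρ : Representation ℂ G B) : Submodule ℂ B where
  carrier := {b | ∀ g, ρ g b = b}
  add_mem' := by
    intro a b ha hb g
    rw [map_add, ha g, hb g]
  zero_mem' := by
    intro g
    exact map_zero _
  smul_mem' := by
    intro c b hb g
    rw [map_smul, hb g]

/-- the span of the differences -/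
def dif (ρ : Representation ℂ G B) (U : Submodule ℂ B) : Submodule ℂ B :=
  Submodule.span ℂ {w | ∃ g, ∃ c ∈ U, w = ρ g c - c}

theorem mem_dif (ρ : Representation ℂ G B) {U : Submodule ℂ B} (g : G) {c : B} (hc : c ∈ U) :
    ρ g c - c ∈ dif ρ U := Submodule.subset_span ⟨g, c, hc, rfl⟩

theorem dif_le (ρ : Representation ℂ G B) {U : Submodule ℂ B} (hU : Stable ρ U) :
    dif ρ U ≤ U := by
  refine Submodule.span_le.2 ?_
  rintro w ⟨g, c, hc, rfl⟩
  exact U.sub_mem (hU g c hc) hc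

theorem dif_mono (ρ : Representation ℂ G B) {U V : Submodule ℂ B} (h : U ≤ V) :
    dif ρ U ≤ dif ρ V := by
  refine Submodule.span_le.2 ?_
  rintro w ⟨g, c, hc, rfl⟩
  exact mem_dif ρ g (h hc)

theorem map_dif_le (ρ : Representation ℂ G B) {U V : Submodule ℂ B} (T : B →ₗ[ℂ] B)
    (h : ∀ g, ∀ c ∈ U, T (ρ g c - c) ∈ V) {w : B} (hw : w ∈ dif ρ U) : T w ∈ V := by
  have h1 : dif ρ U ≤ V.comap T := by
    refine Submodule.span_le.2 ?_
    rintro w ⟨g, c, hc, rfl⟩
    exact h g c hc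
  exact h1 hw

theorem dif_stable (ρ : Representation ℂ G B) {U : Submodule ℂ B} (_hU : Stable ρ U) :
    Stable ρ (dif ρ U) := by
  intro h w hw
  refine map_dif_le ρ (ρ h) ?_ hw
  intro g c hc
  have e : ρ h (ρ g c - c) = (ρ (h * g) c - c) - (ρ h c - c) := by
    rw [map_sub, map_mul, Module.End.mul_apply]
    abel
  rw [e]
  exact (dif ρ U).sub_mem (mem_dif ρ _ hc) (mem_dif ρ _ hc)

theorem decomp (ρ : Representation ℂ G B) (h : CompRed ρ) {U : Submodule ℂ B}
    (hU : Stable ρ U) {u : B} (hu : u ∈ U) :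
    ∃ u0 ∈ U, u0 ∈ inv ρ ∧ u - u0 ∈ dif ρ U := by
  obtain ⟨C, hC, hcompl⟩ := h (dif ρ U) (dif_stable ρ hU)
  have htop : u ∈ dif ρ U ⊔ C := by
    rw [hcompl.sup_eq_top]
    exact Submodule.mem_top
  obtain ⟨u', hu', c, hc, huc⟩ := Submodule.mem_sup.1 htop
  have hcU : c ∈ U := by
    have : c = u - u' := by rw [← huc]; abel
    rw [this]
    exact U.sub_mem hu (dif_le ρ hU hu')
  refine ⟨c, hcU, ?_, ?_⟩
  · intro g
    have h1 : ρ g c - c ∈ dif ρ U := mem_dif ρ g hcU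
    have h2 : ρ g c - c ∈ C := C.sub_mem (hC g c hc) hc
    have h3 : ρ g c - c ∈ dif ρ U ⊓ C := ⟨h1, h2⟩
    rw [hcompl.inf_eq_bot, Submodule.mem_bot] at h3
    exact sub_eq_zero.1 h3
  · have : u - c = u' := by rw [← huc]; abel
    rw [this]
    exact hu'

theorem inv_stable (ρ : Representation ℂ G B) : Stable ρ (inv ρ) := by
  intro g u hu
  rw [hu g]
  exact hu

theorem isCompl (ρ : Representation ℂ G B) (h : CompRed ρ) :
    IsCompl (inv ρ) (dif ρ ⊤) := by
  have htopst : Stable ρ (⊤ : Submodule ℂ B) := fun _ _ _ => Submodule.mem_top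
  constructor
  · rw [disjoint_iff]
    obtain ⟨C, hC, hcompl⟩ := h (inv ρ) (inv_stable ρ)
    have hle : dif ρ ⊤ ≤ C := by
      refine Submodule.span_le.2 ?_
      rintro w ⟨g, b, _, rfl⟩
      have hb : b ∈ inv ρ ⊔ C := by
        rw [hcompl.sup_eq_top]
        exact Submodule.mem_top
      obtain ⟨b0, hb0, c, hc, rfl⟩ := Submodule.mem_sup.1 hb
      have : ρ g (b0 + c) - (b0 + c) = ρ g c - c := by
        rw [map_add, hb0 g]
        abel
      rw [this]
      exact C.sub_mem (hC g c hc) hc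
    rw [← le_bot_iff, ← hcompl.inf_eq_bot]
    exact inf_le_inf_left _ hle
  · rw [codisjoint_iff, eq_top_iff]
    intro b _
    obtain ⟨b0, _, hb0, hb1⟩ := decomp ρ h htopst (Submodule.mem_top (x := b))
    exact Submodule.mem_sup.2 ⟨b0, hb0, b - b0, hb1, by abel⟩

end E1

open E1 in
/-- E1 : the Reynolds operator. -/
theorem E1_reynolds (ρ : Representation ℂ G B) (h : CompRed ρ) :
    ∃ E : B →ₗ[ℂ] B, (∀ g b, ρ g (E b) = E b) ∧ (∀ b, (∀ g, ρ g b = b) → E b = b) ∧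
      (∀ U : Submodule ℂ B, Stable ρ U → ∀ u ∈ U, E u ∈ U) ∧
      (∀ g b, E (ρ g b) = E b) ∧
      (∀ U : Submodule ℂ B, Stable ρ U → ∀ u ∈ U,
        u - E u ∈ Submodule.span ℂ {w | ∃ g, ∃ c ∈ U, w = ρ g c - c}) ∧
      (∀ T : B →ₗ[ℂ] B, (∀ g b, T (ρ g b) = ρ g (T b)) → ∀ b, E (T b) = T (E b)) := by
  have htopst : Stable ρ (⊤ : Submodule ℂ B) := fun _ _ _ => Submodule.mem_top
  set E : B →ₗ[ℂ] B := (inv ρ).subtype ∘ₗ (inv ρ).projectionOnto (dif ρ ⊤) (isCompl ρ h)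
    with hE
  have hEinv : ∀ b, E b ∈ inv ρ := fun b => ((inv ρ).projectionOnto _ (isCompl ρ h) b).2
  have hEfix : ∀ b ∈ inv ρ, E b = b := by
    intro b hb
    have := Submodule.projectionOnto_apply_left (isCompl ρ h) ⟨b, hb⟩
    rw [hE, LinearMap.comp_apply, this]
    rfl
  have hEzero : ∀ b ∈ dif ρ ⊤, E b = 0 := by
    intro b hb
    have := (Submodule.projectionOnto_apply_eq_zero_iff (isCompl ρ h)).2 hb
    rw [hE, LinearMap.comp_apply, this, map_zero]
  have hEdec : ∀ b b0, b0 ∈ inv ρ → b - b0 ∈ dif ρ ⊤ → E b = b0 := by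
    intro b b0 h0 h1
    have : b = b0 + (b - b0) := by abel
    rw [this, map_add, hEfix b0 h0, hEzero _ h1, add_zero]
  refine ⟨E, fun g b => hEinv b g, fun b hb => hEfix b hb, ?_, ?_, ?_, ?_⟩
  · intro U hU u hu
    obtain ⟨u0, hu0, hu1, hu2⟩ := decomp ρ h hU hu
    rw [hEdec u u0 hu1 (dif_mono ρ le_top hu2)]
    exact hu0
  · intro g b
    have h1 : E (ρ g b - b) = 0 := hEzero _ (mem_dif ρ g Submodule.mem_top)
    rw [map_sub, sub_eq_zero] at h1
    exact h1
  · intro U hU u hu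
    obtain ⟨u0, hu0, hu1, hu2⟩ := decomp ρ h hU hu
    rw [hEdec u u0 hu1 (dif_mono ρ le_top hu2)]
    exact hu2
  · intro T hT b
    obtain ⟨b0, _, hb1, hb2⟩ := decomp ρ h htopst (Submodule.mem_top (x := b))
    rw [hEdec b b0 hb1 hb2]
    refine hEdec _ _ ?_ ?_
    · intro g
      rw [← hT, hb1 g]
    · rw [← map_sub]
      refine map_dif_le ρ T ?_ hb2
      intro g c _
      rw [map_sub, hT]
      exact mem_dif ρ g Submodule.mem_top

end HamRed
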