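import Pool.Agent.HamRed.Base
import Pool.Agent.HamRed.E0

open MvPolynomial

namespace HamRed

section Zorn

variable {G : Type*} [Group G] {B : Type*} [AddCommGroup B] [Module ℂ B]

theorem E2_stable_sup {ρ : Representation ℂ G B} {U V : Submodule ℂ B} (hU : Stable ρ U)
    (hV : Stable ρ V) : Stable ρ (U ⊔ V) := by
  intro g x hx
  rw [Submodule.mem_sup] at hx ⊢
  obtain ⟨u, hu, v, hv, rfl⟩ := hx
  exact ⟨ρ g u, hU g u hu, ρ g v, hV g v hv, (map_add _ _ _).symm⟩

theorem E2_stable_inf {ρ : Representation ℂ G B} {U V : Submodule ℂ B} (hU : Stable ρ U)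
    (hV : Stable ρ V) : Stable ρ (U ⊓ V) :=
  fun g x hx => ⟨hU g x hx.1, hV g x hx.2⟩

/-- local complete reducibility implies complete reducibility. -/
theorem E2_zorn (ρ : Representation ℂ G B) (hfin : LocFin ρ)
    (hW : ∀ W : Submodule ℂ B, Module.Finite ℂ W → Stable ρ W → ∀ U : Submodule ℂ B, Stable ρ U →
      U ≤ W → ∃ U' : Submodule ℂ B, Stable ρ U' ∧ U' ≤ W ∧ U ⊓ U' = ⊥ ∧ W ≤ U ⊔ U') :
    CompRed ρ := by
  intro U hU
  let S : Set (Submodule ℂ B) := {C | Stable ρ C ∧ Disjoint U C}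
  have hz : ∃ m, Maximal (· ∈ S) m := by
    refine zorn_le₀ S ?_
    intro c hc hchain
    rcases c.eq_empty_or_nonempty with rfl | hne
    · exact ⟨⊥, ⟨fun g x hx => by
        rw [Submodule.mem_bot] at hx ⊢
        rw [hx, map_zero], disjoint_bot_right⟩, by simp⟩
    refine ⟨sSup c, ⟨?_, ?_⟩, fun z hz => le_sSup hz⟩
    · intro g x hx
      rw [Submodule.mem_sSup_of_directed hne hchain.directedOn] at hx ⊢
      obtain ⟨C, hC, hx⟩ := hx
      exact ⟨C, hC, (hc hC).1 g x hx⟩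
    · rw [Submodule.disjoint_def]
      intro x hxU hx
      rw [Submodule.mem_sSup_of_directed hne hchain.directedOn] at hx
      obtain ⟨C, hC, hx⟩ := hx
      exact Submodule.disjoint_def.1 (hc hC).2 x hxU hx
  obtain ⟨C, ⟨hCs, hCd⟩, hmax⟩ := hz
  refine ⟨C, hCs, hCd, ?_⟩
  rw [codisjoint_iff, eq_top_iff]
  intro b _
  by_contra hb
  obtain ⟨W, hWf, hWs, hbW⟩ := hfin b
  obtain ⟨C1, hC1s, hC1W, hinf, hsup⟩ := hW W hWf hWs (W ⊓ (U ⊔ C))
    (E2_stable_inf hWs (E2_stable_sup hU hCs)) inf_le_left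
  have hmem : C ⊔ C1 ∈ S := by
    refine ⟨E2_stable_sup hCs hC1s, ?_⟩
    rw [Submodule.disjoint_def]
    intro u hu hu'
    rw [Submodule.mem_sup] at hu'
    obtain ⟨c, hc, c1, hc1, hcc⟩ := hu'
    have h1 : c1 ∈ U ⊔ C := by
      have : c1 = u + -c := by rw [← hcc]; abel
      rw [this]
      exact Submodule.add_mem_sup hu (C.neg_mem hc)
    have h2 : c1 ∈ (W ⊓ (U ⊔ C)) ⊓ C1 := ⟨⟨hC1W hc1, h1⟩, hc1⟩
    rw [hinf, Submodule.mem_bot] at h2
    rw [h2, add_zero] at hcc
    rw [← hcc] at hu ⊢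
    exact Submodule.disjoint_def.1 hCd c hu hc
  have h3 : C ⊔ C1 ≤ C := hmax hmem le_sup_left
  have h4 : C1 ≤ C := le_sup_right.trans h3
  have h5 : C1 ≤ (W ⊓ (U ⊔ C)) ⊓ C1 := le_inf (le_inf hC1W (h4.trans le_sup_right)) le_rfl
  rw [hinf] at h5
  have h6 : C1 = ⊥ := le_bot_iff.1 h5
  rw [h6, sup_bot_eq] at hsup
  exact hb (hsup hbW).2

/-- restriction of a representation to a stable subspace. -/
noncomputable def E2_sub (ρ : Representation ℂ G B) (W : Submodule ℂ B) (hW : Stable ρ W) :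
    Representation ℂ G W where
  toFun g := (ρ g).restrict (hW g)
  map_one' := by
    ext x
    simp [LinearMap.restrict_apply]
  map_mul' g h := by
    ext x
    simp [LinearMap.restrict_apply]

theorem E2_sub_coe (ρ : Representation ℂ G B) (W : Submodule ℂ B) (hW : Stable ρ W) (g : G)
    (w : W) : ((E2_sub ρ W hW g w : W) : B) = ρ g w := rfl

/-- From complete reducibility of the restriction to complements inside `W`. -/
theorem E2_compl_of_sub (ρ : Representation ℂ G B) (W : Submodule ℂ B) (hW : Stable ρ W)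
    (h : CompRed (E2_sub ρ W hW)) (U : Submodule ℂ B) (hU : Stable ρ U) (_hUW : U ≤ W) :
    ∃ U' : Submodule ℂ B, Stable ρ U' ∧ U' ≤ W ∧ U ⊓ U' = ⊥ ∧ W ≤ U ⊔ U' := by
  obtain ⟨V, hV, hc⟩ := h (U.comap W.subtype) (fun g u hu => hU g _ hu)
  refine ⟨V.map W.subtype, ?_, ?_, ?_, ?_⟩
  · rintro g _ ⟨v, hv, rfl⟩
    exact ⟨E2_sub ρ W hW g v, hV g v hv, rfl⟩
  · rintro _ ⟨v, -, rfl⟩
    exact v.2
  · rw [eq_bot_iff]
    rintro x ⟨hxU, v, hv, rfl⟩
    have h1 : v ∈ (U.comap W.subtype) ⊓ V := ⟨hxU, hv⟩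
    rw [hc.inf_eq_bot, Submodule.mem_bot] at h1
    rw [h1]
    exact Submodule.zero_mem _
  · intro w hw
    have h1 : (⟨w, hw⟩ : W) ∈ (U.comap W.subtype) ⊔ V := by
      rw [hc.sup_eq_top]
      exact Submodule.mem_top
    rw [Submodule.mem_sup] at h1
    obtain ⟨u, hu, v, hv, huv⟩ := h1
    rw [Submodule.mem_sup]
    exact ⟨u, hu, v, ⟨v, hv, rfl⟩, congrArg Subtype.val huv⟩

end Zorn

variable {ι κ : Type} [Fintype ι] [DecidableEq ι] [Fintype κ] [DecidableEq κ]

/-- polynomials in regular functions are regular -/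
theorem E2_regular_eval (G : Subgroup (GL ι ℂ)) {τ : Type*} (φ : τ → G → ℂ)
    (hφ : ∀ i, IsRegularFn G (φ i)) (p : MvPolynomial τ ℂ) :
    IsRegularFn G (fun g => MvPolynomial.eval (fun i => φ i g) p) := by
  choose P hP using hφ
  refine ⟨MvPolynomial.bind₁ P p, fun g => ?_⟩
  let v : (ι × ι) ⊕ (ι × ι) → ℂ :=
    Sum.elim (fun p => (g : GL ι ℂ).val p.1 p.2) (fun p => ((g : GL ι ℂ)⁻¹).val p.1 p.2)
  have h : MvPolynomial.aeval v (MvPolynomial.bind₁ P p) =
      MvPolynomial.aeval (fun i => MvPolynomial.aeval v (P i)) p := MvPolynomial.aeval_bind₁ _ _ _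
  rw [MvPolynomial.aeval_eq_eval, MvPolynomial.aeval_eq_eval] at h
  have h2 : (fun i => φ i g) = fun i => MvPolynomial.aeval v (P i) := by
    funext i
    rw [hP, MvPolynomial.aeval_eq_eval]
  show MvPolynomial.eval (fun i => φ i g) p = MvPolynomial.eval v (MvPolynomial.bind₁ P p)
  rw [h2]
  exact h.symm

/-- regular functions of the inverse -/
theorem E2_regular_inv (G : Subgroup (GL ι ℂ)) {φ : G → ℂ} (hφ : IsRegularFn G φ) :
    IsRegularFn G (fun g => φ g⁻¹) := by
  obtain ⟨P, hP⟩ := hφ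
  refine ⟨MvPolynomial.rename Sum.swap P, fun g => ?_⟩
  show φ g⁻¹ = _
  rw [hP, MvPolynomial.eval_rename]
  congr 2
  funext p
  rcases p with p | p
  · rfl
  · show (((g⁻¹ : G) : GL ι ℂ)⁻¹).val p.1 p.2 = (g : GL ι ℂ).val p.1 p.2
    rw [Subgroup.coe_inv, inv_inv]

/-- The polynomial `P(A x)` with `A` the generic matrix. -/
noncomputable def E2_gen (P : MvPolynomial κ ℂ) : MvPolynomial κ (MvPolynomial (κ × κ) ℂ) :=
  MvPolynomial.aeval (fun i => ∑ j, C (X (i, j)) * X j) P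

omit [DecidableEq κ] in
theorem E2_gen_eval (P : MvPolynomial κ ℂ) (A : Matrix κ κ ℂ) (x : κ → ℂ) :
    MvPolynomial.eval (A.mulVec x) P =
      ∑ s ∈ (E2_gen P).support, MvPolynomial.eval (fun p : κ × κ => A p.1 p.2)
        ((E2_gen P).coeff s) * ∏ i, x i ^ s i := by
  have h1 : MvPolynomial.eval (A.mulVec x) P =
      MvPolynomial.eval₂ (MvPolynomial.eval (fun p : κ × κ => A p.1 p.2)) x (E2_gen P) := by
    unfold E2_gen
    induction P using MvPolynomial.induction_on with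
    | C a =>
      rw [MvPolynomial.eval_C, MvPolynomial.aeval_C]
      rw [show (algebraMap ℂ (MvPolynomial κ (MvPolynomial (κ × κ) ℂ))) a = C (C a) from rfl,
        MvPolynomial.eval₂_C, MvPolynomial.eval_C]
    | add p q hp hq => rw [map_add, map_add, MvPolynomial.eval₂_add, hp, hq]
    | mul_X p i hp =>
      rw [map_mul, map_mul, MvPolynomial.eval₂_mul, hp, MvPolynomial.eval_X, MvPolynomial.aeval_X]
      congr 1
      rw [← MvPolynomial.coe_eval₂Hom, map_sum]
      rw [Matrix.mulVec, dotProduct]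
      refine Finset.sum_congr rfl (fun j _ => ?_)
      rw [map_mul, MvPolynomial.coe_eval₂Hom, MvPolynomial.eval₂_C, MvPolynomial.eval₂_X,
        MvPolynomial.eval_X]
  rw [h1, MvPolynomial.eval₂_eq']

/-- The function `x ↦ ∏ xᵢ^{sᵢ}` on `X`. -/
noncomputable def E2_mon (X : Set (κ → ℂ)) (s : κ →₀ ℕ) : polyFun X :=
  ⟨fun x => ∏ i, (x : κ → ℂ) i ^ s i, ⟨MvPolynomial.monomial s 1, fun x => by
    rw [MvPolynomial.eval_monomial, one_mul, Finsupp.prod_fintype]
    intro i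
    exact pow_zero _⟩⟩

theorem E2_act (G : Subgroup (GL ι ℂ)) (α : G →* GL κ ℂ) {X : Set (κ → ℂ)}
    (hX : StableSet α X) (b : polyFun X) (P : MvPolynomial κ ℂ)
    (hP : ∀ x : X, b.1 x = MvPolynomial.eval (x : κ → ℂ) P) (g : G) :
    funRep α hX g b = ∑ s ∈ (E2_gen P).support,
      MvPolynomial.eval (fun p : κ × κ => (α g⁻¹).val p.1 p.2) ((E2_gen P).coeff s) •
        E2_mon X s := by
  apply Subtype.ext
  funext x
  rw [funRep_apply, hP]
  have h1 : ((ptAct α hX g⁻¹ x : X) : κ → ℂ) = (α g⁻¹).val.mulVec x := rfl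
  rw [h1, E2_gen_eval]
  rw [AddSubmonoidClass.coe_finsetSum, Finset.sum_apply]
  rfl

/-- E2 (uses E0) : functions on a stable subset form a locally finite completely reducible
representation. -/
theorem E2_compRed (G : Subgroup (GL ι ℂ)) (hred : IsLinearlyReductive G) (α : G →* GL κ ℂ)
    (hα : IsRationalRep G α) {X : Set (κ → ℂ)} (hX : StableSet α X) :
    CompRed (funRep α hX) ∧ LocFin (funRep α hX) := by
  have hLF : LocFin (funRep α hX) := by
    intro b
    obtain ⟨P, hP⟩ := b.2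
    let W0 : Submodule ℂ (polyFun X) :=
      Submodule.span ℂ (E2_mon X '' ((E2_gen P).support : Set (κ →₀ ℕ)))
    have hW0 : Module.Finite ℂ W0 :=
      Module.Finite.span_of_finite ℂ ((Finset.finite_toSet _).image _)
    let W : Submodule ℂ (polyFun X) := Submodule.span ℂ (Set.range (fun g => funRep α hX g b))
    have hle : W ≤ W0 := by
      rw [Submodule.span_le]
      rintro _ ⟨g, rfl⟩
      show funRep α hX g b ∈ W0
      rw [E2_act G α hX b P hP g]
      refine Submodule.sum_mem _ (fun s hs => Submodule.smul_mem _ _ ?_)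
      exact Submodule.subset_span ⟨s, hs, rfl⟩
    refine ⟨W, Submodule.finiteDimensional_of_le hle, ?_, ?_⟩
    · intro g u hu
      have h1 : W ≤ W.comap (funRep α hX g) := by
        rw [Submodule.span_le]
        rintro _ ⟨h, rfl⟩
        show funRep α hX g (funRep α hX h b) ∈ W
        refine Submodule.subset_span ⟨g * h, ?_⟩
        show funRep α hX (g * h) b = _
        rw [map_mul]
        rfl
      exact h1 hu
    · refine Submodule.subset_span ⟨1, ?_⟩
      show funRep α hX 1 b = b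
      rw [map_one]
      rfl
  refine ⟨E2_zorn _ hLF ?_, hLF⟩
  intro W hWf hWs U hU hUW
  refine E2_compl_of_sub _ W hWs ?_ U hU hUW
  refine E0_compRed G hred _ ?_
  intro w ℓ
  obtain ⟨ℓ', hℓ'⟩ := LinearMap.exists_extend ℓ
  obtain ⟨P, hP⟩ := w.1.2
  have h1 : ∀ g, ℓ (E2_sub (funRep α hX) W hWs g w) = ∑ s ∈ (E2_gen P).support,
      MvPolynomial.eval (fun p : κ × κ => (α g⁻¹).val p.1 p.2) ((E2_gen P).coeff s) *
        ℓ' (E2_mon X s) := by
    intro g
    have h2 : ℓ (E2_sub (funRep α hX) W hWs g w) = ℓ' (funRep α hX g w.1) := by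
      rw [← hℓ']
      rfl
    rw [h2, E2_act G α hX w.1 P hP g, map_sum]
    refine Finset.sum_congr rfl (fun s _ => ?_)
    rw [map_smul, smul_eq_mul]
  have h3 : (fun g => ℓ (E2_sub (funRep α hX) W hWs g w)) = fun g =>
      MvPolynomial.eval (fun p : κ × κ => (α g⁻¹).val p.1 p.2)
        (∑ s ∈ (E2_gen P).support, (E2_gen P).coeff s * C (ℓ' (E2_mon X s))) := by
    funext g
    rw [h1 g, map_sum]
    refine Finset.sum_congr rfl (fun s _ => ?_)
    rw [map_mul, MvPolynomial.eval_C]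
  rw [h3]
  exact E2_regular_eval G (fun (p : κ × κ) g => (α g⁻¹).val p.1 p.2)
    (fun p => E2_regular_inv G (hα p.1 p.2)) _

end HamRed
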