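import Pool.Agent.HamRed.Base

open MvPolynomial

namespace HamRed

variable {G : Type} [Group G] {B : Type} [AddCommGroup B] [Module ℂ B]

/-- Minimal nonzero stable subspaces. -/
def E3_Min (ρ : Representation ℂ G B) (L : Submodule ℂ B) : Prop :=
  Stable ρ L ∧ L ≠ ⊥ ∧ ∀ L' : Submodule ℂ B, Stable ρ L' → L' ≤ L → L' ≠ ⊥ → L' = L

theorem E3_stable_inf (ρ : Representation ℂ G B) {U V : Submodule ℂ B} (hU : Stable ρ U)
    (hV : Stable ρ V) : Stable ρ (U ⊓ V) :=
  fun g u hu => ⟨hU g u hu.1, hV g u hu.2⟩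

theorem E3_stable_sup (ρ : Representation ℂ G B) {U V : Submodule ℂ B} (hU : Stable ρ U)
    (hV : Stable ρ V) : Stable ρ (U ⊔ V) := by
  intro g u hu
  obtain ⟨a, ha, b, hb, rfl⟩ := Submodule.mem_sup.1 hu
  rw [map_add]
  exact Submodule.add_mem_sup (hU g a ha) (hV g b hb)

theorem E3_exists_min (ρ : Representation ℂ G B) (W : Submodule ℂ B) (hf : Module.Finite ℂ W)
    (hW : Stable ρ W) (hne : W ≠ ⊥) : ∃ L ≤ W, E3_Min ρ L := by
  classical
  have hex : ∃ n : ℕ, ∃ L ≤ W, Stable ρ L ∧ L ≠ ⊥ ∧ Module.finrank ℂ L = n :=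
    ⟨_, W, le_rfl, hW, hne, rfl⟩
  obtain ⟨L, hLW, hLs, hLne, hLn⟩ := Nat.find_spec hex
  refine ⟨L, hLW, hLs, hLne, ?_⟩
  intro L' hL's hL'L hL'ne
  have h1 : Nat.find hex ≤ Module.finrank ℂ L' :=
    Nat.find_min' hex ⟨L', hL'L.trans hLW, hL's, hL'ne, rfl⟩
  have hfL : Module.Finite ℂ L := Submodule.finiteDimensional_of_le hLW
  exact Submodule.eq_of_le_of_finrank_le hL'L (by rw [hLn]; exact h1)

theorem E3_compRed_of_sSup (ρ : Representation ℂ G B) (h : sSup {L | E3_Min ρ L} = ⊤) :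
    CompRed ρ := by
  intro U hU
  obtain ⟨C, hC⟩ := zorn_le₀ {C : Submodule ℂ B | Stable ρ C ∧ U ⊓ C = ⊥} (by
    intro c hc hchain
    rcases c.eq_empty_or_nonempty with rfl | hne
    · refine ⟨⊥, ⟨?_, inf_bot_eq _⟩, by simp⟩
      intro g u hu
      rw [(Submodule.mem_bot ℂ).1 hu, map_zero]
      exact Submodule.zero_mem _
    · refine ⟨sSup c, ⟨?_, ?_⟩, fun z hz => le_sSup hz⟩
      · intro g u hu
        rw [Submodule.mem_sSup_of_directed hne hchain.directedOn] at hu ⊢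
        obtain ⟨y, hy, huy⟩ := hu
        exact ⟨y, hy, (hc hy).1 g u huy⟩
      · rw [eq_bot_iff]
        rintro u ⟨hu1, hu2⟩
        rw [SetLike.mem_coe, Submodule.mem_sSup_of_directed hne hchain.directedOn] at hu2
        obtain ⟨y, hy, huy⟩ := hu2
        have : u ∈ U ⊓ y := ⟨hu1, huy⟩
        rw [(hc hy).2] at this
        exact this)
  refine ⟨C, hC.prop.1, disjoint_iff.2 hC.prop.2, codisjoint_iff.2 ?_⟩
  rw [eq_top_iff, ← h, sSup_le_iff]
  intro L hL
  by_contra hLUC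
  have hinf : L ⊓ (U ⊔ C) = ⊥ := by
    by_contra hne
    have := hL.2.2 _ (E3_stable_inf ρ hL.1 (E3_stable_sup ρ hU hC.prop.1)) inf_le_left hne
    exact hLUC (inf_eq_left.1 this)
  have hmem : C ⊔ L ∈ {C : Submodule ℂ B | Stable ρ C ∧ U ⊓ C = ⊥} := by
    refine ⟨E3_stable_sup ρ hC.prop.1 hL.1, ?_⟩
    rw [eq_bot_iff]
    rintro u ⟨hu1, hu2⟩
    obtain ⟨c, hc, l, hl, rfl⟩ := Submodule.mem_sup.1 hu2
    have hl0 : l ∈ L ⊓ (U ⊔ C) := by
      refine ⟨hl, ?_⟩
      have : l = (c + l) - c := by abel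
      rw [SetLike.mem_coe, this]
      exact Submodule.sub_mem _ (Submodule.mem_sup_left hu1) (Submodule.mem_sup_right hc)
    rw [hinf, Submodule.mem_bot] at hl0
    subst hl0
    rw [add_zero] at hu1 ⊢
    have : c ∈ U ⊓ C := ⟨hu1, hc⟩
    rw [hC.prop.2] at this
    exact this
  have h1 : C ⊔ L ≤ C := hC.le_of_ge hmem le_sup_left
  exact hLUC ((le_sup_right.trans h1).trans le_sup_right)

/-- E3 : Clifford's theorem. -/
theorem E3_clifford (ρ : Representation ℂ G B) (K : Subgroup G) [K.Normal] (h : CompRed ρ)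
    (hlf : LocFin ρ) : CompRed (ρ.comp K.subtype : Representation ℂ K B) := by
  set σ : Representation ℂ K B := ρ.comp K.subtype with hσ
  have hσa : ∀ (k : K) (b : B), σ k b = ρ (k : G) b := fun k b => rfl
  have hst : ∀ U : Submodule ℂ B, Stable ρ U → Stable σ U := fun U hU k u hu => hU k u hu
  have hinv : ∀ (g : G) (b : B), ρ g⁻¹ (ρ g b) = b := by
    intro g b
    rw [← Module.End.mul_apply, ← map_mul, inv_mul_cancel, map_one, Module.End.one_apply]
  have hinv' : ∀ (g : G) (b : B), ρ g (ρ g⁻¹ b) = b := by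
    intro g b
    rw [← Module.End.mul_apply, ← map_mul, mul_inv_cancel, map_one, Module.End.one_apply]
  -- translates of stable subspaces are stable
  have hmap : ∀ (g : G) (L : Submodule ℂ B), Stable σ L → Stable σ (L.map (ρ g)) := by
    intro g L hL k u hu
    obtain ⟨l, hl, rfl⟩ := Submodule.mem_map.1 hu
    have hk : g⁻¹ * (k : G) * g ∈ K := by
      have := Subgroup.Normal.conj_mem ‹K.Normal› (k : G) k.2 g⁻¹
      simpa using this
    refine Submodule.mem_map.2 ⟨σ ⟨g⁻¹ * k * g, hk⟩ l, hL _ l hl, ?_⟩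
    rw [hσa, hσa]
    simp only
    rw [← Module.End.mul_apply, ← map_mul, ← Module.End.mul_apply, ← map_mul]
    congr 2
    group
  have hmapinv : ∀ (g : G) (L : Submodule ℂ B), (L.map (ρ g)).map (ρ g⁻¹) = L := by
    intro g L
    rw [← Submodule.map_comp]
    have : ρ g⁻¹ ∘ₗ ρ g = LinearMap.id := LinearMap.ext (hinv g)
    rw [this, Submodule.map_id]
  have hmapinv' : ∀ (g : G) (L : Submodule ℂ B), (L.map (ρ g⁻¹)).map (ρ g) = L := by
    intro g L
    rw [← Submodule.map_comp]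
    have : ρ g ∘ₗ ρ g⁻¹ = LinearMap.id := LinearMap.ext (hinv' g)
    rw [this, Submodule.map_id]
  have hmin : ∀ (g : G) (L : Submodule ℂ B), E3_Min σ L → E3_Min σ (L.map (ρ g)) := by
    intro g L hL
    refine ⟨hmap g L hL.1, ?_, ?_⟩
    · intro h0
      apply hL.2.1
      rw [← hmapinv g L, h0, Submodule.map_bot]
    · intro L' hL' hle hne
      have h1 : L'.map (ρ g⁻¹) = L := by
        refine hL.2.2 _ (hmap g⁻¹ L' hL') ?_ ?_
        · rw [← hmapinv g L]
          exact Submodule.map_mono hle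
        · intro h0
          apply hne
          rw [← hmapinv' g L', h0, Submodule.map_bot]
      rw [← h1, hmapinv']
  set S : Submodule ℂ B := sSup {L | E3_Min σ L} with hS
  have hSst : Stable ρ S := by
    intro g u hu
    have h1 : S ≤ S.comap (ρ g) := by
      rw [hS, sSup_le_iff]
      intro L hL
      rw [← Submodule.map_le_iff_le_comap]
      exact le_sSup (hmin g L hL)
    exact h1 hu
  obtain ⟨C, hCst, hSC⟩ := h S hSst
  have hC : C = ⊥ := by
    by_contra hne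
    obtain ⟨c, hc, hc0⟩ := Submodule.exists_mem_ne_zero_of_ne_bot hne
    obtain ⟨W, hWf, hWst, hcW⟩ := hlf c
    have hWC : Stable ρ (W ⊓ C) := E3_stable_inf ρ hWst hCst
    have hne2 : W ⊓ C ≠ ⊥ := by
      intro h0
      have : c ∈ W ⊓ C := ⟨hcW, hc⟩
      rw [h0, Submodule.mem_bot] at this
      exact hc0 this
    obtain ⟨L, hLle, hL⟩ := E3_exists_min σ (W ⊓ C)
      (Submodule.finiteDimensional_of_le inf_le_left) (hst _ hWC) hne2
    have h1 : L ≤ S := le_sSup hL
    have h2 : L ≤ C := hLle.trans inf_le_right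
    have h3 : L ≤ ⊥ := by
      rw [← hSC.inf_eq_bot]
      exact le_inf h1 h2
    exact hL.2.1 (le_bot_iff.1 h3)
  refine E3_compRed_of_sSup σ ?_
  rw [← hS]
  have := hSC.sup_eq_top
  rwa [hC, sup_bot_eq] at this

end HamRed
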