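import Pool.Agent.HamRed.Base

open MvPolynomial

namespace HamRed

variable {G : Type} [Group G] {B : Type} [AddCommGroup B] [Module ℂ B]

/-- the vectors fixed by `ker ξ` -/
def E4_B1 (ρ : Representation ℂ G B) (ξ : G →* ℂˣ) : Submodule ℂ B where
  carrier := {b | ∀ g, ξ g = 1 → ρ g b = b}
  zero_mem' := by
    intro g _
    exact map_zero _
  add_mem' := by
    intro x y hx hy g hg
    rw [map_add, hx g hg, hy g hg]
  smul_mem' := by
    intro c x hx g hg
    rw [map_smul, hx g hg]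

theorem E4_mem_B1 (ρ : Representation ℂ G B) (ξ : G →* ℂˣ) (b : B) :
    b ∈ E4_B1 ρ ξ ↔ ∀ g, ξ g = 1 → ρ g b = b := Iff.rfl

theorem E4_rho_mul (ρ : Representation ℂ G B) (g h : G) (b : B) :
    ρ (g * h) b = ρ g (ρ h b) := by
  rw [map_mul]; rfl

theorem E4_rho_one (ρ : Representation ℂ G B) (b : B) : ρ 1 b = b := by
  rw [map_one]; rfl

theorem E4_stable_B1 (ρ : Representation ℂ G B) (ξ : G →* ℂˣ) : Stable ρ (E4_B1 ρ ξ) := by
  intro g u hu n hn
  have h1 : n * g = g * (g⁻¹ * n * g) := by group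
  rw [← E4_rho_mul, h1, E4_rho_mul, hu (g⁻¹ * n * g)]
  rw [map_mul, map_mul, hn, mul_one, ← map_mul, inv_mul_cancel, map_one]

theorem E4_comm (ρ : Representation ℂ G B) (ξ : G →* ℂˣ) {b : B} (hb : b ∈ E4_B1 ρ ξ) (g h : G) :
    ρ g (ρ h b) = ρ h (ρ g b) := by
  rw [← E4_rho_mul, ← E4_rho_mul]
  have h1 : g * h = (h * g) * ((h * g)⁻¹ * (g * h)) := by group
  rw [h1, E4_rho_mul, hb]
  rw [map_mul, map_inv, map_mul, map_mul, mul_comm (ξ h) (ξ g), inv_mul_cancel]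

/-- a nonzero finite-dimensional stable subspace of `B₁` contains a common eigenvector -/
theorem E4_common (ρ : Representation ℂ G B) (ξ : G →* ℂˣ) :
    ∀ (n : ℕ) (U : Submodule ℂ B), Module.Finite ℂ U → Module.finrank ℂ U = n → Stable ρ U →
      U ≤ E4_B1 ρ ξ → U ≠ ⊥ → ∃ u ∈ U, u ≠ 0 ∧ ∀ g, ∃ c : ℂ, ρ g u = c • u := by
  intro n
  induction n using Nat.strong_induction_on with
  | _ n ih =>
  intro U hfin hn hst hU hne
  by_cases hsc : ∀ g, ∃ c : ℂ, ∀ u ∈ U, ρ g u = c • u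
  · obtain ⟨u, hu, hu0⟩ := (Submodule.ne_bot_iff U).1 hne
    refine ⟨u, hu, hu0, fun g => ?_⟩
    obtain ⟨c, hc⟩ := hsc g
    exact ⟨c, hc u hu⟩
  · push Not at hsc
    obtain ⟨g, hg⟩ := hsc
    -- an eigenvalue of `ρ g` on `U`
    have : Nontrivial U := Submodule.nontrivial_iff_ne_bot.2 hne
    obtain ⟨μ, hμ⟩ := Module.End.exists_eigenvalue ((ρ g).restrict (hst g) : Module.End ℂ U)
    obtain ⟨v, hv⟩ := hμ.exists_hasEigenvector
    set U' : Submodule ℂ B := U ⊓ LinearMap.ker (ρ g - μ • (LinearMap.id : B →ₗ[ℂ] B)) with hU'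
    have memU' : ∀ x, x ∈ U' ↔ x ∈ U ∧ ρ g x = μ • x := by
      intro x
      rw [hU', Submodule.mem_inf, LinearMap.mem_ker, LinearMap.sub_apply, LinearMap.smul_apply,
        LinearMap.id_apply, sub_eq_zero]
    have hle : U' ≤ U := inf_le_left
    have hlt : U' < U := by
      refine lt_of_le_of_ne hle fun heq => ?_
      obtain ⟨u, hu, hu2⟩ := hg μ
      rw [← heq, memU'] at hu
      exact hu2 hu.2
    have hne' : U' ≠ ⊥ := by
      rw [Submodule.ne_bot_iff]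
      refine ⟨v, (memU' _).2 ⟨v.2, ?_⟩, ?_⟩
      · have h1 := hv.apply_eq_smul
        have h2 := congrArg (Subtype.val) h1
        rw [LinearMap.coe_restrict_apply] at h2
        exact h2
      · intro h0
        exact hv.2 (Subtype.ext h0)
    have hst' : Stable ρ U' := by
      intro h u hu
      rw [memU'] at hu ⊢
      refine ⟨hst h u hu.1, ?_⟩
      rw [E4_comm ρ ξ (hU hu.1), hu.2, map_smul]
    have hfin' : Module.Finite ℂ U' := Submodule.finiteDimensional_of_le hle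
    have hrk : Module.finrank ℂ U' < n := by
      rw [← hn]
      exact Submodule.finrank_lt_finrank_of_lt hlt
    obtain ⟨u, hu, hu0, hu2⟩ := ih _ hrk U' hfin' rfl hst' (hle.trans hU) hne'
    exact ⟨u, hle hu, hu0, hu2⟩

/-- semi-invariants of weight `ξ ^ a` -/
def E4_semi (ρ : Representation ℂ G B) (ξ : G →* ℂˣ) (a : ℤ) : Submodule ℂ B where
  carrier := {b | IsSemiInv ρ (fun g => ((ξ g ^ a : ℂˣ) : ℂ)) b}
  zero_mem' := by
    intro g
    rw [map_zero, smul_zero]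
  add_mem' := by
    intro x y hx hy g
    rw [map_add, hx g, hy g, smul_add]
  smul_mem' := by
    intro c x hx g
    rw [map_smul, hx g, smul_comm]

theorem E4_mem_semi (ρ : Representation ℂ G B) (ξ : G →* ℂˣ) (a : ℤ) (b : B) :
    b ∈ E4_semi ρ ξ a ↔ IsSemiInv ρ (fun g => ((ξ g ^ a : ℂˣ) : ℂ)) b := Iff.rfl

/-- a common eigenvector has a character -/
theorem E4_char (ρ : Representation ℂ G B) {u : B} (hu : u ≠ 0)
    (h : ∀ g, ∃ c : ℂ, ρ g u = c • u) :
    ∃ η : G →* ℂˣ, IsSemiInv ρ (fun g => ((η g : ℂˣ) : ℂ)) u := by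
  choose c hc using h
  have hone : c 1 = 1 := by
    have h1 := hc 1
    rw [E4_rho_one] at h1
    have h2 : (c 1 - 1) • u = 0 := by rw [sub_smul, one_smul, ← h1, sub_self]
    rcases smul_eq_zero.1 h2 with h3 | h3
    · exact sub_eq_zero.1 h3
    · exact absurd h3 hu
  have hmul : ∀ g h, c (g * h) = c g * c h := by
    intro g h
    have h1 := hc (g * h)
    rw [E4_rho_mul, hc h, map_smul, hc g, smul_smul] at h1
    have h2 : (c (g * h) - c g * c h) • u = 0 := by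
      rw [sub_smul, ← h1, mul_comm (c g), sub_self]
    rcases smul_eq_zero.1 h2 with h3 | h3
    · exact sub_eq_zero.1 h3
    · exact absurd h3 hu
  let φ : G →* ℂ := { toFun := c, map_one' := hone, map_mul' := hmul }
  refine ⟨φ.toHomUnits, fun g => ?_⟩
  rw [hc g]
  rfl

theorem E4_le_iSup (ρ : Representation ℂ G B) (h : CompRed ρ) (ξ : G →* ℂˣ)
    (hrel : ∀ (η : G →* ℂˣ) (b : B), b ≠ 0 → IsSemiInv ρ (fun g => ((η g : ℂˣ) : ℂ)) b →
      (∀ g, ξ g = 1 → η g = 1) → ∃ a : ℤ, ∀ g, η g = ξ g ^ a) :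
    ∀ (n : ℕ) (U : Submodule ℂ B), Module.Finite ℂ U → Module.finrank ℂ U = n → Stable ρ U →
      U ≤ E4_B1 ρ ξ → U ≤ ⨆ a : ℤ, E4_semi ρ ξ a := by
  intro n
  induction n using Nat.strong_induction_on with
  | _ n ih =>
  intro U hfin hn hst hU
  by_cases hne : U = ⊥
  · rw [hne]; exact bot_le
  obtain ⟨u, hu, hu0, hu2⟩ := E4_common ρ ξ n U hfin hn hst hU hne
  obtain ⟨η, hη⟩ := E4_char ρ hu0 hu2
  have htriv : ∀ g, ξ g = 1 → η g = 1 := by
    intro g hg
    have h1 := hη g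
    rw [hU hu g hg] at h1
    have h2 : (((η g : ℂˣ) : ℂ) - 1) • u = 0 := by
      rw [sub_smul, one_smul]
      exact sub_eq_zero.2 h1.symm
    rcases smul_eq_zero.1 h2 with h3 | h3
    · exact Units.ext (sub_eq_zero.1 h3)
    · exact absurd h3 hu0
  obtain ⟨a, ha⟩ := hrel η u hu0 hη htriv
  have hua : u ∈ E4_semi ρ ξ a := by
    rw [E4_mem_semi]
    intro g
    have := hη g
    rw [this]
    simp only [ha g]
  -- stable complement of the line
  have hline : Stable ρ (Submodule.span ℂ {u}) := by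
    intro g x hx
    obtain ⟨c, rfl⟩ := Submodule.mem_span_singleton.1 hx
    rw [map_smul, hη g]
    exact Submodule.smul_mem _ _ (Submodule.smul_mem _ _ (Submodule.mem_span_singleton_self u))
  obtain ⟨C, hC, hcompl⟩ := h _ hline
  have hst' : Stable ρ (U ⊓ C) := fun g x hx => ⟨hst g x hx.1, hC g x hx.2⟩
  have hlt : U ⊓ C < U := by
    refine lt_of_le_of_ne inf_le_left fun heq => ?_
    have huC : u ∈ U ⊓ C := by rw [heq]; exact hu
    have h0 := (Submodule.disjoint_def.1 hcompl.disjoint) u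
      (Submodule.mem_span_singleton_self u) huC.2
    exact hu0 h0
  have hfin' : Module.Finite ℂ (U ⊓ C : Submodule ℂ B) :=
    Submodule.finiteDimensional_of_le inf_le_left
  have hrk : Module.finrank ℂ (U ⊓ C : Submodule ℂ B) < n := by
    rw [← hn]
    exact Submodule.finrank_lt_finrank_of_lt hlt
  have hrec := ih _ hrk (U ⊓ C) hfin' rfl hst' (inf_le_left.trans hU)
  intro x hx
  obtain ⟨y, hy, z, hz, rfl⟩ := Submodule.mem_sup.1
    (show x ∈ Submodule.span ℂ {u} ⊔ C by rw [hcompl.sup_eq_top]; exact Submodule.mem_top)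
  have hyU : y ∈ U := by
    obtain ⟨c, rfl⟩ := Submodule.mem_span_singleton.1 hy
    exact U.smul_mem c hu
  have hzU : z ∈ U := by
    have := U.sub_mem hx hyU
    rwa [add_sub_cancel_left] at this
  refine Submodule.add_mem _ ?_ (hrec ⟨hzU, hz⟩)
  obtain ⟨c, rfl⟩ := Submodule.mem_span_singleton.1 hy
  exact Submodule.smul_mem _ c (Submodule.mem_iSup_of_mem a hua)

/-- E4 : decomposition of the `ker ξ`-invariants into semi-invariants. -/
theorem E4_decomp (ρ : Representation ℂ G B) (h : CompRed ρ) (hlf : LocFin ρ) (ξ : G →* ℂˣ)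
    (hrel : ∀ (η : G →* ℂˣ) (b : B), b ≠ 0 → IsSemiInv ρ (fun g => ((η g : ℂˣ) : ℂ)) b →
      (∀ g, ξ g = 1 → η g = 1) → ∃ a : ℤ, ∀ g, η g = ξ g ^ a)
    (b : B) (hb : ∀ g, ξ g = 1 → ρ g b = b) :
    ∃ (s : Finset ℤ) (c : ℤ → B), (∀ a, IsSemiInv ρ (fun g => ((ξ g ^ a : ℂˣ) : ℂ)) (c a)) ∧
      b = ∑ a ∈ s, c a := by
  obtain ⟨W, hWfin, hWst, hbW⟩ := hlf b
  have hfin : Module.Finite ℂ (W ⊓ E4_B1 ρ ξ : Submodule ℂ B) :=
    Submodule.finiteDimensional_of_le inf_le_left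
  have hst : Stable ρ (W ⊓ E4_B1 ρ ξ) := fun g x hx =>
    ⟨hWst g x hx.1, E4_stable_B1 ρ ξ g x hx.2⟩
  have h1 := E4_le_iSup ρ h ξ hrel _ (W ⊓ E4_B1 ρ ξ) hfin rfl hst inf_le_right
  have h2 : b ∈ ⨆ a : ℤ, E4_semi ρ ξ a := h1 ⟨hbW, hb⟩
  obtain ⟨f, hf, hf2⟩ := (Submodule.mem_iSup_iff_exists_finsupp _ _).1 h2
  exact ⟨f.support, fun a => f a, fun a => hf a, hf2.symm⟩

end HamRed
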