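import Pool.Agent.HamRed.Base
import Pool.Agent.HamRed.E2

open MvPolynomial

namespace HamRed

variable {ι κ : Type} [Fintype ι] [DecidableEq ι] [Fintype κ] [DecidableEq κ]

/-- E5 : weights of semi-invariant functions are regular characters. -/
theorem E5_regular (G : Subgroup (GL ι ℂ)) (α : G →* GL κ ℂ)
    (hα : IsRationalRep G α) {X : Set (κ → ℂ)} (hX : StableSet α X) (η : G →* ℂˣ)
    (b : polyFun X) (hb0 : b ≠ 0)
    (hb : IsSemiInv (funRep α hX) (fun g => ((η g : ℂˣ) : ℂ)) b) : IsRegChar G η := by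
  obtain ⟨x, hx⟩ : ∃ x : X, b.1 x ≠ 0 := by
    by_contra hcon
    push Not at hcon
    apply hb0
    apply Subtype.ext
    funext x
    exact hcon x
  obtain ⟨P, hP⟩ := b.2
  have h1 : (fun g => ((η g : ℂˣ) : ℂ)) = fun g =>
      MvPolynomial.eval (fun p : κ × κ => (α g⁻¹).val p.1 p.2)
        (∑ s ∈ (E2_gen P).support, (E2_gen P).coeff s * C ((E2_mon X s).1 x * (b.1 x)⁻¹)) := by
    funext g
    have h2 : (funRep α hX g b).1 x = ((η g : ℂˣ) : ℂ) * b.1 x := by
      rw [hb g]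
      rfl
    have h3 : ((η g : ℂˣ) : ℂ) = (funRep α hX g b).1 x * (b.1 x)⁻¹ := by
      rw [h2, mul_assoc, mul_inv_cancel₀ hx, mul_one]
    rw [h3, E2_act G α hX b P hP g, AddSubmonoidClass.coe_finsetSum, Finset.sum_apply,
      Finset.sum_mul, map_sum]
    refine Finset.sum_congr rfl (fun s _ => ?_)
    rw [map_mul, MvPolynomial.eval_C, ← mul_assoc]
    rfl
  unfold IsRegChar
  rw [h1]
  exact E2_regular_eval G (fun (p : κ × κ) g => (α g⁻¹).val p.1 p.2)
    (fun p => E2_regular_inv G (hα p.1 p.2)) _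

end HamRed
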