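import Pool.Agent.HamRed.Base

open MvPolynomial

namespace HamRed

variable {ι κ : Type} [Fintype ι] [DecidableEq ι] [Fintype κ] [DecidableEq κ]

/-- F1 : Chevalley. The image of a closed set under a polynomial map contains a nonempty relatively
open subset of its closure. -/
theorem F1_chevalley {σ τ : Type} [Finite σ] [Finite τ] (T : Set (MvPolynomial σ ℂ))
    (hne : ∃ x : σ → ℂ, ∀ P ∈ T, MvPolynomial.eval x P = 0) (φ : τ → MvPolynomial σ ℂ) :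
    ∃ P : MvPolynomial τ ℂ,
      (∃ x : σ → ℂ, (∀ Q ∈ T, MvPolynomial.eval x Q = 0) ∧
        MvPolynomial.eval (fun t => MvPolynomial.eval x (φ t)) P ≠ 0) ∧
      ∀ y : τ → ℂ,
        (∀ Q : MvPolynomial τ ℂ,
          (∀ x : σ → ℂ, (∀ R ∈ T, MvPolynomial.eval x R = 0) →
            MvPolynomial.eval (fun t => MvPolynomial.eval x (φ t)) Q = 0) →
          MvPolynomial.eval y Q = 0) →
        MvPolynomial.eval y P ≠ 0 →
        ∃ x : σ → ℂ, (∀ Q ∈ T, MvPolynomial.eval x Q = 0) ∧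
          (fun t => MvPolynomial.eval x (φ t)) = y := by
  classical
  let Φ : MvPolynomial τ ℂ →+* MvPolynomial σ ℂ := (MvPolynomial.bind₁ φ).toRingHom
  have hΦ : ∀ (x : σ → ℂ) (Q : MvPolynomial τ ℂ),
      MvPolynomial.eval x (Φ Q) = MvPolynomial.eval (fun t => MvPolynomial.eval x (φ t)) Q := by
    intro x Q
    show MvPolynomial.eval x (MvPolynomial.bind₁ φ Q) = _
    rw [← MvPolynomial.aeval_eq_eval, ← MvPolynomial.aeval_eq_eval]
    exact MvPolynomial.aeval_bind₁ x φ Q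
  have hΦX : ∀ t, Φ (X t) = φ t := fun t => MvPolynomial.bind₁_X_right φ t
  have hΦC : ∀ c : ℂ, Φ (C c) = C c := fun c => MvPolynomial.bind₁_C_right φ c
  have hfin : Φ.FinitePresentation := by
    have h1 : (Φ.comp (algebraMap ℂ (MvPolynomial τ ℂ))).FiniteType := by
      have h2 : Φ.comp (algebraMap ℂ (MvPolynomial τ ℂ)) = algebraMap ℂ (MvPolynomial σ ℂ) :=
        RingHom.ext fun c => hΦC c
      rw [h2]
      exact RingHom.finiteType_algebraMap.2 inferInstance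
    exact RingHom.FinitePresentation.of_finiteType.1 h1.of_comp_finiteType
  let Xs : Set (σ → ℂ) := {x | ∀ P ∈ T, MvPolynomial.eval x P = 0}
  let I : Ideal (MvPolynomial σ ℂ) := MvPolynomial.vanishingIdeal ℂ Xs
  have hImem : ∀ P, P ∈ I ↔ ∀ x ∈ Xs, MvPolynomial.eval x P = 0 := by
    intro P
    simp only [I, MvPolynomial.mem_vanishingIdeal_iff, MvPolynomial.aeval_eq_eval]
  have hTI : T ⊆ I := fun P hP => (hImem P).2 fun x hx => hx P hP
  have hcons : Topology.IsConstructible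
      (PrimeSpectrum.comap Φ '' PrimeSpectrum.zeroLocus (I : Set (MvPolynomial σ ℂ))) := by
    apply PrimeSpectrum.isConstructible_comap_image hfin
    rw [← Topology.isConstructible_compl]
    exact (PrimeSpectrum.isRetrocompact_zeroLocus_compl_of_fg
      (IsNoetherian.noetherian I)).isConstructible
      (PrimeSpectrum.isClosed_zeroLocus _).isOpen_compl
  obtain ⟨S, hS⟩ := PrimeSpectrum.exists_constructibleSetData_iff.2 hcons
  let J : Ideal (MvPolynomial τ ℂ) := I.comap Φ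
  have hJtop : J ≠ ⊤ := by
    intro h
    have h1 : (1 : MvPolynomial τ ℂ) ∈ J := h ▸ Submodule.mem_top
    have h2 : Φ 1 ∈ I := h1
    rw [map_one, hImem] at h2
    obtain ⟨x, hx⟩ := hne
    simpa using h2 x hx
  obtain ⟨𝔪, h𝔪, hJ𝔪⟩ := Ideal.exists_le_maximal J hJtop
  have := h𝔪.isPrime
  obtain ⟨𝔮, h𝔮, -⟩ := Ideal.exists_minimalPrimes_le hJ𝔪
  have h𝔮p : 𝔮.IsPrime := h𝔮.1.1
  obtain ⟨p', hp', hIp', hp'𝔮⟩ := Ideal.exists_comap_eq_of_mem_minimalPrimes Φ 𝔮 h𝔮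
  have h𝔮S : (⟨𝔮, h𝔮p⟩ : PrimeSpectrum (MvPolynomial τ ℂ)) ∈ S.toSet := by
    rw [hS]
    exact ⟨⟨p', hp'⟩, hIp', PrimeSpectrum.ext hp'𝔮⟩
  obtain ⟨D, hD, hD𝔮⟩ : ∃ D ∈ S, (⟨𝔮, h𝔮p⟩ : PrimeSpectrum (MvPolynomial τ ℂ)) ∈ D.toSet := by
    simpa [PrimeSpectrum.ConstructibleSetData.toSet] using h𝔮S
  have hDg : Set.range D.g ⊆ 𝔮 := hD𝔮.1
  have hDf : D.f ∉ 𝔮 := fun h => hD𝔮.2 (by
    rw [PrimeSpectrum.mem_zeroLocus, Set.singleton_subset_iff]
    exact h)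
  -- a polynomial separating the other components
  have hJfin : J.minimalPrimes.Finite := Ideal.finite_minimalPrimes_of_isNoetherianRing _ J
  obtain ⟨h, hh𝔮, hhj⟩ : ∃ h : MvPolynomial τ ℂ, h ∉ 𝔮 ∧
      ∀ 𝔮' ∈ J.minimalPrimes, 𝔮' ≠ 𝔮 → h ∈ 𝔮' := by
    let s : Finset (Ideal (MvPolynomial τ ℂ)) := hJfin.toFinset.erase 𝔮
    have h1 : ¬ s.inf id ≤ 𝔮 := by
      rw [h𝔮p.inf_le']
      rintro ⟨𝔮', h𝔮's, hle⟩
      obtain ⟨hne', hmem⟩ := Finset.mem_erase.1 h𝔮's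
      rw [Set.Finite.mem_toFinset] at hmem
      exact hne' (le_antisymm hle (h𝔮.2 ⟨hmem.1.1, hmem.1.2⟩ hle))
    obtain ⟨h, hhs, hh𝔮⟩ := Set.not_subset.1 h1
    refine ⟨h, hh𝔮, fun 𝔮' h𝔮' hne' => ?_⟩
    have h2 : s.inf id ≤ 𝔮' := Finset.inf_le (f := id) (Finset.mem_erase.2
      ⟨hne', (Set.Finite.mem_toFinset _).2 h𝔮'⟩)
    exact h2 hhs
  refine ⟨D.f * h, ?_, ?_⟩
  · -- `P` does not vanish identically
    have hP : D.f * h ∉ J := fun hmem => (h𝔮p.mem_or_mem (h𝔮.1.2 hmem)).elim hDf hh𝔮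
    have hP' : ¬ ∀ x ∈ Xs, MvPolynomial.eval x (Φ (D.f * h)) = 0 := fun hcon =>
      hP ((hImem _).2 hcon)
    push Not at hP'
    obtain ⟨x, hx, hx0⟩ := hP'
    exact ⟨x, hx, by rwa [hΦ] at hx0⟩
  · intro y hy hPy
    let 𝔫 : Ideal (MvPolynomial τ ℂ) := RingHom.ker (MvPolynomial.eval y)
    have h𝔫 : 𝔫.IsPrime := RingHom.ker_isPrime _
    have hJ𝔫 : J ≤ 𝔫 := by
      intro Q hQ
      refine hy Q fun x hx => ?_
      rw [← hΦ]
      exact (hImem _).1 hQ x hx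
    obtain ⟨𝔮', h𝔮', h𝔮'𝔫⟩ := Ideal.exists_minimalPrimes_le hJ𝔫
    rw [map_mul] at hPy
    have hfy : MvPolynomial.eval y D.f ≠ 0 := left_ne_zero_of_mul hPy
    have hhy : MvPolynomial.eval y h ≠ 0 := right_ne_zero_of_mul hPy
    have heq : 𝔮' = 𝔮 := by
      by_contra hne'
      exact hhy (h𝔮'𝔫 (hhj 𝔮' h𝔮' hne'))
    rw [heq] at h𝔮'𝔫
    have h𝔫S : (⟨𝔫, h𝔫⟩ : PrimeSpectrum (MvPolynomial τ ℂ)) ∈ S.toSet := by
      have : (⟨𝔫, h𝔫⟩ : PrimeSpectrum (MvPolynomial τ ℂ)) ∈ D.toSet := by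
        refine ⟨hDg.trans h𝔮'𝔫, fun hcon => ?_⟩
        rw [PrimeSpectrum.mem_zeroLocus, Set.singleton_subset_iff] at hcon
        exact hfy hcon
      simp only [PrimeSpectrum.ConstructibleSetData.toSet, Set.mem_iUnion]
      exact ⟨D, hD, this⟩
    rw [hS] at h𝔫S
    obtain ⟨p, hpI, hpn⟩ := h𝔫S
    have hpn' : p.asIdeal.comap Φ = 𝔫 := congrArg PrimeSpectrum.asIdeal hpn
    obtain ⟨M, hM, hpM⟩ := Ideal.exists_le_maximal p.asIdeal p.2.ne_top
    obtain ⟨x, hx⟩ := MvPolynomial.isMaximal_iff_eq_vanishingIdeal_singleton.1 hM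
    have hxM : ∀ Q, Q ∈ M ↔ MvPolynomial.eval x Q = 0 := by
      intro Q
      rw [hx, MvPolynomial.mem_vanishingIdeal_iff]
      simp [MvPolynomial.aeval_eq_eval]
    refine ⟨x, fun Q hQ => (hxM Q).1 (hpM (hpI (hTI hQ))), ?_⟩
    funext t
    have h1 : (X t - C (y t) : MvPolynomial τ ℂ) ∈ 𝔫 := by
      show MvPolynomial.eval y (X t - C (y t)) = 0
      simp
    rw [← hpn'] at h1
    have h2 : Φ (X t - C (y t)) ∈ M := hpM h1
    rw [map_sub, hΦX, hΦC, hxM, map_sub, eval_C, sub_eq_zero] at h2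
    exact h2

end HamRed
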