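import Pool.Agent.HamRed.Base
import Pool.Agent.HamRed.F1

open MvPolynomial

namespace HamRed

variable {ι κ : Type} [Fintype ι] [DecidableEq ι] [Fintype κ] [DecidableEq κ]

/-- The point `(g, g⁻¹)` of affine space. -/
noncomputable def F2_pt (g : GL ι ℂ) : (ι × ι) ⊕ (ι × ι) → ℂ :=
  Sum.elim (fun p => g.val p.1 p.2) (fun p => (g⁻¹).val p.1 p.2)

omit [Fintype κ] [DecidableEq κ] in
/-- The kernel of a regular character, as a closed subset of affine space. -/
theorem F2_kernel (G : Subgroup (GL ι ℂ)) (hG : IsZariskiClosed G) (ξ : G →* ℂˣ)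
    (hξ : IsRegChar G ξ) (w : (ι × ι) ⊕ (ι × ι) → ℂ)
    (hw : ∀ P : MvPolynomial ((ι × ι) ⊕ (ι × ι)) ℂ,
      (∀ g : G, ξ g = 1 → MvPolynomial.eval (F2_pt (g : GL ι ℂ)) P = 0) →
      MvPolynomial.eval w P = 0) :
    ∃ g : G, ξ g = 1 ∧ w = F2_pt (g : GL ι ℂ) := by
  obtain ⟨T, hT⟩ := hG
  obtain ⟨Pξ, hPξ⟩ := hξ
  let a : Matrix ι ι ℂ := fun i j => w (Sum.inl (i, j))
  let b : Matrix ι ι ℂ := fun i j => w (Sum.inr (i, j))
  have hab : a * b = 1 := by
    ext i k
    have := hw (∑ j, X (Sum.inl (i, j)) * X (Sum.inr (j, k)) - C ((1 : Matrix ι ι ℂ) i k))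
      fun g _ => by
        have h1 : ((g : GL ι ℂ).val * ((g : GL ι ℂ)⁻¹).val) i k = (1 : Matrix ι ι ℂ) i k := by
          rw [Units.mul_inv]
        rw [Matrix.mul_apply] at h1
        simp only [map_sub, map_sum, map_mul, eval_X, eval_C, F2_pt, Sum.elim_inl, Sum.elim_inr]
        rw [h1, sub_self]
    simp only [map_sub, map_sum, map_mul, eval_X, eval_C, sub_eq_zero] at this
    rw [Matrix.mul_apply]
    exact this
  have hba : b * a = 1 := by
    ext i k
    have := hw (∑ j, X (Sum.inr (i, j)) * X (Sum.inl (j, k)) - C ((1 : Matrix ι ι ℂ) i k))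
      fun g _ => by
        have h1 : (((g : GL ι ℂ)⁻¹).val * (g : GL ι ℂ).val) i k = (1 : Matrix ι ι ℂ) i k := by
          rw [Units.inv_mul]
        rw [Matrix.mul_apply] at h1
        simp only [map_sub, map_sum, map_mul, eval_X, eval_C, F2_pt, Sum.elim_inl, Sum.elim_inr]
        rw [h1, sub_self]
    simp only [map_sub, map_sum, map_mul, eval_X, eval_C, sub_eq_zero] at this
    rw [Matrix.mul_apply]
    exact this
  let g : GL ι ℂ := ⟨a, b, hab, hba⟩
  have hwg : w = F2_pt g := by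
    funext p
    rcases p with p | p <;> rfl
  have hgG : g ∈ G := by
    rw [hT]
    intro P hP
    have := hw (rename Sum.inl P) fun g' _ => by
      rw [eval_rename]
      exact (hT g').1 g'.2 P hP
    rw [eval_rename] at this
    exact this
  refine ⟨⟨g, hgG⟩, ?_, hwg⟩
  have h1 := hw (Pξ - 1) fun g' hg' => by
    have h2 : (1 : ℂ) = MvPolynomial.eval (F2_pt (g' : GL ι ℂ)) Pξ := by
      have h3 : ((ξ g' : ℂˣ) : ℂ) = MvPolynomial.eval (F2_pt (g' : GL ι ℂ)) Pξ := hPξ g'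
      rw [hg', Units.val_one] at h3
      exact h3
    rw [map_sub, map_one, ← h2, sub_self]
  rw [map_sub, map_one, sub_eq_zero, hwg] at h1
  apply Units.ext
  rw [Units.val_one, ← h1]
  exact hPξ ⟨g, hgG⟩

/-- F2 (uses F1) : a minimal nonempty closed stable set is an orbit. Here `K ≤ G` is
the kernel of a regular character of the closed group `G`. -/
theorem F2_orbit (G : Subgroup (GL ι ℂ)) (hG : IsZariskiClosed G) (ξ : G →* ℂˣ)
    (hξ : IsRegChar G ξ) (α : G →* GL κ ℂ) (hα : IsRationalRep G α) (Z : Set (κ → ℂ))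
    (hZ : IsClosedSet Z) (hst : ∀ g, ξ g = 1 → ∀ z ∈ Z, (α g).val.mulVec z ∈ Z)
    (hmin : ∀ Z' ⊆ Z, IsClosedSet Z' → Z'.Nonempty →
      (∀ g, ξ g = 1 → ∀ z ∈ Z', (α g).val.mulVec z ∈ Z') → Z' = Z)
    (x z : κ → ℂ) (hx : x ∈ Z) (hz : z ∈ Z) : ∃ g, ξ g = 1 ∧ (α g).val.mulVec x = z := by
  -- the closure of an orbit is `Z`
  have hcl : ∀ u ∈ Z, {y : κ → ℂ | ∀ Q : MvPolynomial κ ℂ,
      (∀ g, ξ g = 1 → MvPolynomial.eval ((α g).val.mulVec u) Q = 0) →
        MvPolynomial.eval y Q = 0} = Z := by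
    intro u hu
    apply hmin
    · intro y hy
      obtain ⟨T, rfl⟩ := hZ
      intro P hP
      exact hy P fun g hg => hst g hg u hu P hP
    · refine ⟨{Q | ∀ g, ξ g = 1 → MvPolynomial.eval ((α g).val.mulVec u) Q = 0}, rfl⟩
    · refine ⟨u, fun Q hQ => ?_⟩
      have := hQ 1 (map_one ξ)
      simpa using this
    · intro g hg y hy Q hQ
      -- substitute the linear forms
      let L : κ → MvPolynomial κ ℂ := fun i => ∑ j, C ((α g).val i j) * X j
      have hL : ∀ v : κ → ℂ, MvPolynomial.eval v (MvPolynomial.bind₁ L Q) =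
          MvPolynomial.eval ((α g).val.mulVec v) Q := by
        intro v
        rw [← MvPolynomial.aeval_eq_eval, ← MvPolynomial.aeval_eq_eval]
        have e : (fun i => MvPolynomial.aeval v (L i)) = (α g).val.mulVec v := by
          funext i
          simp [L, Matrix.mulVec, dotProduct]
        have := MvPolynomial.aeval_bind₁ v L Q
        rw [e] at this
        exact this
      rw [← hL]
      refine hy _ fun g' hg' => ?_
      rw [hL, Matrix.mulVec_mulVec]
      have := hQ (g * g') (by rw [map_mul, hg, hg', mul_one])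
      rw [map_mul] at this
      exact this
  -- the orbit map of `x`
  choose Pα hPα' using hα
  have hPα : ∀ (i j : κ) (g : G), MvPolynomial.eval (F2_pt (g : GL ι ℂ)) (Pα i j) =
      (α g).val i j := fun i j g => (hPα' i j g).symm
  let φ : κ → MvPolynomial ((ι × ι) ⊕ (ι × ι)) ℂ := fun i => ∑ j, Pα i j * C (x j)
  have hφ : ∀ g : G, (fun i => MvPolynomial.eval (F2_pt (g : GL ι ℂ)) (φ i)) =
      (α g).val.mulVec x := by
    intro g
    funext i
    simp only [φ, map_sum, map_mul, eval_C, Matrix.mulVec, dotProduct]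
    refine Finset.sum_congr rfl fun j _ => ?_
    rw [hPα i j g]
  obtain ⟨P, ⟨w₀, hw₀, hPw₀⟩, hPx⟩ := F1_chevalley
    {P : MvPolynomial ((ι × ι) ⊕ (ι × ι)) ℂ |
      ∀ g : G, ξ g = 1 → MvPolynomial.eval (F2_pt (g : GL ι ℂ)) P = 0}
    ⟨F2_pt ((1 : G) : GL ι ℂ), fun P hP => hP 1 (map_one ξ)⟩ φ
  obtain ⟨k₀, hk₀, rfl⟩ := F2_kernel G hG ξ hξ w₀ hw₀
  rw [hφ] at hPw₀
  -- `P` is not identically zero on the orbit of `z`
  have hk : ∃ k, ξ k = 1 ∧ MvPolynomial.eval ((α k).val.mulVec z) P ≠ 0 := by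
    by_contra hcon
    push Not at hcon
    have h1 : (α k₀).val.mulVec x ∈ Z := hst k₀ hk₀ x hx
    rw [← hcl z hz] at h1
    exact hPw₀ (h1 P hcon)
  obtain ⟨k, hk1, hkP⟩ := hk
  have hkz : (α k).val.mulVec z ∈ Z := hst k hk1 z hz
  rw [← hcl x hx] at hkz
  obtain ⟨w, hw, hwk⟩ := hPx _ (fun Q hQ => hkz Q fun g hg => by
    have := hQ (F2_pt (g : GL ι ℂ)) fun R hR => hR g hg
    rwa [hφ] at this) hkP
  obtain ⟨k', hk', rfl⟩ := F2_kernel G hG ξ hξ w hw
  rw [hφ] at hwk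
  refine ⟨k⁻¹ * k', by rw [map_mul, map_inv, hk1, hk', inv_one, mul_one], ?_⟩
  rw [map_mul, Units.val_mul, ← Matrix.mulVec_mulVec, hwk, Matrix.mulVec_mulVec, ← Units.val_mul,
    ← map_mul, inv_mul_cancel, map_one, Units.val_one, Matrix.one_mulVec]

end HamRed
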