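import Pool.Agent.HamRed.Base
import Pool.Agent.HamRed.E1
import Pool.Agent.HamRed.E2
import Pool.Agent.HamRed.E3
import Pool.Agent.HamRed.E4
import Pool.Agent.HamRed.E5
import Pool.Agent.HamRed.F2

open MvPolynomial

namespace HamRed

section Null

variable {κ : Type} [Fintype κ] [DecidableEq κ]

/-- restriction of polynomials to `X` -/
noncomputable def F3_res (X : Set (κ → ℂ)) : MvPolynomial κ ℂ →+* polyFun X where
  toFun P := ⟨fun x => MvPolynomial.eval x.1 P, P, fun _ => rfl⟩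
  map_one' := by
    apply Subtype.ext; funext x; simp
  map_mul' P Q := by
    apply Subtype.ext; funext x; simp
  map_zero' := by
    apply Subtype.ext; funext x; simp
  map_add' P Q := by
    apply Subtype.ext; funext x; simp

theorem F3_res_apply (X : Set (κ → ℂ)) (P : MvPolynomial κ ℂ) (x : X) :
    (F3_res X P).1 x = MvPolynomial.eval x.1 P := rfl

theorem F3_res_surj (X : Set (κ → ℂ)) (b : polyFun X) : ∃ P, F3_res X P = b := by
  obtain ⟨b, P, hP⟩ := b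
  refine ⟨P, ?_⟩
  apply Subtype.ext
  funext x
  rw [F3_res_apply]
  exact (hP x).symm

theorem F3_null {X : Set (κ → ℂ)} (hXc : IsClosedSet X) (I : Ideal (polyFun X)) (hI : I ≠ ⊤) :
    ∃ x : X, ∀ b ∈ I, b.1 x = 0 := by
  set J : Ideal (MvPolynomial κ ℂ) := I.comap (F3_res X) with hJ
  have hJtop : J ≠ ⊤ := by
    intro h
    apply hI
    rw [Ideal.eq_top_iff_one] at h ⊢
    have : F3_res X 1 ∈ I := h
    rwa [map_one] at this
  have hne : (zeroLocus ℂ J).Nonempty := by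
    by_contra hcon
    rw [Set.not_nonempty_iff_eq_empty] at hcon
    have h1 := vanishingIdeal_zeroLocus_eq_radical (k := ℂ) (K := ℂ) J
    rw [hcon, vanishingIdeal_empty] at h1
    exact hJtop (Ideal.radical_eq_top.1 h1.symm)
  obtain ⟨x, hx⟩ := hne
  obtain ⟨T, hT⟩ := hXc
  have hxX : x ∈ X := by
    rw [hT]
    intro P hP
    have h1 : P ∈ J := by
      change F3_res X P ∈ I
      have : F3_res X P = 0 := by
        apply Subtype.ext; funext y
        rw [F3_res_apply]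
        have hy : (y : κ → ℂ) ∈ X := y.2
        have hy2 : (y : κ → ℂ) ∈ {x | ∀ P ∈ T, MvPolynomial.eval x P = 0} := hT ▸ hy
        exact hy2 P hP
      rw [this]
      exact I.zero_mem
    have := hx P h1
    simpa [MvPolynomial.aeval_eq_eval] using this
  refine ⟨⟨x, hxX⟩, fun b hb => ?_⟩
  obtain ⟨P, rfl⟩ := F3_res_surj X b
  have h1 : P ∈ J := hb
  have := hx P h1
  rw [F3_res_apply]
  simpa [MvPolynomial.aeval_eq_eval] using this

end Null

section Abs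

variable {G : Type} [Group G] {B : Type} [CommRing B] [Algebra ℂ B]

/-- the ideal generated by the products of semi-invariants of weights `ξ^{-N}`, `ξ^N` -/
def F3_I (ρ : Representation ℂ G B) (ξ : G →* ℂˣ) (N : ℕ) : Ideal B :=
  Ideal.span {w | ∃ q q', IsSemiInv ρ (fun g => (((ξ g ^ N)⁻¹ : ℂˣ) : ℂ)) q ∧
    IsSemiInv ρ (fun g => ((ξ g ^ N : ℂˣ) : ℂ)) q' ∧ w = q * q'}

theorem F3_semiInv_mul {ρ : Representation ℂ G B} (hmul : ∀ g b c, ρ g (b * c) = ρ g b * ρ g c)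
    {η η' : G → ℂ} {b b' : B} (h : IsSemiInv ρ η b) (h' : IsSemiInv ρ η' b') :
    IsSemiInv ρ (fun g => η g * η' g) (b * b') := by
  intro g
  rw [hmul, h g, h' g, smul_mul_smul_comm]

theorem F3_semiInv_pow {ρ : Representation ℂ G B} (hmul : ∀ g b c, ρ g (b * c) = ρ g b * ρ g c)
    (hone : ∀ g, ρ g 1 = 1) {η : G → ℂ} {b : B} (h : IsSemiInv ρ η b) (M : ℕ) :
    IsSemiInv ρ (fun g => η g ^ M) (b ^ M) := by
  induction M with
  | zero => intro g; simp [hone g]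
  | succ M ih =>
    have := F3_semiInv_mul hmul ih h
    simpa only [pow_succ] using this

theorem F3_I_le {ρ : Representation ℂ G B} (hmul : ∀ g b c, ρ g (b * c) = ρ g b * ρ g c)
    (hone : ∀ g, ρ g 1 = 1) (ξ : G →* ℂˣ) (N M : ℕ) :
    F3_I ρ ξ N ≤ (F3_I ρ ξ (N * M)).radical := by
  unfold F3_I
  rw [Ideal.span_le]
  rintro w ⟨q, q', hq, hq', rfl⟩
  refine ⟨M, Ideal.subset_span ⟨q ^ M, q' ^ M, ?_, ?_, mul_pow _ _ _⟩⟩
  · have := F3_semiInv_pow hmul hone hq M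
    intro g
    rw [this g]
    congr 1
    push_cast
    rw [pow_mul, inv_pow]
  · have := F3_semiInv_pow hmul hone hq' M
    intro g
    rw [this g]
    congr 1
    push_cast
    rw [pow_mul]

theorem F3_I_ne_top {ρ : Representation ℂ G B} (hmul : ∀ g b c, ρ g (b * c) = ρ g b * ρ g c)
    (hone : ∀ g, ρ g 1 = 1) (h : CompRed ρ) (ξ : G →* ℂˣ) (N : ℕ)
    (hfail : ¬ ∃ (k : ℕ) (q q' : Fin k → B),
      (∀ i, IsSemiInv ρ (fun g => (((ξ g ^ N)⁻¹ : ℂˣ) : ℂ)) (q i)) ∧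
      (∀ i, IsSemiInv ρ (fun g => ((ξ g ^ N : ℂˣ) : ℂ)) (q' i)) ∧
      ∑ i, q i * q' i = 1) : F3_I ρ ξ N ≠ ⊤ := by
  intro htop
  obtain ⟨E, hE1, hE2, -, -, -, hE6⟩ := E1_reynolds ρ h
  rw [Ideal.eq_top_iff_one] at htop
  unfold F3_I Ideal.span at htop
  rw [Submodule.mem_span_set'] at htop
  obtain ⟨k, f, s, hs⟩ := htop
  choose q q' hq hq' hqq using fun i => (s i).2
  apply hfail
  refine ⟨k, fun i => E (f i) * q i, q', fun i => ?_, hq', ?_⟩
  · intro g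
    rw [hmul, hE1, hq i g, mul_smul_comm]
  · have h1 : E 1 = 1 := hE2 1 hone
    rw [← h1, ← hs, map_sum]
    refine Finset.sum_congr rfl fun i _ => ?_
    have h2 := hE6 (LinearMap.mulRight ℂ (q i * q' i)) (fun g b => ?_) (f i)
    · simp only [LinearMap.mulRight_apply] at h2
      rw [smul_eq_mul, hqq i, h2, mul_assoc]
    · simp only [LinearMap.mulRight_apply]
      rw [hmul, hmul g (q i) (q' i), hq i g, hq' i g, smul_mul_smul_comm]
      have : (((ξ g ^ N)⁻¹ : ℂˣ) : ℂ) * ((ξ g ^ N : ℂˣ) : ℂ) = 1 := by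
        rw [← Units.val_mul, inv_mul_cancel, Units.val_one]
      rw [this, one_smul]

/-- the union of the ideals is proper -/
theorem F3_J_ne_top {ρ : Representation ℂ G B} (hmul : ∀ g b c, ρ g (b * c) = ρ g b * ρ g c)
    (hone : ∀ g, ρ g 1 = 1) (h : CompRed ρ) (ξ : G →* ℂˣ)
    (hfail : ∀ N : ℕ, 0 < N → ¬ ∃ (k : ℕ) (q q' : Fin k → B),
      (∀ i, IsSemiInv ρ (fun g => (((ξ g ^ N)⁻¹ : ℂˣ) : ℂ)) (q i)) ∧
      (∀ i, IsSemiInv ρ (fun g => ((ξ g ^ N : ℂˣ) : ℂ)) (q' i)) ∧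
      ∑ i, q i * q' i = 1) :
    ∃ J : Ideal B, J ≠ ⊤ ∧ ∀ N, 0 < N → F3_I ρ ξ N ≤ J := by
  let J : Ideal B := ⨆ N : {N : ℕ // 0 < N}, (F3_I ρ ξ N.1).radical
  refine ⟨J, ?_, fun N hN => ?_⟩
  · intro htop
    rw [Ideal.eq_top_iff_one] at htop
    have hdir : Directed (· ≤ ·) fun N : {N : ℕ // 0 < N} => (F3_I ρ ξ N.1).radical := by
      intro N M
      refine ⟨⟨N.1 * M.1, Nat.mul_pos N.2 M.2⟩, ?_, ?_⟩
      · exact (Ideal.radical_mono (F3_I_le hmul hone ξ N.1 M.1)).trans (Ideal.radical_idem _).le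
      · have := F3_I_le hmul hone ξ M.1 N.1
        rw [mul_comm] at this
        exact (Ideal.radical_mono this).trans (Ideal.radical_idem _).le
    haveI : Nonempty {N : ℕ // 0 < N} := ⟨⟨1, one_pos⟩⟩
    rw [Submodule.mem_iSup_of_directed _ hdir] at htop
    obtain ⟨N, hN⟩ := htop
    have h1 : (F3_I ρ ξ N.1).radical = ⊤ := (Ideal.eq_top_iff_one _).2 hN
    exact F3_I_ne_top hmul hone h ξ N.1 (hfail N.1 N.2) (Ideal.radical_eq_top.1 h1)
  · exact Ideal.le_radical.trans (le_iSup (fun N : {N : ℕ // 0 < N} => (F3_I ρ ξ N.1).radical) ⟨N, hN⟩)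

theorem F3_E_zero {ρ : Representation ℂ G B} (ξ : G →* ℂˣ) {E : B →ₗ[ℂ] B}
    (hE4 : ∀ g b, E (ρ g b) = E b) (hξ : ∀ a : ℤ, a ≠ 0 → ∃ g, ξ g ^ a ≠ 1) {a : ℤ} (ha : a ≠ 0)
    {c : B} (hc : IsSemiInv ρ (fun g => ((ξ g ^ a : ℂˣ) : ℂ)) c) : E c = 0 := by
  obtain ⟨g, hg⟩ := hξ a ha
  have h1 := hE4 g c
  rw [hc g, map_smul] at h1
  have h2 : (((ξ g ^ a : ℂˣ) : ℂ) - 1) • E c = 0 := by
    rw [sub_smul, one_smul, h1, sub_self]
  rcases smul_eq_zero.1 h2 with h3 | h3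
  · exfalso
    apply hg
    apply Units.ext
    rw [Units.val_one]
    exact sub_eq_zero.1 h3
  · exact h3

/-- `Λ` is multiplicative on semi-invariants -/
theorem F3_lambda_semi {ρ : Representation ℂ G B}
    (hmul : ∀ g b c, ρ g (b * c) = ρ g b * ρ g c) (ξ : G →* ℂˣ) {E : B →ₗ[ℂ] B}
    (hE2 : ∀ b, (∀ g, ρ g b = b) → E b = b) (hE4 : ∀ g b, E (ρ g b) = E b)
    (e : B →ₐ[ℂ] ℂ) (he : ∀ N, 0 < N → ∀ b ∈ F3_I ρ ξ N, e b = 0)
    (hξ : ∀ a : ℤ, a ≠ 0 → ∃ g, ξ g ^ a ≠ 1) {a a' : ℤ} {c c' : B}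
    (hc : IsSemiInv ρ (fun g => ((ξ g ^ a : ℂˣ) : ℂ)) c)
    (hc' : IsSemiInv ρ (fun g => ((ξ g ^ a' : ℂˣ) : ℂ)) c') :
    e (E (c * c')) = e (E c) * e (E c') := by
  have hprod : IsSemiInv ρ (fun g => ((ξ g ^ (a + a') : ℂˣ) : ℂ)) (c * c') := by
    have := F3_semiInv_mul hmul hc hc'
    intro g
    rw [this g]
    simp only [zpow_add, Units.val_mul]
  have hinv : ∀ b : B, IsSemiInv ρ (fun g => ((ξ g ^ (0 : ℤ) : ℂˣ) : ℂ)) b → E b = b := by
    intro b hb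
    apply hE2
    intro g
    rw [hb g]
    simp
  by_cases h0 : a + a' = 0
  · rw [h0] at hprod
    rw [hinv _ hprod]
    by_cases ha : a = 0
    · have ha' : a' = 0 := by omega
      subst ha ha'
      rw [hinv _ hc, hinv _ hc', map_mul]
    · rw [F3_E_zero ξ hE4 hξ ha hc, map_zero, zero_mul]
      have ha' : a' = -a := by omega
      subst ha'
      rcases lt_or_gt_of_ne ha with hlt | hgt
      · obtain ⟨N, hN⟩ : ∃ N : ℕ, a = -(N : ℤ) := ⟨(-a).toNat, by omega⟩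
        have hNpos : 0 < N := by omega
        subst hN
        refine he N hNpos _ (Ideal.subset_span ⟨c, c', ?_, ?_, rfl⟩)
        · intro g
          rw [hc g]
          simp
        · intro g
          rw [hc' g]
          simp
      · obtain ⟨N, hN⟩ : ∃ N : ℕ, a = (N : ℤ) := ⟨a.toNat, by omega⟩
        have hNpos : 0 < N := by omega
        subst hN
        refine he N hNpos _ (Ideal.subset_span ⟨c', c, ?_, ?_, mul_comm _ _⟩)
        · intro g
          rw [hc' g]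
          simp
        · intro g
          rw [hc g]
          simp
  · rw [F3_E_zero ξ hE4 hξ h0 hprod, map_zero]
    by_cases ha : a = 0
    · have ha' : a' ≠ 0 := by omega
      rw [F3_E_zero ξ hE4 hξ ha' hc', map_zero, mul_zero]
    · rw [F3_E_zero ξ hE4 hξ ha hc, map_zero, zero_mul]

/-- `Λ` is multiplicative on the `ker ξ`-invariants -/
theorem F3_lambda_mul {ρ : Representation ℂ G B}
    (hmul : ∀ g b c, ρ g (b * c) = ρ g b * ρ g c) (ξ : G →* ℂˣ) {E : B →ₗ[ℂ] B}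
    (hE2 : ∀ b, (∀ g, ρ g b = b) → E b = b) (hE4 : ∀ g b, E (ρ g b) = E b)
    (e : B →ₐ[ℂ] ℂ) (he : ∀ N, 0 < N → ∀ b ∈ F3_I ρ ξ N, e b = 0)
    (hξ : ∀ a : ℤ, a ≠ 0 → ∃ g, ξ g ^ a ≠ 1)
    (hdec : ∀ b : B, (∀ g, ξ g = 1 → ρ g b = b) →
      ∃ (s : Finset ℤ) (c : ℤ → B), (∀ a, IsSemiInv ρ (fun g => ((ξ g ^ a : ℂˣ) : ℂ)) (c a)) ∧
      b = ∑ a ∈ s, c a) {b b' : B} (hb : ∀ g, ξ g = 1 → ρ g b = b)
    (hb' : ∀ g, ξ g = 1 → ρ g b' = b') :
    e (E (b * b')) = e (E b) * e (E b') := by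
  obtain ⟨s, c, hc, rfl⟩ := hdec b hb
  obtain ⟨s', c', hc', rfl⟩ := hdec b' hb'
  simp only [Finset.sum_mul_sum, map_sum]
  refine Finset.sum_congr rfl fun a _ => Finset.sum_congr rfl fun a' _ => ?_
  exact F3_lambda_semi hmul ξ hE2 hE4 e he hξ (hc a) (hc' a')

/-- the ideal generated by `M` is proper -/
theorem F3_M_ne_top {ρ : Representation ℂ G B}
    (hmul : ∀ g b c, ρ g (b * c) = ρ g b * ρ g c) (hone : ∀ g, ρ g 1 = 1) (ξ : G →* ℂˣ)
    (hK : CompRed (ρ.comp ξ.ker.subtype : Representation ℂ ξ.ker B))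
    (Λ : B →ₗ[ℂ] ℂ) (hΛ1 : Λ 1 = 1)
    (hΛ : ∀ b b', (∀ g, ξ g = 1 → ρ g b = b) → (∀ g, ξ g = 1 → ρ g b' = b') →
      Λ (b * b') = Λ b * Λ b') :
    Ideal.span {b | (∀ g, ξ g = 1 → ρ g b = b) ∧ Λ b = 0} ≠ ⊤ := by
  intro htop
  obtain ⟨E, hE1, hE2, -, -, -, hE6⟩ := E1_reynolds _ hK
  rw [Ideal.eq_top_iff_one] at htop
  unfold Ideal.span at htop
  rw [Submodule.mem_span_set'] at htop
  obtain ⟨k, f, s, hs⟩ := htop
  have h1 : E 1 = 1 := hE2 1 fun g => hone _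
  have h2 : Λ (E (∑ i, f i • (s i : B))) = 0 := by
    rw [map_sum, map_sum]
    refine Finset.sum_eq_zero fun i _ => ?_
    have h3 := hE6 (LinearMap.mulRight ℂ (s i : B)) (fun g b => ?_) (f i)
    · simp only [LinearMap.mulRight_apply] at h3
      rw [smul_eq_mul, h3, hΛ _ _ _ (s i).2.1, (s i).2.2, mul_zero]
      intro g hg
      exact hE1 ⟨g, hg⟩ (f i)
    · simp only [LinearMap.mulRight_apply]
      change ρ g b * (s i : B) = ρ g (b * (s i : B))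
      rw [hmul, (s i).2.1 g g.2]
  rw [hs, h1, hΛ1] at h2
  exact one_ne_zero h2

end Abs

theorem F3_zpow_ne {G : Type*} [Group G] (ξ : G →* ℂˣ) (h : (Set.range ξ).Infinite) (a : ℤ)
    (ha : a ≠ 0) : ∃ g, ξ g ^ a ≠ 1 := by
  by_contra hcon
  push Not at hcon
  apply h
  have hN : 0 < a.natAbs := Int.natAbs_pos.2 ha
  haveI : NeZero a.natAbs := ⟨hN.ne'⟩
  have hfin : (rootsOfUnity a.natAbs ℂ : Set ℂˣ).Finite := by
    haveI : Finite (rootsOfUnity a.natAbs ℂ) := inferInstance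
    exact Set.toFinite _
  refine hfin.subset ?_
  rintro _ ⟨g, rfl⟩
  have h1 := hcon g
  change ξ g ∈ rootsOfUnity a.natAbs ℂ
  rw [mem_rootsOfUnity]
  rcases Int.natAbs_eq a with h2 | h2
  · rw [h2, zpow_natCast] at h1
    exact h1
  · rw [h2, zpow_neg, zpow_natCast, inv_eq_one] at h1
    exact h1

section Geo

variable {ι κ : Type} [Fintype ι] [DecidableEq ι] [Fintype κ] [DecidableEq κ]

theorem F3_closed_eq {Z : Set (κ → ℂ)} (hZ : IsClosedSet Z) {x : κ → ℂ}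
    (hx : ∀ P ∈ vanishingIdeal ℂ Z, aeval x P = 0) : x ∈ Z := by
  obtain ⟨T, hT⟩ := hZ
  rw [hT]
  intro P hP
  have h1 : P ∈ vanishingIdeal ℂ Z := by
    intro y hy
    rw [hT] at hy
    have := hy P hP
    simpa [MvPolynomial.aeval_eq_eval] using this
  have := hx P h1
  simpa [MvPolynomial.aeval_eq_eval] using this

theorem F3_exists_min (P : Set (κ → ℂ) → Prop) (h : ∃ Z, IsClosedSet Z ∧ P Z) :
    ∃ Z, IsClosedSet Z ∧ P Z ∧ ∀ Z' ⊆ Z, IsClosedSet Z' → P Z' → Z' = Z := by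
  have hN : IsNoetherian (MvPolynomial κ ℂ) (MvPolynomial κ ℂ) :=
    inferInstanceAs (IsNoetherianRing (MvPolynomial κ ℂ))
  obtain ⟨Z0, h0, h0'⟩ := h
  obtain ⟨I, ⟨Z, hZ, hPZ, rfl⟩, hmax⟩ := set_has_maximal_iff_noetherian.2 hN
    {I : Ideal (MvPolynomial κ ℂ) | ∃ Z, IsClosedSet Z ∧ P Z ∧ I = vanishingIdeal ℂ Z}
    ⟨_, Z0, h0, h0', rfl⟩
  refine ⟨Z, hZ, hPZ, fun Z' hsub hZ' hPZ' => ?_⟩
  refine Set.Subset.antisymm hsub fun x hx => ?_
  apply F3_closed_eq hZ'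
  intro Q hQ
  have h1 : vanishingIdeal ℂ Z ≤ vanishingIdeal ℂ Z' := vanishingIdeal_anti_mono hsub
  have h2 := hmax _ ⟨Z', hZ', hPZ', rfl⟩
  have h3 : vanishingIdeal ℂ Z = vanishingIdeal ℂ Z' := by
    by_contra hne
    exact h2 (lt_of_le_of_ne h1 hne)
  rw [← h3] at hQ
  exact hQ x hx

theorem F3_closed_translate (A : Matrix κ κ ℂ) {Z : Set (κ → ℂ)} (hZ : IsClosedSet Z) :
    IsClosedSet {y | A.mulVec y ∈ Z} := by
  obtain ⟨T, hT⟩ := hZ
  refine ⟨(fun P => MvPolynomial.bind₁ (fun i => ∑ j, C (A i j) * MvPolynomial.X j) P) '' T, ?_⟩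
  have key : ∀ (y : κ → ℂ) (P : MvPolynomial κ ℂ), MvPolynomial.eval y
      (MvPolynomial.bind₁ (fun i => ∑ j, C (A i j) * MvPolynomial.X j) P) =
      MvPolynomial.eval (A.mulVec y) P := by
    intro y P
    have h : (fun i => MvPolynomial.aeval y
        (∑ j, C (A i j) * MvPolynomial.X j : MvPolynomial κ ℂ)) = A.mulVec y := by
      funext i
      simp [Matrix.mulVec, dotProduct]
    have h2 : MvPolynomial.aeval y
        (MvPolynomial.bind₁ (fun i => ∑ j, C (A i j) * MvPolynomial.X j) P) =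
        MvPolynomial.aeval (A.mulVec y) P := by
      rw [MvPolynomial.aeval_bind₁, h]
    simpa [MvPolynomial.aeval_eq_eval] using h2
  ext y
  constructor
  · intro hy
    rintro _ ⟨P, hP, rfl⟩
    have hy' : A.mulVec y ∈ Z := hy
    rw [hT] at hy'
    change MvPolynomial.eval y (MvPolynomial.bind₁ _ P) = 0
    rw [key]
    exact hy' P hP
  · intro hy
    change A.mulVec y ∈ Z
    rw [hT]
    intro P hP
    rw [← key]
    exact hy _ ⟨P, hP, rfl⟩

theorem F3_closed_inter {Z Z' : Set (κ → ℂ)} (hZ : IsClosedSet Z) (hZ' : IsClosedSet Z') :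
    IsClosedSet (Z ∩ Z') := by
  obtain ⟨T, hT⟩ := hZ
  obtain ⟨T', hT'⟩ := hZ'
  refine ⟨T ∪ T', ?_⟩
  ext x
  constructor
  · rintro ⟨h1, h2⟩ P (hP | hP)
    · rw [hT] at h1; exact h1 P hP
    · rw [hT'] at h2; exact h2 P hP
  · intro h
    refine ⟨?_, ?_⟩
    · rw [hT]; exact fun P hP => h P (Or.inl hP)
    · rw [hT']; exact fun P hP => h P (Or.inr hP)

/-- functions vanishing on `Z` -/
def F3_van (X Z : Set (κ → ℂ)) : Ideal (polyFun X) where
  carrier := {b | ∀ x : X, x.1 ∈ Z → b.1 x = 0}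
  zero_mem' := fun _ _ => rfl
  add_mem' := by
    intro a b ha hb x hx
    change a.1 x + b.1 x = 0
    rw [ha x hx, hb x hx, add_zero]
  smul_mem' := by
    intro c b hb x hx
    change c.1 x * b.1 x = 0
    rw [hb x hx, mul_zero]

theorem F3_mem_van {X Z : Set (κ → ℂ)} {b : polyFun X} :
    b ∈ F3_van X Z ↔ ∀ x : X, x.1 ∈ Z → b.1 x = 0 := Iff.rfl

variable {G : Type} [Group G]

theorem F3_ptAct_inv (α : G →* GL κ ℂ) {X : Set (κ → ℂ)} (hX : StableSet α X) (g : G) (x : X) :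
    ptAct α hX g⁻¹ (ptAct α hX g x) = x := by
  rw [← ptAct_mul, inv_mul_cancel, ptAct_one]

/-- two closed `K`-stable sets on which invariants are constant meet -/
theorem F3_sep (α : G →* GL κ ℂ) {X : Set (κ → ℂ)} (hXc : IsClosedSet X)
    (hX : StableSet α X) (ξ : G →* ℂˣ)
    (hK : CompRed ((funRep α hX).comp ξ.ker.subtype : Representation ℂ ξ.ker (polyFun X)))
    (Λ : polyFun X → ℂ) {V : Set (κ → ℂ)} (hVX : V ⊆ X)
    (hconst : ∀ f : polyFun X, (∀ g, ξ g = 1 → funRep α hX g f = f) → ∀ x : X, x.1 ∈ V →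
      f.1 x = Λ f)
    {Z Z' : Set (κ → ℂ)} (hZ : IsClosedSet Z) (hZ' : IsClosedSet Z') (hZV : Z ⊆ V) (hZV' : Z' ⊆ V)
    (hst : ∀ g, ξ g = 1 → ∀ z ∈ Z, (α g).val.mulVec z ∈ Z)
    (hst' : ∀ g, ξ g = 1 → ∀ z ∈ Z', (α g).val.mulVec z ∈ Z')
    (hne : Z.Nonempty) (hne' : Z'.Nonempty) : (Z ∩ Z').Nonempty := by
  by_contra hcon
  have hsup : F3_van X Z ⊔ F3_van X Z' = ⊤ := by
    by_contra hsup
    obtain ⟨x, hx⟩ := F3_null hXc _ hsup
    apply hcon
    have key : ∀ W : Set (κ → ℂ), IsClosedSet W → F3_van X W ≤ F3_van X Z ⊔ F3_van X Z' →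
        x.1 ∈ W := by
      intro W hW hle
      apply F3_closed_eq hW
      intro P hP
      have h1 : F3_res X P ∈ F3_van X W := by
        rw [F3_mem_van]
        intro y hy
        have := hP y.1 hy
        rw [F3_res_apply]
        simpa [MvPolynomial.aeval_eq_eval] using this
      have h2 := hx _ (hle h1)
      rw [F3_res_apply] at h2
      simpa [MvPolynomial.aeval_eq_eval] using h2
    exact ⟨x.1, key Z hZ le_sup_left, key Z' hZ' le_sup_right⟩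
  rw [Ideal.eq_top_iff_one] at hsup
  obtain ⟨a, ha, b, hb, hab⟩ := Submodule.mem_sup.1 hsup
  obtain ⟨E, hE1, hE2, hE3, -, -, -⟩ := E1_reynolds _ hK
  have hstab : ∀ W : Set (κ → ℂ), (∀ g, ξ g = 1 → ∀ z ∈ W, (α g).val.mulVec z ∈ W) →
      Stable ((funRep α hX).comp ξ.ker.subtype : Representation ℂ ξ.ker (polyFun X))
        ((F3_van X W).restrictScalars ℂ) := by
    intro W hW g u hu
    rw [Submodule.restrictScalars_mem, F3_mem_van] at hu ⊢
    intro x hx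
    change u.1 (ptAct α hX (g : G)⁻¹ x) = 0
    apply hu
    refine hW _ ?_ _ hx
    rw [map_inv, (MonoidHom.mem_ker.1 g.2), inv_one]
  have h1 : E a ∈ F3_van X Z := hE3 _ (hstab Z hst) a ha
  have h2 : E b ∈ F3_van X Z' := hE3 _ (hstab Z' hst') b hb
  have h3 : E a + E b = 1 := by
    rw [← map_add, hab]
    exact hE2 1 fun g => rfl
  have hinv : ∀ g, ξ g = 1 → funRep α hX g (E a) = E a := fun g hg => hE1 ⟨g, hg⟩ a
  obtain ⟨z, hz⟩ := hne
  obtain ⟨z', hz'⟩ := hne'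
  have e1 := hconst (E a) hinv ⟨z, hVX (hZV hz)⟩ (hZV hz)
  have e2 := hconst (E a) hinv ⟨z', hVX (hZV' hz')⟩ (hZV' hz')
  have e3 : (E a).1 ⟨z, hVX (hZV hz)⟩ = 0 := h1 _ hz
  have e4 : (E b).1 ⟨z', hVX (hZV' hz')⟩ = 0 := h2 _ hz'
  have e5 : (E a).1 ⟨z', hVX (hZV' hz')⟩ + (E b).1 ⟨z', hVX (hZV' hz')⟩ = 1 := by
    have := congrArg (fun f : polyFun X => f.1 ⟨z', hVX (hZV' hz')⟩) h3
    exact this
  rw [e4, add_zero, e2, ← e1, e3] at e5
  exact zero_ne_one e5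

end Geo

variable {ι κ : Type} [Fintype ι] [DecidableEq ι] [Fintype κ] [DecidableEq κ]

/-- F3 (uses E1-E5, F2) : the key step. If no power of `ξ` gives a partition of unity by
semi-invariants, then some point has a stabiliser with infinite image under `ξ`. -/
theorem F3_star (G : Subgroup (GL ι ℂ)) (hG : IsZariskiClosed G) (hred : IsLinearlyReductive G)
    (α : G →* GL κ ℂ) (hα : IsRationalRep G α) {X : Set (κ → ℂ)} (hXc : IsClosedSet X)
    (hX : StableSet α X) (hdom : IsDomain (polyFun X)) (ξ : G →* ℂˣ) (hξ : IsRegChar G ξ)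
    (hξinf : (Set.range ξ).Infinite)
    (hrel : ∀ η : G →* ℂˣ, IsRegChar G η → (∀ g, ξ g = 1 → η g = 1) →
      ∃ a : ℤ, ∀ g, η g = ξ g ^ a)
    (hfail : ∀ N : ℕ, 0 < N → ¬ ∃ (k : ℕ) (q q' : Fin k → polyFun X),
      (∀ i, IsSemiInv (funRep α hX) (fun g => (((ξ g ^ N)⁻¹ : ℂˣ) : ℂ)) (q i)) ∧
      (∀ i, IsSemiInv (funRep α hX) (fun g => ((ξ g ^ N : ℂˣ) : ℂ)) (q' i)) ∧
      ∑ i, q i * q' i = 1) :
    ∃ x ∈ X, {z : ℂˣ | ∃ g : G, (α g).val.mulVec x = x ∧ ξ g = z}.Infinite := by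
  obtain ⟨hcr, hlf⟩ := E2_compRed G hred α hα hX
  have hK : CompRed ((funRep α hX).comp ξ.ker.subtype : Representation ℂ ξ.ker (polyFun X)) :=
    E3_clifford _ ξ.ker hcr hlf
  have hmul := funRep_mul α hX
  have hone : ∀ g, funRep α hX g 1 = 1 := fun g => rfl
  obtain ⟨J, hJtop, hJ⟩ := F3_J_ne_top hmul hone hcr ξ hfail
  obtain ⟨x0, hx0⟩ := F3_null hXc J hJtop
  -- evaluation at `x0`
  let e : polyFun X →ₐ[ℂ] ℂ :=
    { toFun := fun b => b.1 x0
      map_one' := rfl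
      map_mul' := fun _ _ => rfl
      map_zero' := rfl
      map_add' := fun _ _ => rfl
      commutes' := fun _ => rfl }
  have he : ∀ N, 0 < N → ∀ b ∈ F3_I (funRep α hX) ξ N, e b = 0 := fun N hN b hb =>
    hx0 b (hJ N hN hb)
  obtain ⟨E, hE1, hE2, hE3, hE4, hE5, hE6⟩ := E1_reynolds _ hcr
  let Λ : polyFun X →ₗ[ℂ] ℂ := e.toLinearMap.comp E
  have hΛ1 : Λ 1 = 1 := by
    change e (E 1) = 1
    rw [hE2 1 hone, map_one]
  have hdec := E4_decomp (funRep α hX) hcr hlf ξ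
    (fun η b hb0 hb hη => hrel η (E5_regular G α hα hX η b hb0 hb) hη)
  have hΛmul : ∀ b b', (∀ g, ξ g = 1 → funRep α hX g b = b) →
      (∀ g, ξ g = 1 → funRep α hX g b' = b') → Λ (b * b') = Λ b * Λ b' := fun b b' hb hb' =>
    F3_lambda_mul hmul ξ hE2 hE4 e he (F3_zpow_ne ξ hξinf) hdec hb hb'
  set MM : Set (polyFun X) := {b | (∀ g, ξ g = 1 → funRep α hX g b = b) ∧ Λ b = 0} with hMM
  have hMtop : Ideal.span MM ≠ ⊤ := F3_M_ne_top hmul hone ξ hK Λ hΛ1 hΛmul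
  set V : Set (κ → ℂ) := {x | ∃ h : x ∈ X, ∀ b ∈ MM, b.1 ⟨x, h⟩ = 0} with hV
  have hVX : V ⊆ X := fun x hx => hx.1
  have hVne : V.Nonempty := by
    obtain ⟨x, hx⟩ := F3_null hXc _ hMtop
    exact ⟨x.1, x.2, fun b hb => hx b (Ideal.subset_span hb)⟩
  have hVc : IsClosedSet V := by
    obtain ⟨T, hT⟩ := hXc
    refine ⟨T ∪ {P | F3_res X P ∈ MM}, ?_⟩
    ext x
    constructor
    · rintro ⟨h1, h2⟩ P (hP | hP)
      · have h3 : x ∈ {x | ∀ P ∈ T, MvPolynomial.eval x P = 0} := hT ▸ h1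
        exact h3 P hP
      · exact h2 _ hP
    · intro h
      have hxX : x ∈ X := by
        rw [hT]
        exact fun P hP => h P (Or.inl hP)
      refine ⟨hxX, fun b hb => ?_⟩
      obtain ⟨P, rfl⟩ := F3_res_surj X b
      exact h P (Or.inr hb)
  have hMst : ∀ g, ∀ b ∈ MM, funRep α hX g b ∈ MM := by
    intro g b hb
    refine ⟨fun k hk => ?_, ?_⟩
    · have h1 : k * g = g * (g⁻¹ * k * g) := by group
      have h2 : funRep α hX k (funRep α hX g b) = funRep α hX (k * g) b := by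
        rw [map_mul]; rfl
      rw [h2, h1, map_mul]
      change funRep α hX g (funRep α hX (g⁻¹ * k * g) b) = _
      rw [hb.1 (g⁻¹ * k * g) (by simp [hk])]
    · change e (E (funRep α hX g b)) = 0
      rw [hE4]
      exact hb.2
  have hVst : ∀ g, ∀ x ∈ V, (α g).val.mulVec x ∈ V := by
    rintro g x ⟨hx, hx2⟩
    refine ⟨hX g x hx, fun b hb => ?_⟩
    have h1 := hx2 _ (hMst g⁻¹ b hb)
    rw [funRep_apply, inv_inv] at h1
    exact h1
  have hconst : ∀ f : polyFun X, (∀ g, ξ g = 1 → funRep α hX g f = f) → ∀ x : X, x.1 ∈ V →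
      f.1 x = Λ f := by
    rintro f hf x ⟨hx1, hx⟩
    have h1 : f - algebraMap ℂ _ (Λ f) ∈ MM := by
      refine ⟨fun g hg => ?_, ?_⟩
      · rw [map_sub, hf g hg]
        rfl
      · rw [map_sub, Algebra.algebraMap_eq_smul_one, map_smul, hΛ1, smul_eq_mul, mul_one, sub_self]
    have h2 := hx _ h1
    have h3 : f.1 x - Λ f = 0 := h2
    exact sub_eq_zero.1 h3
  obtain ⟨Z, hZc, ⟨hZne, hZV, hZst⟩, hmin⟩ := F3_exists_min
    (fun Z : Set (κ → ℂ) => Z.Nonempty ∧ Z ⊆ V ∧ ∀ g, ξ g = 1 → ∀ z ∈ Z, (α g).val.mulVec z ∈ Z)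
    ⟨V, hVc, hVne, le_refl _, fun g _ => hVst g⟩
  have hact : ∀ (g h : G) (y : κ → ℂ), (α g).val.mulVec ((α h).val.mulVec y) =
      (α (g * h)).val.mulVec y := by
    intro g h y
    rw [Matrix.mulVec_mulVec, map_mul]
    rfl
  have hact1 : ∀ y : κ → ℂ, (α 1).val.mulVec y = y := by
    intro y
    simp
  have hZG : ∀ g, ∀ z ∈ Z, (α g).val.mulVec z ∈ Z := by
    intro g z hz
    set Z' : Set (κ → ℂ) := {y | (α g).val.mulVec y ∈ Z} with hZ'
    have hZ'c : IsClosedSet Z' := F3_closed_translate _ hZc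
    have hZ'V : Z' ⊆ V := by
      intro y hy
      have := hVst g⁻¹ _ (hZV hy)
      rwa [hact, inv_mul_cancel, hact1] at this
    have hZ'st : ∀ k, ξ k = 1 → ∀ z ∈ Z', (α k).val.mulVec z ∈ Z' := by
      intro k hk y hy
      have := hZst (g * k * g⁻¹) (by simp [hk]) _ hy
      rw [hact] at this
      change (α g).val.mulVec ((α k).val.mulVec y) ∈ Z
      rw [hact]
      have e1 : g * k * g⁻¹ * g = g * k := by group
      rwa [e1] at this
    have hZ'ne : Z'.Nonempty := by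
      obtain ⟨w, hw⟩ := hZne
      refine ⟨(α g⁻¹).val.mulVec w, ?_⟩
      change (α g).val.mulVec ((α g⁻¹).val.mulVec w) ∈ Z
      rwa [hact, mul_inv_cancel, hact1]
    have hmeet := F3_sep α hXc hX ξ hK Λ hVX hconst hZc hZ'c hZV hZ'V hZst hZ'st hZne hZ'ne
    have heq := hmin (Z ∩ Z') Set.inter_subset_left (F3_closed_inter hZc hZ'c)
      ⟨hmeet, Set.inter_subset_left.trans hZV,
        fun k hk y hy => ⟨hZst k hk y hy.1, hZ'st k hk y hy.2⟩⟩
    rw [← heq] at hz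
    exact hz.2
  obtain ⟨x, hx⟩ := hZne
  refine ⟨x, hVX (hZV hx), hξinf.mono ?_⟩
  rintro _ ⟨g, rfl⟩
  obtain ⟨k, hk, hkx⟩ := F2_orbit G hG ξ hξ α hα Z hZc hZst
    (fun Z' hsub hc hne hst => hmin Z' hsub hc ⟨hne, hsub.trans hZV, hst⟩) x
    ((α g).val.mulVec x) hx (hZG g x hx)
  refine ⟨k⁻¹ * g, ?_, ?_⟩
  · rw [← hact, ← hkx, hact, inv_mul_cancel, hact1]
  · rw [map_mul, map_inv, hk, inv_one, one_mul]

end HamRed
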