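import Pool.Agent.HamRed.Base

open MvPolynomial

namespace HamRed

variable {ι : Type} [Fintype ι] [DecidableEq ι]

section
open scoped Matrix.Norms.Operator

set_option backward.isDefEq.respectTransparency false in
theorem G1_hasDerivAt_exp (y : Matrix ι ι ℂ) (t : ℂ) (i j : ι) :
    HasDerivAt (fun u : ℂ => (NormedSpace.exp (u • y)) i j)
      ((NormedSpace.exp (t • y) * y) i j) t := by
  have h : HasDerivAt (fun u : ℂ => NormedSpace.exp (u • y)) (NormedSpace.exp (t • y) * y) t :=
    hasDerivAt_exp_smul_const y t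
  have h2 := (Matrix.entryLinearMap ℂ ℂ i j : Matrix ι ι ℂ →ₗ[ℂ] ℂ).toContinuousLinearMap.hasFDerivAt
    (x := NormedSpace.exp (t • y))
  exact h2.comp_hasDerivAt t h

set_option backward.isDefEq.respectTransparency false in
theorem G1_exp_mul_exp_neg (y : Matrix ι ι ℂ) :
    NormedSpace.exp y * NormedSpace.exp (-y) = 1 := by
  rw [← Matrix.exp_add_of_commute _ _ (Commute.neg_right (Commute.refl y)), add_neg_cancel,
    NormedSpace.exp_zero]

end

theorem G1_hasDerivAt_eval {σ : Type} [Fintype σ] [DecidableEq σ] (P : MvPolynomial σ ℂ)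
    (a : ℂ → σ → ℂ) (a' : σ → ℂ) (t : ℂ) (ha : ∀ p, HasDerivAt (fun u => a u p) (a' p) t) :
    HasDerivAt (fun u => MvPolynomial.eval (a u) P)
      (∑ p, MvPolynomial.eval (a t) (pderiv p P) * a' p) t := by
  induction P using MvPolynomial.induction_on with
  | C c =>
    simp only [MvPolynomial.eval_C, MvPolynomial.pderiv_C, map_zero, zero_mul,
      Finset.sum_const_zero]
    exact hasDerivAt_const t c
  | add P Q hP hQ =>
    simp only [map_add, add_mul, Finset.sum_add_distrib]
    exact hP.add hQ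
  | mul_X P q hP =>
    have h := hP.mul (ha q)
    simp only [map_mul, MvPolynomial.eval_X]
    refine h.congr_deriv ?_
    simp only [Derivation.leibniz, smul_eq_mul, MvPolynomial.pderiv_X, map_add, map_mul,
      MvPolynomial.eval_X, add_mul, Finset.sum_add_distrib, Finset.sum_mul]
    rw [add_comm]
    congr 1
    · rw [Finset.sum_eq_single q]
      · simp
      · intro b _ hb
        rw [Pi.single_eq_of_ne (Ne.symm hb)]
        simp
      · simp
    · apply Finset.sum_congr rfl
      intro p _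
      ring

/-- The derivation `P ↦ (A ↦ d/ds P(A(1+sy)))`. -/
noncomputable def G1_D (y : Matrix ι ι ℂ) (P : MvPolynomial (ι × ι) ℂ) : MvPolynomial (ι × ι) ℂ :=
  ∑ p : ι × ι, pderiv p P * ∑ k, C (y k p.2) * X (p.1, k)

omit [DecidableEq ι] in
theorem G1_matEval_D (y A : Matrix ι ι ℂ) (P : MvPolynomial (ι × ι) ℂ) :
    matEval (G1_D y P) A = ∑ p : ι × ι, matEval (pderiv p P) A * (A * y) p.1 p.2 := by
  unfold matEval G1_D
  rw [map_sum]
  apply Finset.sum_congr rfl
  intro p _
  rw [map_mul, map_sum, Matrix.mul_apply]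
  congr 1
  apply Finset.sum_congr rfl
  intro k _
  simp [mul_comm]

theorem G1_deriv (y : Matrix ι ι ℂ) (P : MvPolynomial (ι × ι) ℂ) (t : ℂ) :
    HasDerivAt (fun u : ℂ => matEval P (NormedSpace.exp (u • y)))
      (matEval (G1_D y P) (NormedSpace.exp (t • y))) t := by
  rw [G1_matEval_D]
  exact G1_hasDerivAt_eval P (fun u p => (NormedSpace.exp (u • y)) p.1 p.2)
    (fun p => (NormedSpace.exp (t • y) * y) p.1 p.2) t
    (fun p => G1_hasDerivAt_exp y t p.1 p.2)

/-- Left translate of a polynomial. -/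
noncomputable def G1_tr (g : Matrix ι ι ℂ) (P : MvPolynomial (ι × ι) ℂ) : MvPolynomial (ι × ι) ℂ :=
  MvPolynomial.bind₁ (fun p : ι × ι => ∑ k, C (g p.1 k) * X (k, p.2)) P

omit [DecidableEq ι] in
theorem G1_matEval_tr (g A : Matrix ι ι ℂ) (P : MvPolynomial (ι × ι) ℂ) :
    matEval (G1_tr g P) A = matEval P (g * A) := by
  unfold matEval G1_tr
  have h := MvPolynomial.aeval_bind₁ (R := ℂ) (f := fun p : ι × ι => A p.1 p.2)
    (g := fun p : ι × ι => (∑ k, C (g p.1 k) * X (k, p.2) : MvPolynomial (ι × ι) ℂ)) P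
  rw [MvPolynomial.aeval_eq_eval, MvPolynomial.aeval_eq_eval] at h
  refine h.trans ?_
  congr 2
  funext p
  simp [Matrix.mul_apply]

theorem G1_D_vanish (G : Subgroup (GL ι ℂ)) (y : Matrix ι ι ℂ) (hy : y ∈ lieAlg G)
    (P : MvPolynomial (ι × ι) ℂ) (hP : ∀ g ∈ G, matEval P g.val = 0) :
    ∀ g ∈ G, matEval (G1_D y P) g.val = 0 := by
  intro g hg
  have hQ : ∀ h ∈ G, matEval (G1_tr g.val P) h.val = 0 := by
    intro h hh
    rw [G1_matEval_tr]
    exact hP (g * h) (G.mul_mem hg hh)
  have h1 := hy (G1_tr g.val P) hQ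
  have hlin : ∀ (B C : Matrix ι ι ℂ) (p : ι × ι),
      HasDerivAt (fun u : ℂ => (B + u • C) p.1 p.2) (C p.1 p.2) 0 := by
    intro B C p
    simp only [Matrix.add_apply, Matrix.smul_apply, smul_eq_mul]
    simpa using ((hasDerivAt_id (0 : ℂ)).mul_const (C p.1 p.2)).const_add (B p.1 p.2)
  have h2 := G1_hasDerivAt_eval (G1_tr g.val P) (fun (u : ℂ) (p : ι × ι) => (1 + u • y) p.1 p.2)
    (fun p => y p.1 p.2) 0 (fun p => hlin 1 y p)
  have h3 := G1_hasDerivAt_eval P (fun (u : ℂ) (p : ι × ι) => (g.val + u • (g.val * y)) p.1 p.2)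
    (fun p => (g.val * y) p.1 p.2) 0 (fun p => hlin g.val (g.val * y) p)
  have h4 : (fun u : ℂ => MvPolynomial.eval (fun p : ι × ι => (1 + u • y) p.1 p.2)
      (G1_tr g.val P)) = fun u : ℂ => MvPolynomial.eval
        (fun p : ι × ι => (g.val + u • (g.val * y)) p.1 p.2) P := by
    funext u
    have := G1_matEval_tr g.val (1 + u • y) P
    rw [Matrix.mul_add, Matrix.mul_one, Matrix.mul_smul] at this
    exact this
  rw [h4] at h2
  have h5 := h2.unique h3
  rw [G1_matEval_D]
  unfold matEval at h1 ⊢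
  simp only [zero_smul, add_zero] at h5
  rw [← h5]
  exact h1

theorem G1_zero (G : Subgroup (GL ι ℂ)) (y : Matrix ι ι ℂ) (hy : y ∈ lieAlg G)
    (P : MvPolynomial (ι × ι) ℂ) (hP : ∀ g ∈ G, matEval P g.val = 0) (t : ℂ) :
    matEval P (NormedSpace.exp (t • y)) = 0 := by
  set F : ℂ → ℂ := fun u => matEval P (NormedSpace.exp (u • y)) with hF
  have hiter : ∀ n : ℕ, ∀ g ∈ G, matEval ((G1_D y)^[n] P) g.val = 0 := by
    intro n
    induction n with
    | zero => exact hP
    | succ n ih =>
      rw [Function.iterate_succ_apply']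
      exact G1_D_vanish G y hy _ ih
  have hid : ∀ n : ℕ, iteratedDeriv n F =
      fun u => matEval ((G1_D y)^[n] P) (NormedSpace.exp (u • y)) := by
    intro n
    induction n with
    | zero => simp [hF]
    | succ n ih =>
      rw [iteratedDeriv_succ, ih]
      funext u
      rw [(G1_deriv y _ u).deriv, Function.iterate_succ_apply']
  have hdiff : Differentiable ℂ F := fun u => (G1_deriv y P u).differentiableAt
  have h := Complex.taylorSeries_eq_of_entire' (c := 0) t hdiff
  have hz : ∀ n : ℕ, iteratedDeriv n F 0 = 0 := by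
    intro n
    rw [hid n]
    simp only [zero_smul, NormedSpace.exp_zero]
    have := hiter n 1 G.one_mem
    simpa using this
  simp only [hz, mul_zero, zero_mul, tsum_zero] at h
  exact h.symm

/-- G1 : the exponential of the tangent space lies in the group, and conversely. -/
theorem G1_exp (G : Subgroup (GL ι ℂ)) (hG : IsZariskiClosed G) (y : Matrix ι ι ℂ) :
    y ∈ lieAlg G ↔ ∀ t : ℂ, ∃ g ∈ G, g.val = NormedSpace.exp (t • y) := by
  constructor
  · intro hy t
    obtain ⟨T, hT⟩ := hG
    have h1 : NormedSpace.exp (t • y) * NormedSpace.exp (-(t • y)) = 1 :=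
      G1_exp_mul_exp_neg (t • y)
    have h2 : NormedSpace.exp (-(t • y)) * NormedSpace.exp (t • y) = 1 := by
      simpa using G1_exp_mul_exp_neg (-(t • y))
    refine ⟨⟨NormedSpace.exp (t • y), NormedSpace.exp (-(t • y)), h1, h2⟩, ?_, rfl⟩
    rw [hT]
    intro P hP
    exact G1_zero G y hy P (fun g hg => (hT g).1 hg P hP) t
  · intro h P hP
    have h1 := G1_deriv y P 0
    have h2 : (fun u : ℂ => matEval P (NormedSpace.exp (u • y))) = fun _ => 0 := by
      funext u
      obtain ⟨g, hg, hge⟩ := h u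
      rw [← hge]
      exact hP g hg
    rw [h2] at h1
    have h3 := h1.unique (hasDerivAt_const (0 : ℂ) (0 : ℂ))
    rw [G1_matEval_D] at h3
    simpa using h3

end HamRed
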