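import Pool.Agent.HamRed.Base
import Pool.Agent.HamRed.E0

open MvPolynomial

namespace HamRed

section Abstract

variable {G : Type*} [Group G] {V : Type*} [AddCommGroup V] [Module ℂ V]

/-- A complete family of nonzero orthogonal idempotents commuting with the representation. -/
def G2a_Good (ρ : Representation ℂ G V) (P : Finset (Module.End ℂ V)) : Prop :=
  (∀ p ∈ P, p * p = p) ∧ (∀ p ∈ P, ∀ q ∈ P, p ≠ q → p * q = 0) ∧ ∑ p ∈ P, p = 1 ∧
    (∀ p ∈ P, p ≠ 0) ∧ ∀ p ∈ P, ∀ g, p * ρ g = ρ g * p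

theorem G2a_card_le [FiniteDimensional ℂ V] {ρ : Representation ℂ G V}
    {P : Finset (Module.End ℂ V)} (hP : G2a_Good ρ P) :
    P.card ≤ Module.finrank ℂ (Module.End ℂ V) := by
  obtain ⟨h1, h2, -, h4, -⟩ := hP
  have hli : LinearIndependent ℂ (fun p : P => (p : Module.End ℂ V)) := by
    rw [Fintype.linearIndependent_iff]
    intro c hc i
    have h5 := congrArg (fun x => x * (i : Module.End ℂ V)) hc
    simp only [Finset.sum_mul, zero_mul, smul_mul_assoc] at h5
    rw [Finset.sum_eq_single i] at h5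
    · rw [h1 i i.2] at h5
      rcases smul_eq_zero.1 h5 with h | h
      · exact h
      · exact absurd h (h4 i i.2)
    · intro j _ hj
      rw [h2 j j.2 i i.2 (fun h => hj (Subtype.ext h)), smul_zero]
    · intro h
      exact absurd (Finset.mem_univ i) h
  have := hli.fintype_card_le_finrank
  rwa [Fintype.card_coe] at this

theorem G2a_exists_good (ρ : Representation ℂ G V) : ∃ P, G2a_Good ρ P := by
  classical
  by_cases h : (1 : Module.End ℂ V) = 0
  · refine ⟨∅, ?_, ?_, ?_, ?_, ?_⟩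
    · intro p hp
      simp at hp
    · intro p hp
      simp at hp
    · rw [Finset.sum_empty, h]
    · intro p hp
      simp at hp
    · intro p hp
      simp at hp
  · refine ⟨{1}, ?_, ?_, ?_, ?_, ?_⟩
    · intro p hp
      rw [Finset.mem_singleton.1 hp, one_mul]
    · intro p hp q hq hpq
      exact absurd ((Finset.mem_singleton.1 hp).trans (Finset.mem_singleton.1 hq).symm) hpq
    · rw [Finset.sum_singleton]
    · intro p hp
      rw [Finset.mem_singleton.1 hp]
      exact h
    · intro p hp g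
      rw [Finset.mem_singleton.1 hp, one_mul, mul_one]

/-- Splitting one idempotent of the family. -/
theorem G2a_split {ρ : Representation ℂ G V} {P : Finset (Module.End ℂ V)} (hP : G2a_Good ρ P)
    {p q : Module.End ℂ V} (hp : p ∈ P) (hq : q * q = q) (hqp : q * p = q) (hpq : p * q = q)
    (hq0 : q ≠ 0) (hne : q ≠ p) (hqρ : ∀ g, q * ρ g = ρ g * q) :
    ∃ P', G2a_Good ρ P' ∧ P'.card = P.card + 1 := by
  classical
  obtain ⟨h1, h2, h3, h4, h5⟩ := hP
  set r : Module.End ℂ V := p - q with hr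
  have hpp := h1 p hp
  have hrr : r * r = r := by
    rw [hr, sub_mul, mul_sub, mul_sub, hpp, hpq, hqp, hq]
    abel
  have hrp : r * p = r := by rw [hr, sub_mul, hpp, hqp]
  have hpr : p * r = r := by rw [hr, mul_sub, hpp, hpq]
  have hqr : q * r = 0 := by rw [hr, mul_sub, hqp, hq, sub_self]
  have hrq : r * q = 0 := by rw [hr, sub_mul, hpq, hq, sub_self]
  have hr0 : r ≠ 0 := fun h => hne (sub_eq_zero.1 h).symm
  have hrρ : ∀ g, r * ρ g = ρ g * r := by
    intro g
    rw [hr, sub_mul, mul_sub, h5 p hp g, hqρ g]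
  -- products with the other members
  have ho : ∀ s ∈ P.erase p, s * p = 0 ∧ p * s = 0 := by
    intro s hs
    rw [Finset.mem_erase] at hs
    exact ⟨h2 s hs.2 p hp hs.1, h2 p hp s hs.2 (Ne.symm hs.1)⟩
  have hoq : ∀ s ∈ P.erase p, s * q = 0 ∧ q * s = 0 := by
    intro s hs
    constructor
    · rw [← hpq, ← mul_assoc, (ho s hs).1, zero_mul]
    · rw [← hqp, mul_assoc, (ho s hs).2, mul_zero]
  have hor : ∀ s ∈ P.erase p, s * r = 0 ∧ r * s = 0 := by
    intro s hs
    constructor
    · rw [← hpr, ← mul_assoc, (ho s hs).1, zero_mul]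
    · rw [← hrp, mul_assoc, (ho s hs).2, mul_zero]
  have hqmem : q ∉ P.erase p := by
    intro h
    have := (hoq q h).1
    rw [hq] at this
    exact hq0 this
  have hrmem : r ∉ P.erase p := by
    intro h
    have := (hor r h).1
    rw [hrr] at this
    exact hr0 this
  have hqr' : q ≠ r := by
    intro h
    rw [← h, hq] at hqr
    exact hq0 hqr
  have hqmem' : q ∉ insert r (P.erase p) := by
    rw [Finset.mem_insert]
    rintro (h | h)
    · exact hqr' h
    · exact hqmem h
  refine ⟨insert q (insert r (P.erase p)), ⟨?_, ?_, ?_, ?_, ?_⟩, ?_⟩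
  · intro s hs
    rcases Finset.mem_insert.1 hs with h | hs1
    · rw [h]
      exact hq
    rcases Finset.mem_insert.1 hs1 with h | hs2
    · rw [h]
      exact hrr
    exact h1 s (Finset.mem_of_mem_erase hs2)
  · intro s hs t ht hst
    rcases Finset.mem_insert.1 hs with h | hs1
    · rcases Finset.mem_insert.1 ht with h' | ht1
      · exact absurd (h.trans h'.symm) hst
      rcases Finset.mem_insert.1 ht1 with h' | ht2
      · rw [h, h']
        exact hqr
      rw [h]
      exact (hoq t ht2).2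
    rcases Finset.mem_insert.1 hs1 with h | hs2
    · rcases Finset.mem_insert.1 ht with h' | ht1
      · rw [h, h']
        exact hrq
      rcases Finset.mem_insert.1 ht1 with h' | ht2
      · exact absurd (h.trans h'.symm) hst
      rw [h]
      exact (hor t ht2).2
    · rcases Finset.mem_insert.1 ht with h' | ht1
      · rw [h']
        exact (hoq s hs2).1
      rcases Finset.mem_insert.1 ht1 with h' | ht2
      · rw [h']
        exact (hor s hs2).1
      exact h2 s (Finset.mem_of_mem_erase hs2) t (Finset.mem_of_mem_erase ht2) hst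
  · rw [Finset.sum_insert hqmem', Finset.sum_insert hrmem, ← h3, ← Finset.add_sum_erase P _ hp,
      hr]
    abel
  · intro s hs
    rcases Finset.mem_insert.1 hs with h | hs1
    · rw [h]
      exact hq0
    rcases Finset.mem_insert.1 hs1 with h | hs2
    · rw [h]
      exact hr0
    exact h4 s (Finset.mem_of_mem_erase hs2)
  · intro s hs
    rcases Finset.mem_insert.1 hs with h | hs1
    · rw [h]
      exact hqρ
    rcases Finset.mem_insert.1 hs1 with h | hs2
    · rw [h]
      exact hrρ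
    exact h5 s (Finset.mem_of_mem_erase hs2)
  · rw [Finset.card_insert_of_notMem hqmem', Finset.card_insert_of_notMem hrmem,
      Finset.card_erase_add_one hp]

/-- The coordinate-free version. -/
theorem G2a_abs [FiniteDimensional ℂ V] (ρ : Representation ℂ G V) (hc : CompRed ρ) :
    ∃ P : Finset (Module.End ℂ V), G2a_Good ρ P ∧
      ∀ A : Module.End ℂ V, (∀ g, A * ρ g = ρ g * A) →
        ∀ p ∈ P, A * p = p * A → ∃ s : ℂ, A * p = s • p := by
  classical
  -- a family of maximal cardinality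
  obtain ⟨P, hP, hmax⟩ : ∃ P, G2a_Good ρ P ∧ ∀ P', G2a_Good ρ P' → P'.card ≤ P.card := by
    let S : Set ℕ := {k | ∃ P, G2a_Good ρ P ∧ P.card = k}
    have hne : S.Nonempty := by
      obtain ⟨P, hP⟩ := G2a_exists_good ρ
      exact ⟨P.card, P, hP, rfl⟩
    have hb : BddAbove S := by
      refine ⟨Module.finrank ℂ (Module.End ℂ V), ?_⟩
      rintro k ⟨P, hP, rfl⟩
      exact G2a_card_le hP
    obtain ⟨P, hP, hk⟩ := Nat.sSup_mem hne hb
    refine ⟨P, hP, fun P' hP' => ?_⟩
    rw [hk]
    exact le_csSup hb ⟨P', hP', rfl⟩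
  refine ⟨P, hP, ?_⟩
  intro A hA p hp hAp
  have hpp := hP.1 p hp
  have hp0 := hP.2.2.2.1 p hp
  have hpρ := hP.2.2.2.2 p hp
  -- the restriction of A to the range of p has an eigenvalue
  let W : Submodule ℂ V := LinearMap.range p
  have hW : ∀ x ∈ W, p x = x := by
    rintro _ ⟨y, rfl⟩
    exact congrArg (fun f : Module.End ℂ V => f y) hpp
  have hAW : ∀ x ∈ W, A x ∈ W := by
    rintro _ ⟨y, rfl⟩
    exact ⟨A y, (congrArg (fun f : Module.End ℂ V => f y) hAp).symm⟩
  have hWnt : Nontrivial W := by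
    rw [Submodule.nontrivial_iff_ne_bot]
    intro h
    exact hp0 (LinearMap.range_eq_bot.1 h)
  obtain ⟨s, hs⟩ := Module.End.exists_eigenvalue (A.restrict hAW)
  obtain ⟨w, hw⟩ := hs.exists_hasEigenvector
  have hw0 : (w : V) ≠ 0 := by
    intro h
    exact hw.2 (Subtype.ext h)
  have hws : A w = s • (w : V) := by
    have := congrArg (fun x : W => (x : V)) hw.apply_eq_smul
    exact this
  let E : Submodule ℂ V := LinearMap.ker (A - s • 1) ⊓ W
  have hE : ∀ x, x ∈ E ↔ A x = s • x ∧ x ∈ W := by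
    intro x
    show x ∈ LinearMap.ker (A - s • 1) ⊓ W ↔ _
    rw [Submodule.mem_inf, LinearMap.mem_ker, LinearMap.sub_apply, sub_eq_zero]
    rfl
  have hEst : Stable ρ E := by
    intro g x hx
    rw [hE] at hx ⊢
    constructor
    · have h1 : A (ρ g x) = ρ g (A x) := congrArg (fun f : Module.End ℂ V => f x) (hA g)
      rw [h1, hx.1, map_smul]
    · obtain ⟨y, hy⟩ := hx.2
      refine ⟨ρ g y, ?_⟩
      have h1 : p (ρ g y) = ρ g (p y) := congrArg (fun f : Module.End ℂ V => f y) (hpρ g)
      rw [h1, hy]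
  obtain ⟨E', hE'st, hcompl⟩ := hc E hEst
  let π : Module.End ℂ V := E.projection E' hcompl
  have hπmem : ∀ x, π x ∈ E := fun x => Submodule.projection_apply_mem hcompl x
  have hπE : ∀ x ∈ E, π x = x := fun x hx => Submodule.projection_apply_of_mem_left hcompl hx
  have hπE' : ∀ x ∈ E', π x = 0 := fun x hx => Submodule.projection_apply_of_mem_right hcompl hx
  have hπρ : ∀ g, π * ρ g = ρ g * π := by
    intro g
    apply LinearMap.ext
    intro x
    show π (ρ g x) = ρ g (π x)
    obtain ⟨y, hy, z, hz, rfl⟩ := Submodule.mem_sup.1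
      (show x ∈ E ⊔ E' by rw [hcompl.sup_eq_top]; exact Submodule.mem_top)
    rw [map_add, map_add, map_add, map_add, hπE y hy, hπE' z hz, hπE _ (hEst g y hy),
      hπE' _ (hE'st g z hz), map_zero]
  have hpπ : ∀ x, p (π x) = π x := fun x => hW _ ((hE _).1 (hπmem x)).2
  have hq : (π * p) * (π * p) = π * p := by
    apply LinearMap.ext
    intro x
    show π (p (π (p x))) = π (p x)
    rw [hpπ, hπE _ (hπmem _)]
  have hqp : (π * p) * p = π * p := by rw [mul_assoc, hpp]
  have hpq : p * (π * p) = π * p := by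
    apply LinearMap.ext
    intro x
    exact hpπ _
  have hq0 : π * p ≠ 0 := by
    intro h
    apply hw0
    have h1 : π (p w) = (w : V) := by
      rw [hW _ w.2]
      exact hπE _ ((hE _).2 ⟨hws, w.2⟩)
    rw [← h1]
    exact congrArg (fun f : Module.End ℂ V => f w) h
  have hqρ : ∀ g, (π * p) * ρ g = ρ g * (π * p) := by
    intro g
    rw [mul_assoc, hpρ g, ← mul_assoc, hπρ g, mul_assoc]
  have heq : π * p = p := by
    by_contra hne
    obtain ⟨P', hP', hcard⟩ := G2a_split hP hp hq hqp hpq hq0 hne hqρ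
    have := hmax P' hP'
    omega
  refine ⟨s, ?_⟩
  apply LinearMap.ext
  intro x
  show A (p x) = s • p x
  have h1 : p x ∈ E := by
    rw [← heq]
    exact hπmem _
  exact ((hE _).1 h1).1

end Abstract

variable {n m : ℕ}

theorem G2a_onV_mul (g h : Matrix (Fin n ⊕ Fin m) (Fin n ⊕ Fin m) ℂ) (hh : h.toBlocks₂₁ = 0) :
    onV (g * h) = onV g * onV h := by
  unfold onV
  conv_lhs => rw [← Matrix.fromBlocks_toBlocks g, ← Matrix.fromBlocks_toBlocks h,
    Matrix.fromBlocks_multiply, Matrix.toBlocks_fromBlocks₁₁, hh, Matrix.mul_zero, add_zero]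

theorem G2a_onV_one : onV (1 : Matrix (Fin n ⊕ Fin m) (Fin n ⊕ Fin m) ℂ) = 1 := by
  unfold onV
  rw [← Matrix.fromBlocks_one, Matrix.toBlocks_fromBlocks₁₁]

/-- The representation of `G` on `V`. -/
noncomputable def G2a_rep (G : Subgroup (GL (Fin n ⊕ Fin m) ℂ)) (hV : PreservesFirst G) :
    Representation ℂ G (Fin n → ℂ) where
  toFun g := Matrix.toLin' (onV (g : GL (Fin n ⊕ Fin m) ℂ).val)
  map_one' := by
    show Matrix.toLin' (onV (1 : Matrix (Fin n ⊕ Fin m) (Fin n ⊕ Fin m) ℂ)) = 1
    rw [G2a_onV_one, Matrix.toLin'_one]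
    rfl
  map_mul' g h := by
    show Matrix.toLin' (onV ((g : GL (Fin n ⊕ Fin m) ℂ).val * (h : GL (Fin n ⊕ Fin m) ℂ).val)) = _
    rw [G2a_onV_mul _ _ (hV _ h.2), Matrix.toLin'_mul]
    rfl

/-- G2a (uses E0) : projections onto the simple constituents of `V`. -/
theorem G2a_idem (G : Subgroup (GL (Fin n ⊕ Fin m) ℂ))
    (hred : IsLinearlyReductive G) (hV : PreservesFirst G) :
    ∃ (k : ℕ) (p : Fin k → Matrix (Fin n) (Fin n) ℂ),
      (∀ i, p i * p i = p i) ∧ ∑ i, p i = 1 ∧ (∀ i, p i ≠ 0) ∧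
      (∀ g ∈ G, ∀ i, p i * onV g.val = onV g.val * p i) ∧
      ∀ A : Matrix (Fin n) (Fin n) ℂ, (∀ g ∈ G, A * onV g.val = onV g.val * A) →
        ∀ i, A * p i = p i * A → ∃ s : ℂ, A * p i = s • p i := by
  classical
  have hc : CompRed (G2a_rep G hV) := by
    apply E0_compRed G hred
    intro w ℓ
    refine ⟨∑ i, ∑ j, C (ℓ (Pi.single i 1) * w j) * X (Sum.inl (Sum.inl i, Sum.inl j)), ?_⟩
    intro g
    have h1 : (G2a_rep G hV g) w = (onV (g : GL (Fin n ⊕ Fin m) ℂ).val).mulVec w := rfl
    have h2 : ∀ v : Fin n → ℂ, ℓ v = ∑ i, v i * ℓ (Pi.single i 1) := by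
      intro v
      conv_lhs => rw [← LinearMap.sum_single_apply (fun _ : Fin n => ℂ) v]
      rw [map_sum]
      refine Finset.sum_congr rfl fun i _ => ?_
      have h3 : (Pi.single i (v i) : Fin n → ℂ) = v i • Pi.single i (1 : ℂ) := by
        rw [← Pi.single_smul, smul_eq_mul, mul_one]
      rw [h3, map_smul, smul_eq_mul]
    show ℓ ((G2a_rep G hV g) w) = _
    rw [h1, h2]
    simp only [map_sum, map_mul, eval_C, eval_X, Sum.elim_inl]
    refine Finset.sum_congr rfl fun i _ => ?_
    rw [Matrix.mulVec, dotProduct, Finset.sum_mul]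
    refine Finset.sum_congr rfl fun j _ => ?_
    show (g : GL (Fin n ⊕ Fin m) ℂ).val (Sum.inl i) (Sum.inl j) * w j * _ = _
    ring
  obtain ⟨P, ⟨h1, h2, h3, h4, h5⟩, h6⟩ := G2a_abs (G2a_rep G hV) hc
  let e : Module.End ℂ (Fin n → ℂ) ≃ₐ[ℂ] Matrix (Fin n) (Fin n) ℂ := LinearMap.toMatrixAlgEquiv'
  have hρ : ∀ g : G, e (G2a_rep G hV g) = onV (g : GL (Fin n ⊕ Fin m) ℂ).val := by
    intro g
    exact LinearMap.toMatrix'_toLin' _
  refine ⟨P.card, fun i => e (P.equivFin.symm i), ?_, ?_, ?_, ?_, ?_⟩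
  · intro i
    rw [← map_mul, h1 _ (P.equivFin.symm i).2]
  · rw [← map_sum]
    rw [Equiv.sum_comp P.equivFin.symm (fun p : P => (p : Module.End ℂ (Fin n → ℂ)))]
    rw [Finset.sum_coe_sort P (fun p => p), h3, map_one]
  · intro i h
    exact h4 _ (P.equivFin.symm i).2 (e.injective (h.trans (map_zero e).symm))
  · intro g hg i
    have := h5 _ (P.equivFin.symm i).2 ⟨g, hg⟩
    have h7 := congrArg e this
    rw [map_mul, map_mul, hρ] at h7
    exact h7
  · intro A hA i hAi
    obtain ⟨s, hs⟩ := h6 (e.symm A) (by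
      intro g
      apply e.injective
      rw [map_mul, map_mul, e.apply_symm_apply, hρ]
      exact hA g g.2) _ (P.equivFin.symm i).2 (by
      apply e.injective
      rw [map_mul, map_mul, e.apply_symm_apply]
      exact hAi)
    refine ⟨s, ?_⟩
    have h7 := congrArg e hs
    rw [map_mul, e.apply_symm_apply, map_smul] at h7
    exact h7

end HamRed
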