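import Pool.Agent.HamRed.Base
import Pool.Agent.HamRed.G1

open MvPolynomial

namespace HamRed

variable {ι : Type} [Fintype ι] [DecidableEq ι]

/-- The linear functional `y ↦ d/dt P(exp(ty), exp(-ty))` at `t = 0`. -/
noncomputable def G3_D (P : MvPolynomial ((ι × ι) ⊕ (ι × ι)) ℂ) : Matrix ι ι ℂ →ₗ[ℂ] ℂ where
  toFun y := ∑ p : ι × ι,
    (MvPolynomial.eval (Sum.elim (fun p => (1 : Matrix ι ι ℂ) p.1 p.2)
        (fun p => (1 : Matrix ι ι ℂ) p.1 p.2)) (pderiv (Sum.inl p) P) -
      MvPolynomial.eval (Sum.elim (fun p => (1 : Matrix ι ι ℂ) p.1 p.2)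
        (fun p => (1 : Matrix ι ι ℂ) p.1 p.2)) (pderiv (Sum.inr p) P)) * y p.1 p.2
  map_add' y z := by
    simp only [Matrix.add_apply, mul_add, Finset.sum_add_distrib]
  map_smul' c y := by
    simp only [Matrix.smul_apply, smul_eq_mul, RingHom.id_apply, Finset.mul_sum]
    exact Finset.sum_congr rfl fun p _ => by ring

/-- The point `(exp(ty), exp(-ty))`. -/
noncomputable def G3_pt (y : Matrix ι ι ℂ) (t : ℂ) : (ι × ι) ⊕ (ι × ι) → ℂ :=
  Sum.elim (fun p => (NormedSpace.exp (t • y)) p.1 p.2)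
    (fun p => (NormedSpace.exp (t • (-y))) p.1 p.2)

theorem G3_hasDerivAt_zero (P : MvPolynomial ((ι × ι) ⊕ (ι × ι)) ℂ) (y : Matrix ι ι ℂ) :
    HasDerivAt (fun t => MvPolynomial.eval (G3_pt y t) P) (G3_D P y) 0 := by
  have h := G1_hasDerivAt_eval P (G3_pt y)
    (Sum.elim (fun p => (NormedSpace.exp ((0 : ℂ) • y) * y) p.1 p.2)
      (fun p => (NormedSpace.exp ((0 : ℂ) • (-y)) * (-y)) p.1 p.2)) 0 (by
      rintro (p | p)
      · exact G1_hasDerivAt_exp y 0 p.1 p.2
      · exact G1_hasDerivAt_exp (-y) 0 p.1 p.2)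
  refine h.congr_deriv ?_
  have h0 : G3_pt y 0 = Sum.elim (fun p => (1 : Matrix ι ι ℂ) p.1 p.2)
        (fun p => (1 : Matrix ι ι ℂ) p.1 p.2) := by
    unfold G3_pt
    simp only [zero_smul, NormedSpace.exp_zero]
  rw [h0, Fintype.sum_sum_type]
  simp only [zero_smul, NormedSpace.exp_zero, one_mul, Sum.elim_inl, Sum.elim_inr,
    Matrix.neg_apply]
  unfold G3_D
  simp only [LinearMap.coe_mk, AddHom.coe_mk, sub_mul, Finset.sum_sub_distrib, mul_neg,
    Finset.sum_neg_distrib]
  ring

theorem G3_exp_inj {a b : ℂ} (h : ∀ t : ℂ, Complex.exp (t * a) = Complex.exp (t * b)) : a = b := by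
  have h1 : HasDerivAt (fun t : ℂ => Complex.exp (t * a)) (Complex.exp (0 * a) * (1 * a)) 0 :=
    ((hasDerivAt_id (0 : ℂ)).mul_const a).cexp
  have h2 : HasDerivAt (fun t : ℂ => Complex.exp (t * b)) (Complex.exp (0 * b) * (1 * b)) 0 :=
    ((hasDerivAt_id (0 : ℂ)).mul_const b).cexp
  have h3 : (fun t : ℂ => Complex.exp (t * a)) = fun t : ℂ => Complex.exp (t * b) := funext h
  rw [h3] at h1
  simpa using h1.unique h2

/-- inverse of an element with matrix `exp(ty)` -/
theorem G3_inv {y : Matrix ι ι ℂ} {t : ℂ} {g : GL ι ℂ} (hg : g.val = NormedSpace.exp (t • y)) :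
    (g⁻¹).val = NormedSpace.exp (t • (-y)) := by
  have h1 : NormedSpace.exp (t • y) * NormedSpace.exp (t • (-y)) = 1 := by
    rw [smul_neg]
    exact G1_exp_mul_exp_neg (t • y)
  have h2 : (g⁻¹).val * g.val = 1 := g.inv_mul
  calc (g⁻¹).val = (g⁻¹).val * (NormedSpace.exp (t • y) * NormedSpace.exp (t • (-y))) := by
        rw [h1, mul_one]
    _ = ((g⁻¹).val * g.val) * NormedSpace.exp (t • (-y)) := by rw [hg, mul_assoc]
    _ = _ := by rw [h2, one_mul]

theorem G3_conj_mem (G : Subgroup (GL ι ℂ))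
    (hG : IsZariskiClosed G) (g : GL ι ℂ) (hg : g ∈ G) (y : Matrix ι ι ℂ) (hy : y ∈ lieAlg G) :
    g.val * y * (g⁻¹).val ∈ lieAlg G := by
  rw [G1_exp G hG] at hy ⊢
  intro t
  obtain ⟨a, ha, ea⟩ := hy t
  refine ⟨g * a * g⁻¹, G.mul_mem (G.mul_mem hg ha) (G.inv_mem hg), ?_⟩
  have h1 : t • (g.val * y * (g⁻¹).val) = g.val * (t • y) * (g⁻¹).val := by
    rw [Matrix.mul_smul, Matrix.smul_mul]
  rw [h1]
  have h2 := Matrix.exp_units_conj g (t • y)
  rw [h2, ← ea]
  rfl

section
open scoped Matrix.Norms.Operator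

set_option backward.isDefEq.respectTransparency false in
theorem G3_exp_add (y : Matrix ι ι ℂ) (s t : ℂ) :
    NormedSpace.exp ((s + t) • y) = NormedSpace.exp (s • y) * NormedSpace.exp (t • y) := by
  rw [add_smul]
  exact Matrix.exp_add_of_commute _ _ (((Commute.refl y).smul_left s).smul_right t)

set_option backward.isDefEq.respectTransparency false in
theorem G3_bracket_deriv (y z : Matrix ι ι ℂ) (L : Matrix ι ι ℂ →ₗ[ℂ] ℂ) :
    HasDerivAt (fun s : ℂ => L (NormedSpace.exp (s • z) * y * NormedSpace.exp (s • (-z))))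
      (L (z * y - y * z)) 0 := by
  have h1 : HasDerivAt (fun s : ℂ => NormedSpace.exp (s • z))
    (NormedSpace.exp ((0 : ℂ) • z) * z) 0 := hasDerivAt_exp_smul_const z 0
  have h2 : HasDerivAt (fun s : ℂ => NormedSpace.exp (s • (-z)))
    (NormedSpace.exp ((0 : ℂ) • (-z)) * (-z)) 0 := hasDerivAt_exp_smul_const (-z) 0
  have h3 := (h1.mul_const y).mul h2
  have h4 := L.toContinuousLinearMap.hasFDerivAt
    (x := NormedSpace.exp ((0 : ℂ) • z) * y * NormedSpace.exp ((0 : ℂ) • (-z)))
  have h5 := h4.comp_hasDerivAt (0 : ℂ) h3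
  refine h5.congr_deriv ?_
  show L _ = L _
  simp only [zero_smul, NormedSpace.exp_zero, one_mul, mul_one]
  rw [mul_neg, sub_eq_add_neg]

end

/-- G3 (uses G1) : the differential of a regular character. -/
theorem G3_diff (G : Subgroup (GL ι ℂ)) (hG : IsZariskiClosed G) (ξ : G →* ℂˣ)
    (hξ : IsRegChar G ξ) : ∃ D : Module.Dual ℂ (lieAlg G), IsDiff G ξ D ∧ D ∈ charSpace G := by
  obtain ⟨P, hP⟩ := hξ
  have hdiff : IsDiff G ξ ((G3_D P).comp (lieAlg G).subtype) := by
    -- the one-parameter group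
    intro y t g hg
    have hmem : ∀ u : ℂ, ∃ a ∈ G, a.val = NormedSpace.exp (u • y.val) :=
      (G1_exp G hG y.val).mp y.2
    choose a ha hae using hmem
    let b : ℂ → G := fun u => ⟨a u, ha u⟩
    set F : ℂ → ℂ := fun u => MvPolynomial.eval (G3_pt y.val u) P with hF
    have hFb : ∀ u, F u = ((ξ (b u) : ℂˣ) : ℂ) := by
      intro u
      have h1 := hP (b u)
      rw [hF]
      simp only at h1 ⊢
      rw [h1]
      congr 2
      unfold G3_pt
      congr 1
      · funext p
        rw [← hae u]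
      · funext p
        rw [← G3_inv (hae u)]
    have hbadd : ∀ s u, b (s + u) = b s * b u := by
      intro s u
      apply Subtype.ext
      apply Units.ext
      show (a (s + u)).val = (a s).val * (a u).val
      rw [hae, hae, hae, G3_exp_add]
    have hFadd : ∀ s u, F (s + u) = F s * F u := by
      intro s u
      rw [hFb, hFb, hFb, hbadd, map_mul, Units.val_mul]
    have hF0 : F 0 = 1 := by
      rw [hFb]
      have : b 0 = 1 := by
        apply Subtype.ext
        apply Units.ext
        show (a 0).val = 1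
        rw [hae, zero_smul, NormedSpace.exp_zero]
      rw [this, map_one, Units.val_one]
    have hd0 : HasDerivAt F (G3_D P y.val) 0 := G3_hasDerivAt_zero P y.val
    have hd : ∀ u, HasDerivAt F (F u * G3_D P y.val) u := by
      intro u
      have h1 : HasDerivAt (fun s => F u * F (s - u)) (F u * G3_D P y.val) u := by
        have h2 : HasDerivAt (fun s => F (s - u)) (G3_D P y.val) u := by
          have h3 : HasDerivAt F (G3_D P y.val) (u - u) := by rw [sub_self]; exact hd0
          exact h3.comp_sub_const u u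
        exact h2.const_mul (F u)
      have h3 : (fun s => F u * F (s - u)) = F := by
        funext s
        rw [← hFadd]
        congr 1
        ring
      rwa [h3] at h1
    have hconst : ∀ u, F u * Complex.exp (-(u * G3_D P y.val)) = 1 := by
      intro u
      have h1 : ∀ v, HasDerivAt (fun v => F v * Complex.exp (-(v * G3_D P y.val))) 0 v := by
        intro v
        have h2 : HasDerivAt (fun v : ℂ => Complex.exp (-(v * G3_D P y.val)))
            (Complex.exp (-(v * G3_D P y.val)) * (-(1 * G3_D P y.val))) v :=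
          (((hasDerivAt_id v).mul_const (G3_D P y.val)).neg).cexp
        refine ((hd v).mul h2).congr_deriv ?_
        ring
      have h2 := is_const_of_deriv_eq_zero (fun v => (h1 v).differentiableAt)
        (fun v => (h1 v).deriv) u 0
      rw [h2, hF0]
      simp
    have hg' : g = b t := by
      apply Subtype.ext
      apply Units.ext
      rw [hg]
      exact (hae t).symm
    rw [hg', ← hFb]
    have h1 := hconst t
    have h2 : F t = Complex.exp (t * G3_D P y.val) := by
      rw [Complex.exp_neg] at h1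
      have h3 : Complex.exp (t * G3_D P y.val) ≠ 0 := Complex.exp_ne_zero _
      field_simp at h1
      exact h1
    rw [h2]
    rfl
  refine ⟨(G3_D P).comp (lieAlg G).subtype, hdiff, ?_, ?_⟩
  · intro g hg y z hz
    apply G3_exp_inj
    intro t
    obtain ⟨a, ha, hae⟩ := (G1_exp G hG y.val).mp y.2 t
    have h1 := hdiff y t ⟨a, ha⟩ hae
    have h2 := hdiff z t (⟨g, hg⟩ * ⟨a, ha⟩ * ⟨g, hg⟩⁻¹) (by
      rw [hz]
      have h1 : t • (g.val * y.val * (g⁻¹).val) = g.val * (t • y.val) * (g⁻¹).val := by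
        rw [Matrix.mul_smul, Matrix.smul_mul]
      rw [h1]
      have h2 := Matrix.exp_units_conj g (t • y.val)
      rw [h2, ← hae]
      rfl)
    rw [← h1, ← h2]
    congr 1
    rw [map_mul, map_mul, map_inv, mul_comm (ξ ⟨g, hg⟩), mul_assoc, mul_inv_cancel, mul_one]
  · intro y z w hw
    -- conjugation invariance, differentiated
    have hinv : ∀ s : ℂ, G3_D P (NormedSpace.exp (s • z.val) * y.val *
        NormedSpace.exp (s • (-z.val))) = G3_D P y.val := by
      intro s
      obtain ⟨a, ha, hae⟩ := (G1_exp G hG z.val).mp z.2 s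
      have hmem := G3_conj_mem G hG a ha y.val y.2
      have h1 : ((G3_D P).comp (lieAlg G).subtype) ⟨_, hmem⟩ =
          ((G3_D P).comp (lieAlg G).subtype) y := by
        apply G3_exp_inj
        intro t
        obtain ⟨c, hc, hce⟩ := (G1_exp G hG y.val).mp y.2 t
        have h1 := hdiff y t ⟨c, hc⟩ hce
        have h2 := hdiff ⟨_, hmem⟩ t (⟨a, ha⟩ * ⟨c, hc⟩ * ⟨a, ha⟩⁻¹) (by
          show _ = NormedSpace.exp (t • (a.val * y.val * (a⁻¹).val))
          have h1 : t • (a.val * y.val * (a⁻¹).val) = a.val * (t • y.val) * (a⁻¹).val := by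
            rw [Matrix.mul_smul, Matrix.smul_mul]
          rw [h1]
          have h2 := Matrix.exp_units_conj a (t • y.val)
          rw [h2, ← hce]
          rfl)
        rw [← h1, ← h2]
        congr 1
        rw [map_mul, map_mul, map_inv, mul_comm (ξ ⟨a, ha⟩), mul_assoc, mul_inv_cancel, mul_one]
      rw [← G3_inv hae, ← hae]
      exact h1
    have h1 := G3_bracket_deriv y.val z.val (G3_D P)
    have h2 : (fun s : ℂ => G3_D P (NormedSpace.exp (s • z.val) * y.val *
        NormedSpace.exp (s • (-z.val)))) = fun _ => G3_D P y.val := funext hinv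
    rw [h2] at h1
    have h3 := h1.unique (hasDerivAt_const (0 : ℂ) (G3_D P y.val))
    show G3_D P w.val = 0
    rw [hw]
    have h4 : y.val * z.val - z.val * y.val = -(z.val * y.val - y.val * z.val) := by
      rw [neg_sub]
    rw [h4, map_neg, h3, neg_zero]

end HamRed
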