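import Pool.Agent.HamRed.Base

open MvPolynomial

namespace HamRed

variable {n m : ℕ}

theorem G5_mul {A B : Matrix (Fin n ⊕ Fin m) (Fin n ⊕ Fin m) ℂ}
    (hB : B.toBlocks₂₁ = 0) : onV (A * B) = onV A * onV B := by
  have h2 : ∀ i j, B (Sum.inr i) (Sum.inl j) = 0 := fun i j => congrFun (congrFun hB i) j
  ext i j
  simp [onV, Matrix.toBlocks₁₁, Matrix.mul_apply, h2]

theorem G5_mul21 {A B : Matrix (Fin n ⊕ Fin m) (Fin n ⊕ Fin m) ℂ} (hA : A.toBlocks₂₁ = 0)
    (hB : B.toBlocks₂₁ = 0) : (A * B).toBlocks₂₁ = 0 := by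
  have h1 : ∀ i j, A (Sum.inr i) (Sum.inl j) = 0 := fun i j => congrFun (congrFun hA i) j
  have h2 : ∀ i j, B (Sum.inr i) (Sum.inl j) = 0 := fun i j => congrFun (congrFun hB i) j
  ext i j
  simp [Matrix.toBlocks₂₁, Matrix.mul_apply, h1, h2]

theorem G5_one : onV (1 : Matrix (Fin n ⊕ Fin m) (Fin n ⊕ Fin m) ℂ) = 1 := by
  ext i j
  simp [onV, Matrix.toBlocks₁₁, Matrix.one_apply]

theorem G5_one21 : (1 : Matrix (Fin n ⊕ Fin m) (Fin n ⊕ Fin m) ℂ).toBlocks₂₁ = 0 := by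
  ext i j
  simp [Matrix.toBlocks₂₁, Matrix.one_apply]

theorem G5_pow {A : Matrix (Fin n ⊕ Fin m) (Fin n ⊕ Fin m) ℂ} (hA : A.toBlocks₂₁ = 0) (k : ℕ) :
    (A ^ k).toBlocks₂₁ = 0 ∧ onV (A ^ k) = onV A ^ k := by
  induction k with
  | zero => exact ⟨by rw [pow_zero, G5_one21], by rw [pow_zero, pow_zero, G5_one]⟩
  | succ k ih =>
    refine ⟨?_, ?_⟩
    · rw [pow_succ]; exact G5_mul21 ih.1 hA
    · rw [pow_succ, pow_succ, G5_mul hA, ih.2]

/-- `onV` as a linear map. -/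
noncomputable def onVL : Matrix (Fin n ⊕ Fin m) (Fin n ⊕ Fin m) ℂ →ₗ[ℂ] Matrix (Fin n) (Fin n) ℂ where
  toFun := onV
  map_add' _ _ := rfl
  map_smul' _ _ := rfl

section
open scoped Matrix.Norms.Operator

set_option backward.isDefEq.respectTransparency false in
theorem G5_hasSum {ι : Type} [Fintype ι] [DecidableEq ι] (y : Matrix ι ι ℂ) :
    HasSum (fun k : ℕ => ((k.factorial : ℂ)⁻¹) • y ^ k) (NormedSpace.exp y) :=
  NormedSpace.exp_series_hasSum_exp' (𝕂 := ℂ) y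

set_option backward.isDefEq.respectTransparency false in
theorem G5_exp {y : Matrix (Fin n ⊕ Fin m) (Fin n ⊕ Fin m) ℂ} (hy : y.toBlocks₂₁ = 0) :
    onV (NormedSpace.exp y) = NormedSpace.exp (onV y) := by
  have h1 := (G5_hasSum y).mapL (onVL (n := n) (m := m)).toContinuousLinearMap
  have h2 := G5_hasSum (onV y)
  have h3 : (fun k : ℕ => (onVL (n := n) (m := m)).toContinuousLinearMap
      (((k.factorial : ℂ)⁻¹) • y ^ k)) = fun k : ℕ => ((k.factorial : ℂ)⁻¹) • onV y ^ k := by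
    funext k
    show onV (((k.factorial : ℂ)⁻¹) • y ^ k) = _
    rw [onV_smul, (G5_pow hy k).2]
  rw [h3] at h1
  exact h1.unique h2

end

/-- G5 : elements of the Lie algebra are block upper triangular. -/
theorem G5_block (G : Subgroup (GL (Fin n ⊕ Fin m) ℂ)) (hV : PreservesFirst G) :
    (∀ y ∈ lieAlg G, y.toBlocks₂₁ = 0) ∧
    (∀ g ∈ G, ∀ h ∈ G, onV (g * h).val = onV g.val * onV h.val) ∧
    (∀ g ∈ G, onV g.val * onV (g⁻¹).val = 1) ∧
    (∀ y ∈ lieAlg G, onV (NormedSpace.exp y) = NormedSpace.exp (onV y)) := by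
  have h21 : ∀ y ∈ lieAlg G, y.toBlocks₂₁ = 0 := by
    intro y hy
    ext i j
    have h := hy (X (Sum.inr i, Sum.inl j)) (by
      intro g hg
      have := congrFun (congrFun (hV g hg) i) j
      simpa [matEval, Matrix.toBlocks₂₁] using this)
    rw [Finset.sum_eq_single (Sum.inr i, Sum.inl j)] at h
    · simpa [matEval, Matrix.toBlocks₂₁] using h
    · intro p _ hp
      rw [pderiv_X]
      rw [Pi.single_eq_of_ne (Ne.symm hp)]
      simp [matEval]
    · intro hp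
      exact absurd (Finset.mem_univ _) hp
  refine ⟨h21, ?_, ?_, fun y hy => G5_exp (h21 y hy)⟩
  · intro g hg h hh
    exact G5_mul (hV h hh)
  · intro g hg
    have h1 := G5_mul (A := g.val) (hV g⁻¹ (G.inv_mem hg))
    rw [← h1]
    have : g.val * (g⁻¹).val = 1 := by
      have := g.mul_inv
      exact this
    rw [this, G5_one]

end HamRed
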