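import Pool.Agent.HamRed.Base
import Pool.Agent.HamRed.G1
import Pool.Agent.HamRed.G3
import Pool.Agent.HamRed.G5
import Pool.Agent.HamRed.G2a
import Pool.Agent.HamRed.E0
import Pool.Agent.HamRed.E1

open MvPolynomial

namespace HamRed

variable {n m : ℕ}

section
open scoped Matrix.Norms.Operator

set_option backward.isDefEq.respectTransparency false in
theorem G2_exp_eigen (Y p : Matrix (Fin n) (Fin n) ℂ) (s : ℂ) (h : Y * p = s • p) :
    NormedSpace.exp Y * p = Complex.exp s • p := by
  have hk : ∀ k : ℕ, Y ^ k * p = s ^ k • p := by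
    intro k
    induction k with
    | zero => simp
    | succ k ih => rw [pow_succ', Matrix.mul_assoc, ih, Matrix.mul_smul, h, smul_smul, pow_succ]
  have h1 := NormedSpace.exp_series_hasSum_exp' (𝕂 := ℂ) Y
  have h2 := h1.mul_right p
  have h3 := (NormedSpace.exp_series_hasSum_exp' (𝕂 := ℂ) s).smul_const p
  rw [← Complex.exp_eq_exp_ℂ] at h3
  have h4 : (fun k : ℕ => (((k.factorial : ℂ))⁻¹ • Y ^ k) * p) =
      fun k : ℕ => (((k.factorial : ℂ))⁻¹ • s ^ k) • p := by
    funext k
    rw [smul_mul_assoc, hk, smul_assoc]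
  rw [h4] at h2
  exact h2.unique h3

end

theorem G2_det_one (p : Matrix (Fin n) (Fin n) ℂ) (hp : p * p = p)
    (h : ∀ c : ℂ, c ≠ 0 → (c • p + (1 - p)).det = 1) : p = 0 := by
  have hc : Continuous (fun c : ℂ => (c • p + (1 - p)).det) := by
    apply Continuous.matrix_det
    fun_prop
  have h0 : ((0 : ℂ) • p + (1 - p)).det = 1 := by
    have ht : Filter.Tendsto (fun c : ℂ => (c • p + (1 - p)).det) (nhdsWithin 0 {0}ᶜ)
        (nhds ((0 : ℂ) • p + (1 - p)).det) := (hc.tendsto 0).mono_left nhdsWithin_le_nhds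
    have ht' : Filter.Tendsto (fun c : ℂ => (c • p + (1 - p)).det) (nhdsWithin 0 {0}ᶜ)
        (nhds 1) := by
      refine tendsto_const_nhds.congr' ?_
      filter_upwards [self_mem_nhdsWithin] with c hc
      exact (h c hc).symm
    exact tendsto_nhds_unique ht ht'
  rw [zero_smul, zero_add] at h0
  have hu : IsUnit (1 - p) := (Matrix.isUnit_iff_isUnit_det _).2 (by rw [h0]; exact isUnit_one)
  have h1 : (1 - p) * p = 0 := by rw [sub_mul, one_mul, hp, sub_self]
  exact (hu.mul_right_eq_zero).1 h1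

/-- Commuting with all `exp(tY)` implies commuting with `Y`. -/
theorem G2_comm_of_exp (p Y : Matrix (Fin n) (Fin n) ℂ)
    (h : ∀ t : ℂ, p * NormedSpace.exp (t • Y) = NormedSpace.exp (t • Y) * p) :
    p * Y = Y * p := by
  ext a b
  have h1 : HasDerivAt (fun t : ℂ => (p * NormedSpace.exp (t • Y)) a b) ((p * Y) a b) 0 := by
    have : HasDerivAt (fun t : ℂ => ∑ c, p a c * (NormedSpace.exp (t • Y)) c b)
        (∑ c, p a c * (NormedSpace.exp ((0 : ℂ) • Y) * Y) c b) 0 := by
      apply HasDerivAt.fun_sum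
      intro c _
      exact (G1_hasDerivAt_exp Y 0 c b).const_mul (p a c)
    rw [zero_smul, NormedSpace.exp_zero, one_mul] at this
    simpa [Matrix.mul_apply] using this
  have h2 : HasDerivAt (fun t : ℂ => (NormedSpace.exp (t • Y) * p) a b) ((Y * p) a b) 0 := by
    have : HasDerivAt (fun t : ℂ => ∑ c, (NormedSpace.exp (t • Y)) a c * p c b)
        (∑ c, (NormedSpace.exp ((0 : ℂ) • Y) * Y) a c * p c b) 0 := by
      apply HasDerivAt.fun_sum
      intro c _
      exact (G1_hasDerivAt_exp Y 0 a c).mul_const (p c b)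
    rw [zero_smul, NormedSpace.exp_zero, one_mul] at this
    simpa [Matrix.mul_apply] using this
  have h3 : (fun t : ℂ => (p * NormedSpace.exp (t • Y)) a b) =
      fun t : ℂ => (NormedSpace.exp (t • Y) * p) a b := by
    funext t
    rw [h t]
  rw [h3] at h1
  exact h1.unique h2

section Ad

variable {ι : Type} [Fintype ι] [DecidableEq ι]

/-- The adjoint action on matrices. -/
noncomputable def G2_ad (G : Subgroup (GL ι ℂ)) : Representation ℂ G (Matrix ι ι ℂ) where
  toFun g :=
    { toFun := fun A => (g : GL ι ℂ).val * A * ((g : GL ι ℂ)⁻¹).val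
      map_add' := fun A B => by rw [mul_add, add_mul]
      map_smul' := fun c A => by simp }
  map_one' := by
    apply LinearMap.ext
    intro A
    simp
  map_mul' g h := by
    apply LinearMap.ext
    intro A
    simp [mul_assoc]

theorem G2_ad_apply (G : Subgroup (GL ι ℂ)) (g : G) (A : Matrix ι ι ℂ) :
    G2_ad G g A = (g : GL ι ℂ).val * A * ((g : GL ι ℂ)⁻¹).val := rfl

theorem G2_ad_compRed (G : Subgroup (GL ι ℂ)) (hred : IsLinearlyReductive G) :
    CompRed (G2_ad G) := by
  apply E0_compRed G hred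
  intro w ℓ
  refine ⟨∑ a, ∑ b, C (ℓ (Matrix.single a b 1)) *
    ∑ d, (∑ c, X (Sum.inl (a, c)) * C (w c d)) * X (Sum.inr (d, b)), ?_⟩
  intro g
  have h : G2_ad G g w = ∑ a, ∑ b, (G2_ad G g w a b) • Matrix.single a b (1 : ℂ) := by
    conv_lhs => rw [Matrix.matrix_eq_sum_single (G2_ad G g w)]
    simp [Matrix.smul_single]
  refine (congrArg ℓ h).trans ?_
  simp only [map_sum, map_smul, map_mul, MvPolynomial.eval_C, MvPolynomial.eval_X, Sum.elim_inl,
    Sum.elim_inr, smul_eq_mul, G2_ad_apply, Matrix.mul_apply]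
  apply Finset.sum_congr rfl
  intro a _
  apply Finset.sum_congr rfl
  intro b _
  rw [mul_comm]

theorem G2_ad_mem (G : Subgroup (GL ι ℂ)) (hG : IsZariskiClosed G) :
    Stable (G2_ad G) (lieAlg G) := by
  intro g y hy
  rw [G1_exp G hG] at hy ⊢
  intro t
  obtain ⟨h, hh, he⟩ := hy t
  refine ⟨g * h * (g : GL ι ℂ)⁻¹, G.mul_mem (G.mul_mem g.2 hh) (G.inv_mem g.2), ?_⟩
  rw [G2_ad_apply]
  have h1 : t • ((g : GL ι ℂ).val * y * ((g : GL ι ℂ)⁻¹).val) =
      (g : GL ι ℂ).val * (t • y) * ((g : GL ι ℂ)⁻¹).val := by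
    simp
  rw [h1, Matrix.exp_units_conj, ← he]
  rfl

theorem G2_reynolds (G : Subgroup (GL ι ℂ)) (hG : IsZariskiClosed G)
    (hred : IsLinearlyReductive G) :
    ∃ E : lieAlg G →ₗ[ℂ] lieAlg G,
      (∀ (y : lieAlg G), ∀ g ∈ G, g.val * (E y).val * (g⁻¹).val = (E y).val) ∧
      ∀ χ ∈ charSpace G, ∀ y, χ (E y) = χ y := by
  obtain ⟨E, h1, -, h3, -, h5, -⟩ := E1_reynolds (G2_ad G) (G2_ad_compRed G hred)
  have hst := G2_ad_mem G hG
  refine ⟨E.restrict (fun y hy => h3 _ hst y hy), ?_, ?_⟩
  · intro y g hg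
    exact h1 ⟨g, hg⟩ y.val
  · intro χ hχ y
    have hspan : Submodule.span ℂ {w | ∃ g, ∃ c ∈ lieAlg G, w = G2_ad G g c - c} ≤
        (LinearMap.ker χ).map (lieAlg G).subtype := by
      rw [Submodule.span_le]
      rintro w ⟨g, c, hc, rfl⟩
      refine ⟨⟨G2_ad G g c, hst g c hc⟩ - ⟨c, hc⟩, ?_, rfl⟩
      change χ _ = 0
      rw [map_sub, hχ.1 g.1 g.2 ⟨c, hc⟩ ⟨G2_ad G g c, hst g c hc⟩ rfl, sub_self]
    obtain ⟨z, hz, hz'⟩ := hspan (h5 _ hst y.val y.2)
    have hz2 : z = y - E.restrict (fun y hy => h3 _ hst y hy) y := Subtype.ext hz'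
    have hz3 : χ z = 0 := hz
    rw [hz2, map_sub, sub_eq_zero] at hz3
    exact hz3.symm

end Ad

/-- G2 (uses G1, G3, G5, G2a, E0, E1) : `𝔛` is spanned by differentials of regular characters (determinants of the
action on simple submodules of `V`). -/
theorem G2_span (G : Subgroup (GL (Fin n ⊕ Fin m) ℂ)) (hG : IsZariskiClosed G)
    (hred : IsLinearlyReductive G) (hV : PreservesFirst G)
    (hfaith : ∀ y ∈ lieAlg G, onV y = 0 → y = 0) :
    ∃ (k : ℕ) (δ : Fin k → (G →* ℂˣ)) (τ : Fin k → Module.Dual ℂ (lieAlg G)),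
      (∀ i, IsRegChar G (δ i)) ∧ (∀ i, IsDiff G (δ i) (τ i)) ∧ (∀ i, τ i ∈ charSpace G) ∧
      ∀ χ ∈ charSpace G, χ ∈ Submodule.span ℂ (Set.range τ) := by
  obtain ⟨k, p, hpi, hsum, hne, hcomm, hschur⟩ := G2a_idem G hred hV
  obtain ⟨hb1, hb2, hb3, hb4⟩ := G5_block G hV
  let f : Fin k → G →* ℂ := fun i =>
    { toFun := fun g => (p i * onV (g : GL (Fin n ⊕ Fin m) ℂ).val + (1 - p i)).det
      map_one' := by
        have : onV ((1 : G) : GL (Fin n ⊕ Fin m) ℂ).val = 1 := by
          ext a b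
          simp [onV, Matrix.toBlocks₁₁, Matrix.one_apply]
        rw [this, mul_one, add_sub_cancel, Matrix.det_one]
      map_mul' := fun g h => by
        rw [← Matrix.det_mul]
        congr 1
        have e1 : onV ((g * h : G) : GL (Fin n ⊕ Fin m) ℂ).val = onV g.1.val * onV h.1.val :=
          hb2 g.1 g.2 h.1 h.2
        have e2 := hcomm g.1 g.2 i
        have e3 := hcomm h.1 h.2 i
        rw [e1]
        have e4 : (p i * onV g.1.val + (1 - p i)) * (p i * onV h.1.val + (1 - p i)) =
            (p i * onV g.1.val * (p i)) * onV h.1.val + (p i * onV g.1.val) * (1 - p i) +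
            (1 - p i) * p i * onV h.1.val + (1 - p i) * (1 - p i) := by noncomm_ring
        have e5 : p i * onV g.1.val * (p i) = p i * onV g.1.val := by
          rw [e2, mul_assoc, hpi]
        have e6 : (p i * onV g.1.val) * (1 - p i) = 0 := by
          rw [mul_sub, mul_one, e5, sub_self]
        have e7 : (1 - p i) * p i = 0 := by rw [sub_mul, one_mul, hpi, sub_self]
        have e8 : (1 - p i) * (1 - p i) = 1 - p i := by
          rw [mul_sub, mul_one, e7, sub_zero]
        rw [e4, e5, e6, e7, e8, zero_mul, add_zero, add_zero, mul_assoc] }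
  let δ : Fin k → G →* ℂˣ := fun i => (f i).toHomUnits
  have hδ : ∀ i (g : G), ((δ i g : ℂˣ) : ℂ) =
      (p i * onV (g : GL (Fin n ⊕ Fin m) ℂ).val + (1 - p i)).det := fun i g => rfl
  have hreg : ∀ i, IsRegChar G (δ i) := by
    intro i
    refine ⟨Matrix.det ((p i).map C * Matrix.of (fun a b : Fin n =>
      (X (Sum.inl (Sum.inl a, Sum.inl b)) : MvPolynomial _ ℂ)) + (1 - p i).map C), ?_⟩
    intro g
    refine (hδ i g).trans ?_
    refine Eq.trans ?_ (RingHom.map_det _ _).symm
    congr 1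
    ext a b
    simp [Matrix.mul_apply, onV, Matrix.toBlocks₁₁]
  choose τ hτ1 hτ2 using fun i => G3_diff G hG (δ i) (hreg i)
  refine ⟨k, δ, τ, hreg, hτ1, hτ2, ?_⟩
  obtain ⟨E, hE1, hE2⟩ := G2_reynolds G hG hred
  -- the key claim
  have key : ∀ y : lieAlg G, (∀ g ∈ G, g.val * y.val * (g⁻¹).val = y.val) →
      (∀ i, τ i y = 0) → y = 0 := by
    intro y hinv hy
    have hcommV : ∀ g ∈ G, onV y.val * onV g.val = onV g.val * onV y.val := by
      intro g hg
      have e1 : g.val * y.val = y.val * g.val := by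
        have := hinv g hg
        calc g.val * y.val = g.val * y.val * ((g⁻¹).val * g.val) := by
              rw [← Units.val_mul, inv_mul_cancel, Units.val_one, mul_one]
          _ = y.val * g.val := by rw [← mul_assoc, this]
      have e2 : ∀ A B : Matrix (Fin n ⊕ Fin m) (Fin n ⊕ Fin m) ℂ, B.toBlocks₂₁ = 0 →
          onV (A * B) = onV A * onV B := by
        intro A B hB
        ext a b
        have hB' : ∀ c, B (Sum.inr c) (Sum.inl b) = 0 := fun c => by
          have := congrFun (congrFun hB c) b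
          simpa [Matrix.toBlocks₂₁] using this
        simp [onV, Matrix.toBlocks₁₁, Matrix.mul_apply, Fintype.sum_sum_type, hB']
      rw [← e2 _ _ (hV g hg), ← e1, e2 _ _ (hb1 y.val y.2)]
    have hexp : ∀ t : ℂ, ∃ g : G, (g : GL (Fin n ⊕ Fin m) ℂ).val = NormedSpace.exp (t • y.val) ∧
        onV (g : GL (Fin n ⊕ Fin m) ℂ).val = NormedSpace.exp (t • onV y.val) := by
      intro t
      obtain ⟨g, hg, he⟩ := (G1_exp G hG y.val).1 y.2 t
      refine ⟨⟨g, hg⟩, he, ?_⟩
      show onV g.val = _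
      rw [he, hb4 (t • y.val) ((lieAlg G).smul_mem t y.2), onV_smul]
    have hcp : ∀ i, p i * onV y.val = onV y.val * p i := by
      intro i
      apply G2_comm_of_exp
      intro t
      obtain ⟨g, hg1, hg2⟩ := hexp t
      rw [← hg2]
      exact hcomm g.1 g.2 i
    have hzero : ∀ i, onV y.val * p i = 0 := by
      intro i
      obtain ⟨s, hs⟩ := hschur (onV y.val) hcommV i (hcp i).symm
      by_cases hs0 : s = 0
      · rw [hs, hs0, zero_smul]
      · exfalso
        apply hne i
        apply G2_det_one (p i) (hpi i)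
        intro c hc
        -- choose t with e^{ts} = c
        set t : ℂ := Complex.log c / s with ht
        obtain ⟨g, hg1, hg2⟩ := hexp t
        have e1 := hτ1 i y t g hg1
        rw [hy i, mul_zero, Complex.exp_zero, hδ, hg2] at e1
        have e2 : NormedSpace.exp (t • onV y.val) * p i = Complex.exp (t * s) • p i := by
          apply G2_exp_eigen
          rw [smul_mul_assoc, hs, smul_smul]
        have e3 : p i * NormedSpace.exp (t • onV y.val) = NormedSpace.exp (t • onV y.val) * p i := by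
          rw [← hg2]
          exact hcomm g.1 g.2 i
        rw [e3, e2, ht, div_mul_cancel₀ _ hs0, Complex.exp_log hc] at e1
        exact e1
    have hY : onV y.val = 0 := by
      rw [← mul_one (onV y.val), ← hsum, Finset.mul_sum]
      exact Finset.sum_eq_zero fun i _ => hzero i
    exact Subtype.ext (hfaith y.val y.2 hY)
  intro χ hχ
  apply mem_span_of_iInf_ker_le_ker
  intro y hy
  rw [Submodule.mem_iInf] at hy
  have h1 : E y = 0 := by
    apply key
    · exact fun g hg => hE1 y g hg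
    · intro i
      rw [hE2 _ (hτ2 i)]
      exact hy i
  show χ y = 0
  rw [← hE2 χ hχ y, h1, map_zero]

end HamRed
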