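import Pool.Agent.HamRed.Base
import Pool.Agent.HamRed.G1
import Pool.Agent.HamRed.G3

open MvPolynomial

namespace HamRed

variable {ι : Type} [Fintype ι] [DecidableEq ι]

/-- G4 (uses G1, G3) : a character trivial on the kernel of `ξ` is a power of `ξ`. -/
theorem G4_relation (G : Subgroup (GL ι ℂ)) (hG : IsZariskiClosed G) (ξ : G →* ℂˣ)
    (D : Module.Dual ℂ (lieAlg G)) (hD : IsDiff G ξ D) (y₀ : lieAlg G) (hy₀ : D y₀ ≠ 0)
    (η : G →* ℂˣ) (hη : IsRegChar G η) (hker : ∀ g, ξ g = 1 → η g = 1) :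
    ∃ a : ℤ, ∀ g, η g = ξ g ^ a := by
  obtain ⟨E, hE, -⟩ := G3_diff G hG η hη
  have hmem := (G1_exp G hG y₀.val).mp y₀.2
  -- integrality
  have hint : ∃ a : ℤ, E y₀ = a * D y₀ := by
    obtain ⟨g, hg, hge⟩ := hmem (2 * Real.pi * Complex.I / D y₀)
    have h1 := hD y₀ _ ⟨g, hg⟩ hge
    rw [div_mul_cancel₀ _ hy₀, Complex.exp_two_pi_mul_I] at h1
    have h2 : ξ ⟨g, hg⟩ = 1 := Units.ext h1
    have h3 := hker _ h2
    have h4 := hE y₀ _ ⟨g, hg⟩ hge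
    rw [h3, Units.val_one] at h4
    obtain ⟨a, ha⟩ := Complex.exp_eq_one_iff.mp h4.symm
    refine ⟨a, ?_⟩
    have hpi : (2 * Real.pi * Complex.I : ℂ) ≠ 0 := Complex.two_pi_I_ne_zero
    have h5 : (2 * Real.pi * Complex.I : ℂ) * (E y₀ / D y₀) = (2 * Real.pi * Complex.I) * a := by
      rw [mul_comm _ (a : ℂ), ← ha]
      ring
    have h6 := mul_left_cancel₀ hpi h5
    rw [← h6, div_mul_cancel₀ _ hy₀]
  obtain ⟨a, ha⟩ := hint
  refine ⟨a, fun g => ?_⟩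
  -- choose t with exp(t D y₀) = ξ g
  have hne : ((ξ g : ℂˣ) : ℂ) ≠ 0 := (ξ g).ne_zero
  obtain ⟨b, hb, hbe⟩ := hmem (Complex.log ((ξ g : ℂˣ) : ℂ) / D y₀)
  have h1 := hD y₀ _ ⟨b, hb⟩ hbe
  rw [div_mul_cancel₀ _ hy₀, Complex.exp_log hne] at h1
  have h2 : ξ ⟨b, hb⟩ = ξ g := Units.ext h1
  have h3 : ξ (⟨b, hb⟩⁻¹ * g) = 1 := by
    rw [map_mul, map_inv, h2, inv_mul_cancel]
  have h4 := hker _ h3
  rw [map_mul, map_inv] at h4
  have h5 : η g = η ⟨b, hb⟩ := by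
    rw [inv_mul_eq_one] at h4
    exact h4.symm
  have h6 := hE y₀ _ ⟨b, hb⟩ hbe
  rw [h5]
  apply Units.ext
  rw [h6, ha, Units.val_zpow_eq_zpow_val]
  have h7 : Complex.log ((ξ g : ℂˣ) : ℂ) / D y₀ * (a * D y₀) =
      a * Complex.log ((ξ g : ℂˣ) : ℂ) := by
    field_simp
  rw [h7, Complex.exp_int_mul, Complex.exp_log hne]

end HamRed
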