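import Pool.Agent.HamRed.Base
import Pool.Agent.HamRed.G1
import Pool.Agent.HamRed.G5

open MvPolynomial

namespace HamRed

variable {n m : ℕ}

/-- the equation `(g v - v)_i = 0` -/
noncomputable def G6_poly (m : ℕ) (v : Fin n → ℂ) (i : Fin n) :
    MvPolynomial ((Fin n ⊕ Fin m) × (Fin n ⊕ Fin m)) ℂ :=
  ∑ j, C (v j) * X (Sum.inl i, Sum.inl j) - C (v i)

theorem G6_eval (v : Fin n → ℂ) (i : Fin n) (A : Matrix (Fin n ⊕ Fin m) (Fin n ⊕ Fin m) ℂ) :
    matEval (G6_poly m v i) A = (onV A).mulVec v i - v i := by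
  unfold matEval G6_poly
  rw [map_sub, map_sum]
  simp only [map_mul, eval_X, eval_C]
  congr 1
  unfold Matrix.mulVec dotProduct
  refine Finset.sum_congr rfl fun j _ => ?_
  rw [mul_comm]
  rfl

theorem G6_deriv (v : Fin n → ℂ) (i : Fin n) (y : Matrix (Fin n ⊕ Fin m) (Fin n ⊕ Fin m) ℂ) :
    ∑ p, matEval (pderiv p (G6_poly m v i)) 1 * y p.1 p.2 = (onV y).mulVec v i := by
  have h1 : ∀ p, matEval (pderiv p (G6_poly m v i)) 1 =
      ∑ j, v j * (if p = (Sum.inl i, Sum.inl j) then 1 else 0) := by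
    intro p
    unfold matEval G6_poly
    rw [map_sub, map_sum, pderiv_C, sub_zero, map_sum]
    refine Finset.sum_congr rfl fun j _ => ?_
    rw [pderiv_C_mul, pderiv_X, map_mul, eval_C]
    congr 1
    by_cases h : p = (Sum.inl i, Sum.inl j)
    · subst h
      simp
    · rw [Pi.single_eq_of_ne (Ne.symm h)]
      simp [h]
  simp_rw [h1, Finset.sum_mul]
  rw [Finset.sum_comm]
  unfold Matrix.mulVec dotProduct
  refine Finset.sum_congr rfl fun j _ => ?_
  rw [Finset.sum_eq_single (Sum.inl i, Sum.inl j)]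
  · simp [onV, Matrix.toBlocks₁₁, mul_comm]
  · intro p _ hp
    simp [hp]
  · intro hp
    exact absurd (Finset.mem_univ _) hp

/-- `M ↦ M v` as a linear map. -/
def G6_ev (v : Fin n → ℂ) : Matrix (Fin n) (Fin n) ℂ →ₗ[ℂ] (Fin n → ℂ) where
  toFun M := M.mulVec v
  map_add' _ _ := Matrix.add_mulVec _ _ _
  map_smul' _ _ := Matrix.smul_mulVec _ _ _

section
open scoped Matrix.Norms.Operator

set_option backward.isDefEq.respectTransparency false in
theorem G6_exp_fix (A : Matrix (Fin n) (Fin n) ℂ) (v : Fin n → ℂ) (h : A.mulVec v = 0) :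
    (NormedSpace.exp A).mulVec v = v := by
  have h1 := (G5_hasSum A).mapL (G6_ev v).toContinuousLinearMap
  have h2 : ∀ k : ℕ, k ≠ 0 → (G6_ev v).toContinuousLinearMap
      (((k.factorial : ℂ)⁻¹) • A ^ k) = 0 := by
    intro k hk
    obtain ⟨l, rfl⟩ := Nat.exists_eq_succ_of_ne_zero hk
    show (((((l + 1).factorial : ℕ) : ℂ)⁻¹) • A ^ (l + 1)).mulVec v = 0
    rw [Matrix.smul_mulVec, pow_succ, ← Matrix.mulVec_mulVec, h, Matrix.mulVec_zero, smul_zero]
  have h3 := hasSum_single (f := fun k : ℕ => (G6_ev v).toContinuousLinearMap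
      (((k.factorial : ℂ)⁻¹) • A ^ k)) 0 h2
  have h4 := h1.unique h3
  have h5 : (G6_ev v).toContinuousLinearMap ((((0 : ℕ).factorial : ℂ)⁻¹) • A ^ 0) = v := by
    show ((((0 : ℕ).factorial : ℂ)⁻¹) • A ^ 0).mulVec v = v
    simp
  rw [h5] at h4
  exact h4

end

/-- G6 (uses G5) : the stabiliser of a vector and its Lie algebra. -/
theorem G6_stab (G : Subgroup (GL (Fin n ⊕ Fin m) ℂ)) (hG : IsZariskiClosed G)
    (hV : PreservesFirst G) (v : Fin n → ℂ) :
    ∃ H : Subgroup (GL (Fin n ⊕ Fin m) ℂ), IsZariskiClosed H ∧ H ≤ G ∧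
      (∀ g ∈ G, g ∈ H ↔ (onV g.val).mulVec v = v) ∧
      ∀ y, y ∈ lieAlg H ↔ y ∈ lieAlg G ∧ (onV y).mulVec v = 0 := by
  obtain ⟨h21, hmul, hinv, hexp⟩ := G5_block G hV
  let H : Subgroup (GL (Fin n ⊕ Fin m) ℂ) :=
    { carrier := {g | g ∈ G ∧ (onV g.val).mulVec v = v}
      one_mem' := by
        refine ⟨G.one_mem, ?_⟩
        show (onV (1 : Matrix (Fin n ⊕ Fin m) (Fin n ⊕ Fin m) ℂ)).mulVec v = v
        rw [G5_one, Matrix.one_mulVec]
      mul_mem' := by
        rintro a b ⟨ha, ha'⟩ ⟨hb, hb'⟩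
        refine ⟨G.mul_mem ha hb, ?_⟩
        rw [hmul a ha b hb, ← Matrix.mulVec_mulVec, hb', ha']
      inv_mem' := by
        rintro a ⟨ha, ha'⟩
        refine ⟨G.inv_mem ha, ?_⟩
        have h1 := hinv a⁻¹ (G.inv_mem ha)
        rw [inv_inv] at h1
        calc (onV (a⁻¹).val).mulVec v = (onV (a⁻¹).val).mulVec ((onV a.val).mulVec v) := by rw [ha']
          _ = v := by rw [Matrix.mulVec_mulVec, h1, Matrix.one_mulVec] }
  have hHmem : ∀ g, g ∈ H ↔ g ∈ G ∧ (onV g.val).mulVec v = v := fun g => Iff.rfl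
  have hHG : H ≤ G := fun g hg => hg.1
  have hHc : IsZariskiClosed H := by
    obtain ⟨T, hT⟩ := hG
    refine ⟨T ∪ Set.range (G6_poly m v), fun g => ?_⟩
    rw [hHmem, hT]
    constructor
    · rintro ⟨h1, h2⟩ P (hP | ⟨i, rfl⟩)
      · exact h1 P hP
      · rw [G6_eval, h2, sub_self]
    · intro h
      refine ⟨fun P hP => h P (Or.inl hP), ?_⟩
      funext i
      have := h _ (Or.inr ⟨i, rfl⟩)
      rw [G6_eval] at this
      exact sub_eq_zero.mp this
  refine ⟨H, hHc, hHG, fun g hg => ?_, fun y => ?_⟩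
  · rw [hHmem]
    exact ⟨fun h => h.2, fun h => ⟨hg, h⟩⟩
  · constructor
    · intro hy
      refine ⟨fun P hP => hy P (fun g hg => hP g (hHG hg)), ?_⟩
      funext i
      have h1 := hy (G6_poly m v i) (fun g hg => by rw [G6_eval, hg.2, sub_self])
      rw [G6_deriv] at h1
      exact h1
    · rintro ⟨hy, hyv⟩
      rw [G1_exp H hHc]
      intro t
      obtain ⟨g, hg, hgy⟩ := (G1_exp G hG y).mp hy t
      refine ⟨g, ⟨hg, ?_⟩, hgy⟩
      rw [hgy, hexp _ ((lieAlg G).smul_mem t hy), onV_smul]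
      have hz : (t • onV y).mulVec v = 0 := by
        rw [Matrix.smul_mulVec, hyv, smul_zero]
      exact G6_exp_fix _ v hz

end HamRed
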