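import Pool.Agent.HamRed.Base

open MvPolynomial

namespace HamRed

variable {ι : Type} [Fintype ι] [DecidableEq ι]

/-- A field of countable dimension over `ℂ` is algebraic. -/
theorem I0_algebraic (L : Type) [Field L] [Algebra ℂ L]
    (h : Module.rank ℂ L ≤ Cardinal.aleph0) : Algebra.IsAlgebraic ℂ L := by
  constructor
  intro t
  by_contra ht
  have h1 := (Transcendental.linearIndependent_sub_inv (F := ℂ) ht).cardinal_le_rank
  have h2 : Cardinal.mk ℂ ≤ Cardinal.aleph0 := h1.trans h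
  rw [Cardinal.mk_complex] at h2
  exact absurd h2 (not_le.2 Cardinal.aleph0_lt_continuum)

/-- I0 : an irreducible closed subset of affine space over `ℂ` is not a countable union of proper
closed subsets. -/
theorem I0_countable {σ : Type} [Finite σ] (Q : Ideal (MvPolynomial σ ℂ)) (hQ : Q.IsPrime)
    (f : ℕ → MvPolynomial σ ℂ)
    (h : ∀ x : σ → ℂ, (∀ P ∈ Q, MvPolynomial.eval x P = 0) → ∃ j, MvPolynomial.eval x (f j) = 0) :
    ∃ j, f j ∈ Q := by
  classical
  by_contra hcon
  push Not at hcon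
  have := hQ
  let R := MvPolynomial σ ℂ ⧸ Q
  let K := FractionRing R
  let ψ : MvPolynomial σ ℂ →ₐ[ℂ] K :=
    (IsScalarTower.toAlgHom ℂ R K).comp (Ideal.Quotient.mkₐ ℂ Q)
  have hψ0 : ∀ P, ψ P = 0 ↔ P ∈ Q := by
    intro P
    have h1 : ψ P = algebraMap R K (Ideal.Quotient.mk Q P) := rfl
    rw [h1, ← Ideal.Quotient.eq_zero_iff_mem]
    constructor
    · intro h2
      exact (IsFractionRing.injective R K) (by rw [h2, map_zero])
    · intro h2
      rw [h2, map_zero]
  let φ : MvPolynomial (σ ⊕ ℕ) ℂ →ₐ[ℂ] K :=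
    MvPolynomial.aeval (Sum.elim (fun i => ψ (X i)) (fun j => (ψ (f j))⁻¹))
  have hφ : ∀ P, φ (rename Sum.inl P) = ψ P := by
    intro P
    have : φ.comp (rename Sum.inl) = ψ := by
      apply MvPolynomial.algHom_ext
      intro i
      simp [φ]
    rw [← this]
    rfl
  let I : Ideal (MvPolynomial (σ ⊕ ℕ) ℂ) := RingHom.ker φ
  have hI : I ≠ ⊤ := RingHom.ker_ne_top φ
  obtain ⟨n, hn, hIn⟩ := Ideal.exists_le_maximal I hI
  let L := MvPolynomial (σ ⊕ ℕ) ℂ ⧸ n
  letI : Field L := Ideal.Quotient.field n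
  have hrankP : Module.rank ℂ (MvPolynomial (σ ⊕ ℕ) ℂ) ≤ Cardinal.aleph0 := by
    rw [MvPolynomial.rank_eq, Cardinal.mk_le_aleph0_iff]
    infer_instance
  have hrank : Module.rank ℂ L ≤ Cardinal.aleph0 := by
    refine le_trans ?_ hrankP
    exact LinearMap.rank_le_of_surjective (Ideal.Quotient.mkₐ ℂ n).toLinearMap
      (Ideal.Quotient.mkₐ_surjective ℂ n)
  have halg : Algebra.IsAlgebraic ℂ L := I0_algebraic L hrank
  have hbij : Function.Bijective (algebraMap ℂ L) :=
    IsAlgClosed.algebraMap_bijective_of_isIntegral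
  have hx : ∀ i : σ, ∃ c : ℂ, algebraMap ℂ L c = Ideal.Quotient.mk n (X (Sum.inl i)) :=
    fun i => hbij.2 _
  choose x hx using hx
  have hev : ∀ P : MvPolynomial σ ℂ,
      algebraMap ℂ L (MvPolynomial.eval x P) = Ideal.Quotient.mk n (rename Sum.inl P) := by
    intro P
    have h1 : ((Ideal.Quotient.mkₐ ℂ n).comp (rename Sum.inl)) =
        (Algebra.ofId ℂ L).comp (MvPolynomial.aeval x) := by
      apply MvPolynomial.algHom_ext
      intro i
      simp only [AlgHom.comp_apply, rename_X, aeval_X]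
      exact (hx i).symm
    have h2 := congrArg (fun F => F P) h1
    simp only [AlgHom.comp_apply] at h2
    exact h2.symm
  obtain ⟨j, hj⟩ := h x (by
    intro P hP
    apply hbij.1
    rw [hev, map_zero, Ideal.Quotient.eq_zero_iff_mem]
    apply hIn
    show φ _ = 0
    rw [hφ, hψ0]
    exact hP)
  have h1 : Ideal.Quotient.mk n (rename Sum.inl (f j)) = 0 := by
    rw [← hev, hj, map_zero]
  have h2 : X (Sum.inr j) * rename Sum.inl (f j) - 1 ∈ n := by
    apply hIn
    show φ _ = 0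
    rw [map_sub, map_mul, hφ, map_one]
    have h3 : φ (X (Sum.inr j)) = (ψ (f j))⁻¹ := by simp [φ]
    rw [h3, inv_mul_cancel₀ (fun h0 => hcon j ((hψ0 _).1 h0)), sub_self]
  rw [← Ideal.Quotient.eq_zero_iff_mem, map_sub, map_mul, h1, mul_zero, zero_sub, map_one] at h2
  exact one_ne_zero (neg_eq_zero.1 h2)

end HamRed
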