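import Pool.Agent.HamRed.Base
import Pool.Agent.HamRed.I0

open MvPolynomial

namespace HamRed

variable {ι : Type} [Fintype ι] [DecidableEq ι]

/-- The point of `ℂ^{(ι×ι)⊕(ι×ι)}` attached to `g`. -/
noncomputable def H1_pt (g : GL ι ℂ) : (ι × ι) ⊕ (ι × ι) → ℂ :=
  Sum.elim (fun p => g.val p.1 p.2) (fun p => (g⁻¹).val p.1 p.2)

/-- The equations of `H' = {(h, h⁻¹)}`. -/
noncomputable def H1_eqs (T : Set (MvPolynomial (ι × ι) ℂ)) :
    Set (MvPolynomial ((ι × ι) ⊕ (ι × ι)) ℂ) :=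
  (rename Sum.inl '' T) ∪
    Set.range (fun p : ι × ι => ∑ k, X (Sum.inl (p.1, k)) * X (Sum.inr (k, p.2)) -
      C ((1 : Matrix ι ι ℂ) p.1 p.2))

theorem H1_eqs_pt (T : Set (MvPolynomial (ι × ι) ℂ)) (g : GL ι ℂ)
    (hg : ∀ P ∈ T, matEval P g.val = 0) :
    ∀ P ∈ H1_eqs T, MvPolynomial.eval (H1_pt g) P = 0 := by
  rintro _ (⟨P, hP, rfl⟩ | ⟨p, rfl⟩)
  · rw [MvPolynomial.eval_rename]
    exact hg P hP
  · rw [map_sub, map_sum, MvPolynomial.eval_C]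
    simp only [map_mul, MvPolynomial.eval_X]
    have h : (g.val * (g⁻¹).val) p.1 p.2 = (1 : Matrix ι ι ℂ) p.1 p.2 := by
      rw [← Units.val_mul, mul_inv_cancel, Units.val_one]
    rw [Matrix.mul_apply] at h
    rw [← h]
    exact sub_self _

theorem H1_exists_pt (T : Set (MvPolynomial (ι × ι) ℂ)) (x : (ι × ι) ⊕ (ι × ι) → ℂ)
    (hx : ∀ P ∈ H1_eqs T, MvPolynomial.eval x P = 0) :
    ∃ g : GL ι ℂ, (∀ P ∈ T, matEval P g.val = 0) ∧ x = H1_pt g := by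
  let a : Matrix ι ι ℂ := fun i j => x (Sum.inl (i, j))
  let b : Matrix ι ι ℂ := fun i j => x (Sum.inr (i, j))
  have hab : a * b = 1 := by
    ext i j
    have h := hx _ (Or.inr ⟨(i, j), rfl⟩)
    rw [map_sub, map_sum, MvPolynomial.eval_C] at h
    simp only [map_mul, MvPolynomial.eval_X] at h
    rw [Matrix.mul_apply]
    exact sub_eq_zero.1 h
  have hba : b * a = 1 := mul_eq_one_comm.1 hab
  refine ⟨⟨a, b, hab, hba⟩, ?_, ?_⟩
  · intro P hP
    have h := hx _ (Or.inl ⟨P, hP, rfl⟩)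
    rw [MvPolynomial.eval_rename] at h
    exact h
  · funext p
    rcases p with p | p
    · rfl
    · rfl

/-- H1 (uses I0) : a character with infinite image takes a value which is not a root of unity. -/
theorem H1_nonroot (H : Subgroup (GL ι ℂ)) (hH : IsZariskiClosed H) (ξ : H →* ℂˣ)
    (hξ : IsRegChar H ξ) (hinf : (Set.range ξ).Infinite) :
    ∃ h : H, ∀ N : ℕ, 0 < N → ξ h ^ N ≠ 1 := by
  by_contra hcon
  push Not at hcon
  obtain ⟨T, hT⟩ := hH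
  obtain ⟨P, hP⟩ := hξ
  have hP' : ∀ h : H, ((ξ h : ℂˣ) : ℂ) = MvPolynomial.eval (H1_pt (h : GL ι ℂ)) P := hP
  let I : Ideal (MvPolynomial ((ι × ι) ⊕ (ι × ι)) ℂ) := Ideal.span (H1_eqs T)
  have hfin : I.minimalPrimes.Finite := Ideal.finite_minimalPrimes_of_isNoetherianRing _ I
  have hkey : ∀ Q ∈ I.minimalPrimes, ∃ N : ℕ, 0 < N ∧ P ^ N - 1 ∈ Q := by
    intro Q hQ
    have hQp : Q.IsPrime := hQ.1.1
    obtain ⟨j, hj⟩ := I0_countable Q hQp (fun j => P ^ (j + 1) - 1) (by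
      intro x hx
      obtain ⟨g, hg, rfl⟩ := H1_exists_pt T x (fun P hP => hx P (hQ.1.2 (Ideal.subset_span hP)))
      obtain ⟨N, hN, hN1⟩ := hcon ⟨g, (hT g).2 hg⟩
      refine ⟨N - 1, ?_⟩
      rw [Nat.sub_add_cancel hN, map_sub, map_pow, map_one, ← hP' ⟨g, (hT g).2 hg⟩, ← Units.val_pow_eq_pow_val,
        hN1, Units.val_one, sub_self])
    exact ⟨j + 1, Nat.succ_pos j, hj⟩
  choose! N hN0 hN using hkey
  let M : ℕ := ∏ Q ∈ hfin.toFinset, N Q
  have hM0 : 0 < M := Finset.prod_pos (fun Q hQ => hN0 Q (hfin.mem_toFinset.1 hQ))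
  have hpow : ∀ h : H, ξ h ^ M = 1 := by
    intro h
    let K : Ideal (MvPolynomial ((ι × ι) ⊕ (ι × ι)) ℂ) :=
      RingHom.ker (MvPolynomial.eval (H1_pt (h : GL ι ℂ)))
    have hK : K.IsPrime := RingHom.ker_isPrime _
    have hIK : I ≤ K := by
      rw [Ideal.span_le]
      intro P hP
      exact H1_eqs_pt T h ((hT h).1 h.2) P hP
    obtain ⟨Q, hQ, hQK⟩ := Ideal.exists_minimalPrimes_le hIK
    have h1 : P ^ N Q - 1 ∈ K := hQK (hN Q hQ)
    have h2 : ξ h ^ N Q = 1 := by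
      apply Units.ext
      rw [Units.val_pow_eq_pow_val, hP' h, Units.val_one]
      rw [RingHom.mem_ker, map_sub, map_pow, map_one] at h1
      exact sub_eq_zero.1 h1
    have h3 : N Q ∣ M := Finset.dvd_prod_of_mem N (hfin.mem_toFinset.2 hQ)
    obtain ⟨c, hc⟩ := h3
    rw [hc, pow_mul, h2, one_pow]
  apply hinf
  have hNZ : NeZero M := ⟨hM0.ne'⟩
  have hfin2 : Finite (rootsOfUnity M ℂ) := inferInstance
  have hfin3 : ((rootsOfUnity M ℂ : Subgroup ℂˣ) : Set ℂˣ).Finite := hfin2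
  refine Set.Finite.subset hfin3 ?_
  rintro _ ⟨h, rfl⟩
  rw [SetLike.mem_coe, mem_rootsOfUnity]
  exact hpow h

end HamRed
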