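import Pool.Agent.HamRed.Base

open MvPolynomial

namespace HamRed

variable {ι : Type} [Fintype ι] [DecidableEq ι]

/-- The shift operator. -/
def H2a_shift : Module.End ℂ (ℕ → ℂ) where
  toFun s := fun j => s (j + 1)
  map_add' _ _ := rfl
  map_smul' _ _ := rfl

theorem H2a_pow (μ : ℂ) : ∀ (n : ℕ) (q : Polynomial ℂ), q.degree < (n : WithBot ℕ) →
    ((H2a_shift - μ • (1 : Module.End ℂ (ℕ → ℂ))) ^ n) (fun j => q.eval (j : ℂ) * μ ^ j) = 0 := by
  intro n
  induction n with
  | zero =>
    intro q hq
    have h0 : q = 0 := by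
      by_contra hne
      rw [Polynomial.degree_eq_natDegree hne] at hq
      exact absurd hq (by simp)
    rw [h0, pow_zero]
    funext j
    simp
  | succ n ih =>
    intro q hq
    rw [pow_succ, Module.End.mul_apply]
    have h1 : (H2a_shift - μ • (1 : Module.End ℂ (ℕ → ℂ))) (fun j => q.eval (j : ℂ) * μ ^ j) =
        fun j : ℕ => (Polynomial.C μ * (Polynomial.taylor 1 q - q)).eval (j : ℂ) * μ ^ j := by
      funext j
      simp only [H2a_shift, LinearMap.sub_apply, LinearMap.coe_mk, AddHom.coe_mk,
        LinearMap.smul_apply, Module.End.one_apply, Pi.sub_apply, Pi.smul_apply, smul_eq_mul,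
        Polynomial.eval_mul, Polynomial.eval_C, Polynomial.eval_sub, Polynomial.taylor_apply,
        Polynomial.eval_comp, Polynomial.eval_add, Polynomial.eval_X]
      push_cast
      ring
    rw [h1]
    refine ih _ ?_
    by_cases hq0 : q = 0
    · rw [hq0]; simp
    · have h2 : (Polynomial.taylor 1 q - q).degree < q.degree := by
        have h3 := Polynomial.degree_sub_lt_left (p := Polynomial.taylor (1 : ℂ) q) (q := q)
          (Polynomial.degree_taylor q 1) ((Polynomial.taylor_eq_zero (1 : ℂ) q).not.2 hq0)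
          (Polynomial.leadingCoeff_taylor (1 : ℂ) q)
        rwa [Polynomial.degree_taylor] at h3
      have h4 : (Polynomial.C μ * (Polynomial.taylor 1 q - q)).degree ≤
          (Polynomial.taylor 1 q - q).degree := by
        rw [← Polynomial.smul_eq_C_mul]; exact Polynomial.degree_smul_le _ _
      have h5 : q.degree ≤ (n : WithBot ℕ) := by
        rw [Polynomial.degree_eq_natDegree hq0] at hq ⊢
        have : q.natDegree < n + 1 := by exact_mod_cast hq
        exact_mod_cast Nat.lt_succ_iff.1 this
      exact (h4.trans_lt h2).trans_le h5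

/-- H2a : linear independence of exponential polynomials. -/
theorem H2a_expPoly (S : Finset ℂ) (h0 : (0 : ℂ) ∉ S) (p : ℂ → Polynomial ℂ)
    (h : ∀ j : ℕ, ∑ μ ∈ S, (p μ).eval (j : ℂ) * μ ^ j = 0) : ∀ μ ∈ S, p μ = 0 := by
  have hind := H2a_shift.independent_maxGenEigenspace
  rw [iSupIndep_iff_finsetSum_eq_zero_imp_eq_zero] at hind
  have key := hind S (fun μ => fun j => (p μ).eval (j : ℂ) * μ ^ j) ?_ ?_
  · intro μ hμ
    have h1 := key μ hμ
    have hμ0 : μ ≠ 0 := fun h => h0 (h ▸ hμ)
    refine Polynomial.eq_zero_of_infinite_isRoot _ ?_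
    refine Set.Infinite.mono (s := Set.range (fun j : ℕ => (j : ℂ))) ?_ ?_
    · rintro _ ⟨j, rfl⟩
      have h2 := congrFun h1 j
      simp only [Pi.zero_apply] at h2
      rcases mul_eq_zero.1 h2 with h3 | h3
      · exact h3
      · exact absurd h3 (pow_ne_zero _ hμ0)
    · exact Set.infinite_range_of_injective Nat.cast_injective
  · intro μ _
    rw [Module.End.mem_maxGenEigenspace]
    refine ⟨(p μ).natDegree + 1, ?_⟩
    refine H2a_pow μ _ (p μ) ?_
    refine (Polynomial.degree_le_natDegree).trans_lt ?_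
    exact_mod_cast Nat.lt_succ_self _
  · funext j
    rw [Finset.sum_apply]
    exact h j

end HamRed
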