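import Pool.Agent.HamRed.Base
import Pool.Agent.HamRed.H2a

open MvPolynomial

namespace HamRed

variable {ι : Type} [Fintype ι] [DecidableEq ι]

/-- Jordan-Chevalley for matrices, with a diagonalised semisimple part. -/
theorem H2_jc (A : Matrix ι ι ℂ) : ∃ (s n : Matrix ι ι ℂ) (P : GL ι ℂ) (a : ι → ℂ),
    A = n + s ∧ IsNilpotent n ∧ Commute n s ∧
      s = P.val * Matrix.diagonal a * (P⁻¹).val := by
  obtain ⟨n, hn_adj, s, hns, hn_nil, hs_ss, hX_ns⟩ :=
    Module.End.exists_isNilpotent_isSemisimple (f := (Matrix.toLin' A : Module.End ℂ (ι → ℂ)))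
  have hcomm : Commute n s :=
    Algebra.commute_of_mem_adjoin_singleton_of_commute hns
      (Algebra.commute_of_mem_adjoin_self hn_adj).symm
  let eigenDecomp := DirectSum.isInternal_submodule_of_iSupIndep_of_iSup_eq_top
    s.eigenspaces_iSupIndep hs_ss.iSup_eigenspace_eq_top
  let I := (ν : ℂ) × Fin (Module.finrank ℂ (s.eigenspace ν))
  let v : Module.Basis I ℂ (ι → ℂ) :=
    eigenDecomp.collectedBasis fun μ ↦ Module.finBasis ℂ (s.eigenspace μ)
  have hsv (i : I) : s (v i) = i.1 • v i :=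
    Module.End.mem_eigenspace_iff.mp (eigenDecomp.collectedBasis_mem _ i)
  let e : I ≃ ι := v.indexEquiv (Pi.basisFun ℂ ι)
  let b : Module.Basis ι ℂ (ι → ℂ) := v.reindex e
  let a : ι → ℂ := fun i => (e.symm i).1
  have hb : ∀ i, s (b i) = a i • b i := by
    intro i
    simp only [b, Module.Basis.reindex_apply, a]
    exact hsv _
  let P : Matrix ι ι ℂ := (Pi.basisFun ℂ ι).toMatrix b
  let P' : Matrix ι ι ℂ := b.toMatrix (Pi.basisFun ℂ ι)
  have h1 : P * P' = 1 := Module.Basis.toMatrix_mul_toMatrix_flip _ _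
  have h2 : P' * P = 1 := Module.Basis.toMatrix_mul_toMatrix_flip _ _
  let E : ((ι → ℂ) →ₗ[ℂ] (ι → ℂ)) ≃ₐ[ℂ] Matrix ι ι ℂ := LinearMap.toMatrixAlgEquiv'
  refine ⟨E s, E n, ⟨P, P', h1, h2⟩, a, ?_, hn_nil.map E, hcomm.map E, ?_⟩
  · rw [← map_add, ← hX_ns]
    exact (LinearMap.toMatrix'_toLin' A).symm
  · have h3 : E s * P = P * Matrix.diagonal a := by
      ext i j
      rw [Matrix.mul_apply, Matrix.mul_diagonal]
      have h4 := congrFun (hb j) i
      have h5 : s (b j) = (E s).mulVec (b j) := (LinearMap.toMatrix'_mulVec s (b j)).symm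
      rw [h5] at h4
      simp only [Matrix.mulVec, dotProduct, Pi.smul_apply, smul_eq_mul] at h4
      simp only [P, Module.Basis.toMatrix_apply, Pi.basisFun_repr]
      rw [h4]
      ring
    show E s = P * Matrix.diagonal a * P'
    rw [← h3, Matrix.mul_assoc, h1, Matrix.mul_one]

/-- The ring of exponential polynomials `∑ p_μ(j) μ^i`. -/
abbrev H2R : Type := MonoidAlgebra (Polynomial ℂ) ℂˣ

/-- Evaluation at `(i, j)`: `μ ↦ μ^i`, `X ↦ j`. -/
noncomputable def H2_ev (i j : ℕ) : H2R →+* ℂ :=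
  MonoidAlgebra.liftNCRingHom (Polynomial.evalRingHom (j : ℂ))
    ((Units.coeHom ℂ).comp (powMonoidHom i)) (fun _ _ => Commute.all _ _)

theorem H2_ev_single (i j : ℕ) (a : ℂˣ) (p : Polynomial ℂ) :
    H2_ev i j (MonoidAlgebra.single a p) = p.eval (j : ℂ) * (a : ℂ) ^ i := by
  simp [H2_ev]

theorem H2_ev_eq (i j : ℕ) (F : H2R) :
    H2_ev i j F = ∑ μ ∈ F.coeff.support, (F.coeff μ).eval (j : ℂ) * (μ : ℂ) ^ i := by
  conv_lhs => rw [← MonoidAlgebra.sum_coeff_single F]
  rw [Finsupp.sum, map_sum]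
  exact Finset.sum_congr rfl (fun μ _ => H2_ev_single i j μ _)

theorem H2_eq_zero (F : H2R) (h : ∀ j, H2_ev j j F = 0) : F = 0 := by
  classical
  have key := H2a_expPoly (F.coeff.support.image (fun μ : ℂˣ => (μ : ℂ))) ?_
    (fun c => if hc : c ≠ 0 then F.coeff (Units.mk0 c hc) else 0) ?_
  · apply MonoidAlgebra.coeff_injective
    ext1 μ
    by_cases hμ : μ ∈ F.coeff.support
    · have h1 := key (μ : ℂ) (Finset.mem_image_of_mem _ hμ)
      rw [dif_pos μ.ne_zero] at h1
      rw [Units.mk0_val] at h1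
      rw [h1]; rfl
    · rw [Finsupp.notMem_support_iff.1 hμ]; rfl
  · rw [Finset.mem_image]
    rintro ⟨μ, _, hμ⟩
    exact μ.ne_zero hμ
  · intro j
    rw [Finset.sum_image (fun a _ b _ hab => Units.ext hab)]
    have h1 := h j
    rw [H2_ev_eq] at h1
    refine Eq.trans ?_ h1
    refine Finset.sum_congr rfl (fun μ _ => ?_)
    rw [dif_pos μ.ne_zero, Units.mk0_val]

/-- constants -/
noncomputable def H2_C : ℂ →+* H2R :=
  (MonoidAlgebra.singleOneRingHom (R := Polynomial ℂ) (M := ℂˣ)).comp Polynomial.C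

theorem H2_ev_C (i j : ℕ) (c : ℂ) : H2_ev i j (H2_C c) = c := by
  simp [H2_C, MonoidAlgebra.singleOneRingHom_apply, H2_ev_single]

theorem H2_ev_eval {σ : Type} (i j : ℕ) (v : σ → H2R) (F : MvPolynomial σ ℂ) :
    H2_ev i j (MvPolynomial.eval₂ H2_C v F) = MvPolynomial.eval (fun x => H2_ev i j (v x)) F := by
  rw [MvPolynomial.eval₂_comp_left]
  have h1 : (H2_ev i j).comp H2_C = RingHom.id ℂ := by
    ext1 c
    exact H2_ev_C i j c
  rw [h1]
  rfl

theorem H2_transfer {σ : Type} (v : σ → H2R) (F : MvPolynomial σ ℂ) (ζ : ℂˣ) (c : ℂ)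
    (h : ∀ j, MvPolynomial.eval (fun x => H2_ev j j (v x)) F = c * (ζ : ℂ) ^ j) :
    MvPolynomial.eval (fun x => H2_ev 1 0 (v x)) F = c * (ζ : ℂ) := by
  have h0 := H2_eq_zero (MvPolynomial.eval₂ H2_C v F - MonoidAlgebra.single ζ (Polynomial.C c)) ?_
  · rw [sub_eq_zero] at h0
    have h1 := congrArg (H2_ev 1 0) h0
    rw [H2_ev_eval, H2_ev_single] at h1
    simpa using h1
  · intro j
    rw [map_sub, H2_ev_eval, H2_ev_single, h j]
    simp

/-- A matrix over `H2R` evaluating to the powers of a unipotent matrix. -/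
theorem H2_unip (N : Matrix ι ι ℂ) (hN : IsNilpotent N) :
    ∃ U : Matrix ι ι H2R, ∀ i j : ℕ, U.map (H2_ev i j) = (1 + N) ^ j := by
  obtain ⟨m, hm⟩ := hN
  refine ⟨Matrix.of (fun x y => ∑ k ∈ Finset.range m, MonoidAlgebra.single 1
    (Polynomial.C (((k.factorial : ℂ))⁻¹ * (N ^ k) x y) * descPochhammer ℂ k)), ?_⟩
  intro i j
  have h1 : (1 + N) ^ j = ∑ k ∈ Finset.range m, (j.choose k : ℂ) • N ^ k := by
    rw [add_comm, (Commute.one_right N).add_pow]
    have h2 : ∀ n, ∑ k ∈ Finset.range n, (j.choose k : ℂ) • N ^ k =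
        ∑ k ∈ Finset.range n, N ^ k * 1 ^ (j - k) * (j.choose k : Matrix ι ι ℂ) := by
      intro n
      refine Finset.sum_congr rfl (fun k _ => ?_)
      rw [one_pow, mul_one, ← Nat.cast_commute, ← nsmul_eq_mul]
      rw [Nat.cast_smul_eq_nsmul]
    rw [h2]
    rcases le_total m (j + 1) with h3 | h3
    · rw [← Finset.sum_subset (Finset.range_subset_range.2 h3)]
      intro k _ hk
      rw [Finset.mem_range, not_lt] at hk
      rw [pow_eq_zero_of_le hk hm]
      simp
    · rw [Finset.sum_subset (Finset.range_subset_range.2 h3)]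
      intro k _ hk
      rw [Finset.mem_range, not_lt] at hk
      rw [Nat.choose_eq_zero_of_lt (by omega)]
      simp
  rw [h1]
  ext x y
  rw [Matrix.map_apply, Matrix.of_apply, map_sum, Matrix.sum_apply]
  refine Finset.sum_congr rfl (fun k _ => ?_)
  rw [H2_ev_single, Matrix.smul_apply, smul_eq_mul]
  simp only [Units.val_one, one_pow, mul_one, Polynomial.eval_mul, Polynomial.eval_C]
  rw [descPochhammer_eval_eq_descFactorial, Nat.descFactorial_eq_factorial_mul_choose]
  have hk : (k.factorial : ℂ) ≠ 0 := by exact_mod_cast k.factorial_ne_zero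
  push_cast
  field_simp

/-- A matrix over `H2R` evaluating to the powers of a diagonalisable matrix. -/
theorem H2_diag (P P' : Matrix ι ι ℂ) (h : P' * P = 1) (h' : P * P' = 1) (a : ι → ℂˣ) :
    ∃ S : Matrix ι ι H2R, ∀ i j : ℕ, S.map (H2_ev i j) =
      (P * Matrix.diagonal (fun x => (a x : ℂ)) * P') ^ i := by
  refine ⟨P.map H2_C * Matrix.diagonal (fun x => MonoidAlgebra.single (a x) 1) * P'.map H2_C, ?_⟩
  intro i j
  have h1 : ∀ M : Matrix ι ι ℂ, (M.map H2_C).map (H2_ev i j) = M := by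
    intro M
    ext x y
    rw [Matrix.map_apply, Matrix.map_apply, H2_ev_C]
  rw [Matrix.map_mul, Matrix.map_mul, h1, h1, Matrix.diagonal_map (map_zero _)]
  have h2 : (P * Matrix.diagonal (fun x => (a x : ℂ)) * P') ^ i =
      P * Matrix.diagonal (fun x => (a x : ℂ)) ^ i * P' := by
    induction i with
    | zero => simp [h']
    | succ n ih =>
      rw [pow_succ, ih (by
        intro M
        ext x y
        rw [Matrix.map_apply, Matrix.map_apply, H2_ev_C]), pow_succ]
      simp only [Matrix.mul_assoc]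
      rw [← Matrix.mul_assoc P' P, h, Matrix.one_mul]
  rw [h2, Matrix.diagonal_pow]
  congr 2
  ext x y
  congr 1
  funext z
  simp [H2_ev_single]

/-- H2 (uses H2a) : the semisimple part of an element of a closed group lies in the group. -/
theorem H2_jordan (H : Subgroup (GL ι ℂ)) (hH : IsZariskiClosed H) (ξ : H →* ℂˣ)
    (hξ : IsRegChar H ξ) (h : H) :
    ∃ (s : H) (P : GL ι ℂ) (a : ι → ℂˣ),
      (s : GL ι ℂ).val = P.val * Matrix.diagonal (fun i => (a i : ℂ)) * (P⁻¹).val ∧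
      ξ s = ξ h := by
  obtain ⟨s₀, n, P, a₀, hA, hn, hc, hs⟩ := H2_jc (h : GL ι ℂ).val
  set A : Matrix ι ι ℂ := (h : GL ι ℂ).val with hAdef
  set A' : Matrix ι ι ℂ := ((h : GL ι ℂ)⁻¹).val with hA'def
  have hAA' : A * A' = 1 := (h : GL ι ℂ).mul_inv
  have hA'A : A' * A = 1 := (h : GL ι ℂ).inv_mul
  have hnA : Commute n A := by rw [hA]; exact (Commute.refl n).add_right hc
  have hsA : Commute s₀ A := by rw [hA]; exact hc.symm.add_right (Commute.refl s₀)
  have hsu : IsUnit s₀ := by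
    have h1 : s₀ = A + (-n) := by rw [hA]; abel
    rw [h1]
    exact hn.neg.isUnit_add_left_of_commute (h : GL ι ℂ).isUnit hnA.neg_left
  have ha : ∀ i, a₀ i ≠ 0 := by
    have h1 : s₀.det ≠ 0 := ((Matrix.isUnit_iff_isUnit_det _).1 hsu).ne_zero
    have h2 : s₀.det = ∏ i, a₀ i := by
      rw [hs, Matrix.det_mul, Matrix.det_mul, Matrix.det_diagonal, mul_comm P.val.det, mul_assoc,
        ← Matrix.det_mul, P.mul_inv, Matrix.det_one, mul_one]
    rw [h2] at h1
    intro i hi
    exact h1 (Finset.prod_eq_zero (Finset.mem_univ i) hi)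
  let a : ι → ℂˣ := fun i => Units.mk0 (a₀ i) (ha i)
  have hs' : s₀ = P.val * Matrix.diagonal (fun i => (a i : ℂ)) * (P⁻¹).val := hs
  let s₁ : Matrix ι ι ℂ := P.val * Matrix.diagonal (fun i => ((a i)⁻¹ : ℂˣ).val) * (P⁻¹).val
  have hPP : P.val * (P⁻¹).val = 1 := P.mul_inv
  have hPP' : (P⁻¹).val * P.val = 1 := P.inv_mul
  have hs01 : s₀ * s₁ = 1 := by
    rw [hs']
    show P.val * Matrix.diagonal (fun i => (a i : ℂ)) * (P⁻¹).val *
      (P.val * Matrix.diagonal (fun i => ((a i)⁻¹ : ℂˣ).val) * (P⁻¹).val) = 1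
    simp only [Matrix.mul_assoc]
    rw [← Matrix.mul_assoc (P⁻¹).val P.val, hPP', Matrix.one_mul,
      ← Matrix.mul_assoc (Matrix.diagonal _) (Matrix.diagonal _), Matrix.diagonal_mul_diagonal]
    simp only [Units.mul_inv, Matrix.diagonal_one, Matrix.one_mul]
  have hs10 : s₁ * s₀ = 1 := mul_eq_one_comm.1 hs01
  let S : GL ι ℂ := ⟨s₀, s₁, hs01, hs10⟩
  have hns₁ : Commute n s₁ := (show Commute n S.val from hc).units_inv_right
  have hAs₁ : Commute A s₁ := (show Commute A S.val from hsA.symm).units_inv_right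
  have hnA' : Commute n A' := hnA.units_inv_right (u := (h : GL ι ℂ))
  have hs₀A' : Commute s₀ A' := hsA.units_inv_right (u := (h : GL ι ℂ))
  have hs₁A' : Commute s₁ A' := hAs₁.symm.units_inv_right (u := (h : GL ι ℂ))
  -- the unipotent parts
  have hN : IsNilpotent (s₁ * A - 1) := by
    have h1 : s₁ * A - 1 = s₁ * n := by
      rw [hA, mul_add, hs10]; abel
    rw [h1]
    exact hns₁.symm.isNilpotent_mul_left hn
  have hN' : IsNilpotent (A' * s₀ - 1) := by
    have h1 : A' * s₀ - 1 = -(A' * n) := by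
      have h2 : s₀ = A - n := by rw [hA]; abel
      rw [h2, mul_sub, hA'A]; abel
    rw [h1]
    exact (hnA'.symm.isNilpotent_mul_left hn).neg
  obtain ⟨U, hU⟩ := H2_unip _ hN
  obtain ⟨U', hU'⟩ := H2_unip _ hN'
  obtain ⟨SR, hSR⟩ := H2_diag P.val (P⁻¹).val hPP' hPP a
  obtain ⟨SR', hSR'⟩ := H2_diag P.val (P⁻¹).val hPP' hPP (fun i => (a i)⁻¹)
  rw [← hs'] at hSR
  have hU1 : ∀ i j, U.map (H2_ev i j) = (s₁ * A) ^ j := by
    intro i j; rw [hU]; congr 1; abel
  have hU1' : ∀ i j, U'.map (H2_ev i j) = (A' * s₀) ^ j := by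
    intro i j; rw [hU']; congr 1; abel
  have hSR1' : ∀ i j, SR'.map (H2_ev i j) = s₁ ^ i := hSR'
  have hv1 : ∀ i j, (SR * U).map (H2_ev i j) = s₀ ^ i * (s₁ * A) ^ j := by
    intro i j; rw [Matrix.map_mul, hSR, hU1]
  have hv2 : ∀ i j, (U' * SR').map (H2_ev i j) = (A' * s₀) ^ j * s₁ ^ i := by
    intro i j; rw [Matrix.map_mul, hSR1', hU1']
  have hd1 : ∀ j, s₀ ^ j * (s₁ * A) ^ j = A ^ j := by
    intro j
    have h1 : Commute s₀ (s₁ * A) := by
      refine Commute.mul_right ?_ hsA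
      show s₀ * s₁ = s₁ * s₀
      rw [hs01, hs10]
    rw [← h1.mul_pow, ← mul_assoc, hs01, one_mul]
  have hd2 : ∀ j, (A' * s₀) ^ j * s₁ ^ j = A' ^ j := by
    intro j
    have h1 : Commute (A' * s₀) s₁ := by
      refine Commute.mul_left hs₁A'.symm ?_
      show s₀ * s₁ = s₁ * s₀
      rw [hs01, hs10]
    rw [← h1.mul_pow, mul_assoc, hs01, mul_one]
  have hpow : ∀ j : ℕ, ((h ^ j : H) : GL ι ℂ).val = A ^ j := by
    intro j
    rw [Subgroup.coe_pow, Units.val_pow_eq_pow_val]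
  have hpow' : ∀ j : ℕ, (((h ^ j : H) : GL ι ℂ)⁻¹).val = A' ^ j := by
    intro j
    rw [Subgroup.coe_pow, ← inv_pow, Units.val_pow_eq_pow_val]
  have hSmem : S ∈ H := by
    obtain ⟨T, hT⟩ := hH
    rw [hT]
    intro F hF
    have h1 := H2_transfer (fun p : ι × ι => (SR * U) p.1 p.2) F 1 0 ?_
    · rw [zero_mul] at h1
      rw [← h1]
      unfold matEval
      congr 2
      funext p
      have h2 := congrFun (congrFun (hv1 1 0) p.1) p.2
      rw [Matrix.map_apply, pow_one, pow_zero, mul_one] at h2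
      exact h2.symm
    · intro j
      have h2 := (hT ((h ^ j : H) : GL ι ℂ)).1 (h ^ j : H).2 F hF
      rw [zero_mul, ← h2]
      unfold matEval
      congr 2
      funext p
      have h3 := congrFun (congrFun (hv1 j j) p.1) p.2
      rw [Matrix.map_apply, hd1, ← hpow] at h3
      exact h3
  refine ⟨⟨S, hSmem⟩, P, a, hs', ?_⟩
  obtain ⟨F, hF0⟩ := hξ
  have hF : ∀ g : H, ((ξ g : ℂˣ) : ℂ) = MvPolynomial.eval
      (Sum.elim (fun p => (g : GL ι ℂ).val p.1 p.2) (fun p => ((g : GL ι ℂ)⁻¹).val p.1 p.2)) F := hF0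
  apply Units.ext
  have h1 := H2_transfer (Sum.elim (fun p : ι × ι => (SR * U) p.1 p.2)
    (fun p : ι × ι => (U' * SR') p.1 p.2)) F (ξ h) 1 ?_
  · rw [one_mul] at h1
    rw [← h1, hF]
    congr 2
    funext x
    rcases x with p | p
    · have h2 := congrFun (congrFun (hv1 1 0) p.1) p.2
      rw [Matrix.map_apply, pow_one, pow_zero, mul_one] at h2
      exact h2.symm
    · have h2 := congrFun (congrFun (hv2 1 0) p.1) p.2
      rw [Matrix.map_apply, pow_one, pow_zero, one_mul] at h2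
      exact h2.symm
  · intro j
    have h2 := hF (h ^ j)
    rw [map_pow, Units.val_pow_eq_pow_val] at h2
    rw [one_mul, h2]
    congr 2
    funext x
    rcases x with p | p
    · have h3 := congrFun (congrFun (hv1 j j) p.1) p.2
      rw [Matrix.map_apply, hd1, ← hpow] at h3
      exact h3
    · have h3 := congrFun (congrFun (hv2 j j) p.1) p.2
      rw [Matrix.map_apply, hd2, ← hpow'] at h3
      exact h3

end HamRed
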