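import Pool.Agent.HamRed.Base

open MvPolynomial

namespace HamRed

variable {ι : Type} [Fintype ι] [DecidableEq ι]

/-- H3a : integral duality. -/
theorem H3a_dual (L : AddSubgroup (ι → ℤ)) (m : ι → ℤ) (hm : ∀ N : ℕ, 0 < N → N • m ∉ L) :
    ∃ w : ι → ℤ, (∀ l ∈ L, ∑ i, w i * l i = 0) ∧ ∑ i, w i * m i ≠ 0 := by
  let c : (ι → ℤ) → (ι → ℚ) := fun l i => (l i : ℚ)
  let W : Submodule ℚ (ι → ℚ) := Submodule.span ℚ (c '' (L : Set (ι → ℤ)))
  have hW : ∀ x ∈ W, ∃ N : ℕ, 0 < N ∧ ∃ l ∈ L, (N : ℚ) • x = c l := by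
    intro x hx
    induction hx using Submodule.span_induction with
    | mem x hx =>
      obtain ⟨l, hl, rfl⟩ := hx
      exact ⟨1, one_pos, l, hl, by simp⟩
    | zero => exact ⟨1, one_pos, 0, L.zero_mem, by funext i; simp [c]⟩
    | add x y _ _ hx hy =>
      obtain ⟨N, hN, l, hl, h1⟩ := hx
      obtain ⟨M, hM, k, hk, h2⟩ := hy
      refine ⟨N * M, Nat.mul_pos hN hM, M • l + N • k,
        L.add_mem (L.nsmul_mem hl M) (L.nsmul_mem hk N), ?_⟩
      have h3 : ((N * M : ℕ) : ℚ) • (x + y) = (M : ℚ) • ((N : ℚ) • x) + (N : ℚ) • ((M : ℚ) • y) := by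
        rw [smul_add, smul_smul, smul_smul]
        push_cast
        rw [mul_comm (M : ℚ) (N : ℚ)]
      rw [h3, h1, h2]
      funext i
      simp [c]
    | smul a x _ hx =>
      obtain ⟨N, hN, l, hl, h1⟩ := hx
      refine ⟨a.den * N, Nat.mul_pos a.den_pos hN, a.num • l, L.zsmul_mem hl _, ?_⟩
      have h3 : ((a.den * N : ℕ) : ℚ) • a • x = (a.num : ℚ) • ((N : ℚ) • x) := by
        rw [smul_smul, smul_smul]
        congr 1
        push_cast
        have := Rat.den_mul_eq_num a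
        calc (a.den : ℚ) * N * a = ((a.den : ℚ) * a) * N := by ring
          _ = a.num * N := by rw [this]
      rw [h3, h1]
      funext i
      simp [c]
  have hmW : c m ∉ W := by
    intro h
    obtain ⟨N, hN, l, hl, h1⟩ := hW _ h
    have h2 : N • m = l := by
      funext i
      have h3 := congrFun h1 i
      simp only [c, Pi.smul_apply, smul_eq_mul] at h3
      rw [Pi.smul_apply, nsmul_eq_mul]
      exact_mod_cast h3
    exact hm N hN (h2 ▸ hl)
  obtain ⟨f, hf1, hf2⟩ := Submodule.exists_le_ker_of_notMem hmW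
  have hfe : ∀ x : ι → ℚ, f x = ∑ i, f (Pi.single i 1) * x i := by
    intro x
    conv_lhs => rw [← Finset.univ_sum_single x]
    rw [map_sum]
    refine Finset.sum_congr rfl (fun i _ => ?_)
    have : (Pi.single i (x i) : ι → ℚ) = x i • Pi.single i 1 := by
      rw [← Pi.single_smul]; simp
    rw [this, map_smul, smul_eq_mul, mul_comm]
  let D : ℕ := ∏ i, (f (Pi.single i 1)).den
  have hD : 0 < D := Finset.prod_pos (fun i _ => Rat.den_pos _)
  have hw : ∀ i, ∃ z : ℤ, (z : ℚ) = D * f (Pi.single i 1) := by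
    intro i
    refine ⟨(∏ j ∈ Finset.univ.erase i, (f (Pi.single j 1)).den : ℕ) * (f (Pi.single i 1)).num, ?_⟩
    have h1 : D = (∏ j ∈ Finset.univ.erase i, (f (Pi.single j 1)).den) * (f (Pi.single i 1)).den :=
      (Finset.prod_erase_mul _ _ (Finset.mem_univ i)).symm
    rw [h1]
    push_cast
    rw [mul_assoc, Rat.den_mul_eq_num]
  choose w hw using hw
  have hsum : ∀ l : ι → ℤ, ((∑ i, w i * l i : ℤ) : ℚ) = D * f (c l) := by
    intro l
    rw [hfe, Finset.mul_sum]
    push_cast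
    refine Finset.sum_congr rfl (fun i _ => ?_)
    rw [hw]
    simp only [c]
    ring
  refine ⟨w, fun l hl => ?_, fun h => ?_⟩
  · have h1 : f (c l) = 0 := hf2 (Submodule.subset_span ⟨l, hl, rfl⟩)
    have h2 := hsum l
    rw [h1, mul_zero] at h2
    exact_mod_cast h2
  · have h2 := hsum m
    rw [h] at h2
    have h3 : (D : ℚ) ≠ 0 := by exact_mod_cast hD.ne'
    rcases mul_eq_zero.1 (show (D : ℚ) * f (c m) = 0 by rw [← h2]; simp) with h4 | h4
    · exact h3 h4
    · exact hf1 h4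

end HamRed
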