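import Pool.Agent.HamRed.Base
import Pool.Agent.HamRed.H2a
import Pool.Agent.HamRed.H3a
import Pool.Agent.HamRed.G1

open MvPolynomial

namespace HamRed

variable {ι : Type} [Fintype ι] [DecidableEq ι]

/-- evaluation of the group algebra of a group at a character -/
noncomputable def H3_ev {Γ : Type} [CommGroup Γ] (κ : Γ →* ℂˣ) : MonoidAlgebra ℂ Γ →+* ℂ :=
  MonoidAlgebra.liftNCRingHom (RingHom.id ℂ) ((Units.coeHom ℂ).comp κ) (fun _ _ => Commute.all _ _)

theorem H3_ev_single {Γ : Type} [CommGroup Γ] (κ : Γ →* ℂˣ) (γ : Γ) (c : ℂ) :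
    H3_ev κ (MonoidAlgebra.single γ c) = c * (κ γ : ℂ) := by
  simp [H3_ev]

theorem H3_ev_eq {Γ : Type} [CommGroup Γ] (κ : Γ →* ℂˣ) (F : MonoidAlgebra ℂ Γ) :
    H3_ev κ F = ∑ γ ∈ F.coeff.support, F.coeff γ * (κ γ : ℂ) := by
  conv_lhs => rw [← MonoidAlgebra.sum_coeff_single F]
  rw [Finsupp.sum, map_sum]
  exact Finset.sum_congr rfl (fun μ _ => H3_ev_single κ μ _)

/-- the powers of the inclusion -/
noncomputable def H3_pow (Γ : Subgroup ℂˣ) (j : ℕ) : Γ →* ℂˣ := (powMonoidHom j).comp Γ.subtype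

/-- If all evaluations at powers of the inclusion agree with `ζ^j`, then `F = single ζ 1`
(`c = 1`) or `F = 0` (`c = 0`). -/
theorem H3_key (Γ : Subgroup ℂˣ) (F : MonoidAlgebra ℂ Γ) (ζ : ℂˣ) (c : ℂ)
    (h : ∀ j : ℕ, H3_ev (H3_pow Γ j) F = c * (ζ : ℂ) ^ j) :
    ∀ γ : Γ, F.coeff γ = if (γ : ℂˣ) = ζ then c else 0 := by
  classical
  let q : ℂ → ℂ := fun z => if hz : z ≠ 0 then
    (if hγ : Units.mk0 z hz ∈ Γ then F.coeff ⟨Units.mk0 z hz, hγ⟩ else 0) else 0
  have hq : ∀ γ : Γ, q ((γ : ℂˣ) : ℂ) = F.coeff γ := by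
    intro γ
    have h1 : Units.mk0 (((γ : ℂˣ)) : ℂ) (γ : ℂˣ).ne_zero = γ := Units.mk0_val _ _
    simp only [q]
    rw [dif_pos (γ : ℂˣ).ne_zero, dif_pos (by rw [h1]; exact γ.2)]
    congr 1
    exact Subtype.ext h1
  let S : Finset ℂ := insert (ζ : ℂ) (F.coeff.support.image (fun γ : Γ => ((γ : ℂˣ) : ℂ)))
  have key := H2a_expPoly S ?_
    (fun z => Polynomial.C (q z - if z = (ζ : ℂ) then c else 0)) ?_
  · intro γ
    by_cases hγ : ((γ : ℂˣ) : ℂ) ∈ S
    · have h1 := key _ hγ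
      rw [Polynomial.C_eq_zero, sub_eq_zero, hq] at h1
      rw [h1]
      by_cases h2 : (γ : ℂˣ) = ζ
      · rw [if_pos h2, if_pos (congrArg _ h2)]
      · rw [if_neg h2, if_neg (fun h3 => h2 (Units.ext h3))]
    · have h1 : γ ∉ F.coeff.support := by
        intro h2
        exact hγ (Finset.mem_insert_of_mem (Finset.mem_image_of_mem _ h2))
      have h2 : (γ : ℂˣ) ≠ ζ := by
        intro h2
        apply hγ
        rw [h2]
        exact Finset.mem_insert_self _ _
      rw [Finsupp.notMem_support_iff.1 h1, if_neg h2]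
  · rw [Finset.mem_insert, not_or]
    refine ⟨ζ.ne_zero.symm, ?_⟩
    rw [Finset.mem_image]
    rintro ⟨μ, _, hμ⟩
    exact (μ : ℂˣ).ne_zero hμ
  · intro j
    have h1 := h j
    rw [H3_ev_eq] at h1
    simp only [Polynomial.eval_C, sub_mul, Finset.sum_sub_distrib, ite_mul, zero_mul]
    rw [Finset.sum_ite_eq' S (ζ : ℂ), if_pos (Finset.mem_insert_self _ _), sub_eq_zero, ← h1]
    rw [← Finset.sum_subset (Finset.subset_insert (ζ : ℂ)
      (F.coeff.support.image (fun γ : Γ => ((γ : ℂˣ) : ℂ))))]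
    · rw [Finset.sum_image (fun a _ b _ hab => Subtype.ext (Units.ext hab))]
      refine Finset.sum_congr rfl (fun γ _ => ?_)
      rw [hq]
      simp [H3_pow]
    · intro z hz hz'
      rw [Finset.mem_insert] at hz
      rcases hz with rfl | hz
      · have h2 : q (ζ : ℂ) = 0 := by
          simp only [q]
          rw [dif_pos ζ.ne_zero]
          by_cases h3 : Units.mk0 (ζ : ℂ) ζ.ne_zero ∈ Γ
          · rw [dif_pos h3]
            by_contra h4
            apply hz'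
            rw [Finset.mem_image]
            exact ⟨⟨_, h3⟩, Finsupp.mem_support_iff.2 h4, rfl⟩
          · rw [dif_neg h3]
        rw [h2, zero_mul]
      · exact absurd hz hz'

theorem H3_zero (Γ : Subgroup ℂˣ) (F : MonoidAlgebra ℂ Γ)
    (h : ∀ j : ℕ, H3_ev (H3_pow Γ j) F = 0) (κ : Γ →* ℂˣ) : H3_ev κ F = 0 := by
  have h1 := H3_key Γ F 1 0 (fun j => by rw [h j]; simp)
  rw [H3_ev_eq]
  refine Finset.sum_eq_zero (fun γ _ => ?_)
  rw [h1 γ, ite_self, zero_mul]

theorem H3_one (Γ : Subgroup ℂˣ) (F : MonoidAlgebra ℂ Γ) (ζ : ℂˣ)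
    (h : ∀ j : ℕ, H3_ev (H3_pow Γ j) F = (ζ : ℂ) ^ j) :
    ∃ hζ : ζ ∈ Γ, ∀ (κ : Γ →* ℂˣ), H3_ev κ F = (κ ⟨ζ, hζ⟩ : ℂ) := by
  classical
  have h1 := H3_key Γ F ζ 1 (fun j => by rw [h j]; simp)
  have hζ : ζ ∈ Γ := by
    by_contra hζ
    have h2 : H3_ev (H3_pow Γ 0) F = 0 := by
      rw [H3_ev_eq]
      refine Finset.sum_eq_zero (fun γ _ => ?_)
      rw [h1 γ, if_neg, zero_mul]
      intro h3
      exact hζ (h3 ▸ γ.2)
    rw [h 0, pow_zero] at h2
    exact one_ne_zero h2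
  refine ⟨hζ, fun κ => ?_⟩
  have h2 : F = MonoidAlgebra.single ⟨ζ, hζ⟩ 1 := by
    apply MonoidAlgebra.coeff_injective
    ext1 γ
    rw [h1 γ, MonoidAlgebra.coeff_single, Finsupp.single_apply]
    by_cases h3 : (γ : ℂˣ) = ζ
    · rw [if_pos h3, if_pos (Subtype.ext h3.symm)]
    · rw [if_neg h3, if_neg (fun h4 => h3 (congrArg Subtype.val h4).symm)]
  rw [h2, H3_ev_single, one_mul]

/-- constants -/
noncomputable def H3_C (Γ : Type) [CommGroup Γ] : ℂ →+* MonoidAlgebra ℂ Γ :=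
  MonoidAlgebra.singleOneRingHom (R := ℂ) (M := Γ)

theorem H3_ev_C {Γ : Type} [CommGroup Γ] (κ : Γ →* ℂˣ) (c : ℂ) : H3_ev κ (H3_C Γ c) = c := by
  simp [H3_C, MonoidAlgebra.singleOneRingHom_apply, H3_ev_single]

theorem H3_ev_eval {Γ : Type} [CommGroup Γ] {σ : Type} (κ : Γ →* ℂˣ) (v : σ → MonoidAlgebra ℂ Γ)
    (F : MvPolynomial σ ℂ) :
    H3_ev κ (MvPolynomial.eval₂ (H3_C Γ) v F) =
      MvPolynomial.eval (fun x => H3_ev κ (v x)) F := by
  rw [MvPolynomial.eval₂_comp_left]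
  have h1 : (H3_ev κ).comp (H3_C Γ) = RingHom.id ℂ := by
    ext1 c
    exact H3_ev_C κ c
  rw [h1]
  rfl

/-- A matrix over the group algebra evaluating to `P diag(κ (α i)) P⁻¹`. -/
theorem H3_diag {Γ : Type} [CommGroup Γ] (P P' : Matrix ι ι ℂ) (α : ι → Γ) :
    ∃ S : Matrix ι ι (MonoidAlgebra ℂ Γ), ∀ κ : Γ →* ℂˣ, S.map (H3_ev κ) =
      P * Matrix.diagonal (fun x => (κ (α x) : ℂ)) * P' := by
  refine ⟨P.map (H3_C Γ) * Matrix.diagonal (fun x => MonoidAlgebra.single (α x) 1) *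
    P'.map (H3_C Γ), ?_⟩
  intro κ
  have h1 : ∀ M : Matrix ι ι ℂ, (M.map (H3_C Γ)).map (H3_ev κ) = M := by
    intro M
    ext x y
    rw [Matrix.map_apply, Matrix.map_apply, H3_ev_C]
  rw [Matrix.map_mul, Matrix.map_mul, h1, h1, Matrix.diagonal_map (map_zero _)]
  congr 2
  ext x y
  congr 1
  funext z
  simp [H3_ev_single]

/-- H3 (uses H2a, H3a, G1) : one-parameter subgroups in the closure of a diagonalisable
element. -/
theorem H3_torus (H : Subgroup (GL ι ℂ)) (hH : IsZariskiClosed H) (ξ : H →* ℂˣ)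
    (hξ : IsRegChar H ξ) (s : H) (P : GL ι ℂ) (a : ι → ℂˣ)
    (hs : (s : GL ι ℂ).val = P.val * Matrix.diagonal (fun i => (a i : ℂ)) * (P⁻¹).val)
    (hroot : ∀ N : ℕ, 0 < N → ξ s ^ N ≠ 1) :
    ∃ y ∈ lieAlg H, NormedSpace.exp ((2 * Real.pi * Complex.I : ℂ) • y) = 1 ∧
      ∃ (t : ℂ) (g : H), (g : GL ι ℂ).val = NormedSpace.exp (t • y) ∧ ξ g ≠ 1 := by
  have hPP : P.val * (P⁻¹).val = 1 := P.mul_inv
  have hPP' : (P⁻¹).val * P.val = 1 := P.inv_mul
  -- the torus `D z = P diag(z) P⁻¹`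
  let D : (ι → ℂˣ) →* GL ι ℂ :=
    { toFun := fun z => ⟨P.val * Matrix.diagonal (fun i => (z i : ℂ)) * (P⁻¹).val,
        P.val * Matrix.diagonal (fun i => ((z i)⁻¹ : ℂˣ).val) * (P⁻¹).val, by
          simp only [Matrix.mul_assoc]
          rw [← Matrix.mul_assoc (P⁻¹).val P.val, hPP', Matrix.one_mul,
            ← Matrix.mul_assoc (Matrix.diagonal _) (Matrix.diagonal _),
            Matrix.diagonal_mul_diagonal]
          simp only [Units.mul_inv, Matrix.diagonal_one, Matrix.one_mul, hPP], by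
          simp only [Matrix.mul_assoc]
          rw [← Matrix.mul_assoc (P⁻¹).val P.val, hPP', Matrix.one_mul,
            ← Matrix.mul_assoc (Matrix.diagonal _) (Matrix.diagonal _),
            Matrix.diagonal_mul_diagonal]
          simp only [Units.inv_mul, Matrix.diagonal_one, Matrix.one_mul, hPP]⟩
      map_one' := by
        apply Units.ext
        show P.val * Matrix.diagonal (fun i => (((1 : ι → ℂˣ) i : ℂˣ) : ℂ)) * (P⁻¹).val = 1
        simp only [Pi.one_apply, Units.val_one, Matrix.diagonal_one, Matrix.mul_one, hPP]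
      map_mul' := by
        intro z z'
        apply Units.ext
        show P.val * Matrix.diagonal (fun i => (((z * z') i : ℂˣ) : ℂ)) * (P⁻¹).val =
          P.val * Matrix.diagonal (fun i => (z i : ℂ)) * (P⁻¹).val *
          (P.val * Matrix.diagonal (fun i => (z' i : ℂ)) * (P⁻¹).val)
        simp only [Matrix.mul_assoc]
        rw [← Matrix.mul_assoc (P⁻¹).val P.val, hPP', Matrix.one_mul,
            ← Matrix.mul_assoc (Matrix.diagonal _) (Matrix.diagonal _),
            Matrix.diagonal_mul_diagonal]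
        simp only [Pi.mul_apply, Units.val_mul] }
  have hD : ∀ z, (D z).val = P.val * Matrix.diagonal (fun i => (z i : ℂ)) * (P⁻¹).val :=
    fun z => rfl
  have hD' : ∀ z, ((D z)⁻¹).val =
      P.val * Matrix.diagonal (fun i => ((z i)⁻¹ : ℂˣ).val) * (P⁻¹).val := fun z => rfl
  have hsD : (s : GL ι ℂ) = D a := Units.ext hs
  -- the group generated by the eigenvalues
  let ψ : Multiplicative (ι → ℤ) →* ℂˣ :=
    { toFun := fun m => ∏ i, a i ^ (Multiplicative.toAdd m i)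
      map_one' := by simp
      map_mul' := by
        intro m m'
        rw [← Finset.prod_mul_distrib]
        refine Finset.prod_congr rfl (fun i _ => ?_)
        rw [toAdd_mul, Pi.add_apply, zpow_add] }
  let Γ : Subgroup ℂˣ := ψ.range
  have hψs : ∀ i, ψ (Multiplicative.ofAdd (Pi.single i 1)) = a i := by
    intro i
    show ∏ k, a k ^ ((Pi.single i 1 : ι → ℤ) k) = a i
    rw [Finset.prod_eq_single i]
    · simp
    · intro k _ hk
      rw [Pi.single_eq_of_ne hk, zpow_zero]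
    · intro h; exact absurd (Finset.mem_univ i) h
  let α : ι → Γ := fun i => ⟨a i, ⟨_, hψs i⟩⟩
  obtain ⟨S, hS⟩ := H3_diag (Γ := Γ) P.val (P⁻¹).val α
  obtain ⟨S', hS'⟩ := H3_diag (Γ := Γ) P.val (P⁻¹).val (fun i => (α i)⁻¹)
  let v : (ι × ι) ⊕ (ι × ι) → MonoidAlgebra ℂ Γ :=
    Sum.elim (fun p => S p.1 p.2) (fun p => S' p.1 p.2)
  have hv : ∀ (κ : Γ →* ℂˣ), (fun x => H3_ev κ (v x)) =
      Sum.elim (fun p => (D (fun i => κ (α i))).val p.1 p.2)
        (fun p => ((D (fun i => κ (α i)))⁻¹).val p.1 p.2) := by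
    intro κ
    funext x
    rcases x with p | p
    · have h1 := congrFun (congrFun (hS κ) p.1) p.2
      rw [Matrix.map_apply] at h1
      exact h1
    · have h1 := congrFun (congrFun (hS' κ) p.1) p.2
      rw [Matrix.map_apply] at h1
      simp only [map_inv] at h1
      exact h1
  have hpow : ∀ j : ℕ, D (fun i => H3_pow Γ j (α i)) = ((s ^ j : H) : GL ι ℂ) := by
    intro j
    rw [Subgroup.coe_pow, hsD, ← map_pow]
    rfl
  -- `P_ξ`
  obtain ⟨F, hF0⟩ := hξ
  have hF : ∀ g : H, ((ξ g : ℂˣ) : ℂ) = MvPolynomial.eval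
      (Sum.elim (fun p => (g : GL ι ℂ).val p.1 p.2) (fun p => ((g : GL ι ℂ)⁻¹).val p.1 p.2)) F := hF0
  obtain ⟨hζ, hκ⟩ := H3_one Γ (MvPolynomial.eval₂ (H3_C Γ) v F) (ξ s) (by
    intro j
    rw [H3_ev_eval, hv, hpow, ← hF, map_pow, Units.val_pow_eq_pow_val])
  obtain ⟨m₀, hm₀⟩ := hζ
  -- the relations
  let L : AddSubgroup (ι → ℤ) := AddSubgroup.mk
    (AddSubmonoid.mk (AddSubsemigroup.mk {m | ψ (Multiplicative.ofAdd m) = 1} (by
      intro x y hx hy
      show ψ (Multiplicative.ofAdd (x + y)) = 1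
      have hx' : ψ (Multiplicative.ofAdd x) = 1 := hx
      have hy' : ψ (Multiplicative.ofAdd y) = 1 := hy
      rw [ofAdd_add, map_mul, hx', hy', one_mul])) (by
      show ψ (Multiplicative.ofAdd 0) = 1
      rw [ofAdd_zero, map_one])) (by
      intro x hx
      have hx' : ψ (Multiplicative.ofAdd x) = 1 := hx
      show ψ (Multiplicative.ofAdd (-x)) = 1
      rw [ofAdd_neg, map_inv, hx', inv_one])
  have hL : ∀ m, m ∈ L ↔ ψ (Multiplicative.ofAdd m) = 1 := fun m => Iff.rfl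
  obtain ⟨w, hw1, hw2⟩ := H3a_dual L (Multiplicative.toAdd m₀) (by
    intro N hN h
    rw [hL, ofAdd_nsmul, map_pow, ofAdd_toAdd, hm₀] at h
    exact hroot N hN h)
  -- the characters `λ_t`
  let χ : ℂ → (Multiplicative (ι → ℤ) →* ℂˣ) := fun t =>
    { toFun := fun m => Units.mk0 (Complex.exp (t * (∑ i, w i * (Multiplicative.toAdd m i) : ℤ)))
        (Complex.exp_ne_zero _)
      map_one' := by
        apply Units.ext
        simp
      map_mul' := by
        intro m m'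
        apply Units.ext
        rw [Units.val_mul, Units.val_mk0, Units.val_mk0, Units.val_mk0, ← Complex.exp_add]
        congr 1
        rw [toAdd_mul]
        push_cast
        simp only [Pi.add_apply, Int.cast_add, mul_add, Finset.sum_add_distrib] }
  have hχ : ∀ t m, (χ t m : ℂ) = Complex.exp (t * (∑ i, w i * (Multiplicative.toAdd m i) : ℤ)) :=
    fun t m => rfl
  have hker : ∀ t, ψ.rangeRestrict.ker ≤ (χ t).ker := by
    intro t m hm
    have hm' : ψ m = 1 := by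
      have := (MonoidHom.mem_ker).1 hm
      exact congrArg Subtype.val this
    rw [MonoidHom.mem_ker]
    apply Units.ext
    rw [hχ, hw1 (Multiplicative.toAdd m) ((hL _).2 (by rw [ofAdd_toAdd]; exact hm'))]
    simp
  let lam : ℂ → (Γ →* ℂˣ) := fun t =>
    MonoidHom.liftOfSurjective ψ.rangeRestrict ψ.rangeRestrict_surjective ⟨χ t, hker t⟩
  have hlam : ∀ t m (γ : Γ), (γ : ℂˣ) = ψ m → lam t γ = χ t m := by
    intro t m γ hγ
    have h1 : γ = ψ.rangeRestrict m := Subtype.ext hγ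
    rw [h1]
    exact MonoidHom.liftOfRightInverse_comp_apply _ _ _ ⟨χ t, hker t⟩ m
  have hlamα : ∀ t i, (lam t (α i) : ℂ) = Complex.exp (t * w i) := by
    intro t i
    rw [hlam t (Multiplicative.ofAdd (Pi.single i 1)) (α i) (hψs i).symm, hχ]
    congr 2
    rw [toAdd_ofAdd, Finset.sum_eq_single i]
    · simp
    · intro k _ hk
      rw [Pi.single_eq_of_ne hk, mul_zero]
    · intro h; exact absurd (Finset.mem_univ i) h
  -- the one-parameter group
  have hmem : ∀ κ : Γ →* ℂˣ, D (fun i => κ (α i)) ∈ H := by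
    intro κ
    obtain ⟨T, hT⟩ := hH
    rw [hT]
    intro Q hQ
    have h1 := H3_zero Γ (MvPolynomial.eval₂ (H3_C Γ) (fun p : ι × ι => S p.1 p.2) Q) (by
      intro j
      have h2 := (hT ((s ^ j : H) : GL ι ℂ)).1 (s ^ j : H).2 Q hQ
      rw [H3_ev_eval, ← h2]
      unfold matEval
      congr 2
      funext p
      have h3 := congrFun (hv (H3_pow Γ j)) (Sum.inl p)
      rw [hpow] at h3
      exact h3) κ
    rw [H3_ev_eval] at h1
    rw [← h1]
    unfold matEval
    congr 2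
    funext p
    exact (congrFun (hv κ) (Sum.inl p)).symm
  let y : Matrix ι ι ℂ := P.val * Matrix.diagonal (fun i => (w i : ℂ)) * (P⁻¹).val
  have hexp : ∀ t : ℂ, NormedSpace.exp (t • y) =
      P.val * Matrix.diagonal (fun i => Complex.exp (t * w i)) * (P⁻¹).val := by
    intro t
    have h1 : t • y = P.val * Matrix.diagonal (fun i => t * (w i : ℂ)) * (P⁻¹).val := by
      show t • (P.val * Matrix.diagonal (fun i => (w i : ℂ)) * (P⁻¹).val) = _
      rw [← Matrix.smul_mul, ← Matrix.mul_smul, ← Matrix.diagonal_smul]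
      rfl
    rw [h1, Matrix.exp_units_conj, Matrix.exp_diagonal]
    congr 3
    funext i
    rw [Pi.coe_exp]
    exact (congrFun Complex.exp_eq_exp_ℂ _).symm
  have hlamD : ∀ t, (D (fun i => lam t (α i))).val = NormedSpace.exp (t • y) := by
    intro t
    rw [hexp, hD]
    congr 3
    funext i
    exact hlamα t i
  refine ⟨y, (G1_exp H hH y).2 (fun t => ⟨_, hmem (lam t), hlamD t⟩), ?_, ?_⟩
  · rw [hexp]
    have h1 : (fun i => Complex.exp ((2 * Real.pi * Complex.I : ℂ) * w i)) = fun _ => 1 := by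
      funext i
      rw [mul_comm]
      exact Complex.exp_int_mul_two_pi_mul_I (w i)
    rw [h1, Matrix.diagonal_one, Matrix.mul_one, hPP]
  · set W : ℤ := ∑ i, w i * Multiplicative.toAdd m₀ i with hW
    refine ⟨Real.pi * Complex.I / W, ⟨D (fun i => lam _ (α i)), hmem _⟩, hlamD _, ?_⟩
    intro h
    have h1 := hF ⟨D (fun i => lam (Real.pi * Complex.I / W) (α i)), hmem _⟩
    rw [h] at h1
    have h2 := hκ (lam (Real.pi * Complex.I / W))
    rw [H3_ev_eval, hv, ← h1, hlam _ m₀ _ hm₀.symm, hχ, ← hW] at h2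
    have hW0 : ((W : ℤ) : ℂ) ≠ 0 := by exact_mod_cast hw2
    rw [div_mul_cancel₀ _ hW0, Complex.exp_pi_mul_I] at h2
    norm_num at h2

end HamRed
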