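import Pool.Agent.HamRed.Base
import Pool.Agent.HamRed.H1
import Pool.Agent.HamRed.H2
import Pool.Agent.HamRed.H3

open MvPolynomial

namespace HamRed

variable {ι : Type} [Fintype ι] [DecidableEq ι]

/-- H (uses H1, H2, H3) : a closed group with a character of infinite image contains a
one-parameter subgroup `t ↦ exp(t y)`, `exp(2πi y) = 1`, on which the character is nontrivial. -/
theorem H_integral (H : Subgroup (GL ι ℂ)) (hH : IsZariskiClosed H) (ξ : H →* ℂˣ)
    (hξ : IsRegChar H ξ) (hinf : (Set.range ξ).Infinite) :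
    ∃ y ∈ lieAlg H, NormedSpace.exp ((2 * Real.pi * Complex.I : ℂ) • y) = 1 ∧
      ∃ (t : ℂ) (g : H), (g : GL ι ℂ).val = NormedSpace.exp (t • y) ∧ ξ g ≠ 1 := by
  obtain ⟨h, hh⟩ := H1_nonroot H hH ξ hξ hinf
  obtain ⟨s, P, a, hs, hsξ⟩ := H2_jordan H hH ξ hξ h
  exact H3_torus H hH ξ hξ s P a hs (fun N hN => by rw [hsξ]; exact hh N hN)

end HamRed
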