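import Pool.Agent.HamRed.Base
import Pool.Agent.HamRed.G1
import Pool.Agent.HamRed.G5
import Pool.Agent.HamRed.G6
import Pool.Agent.HamRed.H
import Pool.Agent.HamRed.I0

open MvPolynomial

namespace HamRed

variable {n m : ℕ}

/-- `I0` for countable sets of polynomials. -/
theorem I1_countable {σ : Type} [Finite σ] (Q : Ideal (MvPolynomial σ ℂ)) (hQ : Q.IsPrime)
    (S : Set (MvPolynomial σ ℂ)) (hS : S.Countable)
    (h : ∀ x : σ → ℂ, (∀ P ∈ Q, MvPolynomial.eval x P = 0) → ∃ P ∈ S, MvPolynomial.eval x P = 0) :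
    ∃ P ∈ S, P ∈ Q := by
  have hne : (insert 1 S).Nonempty := ⟨1, Set.mem_insert _ _⟩
  obtain ⟨f, hf⟩ := (hS.insert 1).exists_eq_range hne
  obtain ⟨j, hj⟩ := I0_countable Q hQ f fun x hx => by
    obtain ⟨P, hP, hP0⟩ := h x hx
    have : P ∈ Set.range f := hf ▸ Set.mem_insert_of_mem _ hP
    obtain ⟨j, rfl⟩ := this
    exact ⟨j, hP0⟩
  have hjS : f j ∈ insert 1 S := hf ▸ Set.mem_range_self j
  rcases hjS with h1 | h1
  · exact absurd ((Ideal.eq_top_iff_one _).2 (h1 ▸ hj)) hQ.ne_top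
  · exact ⟨f j, h1, hj⟩

/-- If some `δ i` is nontrivial on the identity component of the stabiliser of `v`, there is an
integral vector annihilating `v` on which `τ i` is not zero. -/
theorem I1_cover (G : Subgroup (GL (Fin n ⊕ Fin m) ℂ)) (hG : IsZariskiClosed G)
    (hV : PreservesFirst G) (k : ℕ) (δ : Fin k → (G →* ℂˣ))
    (τ : Fin k → Module.Dual ℂ (lieAlg G)) (hδ : ∀ i, IsRegChar G (δ i))
    (hτ : ∀ i, IsDiff G (δ i) (τ i))
    (v : Fin n → ℂ) (y : lieAlg G) (hy : (onV y.val).mulVec v = 0) (i : Fin k)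
    (hi : τ i y ≠ 0) :
    ∃ (z : lieAlg G) (N : Fin k → ℤ), (onV z.val).mulVec v = 0 ∧ (∀ j, τ j z = N j) ∧ N i ≠ 0 := by
  obtain ⟨H, hH, hHG, hHmem, hHlie⟩ := G6_stab G hG hV v
  have hylie : y.val ∈ lieAlg H := (hHlie _).2 ⟨y.2, hy⟩
  set ξ : H →* ℂˣ := (δ i).comp (Subgroup.inclusion hHG) with hξdef
  have hξ : ∀ h : H, ξ h = δ i (Subgroup.inclusion hHG h) := fun _ => rfl
  have hreg : IsRegChar H ξ := by
    obtain ⟨P, hP⟩ := hδ i
    exact ⟨P, fun g => hP (Subgroup.inclusion hHG g)⟩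
  have hsurj : ∀ c : ℂˣ, c ∈ Set.range ξ := by
    intro c
    obtain ⟨g, hg, hgexp⟩ := (G1_exp H hH y.val).1 hylie (Complex.log c / τ i y)
    refine ⟨⟨g, hg⟩, ?_⟩
    rw [hξ]
    apply Units.ext
    have := hτ i y (Complex.log c / τ i y) (Subgroup.inclusion hHG ⟨g, hg⟩) hgexp
    rw [this, div_mul_cancel₀ _ hi, Complex.exp_log c.ne_zero]
  have hinf : (Set.range ξ).Infinite := by
    refine Set.infinite_of_injective_forall_mem
      (f := fun j : ℕ => Units.mk0 ((j : ℂ) + 1) (Nat.cast_add_one_ne_zero j)) ?_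
      fun j => hsurj _
    intro a b hab
    have := congrArg Units.val hab
    simpa using this
  obtain ⟨y'', hy'', hexp, t, g, hg, hne⟩ := H_integral H hH ξ hreg hinf
  obtain ⟨hzG, hz0⟩ := (hHlie y'').1 hy''
  have h2pi : (2 * Real.pi * Complex.I : ℂ) ≠ 0 := Complex.two_pi_I_ne_zero
  have hint : ∀ j, ∃ N : ℤ, τ j ⟨y'', hzG⟩ = N := by
    intro j
    have h1 := hτ j ⟨y'', hzG⟩ (2 * Real.pi * Complex.I) 1 (by
      rw [hexp]
      rfl)
    rw [map_one, Units.val_one] at h1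
    obtain ⟨N, hN⟩ := Complex.exp_eq_one_iff.1 h1.symm
    refine ⟨N, ?_⟩
    have : (2 * Real.pi * Complex.I : ℂ) * τ j ⟨y'', hzG⟩ = (2 * Real.pi * Complex.I : ℂ) * N := by
      rw [hN]
      ring
    exact mul_left_cancel₀ h2pi this
  choose N hN using hint
  refine ⟨⟨y'', hzG⟩, N, hz0, hN, fun h0 => hne ?_⟩
  rw [hξ]
  apply Units.ext
  have h1 := hτ i ⟨y'', hzG⟩ t (Subgroup.inclusion hHG g) hg
  rw [h1, hN i, h0]
  simp

/-- The polynomial `(v, λ, s) ↦ λ(z v)`. -/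
noncomputable def I1_mom (d : ℕ) (z : Matrix (Fin n) (Fin n) ℂ) :
    MvPolynomial ((Fin n ⊕ Fin n) ⊕ Fin d) ℂ :=
  ∑ i, X (Sum.inl (Sum.inr i)) * ∑ j, C (z i j) * X (Sum.inl (Sum.inl j))

theorem I1_mom_eval (d : ℕ) (z : Matrix (Fin n) (Fin n) ℂ) (p : (Fin n ⊕ Fin n) ⊕ Fin d → ℂ) :
    MvPolynomial.eval p (I1_mom d z) =
      dotProduct (fun j => p (Sum.inl (Sum.inr j))) (z.mulVec (fun j => p (Sum.inl (Sum.inl j)))) := by
  simp [I1_mom, dotProduct, Matrix.mulVec]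

/-- I1 (uses G1, G5, G6, H, I0) : genericity. -/
theorem I1_generic (G : Subgroup (GL (Fin n ⊕ Fin m) ℂ)) (hG : IsZariskiClosed G)
    (hV : PreservesFirst G) (k : ℕ) (δ : Fin k → (G →* ℂˣ))
    (τ : Fin k → Module.Dual ℂ (lieAlg G)) (hδ : ∀ i, IsRegChar G (δ i))
    (hτ : ∀ i, IsDiff G (δ i) (τ i)) (hτ' : ∀ i, τ i ∈ charSpace G)
    (hspan : ∀ χ ∈ charSpace G, χ ∈ Submodule.span ℂ (Set.range τ)) :
    ∃ s : Finset (Module.Dual ℂ (charSpace G)), (0 : Module.Dual ℂ (charSpace G)) ∉ s ∧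
      ∀ χ : charSpace G, (∀ ℓ ∈ s, ℓ χ ≠ 0) →
        ∀ x : Fin n ⊕ Fin n → ℂ, moment G x = χ →
          ∀ y : lieAlg G, (onV y.val).mulVec (fun j => x (Sum.inl j)) = 0 → ∀ i, τ i y = 0 := by
  classical
  set d := Module.finrank ℂ (lieAlg G) with hd
  let b : Module.Basis (Fin d) ℂ (lieAlg G) := Module.finBasis ℂ (lieAlg G)
  -- points
  let xx : ((Fin n ⊕ Fin n) ⊕ Fin d → ℂ) → (Fin n ⊕ Fin n → ℂ) := fun p a => p (Sum.inl a)
  let yy : ((Fin n ⊕ Fin n) ⊕ Fin d → ℂ) → lieAlg G := fun p => ∑ l, p (Sum.inr l) • b l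
  let W : Set ((Fin n ⊕ Fin n) ⊕ Fin d → ℂ) :=
    {p | (onV (yy p).val).mulVec (fun j => xx p (Sum.inl j)) = 0 ∧ moment G (xx p) ∈ charSpace G}
  have hmom : ∀ (p : (Fin n ⊕ Fin n) ⊕ Fin d → ℂ) (z : lieAlg G),
      MvPolynomial.eval p (I1_mom d (onV z.val)) = moment G (xx p) z := fun p z =>
    I1_mom_eval d _ p
  -- the polynomial `τ i (y(s))`
  let T : Fin k → MvPolynomial ((Fin n ⊕ Fin n) ⊕ Fin d) ℂ := fun i =>
    ∑ l, C (τ i (b l)) * X (Sum.inr l)
  have hT : ∀ i p, MvPolynomial.eval p (T i) = τ i (yy p) := by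
    intro i p
    simp only [T, yy, map_sum, map_mul, eval_C, eval_X, map_smul, smul_eq_mul]
    exact Finset.sum_congr rfl fun l _ => by ring
  -- the vanishing ideal of `W`
  set I : Ideal (MvPolynomial ((Fin n ⊕ Fin n) ⊕ Fin d) ℂ) := MvPolynomial.vanishingIdeal ℂ W
    with hI
  have hImem : ∀ P, P ∈ I ↔ ∀ p ∈ W, MvPolynomial.eval p P = 0 := by
    intro P
    rw [hI, MvPolynomial.mem_vanishingIdeal_iff]
    simp only [MvPolynomial.aeval_eq_eval]
  have hWclosed : ∀ p, (∀ P ∈ I, MvPolynomial.eval p P = 0) → p ∈ W := by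
    intro p hp
    refine ⟨?_, ?_, ?_⟩
    · -- stabiliser equations
      funext i
      let R : MvPolynomial ((Fin n ⊕ Fin n) ⊕ Fin d) ℂ :=
        ∑ j, (∑ l, C ((onV (b l).val) i j) * X (Sum.inr l)) * X (Sum.inl (Sum.inl j))
      have hR : ∀ q, MvPolynomial.eval q R =
          (onV (yy q).val).mulVec (fun j => xx q (Sum.inl j)) i := by
        intro q
        simp only [R, Matrix.mulVec, dotProduct, map_sum, map_mul, eval_C, eval_X, yy, xx]
        refine Finset.sum_congr rfl fun j _ => ?_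
        congr 1
        have : (((∑ l, q (Sum.inr l) • b l : lieAlg G)) : Matrix _ _ ℂ) =
            ∑ l, q (Sum.inr l) • (b l).val := by
          rw [AddSubmonoidClass.coe_finsetSum]
          rfl
        rw [this]
        simp only [onV, Matrix.toBlocks₁₁, Matrix.of_apply, Matrix.sum_apply, Matrix.smul_apply,
          smul_eq_mul]
        exact Finset.sum_congr rfl fun l _ => by ring
      have hRI : R ∈ I := (hImem R).2 fun q hq => by
        rw [hR]
        exact congrFun hq.1 i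
      have := hp R hRI
      rw [hR] at this
      exact this
    · intro g hg y z hyz
      have hRI : I1_mom d (onV z.val) - I1_mom d (onV y.val) ∈ I := (hImem _).2 fun q hq => by
        rw [map_sub, hmom, hmom, hq.2.1 g hg y z hyz, sub_self]
      have := hp _ hRI
      rw [map_sub, hmom, hmom, sub_eq_zero] at this
      exact this
    · intro y z w hw
      have hRI : I1_mom d (onV w.val) ∈ I := (hImem _).2 fun q hq => by
        rw [hmom, hq.2.2 y z w hw]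
      have := hp _ hRI
      rw [hmom] at this
      exact this
  -- integral vectors
  let 𝒦 : Set (Fin k → ℤ) := {N | N ≠ 0 ∧ ∃ z : lieAlg G, ∀ j, τ j z = N j}
  have h𝒦 : ∀ N : 𝒦, ∃ z : lieAlg G, ∀ j, τ j z = N.1 j := fun N => N.2.2
  choose Y hY using h𝒦
  have hcover : ∀ p ∈ W, ∀ i, τ i (yy p) ≠ 0 → ∃ N : 𝒦, moment G (xx p) (Y N) = 0 := by
    intro p hp i hi
    obtain ⟨z, N, hz, hN, hNi⟩ := I1_cover G hG hV k δ τ hδ hτ _ (yy p) hp.1 i hi
    have hN𝒦 : N ∈ 𝒦 := ⟨fun h => hNi (by rw [h]; rfl), z, hN⟩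
    refine ⟨⟨N, hN𝒦⟩, ?_⟩
    have hs := hspan _ hp.2
    have key : ∀ χ ∈ Submodule.span ℂ (Set.range τ), χ (Y ⟨N, hN𝒦⟩) = χ z := by
      intro χ hχ
      induction hχ using Submodule.span_induction with
      | mem x hx =>
        obtain ⟨j, rfl⟩ := hx
        rw [hY ⟨N, hN𝒦⟩ j, hN j]
      | zero => rfl
      | add a b _ _ ha hb => rw [LinearMap.add_apply, LinearMap.add_apply, ha, hb]
      | smul c a _ ha => rw [LinearMap.smul_apply, LinearMap.smul_apply, ha]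
    rw [key _ hs]
    show dotProduct _ ((onV z.val).mulVec _) = 0
    rw [hz, dotProduct_zero]
  -- minimal primes
  have hmin : ∀ 𝔮 ∈ I.minimalPrimes, (∃ i, T i ∉ 𝔮) →
      ∃ N : 𝒦, I1_mom d (onV (Y N).val) ∈ 𝔮 := by
    rintro 𝔮 h𝔮 ⟨i, hi⟩
    have hcount : (insert (T i) (Set.range fun N : 𝒦 => I1_mom d (onV (Y N).val))).Countable :=
      (Set.countable_range _).insert _
    obtain ⟨P, hP, hP𝔮⟩ := I1_countable 𝔮 h𝔮.1.1 _ hcount fun p hp => by
      have hpW : p ∈ W := hWclosed p fun P hP => hp P (h𝔮.1.2 hP)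
      by_cases h0 : τ i (yy p) = 0
      · exact ⟨T i, Set.mem_insert _ _, by rw [hT, h0]⟩
      · obtain ⟨N, hN⟩ := hcover p hpW i h0
        exact ⟨_, Set.mem_insert_of_mem _ ⟨N, rfl⟩, by
          show MvPolynomial.eval p (I1_mom d (onV (Y N).val)) = 0
          rw [hmom, hN]⟩
    rcases hP with rfl | ⟨N, rfl⟩
    · exact absurd hP𝔮 hi
    · exact ⟨N, hP𝔮⟩
  have hfin : I.minimalPrimes.Finite := Ideal.finite_minimalPrimes_of_isNoetherianRing _ I
  let ell : 𝒦 → Module.Dual ℂ (charSpace G) := fun N =>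
    (Module.Dual.eval ℂ (lieAlg G) (Y N)).comp (charSpace G).subtype
  have hell : ∀ N χ, ell N χ = (χ : Module.Dual ℂ (lieAlg G)) (Y N) := fun _ _ => rfl
  have hell0 : ∀ N, ell N ≠ 0 := by
    intro N h0
    obtain ⟨j, hj⟩ := Function.ne_iff.1 N.2.1
    have h1 := congrArg (fun f => f ⟨τ j, hτ' j⟩) h0
    simp only [hell, LinearMap.zero_apply] at h1
    rw [hY N j] at h1
    exact hj (by
      rw [Pi.zero_apply]
      exact_mod_cast h1)
  let good : Set (Ideal (MvPolynomial ((Fin n ⊕ Fin n) ⊕ Fin d) ℂ)) :=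
    {𝔮 | 𝔮 ∈ I.minimalPrimes ∧ ∃ i, T i ∉ 𝔮}
  have hgfin : good.Finite := hfin.subset fun 𝔮 h => h.1
  have hgood : ∀ 𝔮 : good, ∃ N : 𝒦, I1_mom d (onV (Y N).val) ∈ 𝔮.1 := fun 𝔮 =>
    hmin 𝔮.1 𝔮.2.1 𝔮.2.2
  choose K hK using hgood
  have : Finite good := hgfin
  have hsfin : (Set.range fun 𝔮 : good => ell (K 𝔮)).Finite := Set.finite_range _
  refine ⟨hsfin.toFinset, ?_, ?_⟩
  · intro h0
    rw [Set.Finite.mem_toFinset] at h0
    obtain ⟨𝔮, h𝔮⟩ := h0
    exact hell0 _ h𝔮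
  · intro χ hχ x hx y hy i
    by_contra hi
    -- the point `(x, s)`
    let p : (Fin n ⊕ Fin n) ⊕ Fin d → ℂ := Sum.elim x (fun l => b.repr y l)
    have hyy : yy p = y := by
      show ∑ l, b.repr y l • b l = y
      exact b.sum_repr y
    have hxx : xx p = x := rfl
    have hpW : p ∈ W := by
      refine ⟨?_, ?_⟩
      · rw [hyy]
        exact hy
      · rw [hxx, hx]
        exact χ.2
    have hker : I ≤ RingHom.ker (MvPolynomial.eval p) := fun P hP => (hImem P).1 hP p hpW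
    have : (RingHom.ker (MvPolynomial.eval p)).IsPrime := RingHom.ker_isPrime _
    obtain ⟨𝔮, h𝔮, h𝔮le⟩ := Ideal.exists_minimalPrimes_le hker
    have hTi : T i ∉ 𝔮 := fun h => hi (by
      have := h𝔮le h
      rw [RingHom.mem_ker, hT, hyy] at this
      exact this)
    let 𝔮' : good := ⟨𝔮, h𝔮, i, hTi⟩
    have h1 := h𝔮le (hK 𝔮')
    rw [RingHom.mem_ker, hmom, hxx, hx] at h1
    exact hχ (ell (K 𝔮')) (by
      rw [Set.Finite.mem_toFinset]
      exact ⟨𝔮', rfl⟩) h1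

end HamRed
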