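import Pool.Agent.HamRed.Base
import Pool.Agent.HamRed.G1
import Pool.Agent.HamRed.G5

/-!
# MP_3b8a02_ag, J1 : the cotangent action and the fibre
-/

open MvPolynomial

namespace HamRed

variable {n m : ℕ}

theorem J1_block21 {A B : Matrix (Fin n ⊕ Fin m) (Fin n ⊕ Fin m) ℂ} (hA : A.toBlocks₂₁ = 0)
    (hB : B.toBlocks₂₁ = 0) : (A * B).toBlocks₂₁ = 0 ∧ onV (A * B) = onV A * onV B := by
  have h1 : ∀ i j, A (Sum.inr i) (Sum.inl j) = 0 := fun i j => congrFun (congrFun hA i) j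
  have h2 : ∀ i j, B (Sum.inr i) (Sum.inl j) = 0 := fun i j => congrFun (congrFun hB i) j
  constructor
  · ext i j
    simp [Matrix.toBlocks₂₁, Matrix.mul_apply, h1, h2]
  · ext i j
    simp [onV, Matrix.toBlocks₁₁, Matrix.mul_apply, h2]

theorem J1_onV_one : onV (1 : Matrix (Fin n ⊕ Fin m) (Fin n ⊕ Fin m) ℂ) = 1 := by
  ext i j
  simp [onV, Matrix.toBlocks₁₁, Matrix.one_apply]

/-- The matrix of the action of `g` on `V × V*`. -/
noncomputable def cotMat (G : Subgroup (GL (Fin n ⊕ Fin m) ℂ)) (hV : PreservesFirst G) :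
    G →* Matrix (Fin n ⊕ Fin n) (Fin n ⊕ Fin n) ℂ where
  toFun g := Matrix.fromBlocks (onV (g : GL (Fin n ⊕ Fin m) ℂ).val) 0 0
    (onV ((g : GL (Fin n ⊕ Fin m) ℂ)⁻¹).val).transpose
  map_one' := by
    have h1 : ((1 : G) : GL (Fin n ⊕ Fin m) ℂ).val = 1 := rfl
    have h2 : (((1 : G) : GL (Fin n ⊕ Fin m) ℂ)⁻¹).val = 1 := by simp
    rw [h1, h2, J1_onV_one, Matrix.transpose_one, Matrix.fromBlocks_one]
  map_mul' g h := by
    have hg := hV g g.2
    have hh := hV h h.2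
    have hg' := hV (g⁻¹ : GL (Fin n ⊕ Fin m) ℂ) (G.inv_mem g.2)
    have hh' := hV (h⁻¹ : GL (Fin n ⊕ Fin m) ℂ) (G.inv_mem h.2)
    have e1 : onV ((g * h : G) : GL (Fin n ⊕ Fin m) ℂ).val =
        onV (g : GL (Fin n ⊕ Fin m) ℂ).val * onV (h : GL (Fin n ⊕ Fin m) ℂ).val := by
      have : ((g * h : G) : GL (Fin n ⊕ Fin m) ℂ).val =
        (g : GL (Fin n ⊕ Fin m) ℂ).val * (h : GL (Fin n ⊕ Fin m) ℂ).val := rfl
      rw [this, (J1_block21 hg hh).2]
    have e2 : onV (((g * h : G) : GL (Fin n ⊕ Fin m) ℂ)⁻¹).val =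
        onV ((h : GL (Fin n ⊕ Fin m) ℂ)⁻¹).val * onV ((g : GL (Fin n ⊕ Fin m) ℂ)⁻¹).val := by
      have : (((g * h : G) : GL (Fin n ⊕ Fin m) ℂ)⁻¹).val =
        ((h : GL (Fin n ⊕ Fin m) ℂ)⁻¹).val * ((g : GL (Fin n ⊕ Fin m) ℂ)⁻¹).val := by
        rw [Subgroup.coe_mul, mul_inv_rev]
        rfl
      rw [this, (J1_block21 hh' hg').2]
    rw [e1, e2, Matrix.transpose_mul, Matrix.fromBlocks_multiply]
    simp

/-- The action of `G` on `V × V*` as a representation. -/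
noncomputable def cotRep (G : Subgroup (GL (Fin n ⊕ Fin m) ℂ)) (hV : PreservesFirst G) :
    G →* GL (Fin n ⊕ Fin n) ℂ :=
  (cotMat G hV).toHomUnits

theorem cotRep_val (G : Subgroup (GL (Fin n ⊕ Fin m) ℂ)) (hV : PreservesFirst G) (g : G) :
    (cotRep G hV g).val = Matrix.fromBlocks (onV (g : GL (Fin n ⊕ Fin m) ℂ).val) 0 0
    (onV ((g : GL (Fin n ⊕ Fin m) ℂ)⁻¹).val).transpose := rfl

theorem cotRep_mulVec (G : Subgroup (GL (Fin n ⊕ Fin m) ℂ)) (hV : PreservesFirst G) (g : G)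
    (x : Fin n ⊕ Fin n → ℂ) :
    (cotRep G hV g).val.mulVec x = coAct (g : GL (Fin n ⊕ Fin m) ℂ) x := by
  rw [cotRep_val, Matrix.fromBlocks_mulVec]
  unfold coAct
  funext i
  rcases i with i | i
  · simp [Function.comp_def]
  · simp [Function.comp_def, Matrix.mulVec_transpose]

theorem isRationalRep_cotRep (G : Subgroup (GL (Fin n ⊕ Fin m) ℂ)) (hV : PreservesFirst G) :
    IsRationalRep G (cotRep G hV) := by
  intro i j
  rcases i with i | i <;> rcases j with j | j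
  · refine ⟨MvPolynomial.X (Sum.inl (Sum.inl i, Sum.inl j)), fun g => ?_⟩
    show (cotRep G hV g).val (Sum.inl i) (Sum.inl j) = _
    rw [cotRep_val]
    simp [onV, Matrix.toBlocks₁₁]
  · refine ⟨0, fun g => ?_⟩
    show (cotRep G hV g).val (Sum.inl i) (Sum.inr j) = _
    rw [cotRep_val]
    simp
  · refine ⟨0, fun g => ?_⟩
    show (cotRep G hV g).val (Sum.inr i) (Sum.inl j) = _
    rw [cotRep_val]
    simp
  · refine ⟨MvPolynomial.X (Sum.inr (Sum.inl j, Sum.inl i)), fun g => ?_⟩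
    show (cotRep G hV g).val (Sum.inr i) (Sum.inr j) = _
    rw [cotRep_val]
    simp [onV, Matrix.toBlocks₁₁]

/-- The Lie algebra is stable under conjugation. -/
theorem conj_mem_lieAlg {ι : Type} [Fintype ι] [DecidableEq ι] (G : Subgroup (GL ι ℂ))
    (hG : IsZariskiClosed G) (g : GL ι ℂ) (hg : g ∈ G) (y : Matrix ι ι ℂ) (hy : y ∈ lieAlg G) :
    g.val * y * (g⁻¹).val ∈ lieAlg G := by
  rw [G1_exp G hG] at hy ⊢
  intro t
  obtain ⟨a, ha, ea⟩ := hy t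
  refine ⟨g * a * g⁻¹, G.mul_mem (G.mul_mem hg ha) (G.inv_mem hg), ?_⟩
  have h1 : t • (g.val * y * (g⁻¹).val) = g.val * (t • y) * (g⁻¹).val := by
    rw [Matrix.mul_smul, Matrix.smul_mul]
  rw [h1]
  have h2 := Matrix.exp_units_conj g (t • y)
  rw [h2, ← ea]
  rfl

theorem stableSet_fibre (G : Subgroup (GL (Fin n ⊕ Fin m) ℂ)) (hG : IsZariskiClosed G)
    (hV : PreservesFirst G) (χ : Module.Dual ℂ (lieAlg G)) (hχ : χ ∈ charSpace G) :
    StableSet (cotRep G hV) (fibre G χ) := by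
  intro g x hx
  rw [cotRep_mulVec]
  have hx' : moment G x = χ := hx
  show moment G (coAct (g : GL (Fin n ⊕ Fin m) ℂ) x) = χ
  apply LinearMap.ext
  intro y
  have hginv : (g : GL (Fin n ⊕ Fin m) ℂ)⁻¹ ∈ G := G.inv_mem g.2
  have hz := conj_mem_lieAlg G hG _ hginv y.val y.2
  rw [inv_inv] at hz
  set z : lieAlg G := ⟨_, hz⟩ with hzdef
  have h1 : χ z = χ y := by
    apply hχ.1 _ hginv y z
    simp [hzdef]
  rw [← h1, ← hx']
  have hy21 := (G5_block G hV).1 y.val y.2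
  have hg21 := hV g g.2
  have hg21' := hV _ hginv
  have e1 : onV z.val = onV ((g : GL (Fin n ⊕ Fin m) ℂ)⁻¹).val * onV y.val *
      onV (g : GL (Fin n ⊕ Fin m) ℂ).val := by
    show onV (((g : GL (Fin n ⊕ Fin m) ℂ)⁻¹).val * y.val * (g : GL (Fin n ⊕ Fin m) ℂ).val) = _
    rw [(J1_block21 (J1_block21 hg21' hy21).1 hg21).2, (J1_block21 hg21' hy21).2]
  show dotProduct (fun j => coAct (g : GL (Fin n ⊕ Fin m) ℂ) x (Sum.inr j))
    ((onV y.val).mulVec (fun j => coAct (g : GL (Fin n ⊕ Fin m) ℂ) x (Sum.inl j))) =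
    dotProduct (fun j => x (Sum.inr j)) ((onV z.val).mulVec (fun j => x (Sum.inl j)))
  have e2 : (fun j => coAct (g : GL (Fin n ⊕ Fin m) ℂ) x (Sum.inr j)) =
    Matrix.vecMul (fun j => x (Sum.inr j)) (onV ((g : GL (Fin n ⊕ Fin m) ℂ)⁻¹).val) := rfl
  have e3 : (fun j => coAct (g : GL (Fin n ⊕ Fin m) ℂ) x (Sum.inl j)) =
    (onV (g : GL (Fin n ⊕ Fin m) ℂ).val).mulVec (fun j => x (Sum.inl j)) := rfl
  rw [e1, e2, e3, ← Matrix.dotProduct_mulVec, Matrix.mulVec_mulVec, Matrix.mulVec_mulVec]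

end HamRed
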