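import Pool.Agent.HamRed.Base
import Pool.Agent.HamRed.B7

/-!
# MP_3b8a02_ag, J2 : the fibre as a set of solutions of linear equations; faithfulness
-/

open MvPolynomial

namespace HamRed

variable {n m : ℕ}

/-- the matrices through which a basis of the Lie algebra acts on `V` -/
noncomputable def basisMat (G : Subgroup (GL (Fin n ⊕ Fin m) ℂ)) :
    Fin (Module.finrank ℂ (lieAlg G)) → Matrix (Fin n) (Fin n) ℂ :=
  fun i => onV (Module.finBasis ℂ (lieAlg G) i).val

theorem fibre_eq (G : Subgroup (GL (Fin n ⊕ Fin m) ℂ)) (χ : Module.Dual ℂ (lieAlg G)) :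
    fibre G χ = linFibre (basisMat G) (fun i => χ (Module.finBasis ℂ (lieAlg G) i)) := by
  ext x
  constructor
  · intro hx i
    have hx' : moment G x = χ := hx
    rw [← hx']
    rfl
  · intro hx
    show moment G x = χ
    apply (Module.finBasis ℂ (lieAlg G)).ext
    intro i
    exact hx i

theorem sum_basisMat (G : Subgroup (GL (Fin n ⊕ Fin m) ℂ)) (y : lieAlg G) (v : Fin n → ℂ) :
    (onV y.val).mulVec v = evY (basisMat G) v ((Module.finBasis ℂ (lieAlg G)).repr y) := by
  set b := Module.finBasis ℂ (lieAlg G) with hb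
  have h1 : y = ∑ i, b.repr y i • b i := (b.sum_repr y).symm
  have h2 : (onV y.val).mulVec v = ∑ i, b.repr y i • (onV (b i).val).mulVec v := by
    have : ∀ z : lieAlg G, (onV z.val).mulVec v =
        ({ toFun := fun z : lieAlg G => (onV z.val).mulVec v
           map_add' := fun z w => by
            rw [Submodule.coe_add, onV_add, Matrix.add_mulVec]
           map_smul' := fun c z => by
            rw [Submodule.coe_smul, onV_smul, Matrix.smul_mulVec]; rfl } :
          lieAlg G →ₗ[ℂ] (Fin n → ℂ)) z := fun z => rfl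
    rw [this y]
    conv_lhs => rw [h1]
    rw [map_sum]
    refine Finset.sum_congr rfl fun i _ => ?_
    rw [map_smul]
    rfl
  rw [h2]
  simp only [evY, Fintype.linearCombination_apply]
  rfl

theorem finrank_ker_evY (G : Subgroup (GL (Fin n ⊕ Fin m) ℂ)) (v : Fin n → ℂ) :
    Module.finrank ℂ (LinearMap.ker (evY (basisMat G) v)) =
      Module.finrank ℂ (lieStab G v) := by
  set b := Module.finBasis ℂ (lieAlg G) with hb
  symm
  apply LinearEquiv.finrank_eq
  refine LinearEquiv.ofSubmodules b.equivFun _ _ ?_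
  ext a
  rw [Submodule.mem_map_equiv]
  show (onV (b.equivFun.symm a).val).mulVec v = 0 ↔ evY (basisMat G) v a = 0
  rw [sum_basisMat]
  have : ((Module.finBasis ℂ (lieAlg G)).repr (b.equivFun.symm a) :
      Fin (Module.finrank ℂ (lieAlg G)) → ℂ) = a := by
    have := b.equivFun.apply_symm_apply a
    exact this
  rw [this]

theorem heightCond_of_large (G : Subgroup (GL (Fin n ⊕ Fin m) ℂ)) (hL : LargeCondition 2 G) :
    HeightCond (genMat (basisMat G)) := by
  apply B7_heightCond
  intro r h1 h2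
  have h := hL r h1 h2
  have e : {v : Fin n → ℂ | Module.finrank ℂ (LinearMap.ker (evY (basisMat G) v)) = r} =
      stratum G r := by
    ext v
    show _ = _ ↔ _ = _
    rw [finrank_ker_evY]
  rw [e]
  exact h

/-- Elements of `𝔤` acting trivially on `V` vanish. -/
theorem faithful_of_large (G : Subgroup (GL (Fin n ⊕ Fin m) ℂ)) (hL : LargeCondition 2 G) :
    ∀ y ∈ lieAlg G, onV y = 0 → y = 0 := by
  intro y hy h0
  by_contra hne
  -- all stabilisers are nonzero
  have hpos : ∀ v : Fin n → ℂ, 1 ≤ Module.finrank ℂ (lieStab G v) := by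
    intro v
    rw [Nat.one_le_iff_ne_zero]
    intro h
    rw [Submodule.finrank_eq_zero] at h
    have hmem : (⟨y, hy⟩ : lieAlg G) ∈ lieStab G v := by
      show (onV y).mulVec v = 0
      rw [h0, Matrix.zero_mulVec]
    rw [h, Submodule.mem_bot] at hmem
    exact hne (congrArg Subtype.val hmem)
  have hle : ∀ v : Fin n → ℂ, Module.finrank ℂ (lieStab G v) ≤ Module.finrank ℂ (lieAlg G) :=
    fun v => Submodule.finrank_le _
  -- choose nonzero polynomials vanishing on the strata
  have hex : ∀ r : ℕ, ∃ P : MvPolynomial (Fin n) ℂ, P ≠ 0 ∧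
      (1 ≤ r → r ≤ Module.finrank ℂ (lieAlg G) → ∀ v : Fin n → ℂ,
        Module.finrank ℂ (lieStab G v) = r → MvPolynomial.eval v P = 0) := by
    intro r
    by_cases hr : 1 ≤ r ∧ r ≤ Module.finrank ℂ (lieAlg G)
    · have h := hL r hr.1 hr.2
      have hne' : vanishingIdeal ℂ (stratum G r) ≠ ⊥ := by
        intro hb
        unfold codim at h
        rw [hb, Ideal.height_bot] at h
        simp at h
      obtain ⟨P, hP, hP0⟩ := Submodule.exists_mem_ne_zero_of_ne_bot hne'
      refine ⟨P, hP0, fun _ _ v hv => ?_⟩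
      have := hP v hv
      simpa [MvPolynomial.aeval_eq_eval] using this
    · exact ⟨1, one_ne_zero, fun h1 h2 => absurd ⟨h1, h2⟩ hr⟩
  choose P hP0 hP using hex
  have hprod : (∏ r ∈ Finset.Icc 1 (Module.finrank ℂ (lieAlg G)), P r) ≠ 0 :=
    Finset.prod_ne_zero_iff.mpr fun r _ => hP0 r
  apply hprod
  apply MvPolynomial.funext
  intro v
  rw [map_prod, map_zero]
  apply Finset.prod_eq_zero (Finset.mem_Icc.mpr ⟨hpos v, hle v⟩)
  exact hP _ (hpos v) (hle v) v rfl

theorem isClosedSet_linFibre {d : ℕ} (Y : Fin d → Matrix (Fin n) (Fin n) ℂ) (c : Fin d → ℂ) :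
    IsClosedSet (linFibre Y c) := by
  refine ⟨Set.range (fun i : Fin d => (∑ j, MvPolynomial.X (Sum.inr j) *
    ∑ k, C (Y i j k) * MvPolynomial.X (Sum.inl k) - C (c i) : MvPolynomial (Fin n ⊕ Fin n) ℂ)), ?_⟩
  ext x
  show (∀ i, _ = _) ↔ ∀ P ∈ Set.range _, _ = _
  rw [Set.forall_mem_range]
  refine forall_congr' fun i => ?_
  rw [map_sub, map_sum]
  simp only [map_mul, map_sum, eval_X, eval_C, dotProduct, Matrix.mulVec]
  exact sub_eq_zero.symm

end HamRed
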