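import Pool.Agent.HamRed.Defs

/-!
# MP_3b8a02_ag, J4 : generic characters
-/

namespace HamRed

theorem holdsGenerically_of {ι : Type} [Fintype ι] [DecidableEq ι] (G : Subgroup (GL ι ℂ))
    (p : Module.Dual ℂ (lieAlg G) → Prop) (s : Finset (Module.Dual ℂ (charSpace G)))
    (h0 : (0 : Module.Dual ℂ (charSpace G)) ∉ s)
    (h : ∀ χ : charSpace G, (∀ ℓ ∈ s, ℓ χ ≠ 0) → p χ) : HoldsGenerically G p := by
  classical
  -- every functional on `charSpace G` is evaluation at an element of the Lie algebra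
  have hev : ∀ ℓ : Module.Dual ℂ (charSpace G), ∃ y : lieAlg G,
      ∀ χ : charSpace G, ℓ χ = (χ : Module.Dual ℂ (lieAlg G)) y := by
    intro ℓ
    obtain ⟨L, hL⟩ := LinearMap.exists_extend ℓ
    obtain ⟨y, hy⟩ := (Module.evalEquiv ℂ (lieAlg G)).surjective L
    refine ⟨y, fun χ => ?_⟩
    rw [← hL, ← hy]
    rfl
  choose y hy using hev
  -- a character outside all the hyperplanes
  have hex : ∃ θ : charSpace G, ∀ ℓ ∈ s, ℓ θ ≠ 0 := by
    have hv : ∀ ℓ : s, (ℓ : Module.Dual ℂ (charSpace G)) ≠ 0 := by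
      intro ℓ hℓ
      exact h0 (hℓ ▸ ℓ.2)
    obtain ⟨f, hf⟩ := Module.exists_dual_forall_apply_ne_zero (K := ℂ)
      (fun ℓ : s => (ℓ : Module.Dual ℂ (charSpace G))) hv
    obtain ⟨θ, hθ⟩ := (Module.evalEquiv ℂ (charSpace G)).surjective f
    refine ⟨θ, fun ℓ hℓ => ?_⟩
    have := hf ⟨ℓ, hℓ⟩
    rw [← hθ] at this
    exact this
  obtain ⟨θ, hθ⟩ := hex
  refine ⟨s.image y, ⟨θ, θ.2, ?_⟩, ?_⟩
  · intro z hz
    obtain ⟨ℓ, hℓ, rfl⟩ := Finset.mem_image.mp hz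
    rw [← hy]
    exact hθ ℓ hℓ
  · intro χ hχ hs
    refine h ⟨χ, hχ⟩ (fun ℓ hℓ => ?_)
    rw [hy]
    exact hs _ (Finset.mem_image_of_mem y hℓ)

end HamRed
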