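import Pool.Agent.HamRed.J1
import Pool.Agent.HamRed.J2
import Pool.Agent.HamRed.J4
import Pool.Agent.HamRed.B8
import Pool.Agent.HamRed.C0
import Pool.Agent.HamRed.C1
import Pool.Agent.HamRed.C2
import Pool.Agent.HamRed.C3
import Pool.Agent.HamRed.E1
import Pool.Agent.HamRed.E2
import Pool.Agent.HamRed.E5
import Pool.Agent.HamRed.F3
import Pool.Agent.HamRed.G2
import Pool.Agent.HamRed.G3
import Pool.Agent.HamRed.G4
import Pool.Agent.HamRed.G6
import Pool.Agent.HamRed.H
import Pool.Agent.HamRed.I1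

/-!
# MP_3b8a02_ag, J3 : final assembly
-/

open MvPolynomial

namespace HamRed

variable {n m : ℕ}

theorem isNoetherianRing_polyFun {κ : Type} [Finite κ] (X : Set (κ → ℂ)) :
    IsNoetherianRing (polyFun X) := by
  let f : MvPolynomial κ ℂ →+* polyFun X :=
    { toFun := fun P => ⟨fun x => MvPolynomial.eval (x : κ → ℂ) P, P, fun _ => rfl⟩
      map_one' := by
        apply Subtype.ext; funext x; exact map_one _
      map_mul' := fun P Q => by
        apply Subtype.ext; funext x; exact map_mul _ _ _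
      map_zero' := by
        apply Subtype.ext; funext x; exact map_zero _
      map_add' := fun P Q => by
        apply Subtype.ext; funext x; exact map_add _ _ _ }
  have hf : Function.Surjective f := by
    rintro ⟨g, P, hP⟩
    refine ⟨P, ?_⟩
    apply Subtype.ext
    funext x
    exact (hP x).symm
  exact isNoetherianRing_of_surjective _ _ f hf

/-- Restriction of a regular character to a subgroup. -/
theorem isRegChar_restrict {ι : Type} [Fintype ι] [DecidableEq ι] {G H : Subgroup (GL ι ℂ)}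
    (hle : H ≤ G) (ξ : G →* ℂˣ) (hξ : IsRegChar G ξ) :
    IsRegChar H (ξ.comp (Subgroup.inclusion hle)) := by
  obtain ⟨P, hP⟩ := hξ
  exact ⟨P, fun g => hP (Subgroup.inclusion hle g)⟩

/-- The invariant functions as a subring of the ring of functions on the fibre. -/
theorem invRing_le (G : Subgroup (GL (Fin n ⊕ Fin m) ℂ)) (χ : Module.Dual ℂ (lieAlg G)) :
    invRing G χ ≤ polyFun (fibre G χ) := fun _ hf => hf.1

theorem semiInv_key (G : Subgroup (GL (Fin n ⊕ Fin m) ℂ)) (hG : IsZariskiClosed G)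
    (hred : IsLinearlyReductive G) (hV : PreservesFirst G)
    (χ : Module.Dual ℂ (lieAlg G)) (hχ : χ ∈ charSpace G)
    (hdom : IsDomain (polyFun (fibre G χ)))
    (hbad : ∀ x : Fin n ⊕ Fin n → ℂ, moment G x = χ →
          ∀ y : lieAlg G, (onV y.val).mulVec (fun j => x (Sum.inl j)) = 0 →
            ∀ D ∈ charSpace G, D y = 0)
    (ξ : G →* ℂˣ) (hξ : IsRegChar G ξ) :
    ∃ N : ℕ, 0 < N ∧ ∃ (k : ℕ) (q q' : Fin k → polyFun (fibre G χ)),
      (∀ i, IsSemiInv (funRep (cotRep G hV) (stableSet_fibre G hG hV χ hχ))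
        (fun g => (((ξ g ^ N)⁻¹ : ℂˣ) : ℂ)) (q i)) ∧
      (∀ i, IsSemiInv (funRep (cotRep G hV) (stableSet_fibre G hG hV χ hχ))
        (fun g => ((ξ g ^ N : ℂˣ) : ℂ)) (q' i)) ∧
      ∑ i, q i * q' i = 1 := by
  by_cases hfin : (Set.range ξ).Finite
  · -- finite image
    have hfin' : Finite ξ.range := hfin
    refine ⟨Nat.card ξ.range, Nat.card_pos, 1, fun _ => 1, fun _ => 1, ?_, ?_, by simp⟩
    · intro i g
      have h1 : ξ g ^ Nat.card ξ.range = 1 := by
        have := pow_card_eq_one' (x := (⟨ξ g, g, rfl⟩ : ξ.range))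
        exact congrArg Subtype.val this
      simp only [h1, inv_one, Units.val_one, one_smul]
      rfl
    · intro i g
      have h1 : ξ g ^ Nat.card ξ.range = 1 := by
        have := pow_card_eq_one' (x := (⟨ξ g, g, rfl⟩ : ξ.range))
        exact congrArg Subtype.val this
      simp only [h1, Units.val_one, one_smul]
      rfl
  · have hinf : (Set.range ξ).Infinite := hfin
    by_contra hcon
    obtain ⟨D, hD, hDχ⟩ := G3_diff G hG ξ hξ
    obtain ⟨y₀, hy₀, -, t, g, hg, hg1⟩ := H_integral G hG ξ hξ hinf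
    have hDy₀ : D ⟨y₀, hy₀⟩ ≠ 0 := by
      intro h
      apply hg1
      apply Units.ext
      have := hD ⟨y₀, hy₀⟩ t g hg
      rw [this, h, mul_zero, Complex.exp_zero]
      rfl
    have hrel : ∀ η : G →* ℂˣ, IsRegChar G η → (∀ g, ξ g = 1 → η g = 1) →
        ∃ a : ℤ, ∀ g, η g = ξ g ^ a :=
      fun η hη hker => G4_relation G hG ξ D hD ⟨y₀, hy₀⟩ hDy₀ η hη hker
    have hclosed : IsClosedSet (fibre G χ) := by
      rw [fibre_eq]
      exact isClosedSet_linFibre _ _
    obtain ⟨x, hx, hxinf⟩ := F3_star G hG hred (cotRep G hV) (isRationalRep_cotRep G hV) hclosed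
      (stableSet_fibre G hG hV χ hχ) hdom ξ hξ hinf hrel
      (fun N hN h => hcon ⟨N, hN, h⟩)
    obtain ⟨H, hHc, hHG, hHmem, hHlie⟩ := G6_stab G hG hV (fun j => x (Sum.inl j))
    have hξ' := isRegChar_restrict hHG ξ hξ
    have hinf' : (Set.range (ξ.comp (Subgroup.inclusion hHG))).Infinite := by
      refine hxinf.mono ?_
      rintro z ⟨g, hgx, rfl⟩
      have hgH : (g : GL (Fin n ⊕ Fin m) ℂ) ∈ H := by
        rw [hHmem _ g.2]
        rw [cotRep_mulVec] at hgx
        funext j
        exact congrFun hgx (Sum.inl j)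
      exact ⟨⟨g, hgH⟩, rfl⟩
    obtain ⟨y, hy, -, t', g', hg', hg1'⟩ := H_integral H hHc _ hξ' hinf'
    have hyG := (hHlie y).mp hy
    have hDy : D ⟨y, hyG.1⟩ = 0 := hbad x hx ⟨y, hyG.1⟩ hyG.2 D hDχ
    apply hg1'
    apply Units.ext
    have := hD ⟨y, hyG.1⟩ t' (Subgroup.inclusion hHG g') hg'
    show ((ξ (Subgroup.inclusion hHG g') : ℂˣ) : ℂ) = 1
    rw [this, hDy, mul_zero, Complex.exp_zero]

theorem qfactorial_of_good (G : Subgroup (GL (Fin n ⊕ Fin m) ℂ)) (hG : IsZariskiClosed G)
    (hred : IsLinearlyReductive G) (hV : PreservesFirst G)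
    (hL : LargeCondition 2 G)
    (χ : Module.Dual ℂ (lieAlg G)) (hχ : χ ∈ charSpace G)
    (hbad : ∀ x : Fin n ⊕ Fin n → ℂ, moment G x = χ →
          ∀ y : lieAlg G, (onV y.val).mulVec (fun j => x (Sum.inl j)) = 0 →
            ∀ D ∈ charSpace G, D y = 0) :
    IsQFactorial (invRing G χ) := by
  have hstable := stableSet_fibre G hG hV χ hχ
  -- the ring of functions on the fibre
  obtain ⟨-, hdom, hufd, hunits⟩ : (fibre G χ).Nonempty ∧ IsDomain (polyFun (fibre G χ)) ∧
      UniqueFactorizationMonoid (polyFun (fibre G χ)) ∧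
      ∀ u : polyFun (fibre G χ), IsUnit u → ∃ a : ℂ, u = algebraMap ℂ _ a := by
    rw [fibre_eq]
    exact B8_polyFun _ _ (heightCond_of_large G hL)
  haveI := hdom
  haveI := hufd
  haveI : IsNoetherianRing (polyFun (fibre G χ)) := isNoetherianRing_polyFun _
  letI : MulSemiringAction G (polyFun (fibre G χ)) := funAction (cotRep G hV) hstable
  letI : Algebra (invRing G χ) (polyFun (fibre G χ)) :=
    (Subalgebra.inclusion (invRing_le G χ)).toRingHom.toAlgebra
  have hmap : ∀ a : invRing G χ, (algebraMap (invRing G χ) (polyFun (fibre G χ)) a).1 = a.1 :=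
    fun _ => rfl
  have hinj : Function.Injective (algebraMap (invRing G χ) (polyFun (fibre G χ))) := by
    intro a b hab
    apply Subtype.ext
    rw [← hmap a, ← hmap b, hab]
  have hact : ∀ (g : G) (b : polyFun (fibre G χ)) (x : fibre G χ),
      (g • b).1 x = b.1 (ptAct (cotRep G hV) hstable g⁻¹ x) := fun _ _ _ => rfl
  have hact' : ∀ (g : G) (b : polyFun (fibre G χ)),
      g • b = funRep (cotRep G hV) hstable g b := fun _ _ => rfl
  have hD : ∀ b : polyFun (fibre G χ), (∀ g : G, g • b = b) ↔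
      b ∈ Set.range (algebraMap (invRing G χ) (polyFun (fibre G χ))) := by
    intro b
    constructor
    · intro hb
      refine ⟨⟨b.1, b.2, ?_⟩, rfl⟩
      intro g hg x y hxy
      have h1 := hb ⟨g, hg⟩
      have h2 := congrArg (fun c : polyFun (fibre G χ) => c.1 y) h1
      simp only [hact] at h2
      rw [← h2]
      congr 1
      have h3 : ptAct (cotRep G hV) hstable ⟨g, hg⟩ x = y := by
        apply Subtype.ext
        show (cotRep G hV ⟨g, hg⟩).val.mulVec x = y
        rw [cotRep_mulVec, hxy]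
      rw [← h3, ← ptAct_mul, inv_mul_cancel, ptAct_one]
    · rintro ⟨a, rfl⟩ g
      apply Subtype.ext
      funext x
      rw [hact]
      show a.1 _ = a.1 x
      have h3 : (x : Fin n ⊕ Fin n → ℂ) =
          coAct (g : GL (Fin n ⊕ Fin m) ℂ) (ptAct (cotRep G hV) hstable g⁻¹ x) := by
        rw [← cotRep_mulVec G hV g]
        have : ptAct (cotRep G hV) hstable g (ptAct (cotRep G hV) hstable g⁻¹ x) = x := by
          rw [← ptAct_mul, mul_inv_cancel, ptAct_one]
        exact (congrArg Subtype.val this).symm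
      exact (a.2.2 g g.2 _ _ h3).symm
  haveI hDdom : IsDomain (invRing G χ) :=
    Function.Injective.isDomain (algebraMap (invRing G χ) (polyFun (fibre G χ))) hinj
  -- Reynolds operator
  have hrep := E2_compRed G hred (cotRep G hV) (isRationalRep_cotRep G hV) hstable
  obtain ⟨E, hE1, hE2, -, -, -, hE6⟩ := E1_reynolds _ hrep.1
  have hEfix : ∀ b, E b ∈ Set.range (algebraMap (invRing G χ) (polyFun (fibre G χ))) := by
    intro b
    rw [← hD]
    intro g
    exact hE1 g b
  have hEid : ∀ a, E (algebraMap (invRing G χ) (polyFun (fibre G χ)) a) = algebraMap _ _ a := by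
    intro a
    apply hE2
    exact (hD _).mpr ⟨a, rfl⟩
  have hEmul : ∀ (a : invRing G χ) (b : polyFun (fibre G χ)),
      E (algebraMap _ _ a * b) = algebraMap _ _ a * E b := by
    intro a b
    have := hE6 (LinearMap.mulLeft ℂ (algebraMap (invRing G χ) (polyFun (fibre G χ)) a))
      (by
        intro g c
        show algebraMap _ _ a * funRep _ hstable g c = funRep _ hstable g (algebraMap _ _ a * c)
        rw [funRep_mul]
        congr 1
        exact ((hD _).mpr ⟨a, rfl⟩ g).symm) b
    exact this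
  haveI hDnoeth : IsNoetherianRing (invRing G χ) :=
    C0_noetherian hinj E.toAddMonoidHom hEmul hEfix hEid
  haveI hDnorm : IsIntegrallyClosed (invRing G χ) := C1_normal (G := G) hinj hD
  apply C3_qfactorial (G := G) hinj hD
  intro P hPp hPh
  haveI := hPp
  obtain ⟨h, ξ, h0, hh, hsymb⟩ := C2_divisor (G := G) hinj hD P hPh
  refine ⟨h, ξ, h0, hh, hsymb, ?_⟩
  -- the weight as a character
  have hz : ∀ g, ∃ z : ℂ, ((ξ g : (polyFun (fibre G χ))ˣ) : polyFun (fibre G χ)) =
      algebraMap ℂ _ z := fun g => hunits _ (ξ g).isUnit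
  choose z hz using hz
  have hzinj : Function.Injective (algebraMap ℂ (polyFun (fibre G χ))) :=
    FaithfulSMul.algebraMap_injective _ _
  have hzsmul : ∀ g, g • h = z g • h := by
    intro g
    rw [hh g, hz g, Algebra.smul_def]
  have hzmul : ∀ g g', z (g * g') = z g * z g' := by
    intro g g'
    have h1 : (g * g') • h = (z g * z g') • h := by
      rw [mul_smul, hzsmul g']
      have : g • (z g' • h) = z g' • (g • h) := by
        rw [hact', hact', map_smul]
      rw [this, hzsmul g, smul_smul, mul_comm]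
    rw [hzsmul] at h1
    have h2 : (z (g * g') - z g * z g') • h = 0 := by rw [sub_smul, h1, sub_self]
    rcases smul_eq_zero.mp h2 with h3 | h3
    · exact sub_eq_zero.mp h3
    · exact absurd h3 h0
  have hz1 : z 1 = 1 := by
    have h1 : (1 : G) • h = z 1 • h := hzsmul 1
    rw [one_smul] at h1
    have h2 : (1 - z 1) • h = 0 := by rw [sub_smul, one_smul, ← h1, sub_self]
    rcases smul_eq_zero.mp h2 with h3 | h3
    · exact (sub_eq_zero.mp h3).symm
    · exact absurd h3 h0
  let zhom : G →* ℂ := { toFun := z, map_one' := hz1, map_mul' := hzmul }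
  let ζ : G →* ℂˣ := zhom.toHomUnits
  have hζ : ∀ g, ((ζ g : ℂˣ) : ℂ) = z g := fun _ => rfl
  have hζreg : IsRegChar G ζ := by
    refine E5_regular G (cotRep G hV) (isRationalRep_cotRep G hV) hstable ζ h h0 ?_
    intro g
    rw [← hact', hzsmul g]
    rfl
  obtain ⟨N, hN, k, q, q', hq, hq', hsum⟩ := semiInv_key G hG hred hV χ hχ hdom hbad ζ hζreg
  refine ⟨N, hN, k, q, q', ?_, ?_, hsum⟩
  · intro i g
    have h1 : g • q i = (((ζ g ^ N)⁻¹ : ℂˣ) : ℂ) • q i := hq i g
    rw [h1, hz g, Algebra.smul_def, ← mul_assoc, ← map_pow, ← map_mul]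
    have h2 : z g ^ N * (((ζ g ^ N)⁻¹ : ℂˣ) : ℂ) = 1 := by
      rw [← hζ, ← Units.val_pow_eq_pow_val, ← Units.val_mul, mul_inv_cancel, Units.val_one]
    rw [h2, map_one, one_mul]
  · intro i g
    have h1 : g • q' i = ((ζ g ^ N : ℂˣ) : ℂ) • q' i := hq' i g
    rw [h1, hz g, Algebra.smul_def, Units.val_pow_eq_pow_val, hζ, map_pow]

theorem main (n m : ℕ) (G : Subgroup (GL (Fin n ⊕ Fin m) ℂ)) (hG : IsZariskiClosed G)
    (hred : IsLinearlyReductive G) (hV : PreservesFirst G) (hL : LargeCondition 2 G) :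
    HoldsGenerically G (fun χ => IsQFactorial (invRing G χ)) := by
  obtain ⟨k, δ, τ, hδ, hτ, hτ', hspan⟩ := G2_span G hG hred hV (faithful_of_large G hL)
  obtain ⟨s, hs0, hs⟩ := I1_generic G hG hV k δ τ hδ hτ hτ' hspan
  refine holdsGenerically_of G _ s hs0 (fun χ hχs => ?_)
  apply qfactorial_of_good G hG hred hV hL χ.1 χ.2
  intro x hx y hy D hD
  have h1 := hs χ hχs x hx y hy
  have h2 := hspan D hD
  have h3 : Submodule.span ℂ (Set.range τ) ≤ LinearMap.ker (Module.Dual.eval ℂ (lieAlg G) y) := by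
    rw [Submodule.span_le]
    rintro _ ⟨i, rfl⟩
    exact h1 i
  exact h3 h2

end HamRed
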